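import Pool.Agent.Helper225.GSys

set_option autoImplicit false

namespace Pool.Agent.Helper225.G

namespace J4182

def pop5 (x : ℕ) : ℕ := x % 2 + x / 2 % 2 + x / 4 % 2 + x / 8 % 2 + x / 16 % 2

def Wb (lim : ℕ) : ℕ → ℕ → ℕ → Bool
  | 0, a, _ => Nat.beq a 0
  | f + 1, a, p => (!(Nat.beq (p % 32) 0) || Nat.ble (pop5 a) lim) && Wb lim f (a / 2) (p / 2)

def Nb1 (h p : ℕ) : Bool := !(Nat.beq (p % 32) 0) || Nat.ble (pop5 h) 1

def Nb (h p : ℕ) : Bool :=
  Nb1 (2 * h) (2 * p) && (Nb1 (4 * h) (4 * p) && (Nb1 (8 * h) (8 * p) && Nb1 (16 * h) (16 * p)))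

def Lb (lim h p u : ℕ) : Bool := Wb lim 19 (Nat.lor h u) p && Nb h p

def fr (m i : ℕ) : Bool := Nat.beq (m / Nat.pow 2 i % 2) 0

def bt (m i : ℕ) : ℕ := Nat.lor m (Nat.pow 2 i)

def allb : ℕ → (ℕ → Bool) → Bool
  | 0, _ => true
  | n + 1, f => f n && allb n f

def exb : List ℕ → (ℕ → Bool) → Bool
  | [], _ => false
  | n :: l, f => f n || exb l f

def Vz (h p u y z : ℕ) : Bool :=
  !(Nat.beq z y) && (fr (Nat.lor (Nat.lor h u) p) z && Lb 2 (bt h y) (bt p z) u)

def Vb (h p u : ℕ) : Bool :=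
  Nat.ble (Nat.lor h u) 16383 && (Lb 3 h p u && allb 18 (fun y =>
    !(fr (Nat.lor (Nat.lor h u) p) y) || (Lb 3 h p (bt u y) ||
      exb [y + 1, y - 1, y + 2, y - 2, y + 3, y - 3, y + 4, y - 4] (fun z => Vz h p u y z))))

def Ab : ℕ → ℕ → ℕ → Bool
  | 0, h, p => Nat.ble h 1023 && (Vb h p 0 && allb 14 (fun u =>
      !(fr (Nat.lor h p) u) || Vb h p (Nat.pow 2 u)))
  | n + 1, h, p => Nat.ble h 1023 && (Vb h p 0 && allb 14 (fun u =>
      !(fr (Nat.lor h p) u) || (Vb h p (Nat.pow 2 u) ||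
        exb [u - 1, u + 1, u - 2, u + 2, u - 3, u + 3] (fun d =>
          !(Nat.beq d u) && (fr (Nat.lor h p) d && Ab n (bt h u) (bt p d))))))

theorem ab1 : Ab 3 24 0 = true := by decide +kernel
theorem ab2 : Ab 3 40 0 = true := by decide +kernel
theorem ab3 : Ab 3 72 0 = true := by decide +kernel
theorem ab4 : Ab 3 136 0 = true := by decide +kernel

def S (m : ℕ) : Set ℤ := {x | 0 ≤ x ∧ m.testBit x.toNat = true}

theorem mem_S (m i : ℕ) : ((i : ℤ) ∈ S m) ↔ m.testBit i = true := by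
  simp [S]

theorem S_nonneg {m : ℕ} {x : ℤ} (h : x ∈ S m) : 0 ≤ x := h.1

theorem S_zero : S 0 = ∅ := by
  ext x; simp [S]

theorem S_pow (i : ℕ) : S (Nat.pow 2 i) = {(i : ℤ)} := by
  ext x
  have : Nat.pow 2 i = 2 ^ i := rfl
  simp only [S, this, Nat.testBit_two_pow, Set.mem_ofPred_eq, Set.mem_singleton_iff, decide_eq_true_eq]
  omega

theorem S_lor (a b : ℕ) : S (Nat.lor a b) = S a ∪ S b := by
  ext x
  have : Nat.lor a b = a ||| b := rfl
  simp only [S, this, Nat.testBit_or, Set.mem_ofPred_eq, Set.mem_union, Bool.or_eq_true]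
  tauto

theorem S_bt (m i : ℕ) : S (bt m i) = insert (i : ℤ) (S m) := by
  unfold bt
  rw [S_lor, S_pow, Set.union_singleton]

theorem fr_iff (m i : ℕ) : fr m i = true ↔ (i : ℤ) ∉ S m := by
  rw [mem_S, fr, Nat.testBit_eq_decide_div_mod_eq]
  have : Nat.pow 2 i = 2 ^ i := rfl
  rw [this, Nat.beq_eq]
  simp only [decide_eq_true_eq]
  rcases Nat.mod_two_eq_zero_or_one (m / 2 ^ i) with h | h <;> rw [h] <;> simp

theorem S_lt {m j : ℕ} (hm : m < 2 ^ j) {x : ℤ} (hx : x ∈ S m) : x < j := by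
  obtain ⟨h0, h1⟩ := hx
  by_contra hcon
  push Not at hcon
  have : m < 2 ^ x.toNat := lt_of_lt_of_le hm (Nat.pow_le_pow_right (by norm_num) (by omega))
  rw [Nat.testBit_lt_two_pow this] at h1
  exact absurd h1 (by simp)

/-- window contents -/
def Win (s : ℤ) (A : Set ℤ) (x : ℕ) : Prop := ∀ t : ℕ, t < 5 → (s + t ∈ A ↔ x.testBit t = true)

theorem Win.blk {s : ℤ} {P : Set ℤ} {x : ℕ} (h : Win s P x) (hb : ¬ Bl1 s P) : x % 32 = 0 := by
  have h1 : ∀ t : ℕ, t < 5 → x / 2 ^ t % 2 ≠ 1 := by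
    intro t ht h2
    apply hb
    refine ⟨s + t, by omega, by omega, ?_⟩
    rw [h t ht, Nat.testBit_eq_decide_div_mod_eq]
    simpa using h2
  have a0 := h1 0 (by norm_num)
  have a1 := h1 1 (by norm_num)
  have a2 := h1 2 (by norm_num)
  have a3 := h1 3 (by norm_num)
  have a4 := h1 4 (by norm_num)
  norm_num at a0 a1 a2 a3 a4
  omega

theorem c1_eq (s : ℤ) (H : Set ℤ) [DecidablePred fun t : ℕ => s + (t : ℤ) ∈ H] :
    c1 s H = ((Finset.range 5).filter (fun t : ℕ => s + (t : ℤ) ∈ H)).card := by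
  unfold c1
  symm
  refine Finset.card_bij (fun (t:ℕ) _ => (t:ℤ)) ?_ ?_ ?_
  · intro a ha
    simp only [Finset.mem_filter, Finset.pure_def, Finset.bind_def, Finset.mem_sup, Finset.mem_singleton] at ha ⊢
    exact ⟨⟨a, ha.1, rfl⟩, ha.2⟩
  · intro a _ b _ h
    exact Int.ofNat.inj h
  · intro b hb
    simp only [Finset.mem_filter, Finset.pure_def, Finset.bind_def, Finset.mem_sup, Finset.mem_singleton] at hb ⊢
    obtain ⟨⟨a, h1, rfl⟩, h2⟩ := hb
    exact ⟨a, ⟨h1, h2⟩, rfl⟩

theorem Win.cnt {s : ℤ} {A : Set ℤ} {x : ℕ} (h : Win s A x) : c1 s A = pop5 x := by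
  classical
  rw [c1_eq, Finset.card_filter]
  have e : ∀ t ∈ Finset.range 5, (if s + (t : ℤ) ∈ A then 1 else 0) = x / 2 ^ t % 2 := by
    intro t ht
    have h1 := h t (Finset.mem_range.1 ht)
    rw [Nat.testBit_eq_decide_div_mod_eq] at h1
    simp only [decide_eq_true_eq] at h1
    split_ifs with h2
    · exact (h1.1 h2).symm
    · have : x / 2 ^ t % 2 ≠ 1 := fun h3 => h2 (h1.2 h3)
      omega
  have e2 : (∑ t ∈ Finset.range 5, if s + (t : ℤ) ∈ A then 1 else 0) = ∑ t ∈ Finset.range 5, x / 2 ^ t % 2 :=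
    Finset.sum_congr rfl e
  rw [e2]
  simp [Finset.sum_range_succ, pop5]

theorem win_nat (n m : ℕ) : Win (n : ℤ) (S m) (m / 2 ^ n) := by
  intro t _
  have : (n : ℤ) + t = ((n + t : ℕ) : ℤ) := by push_cast; rfl
  rw [this, mem_S, Nat.testBit_div_two_pow, Nat.add_comm]

theorem win_neg (j m : ℕ) : Win (-(j : ℤ)) (S m) (2 ^ j * m) := by
  intro t _
  rw [Nat.testBit_two_pow_mul]
  simp only [S, Set.mem_ofPred_eq, Bool.and_eq_true, decide_eq_true_eq, ge_iff_le]
  constructor
  · rintro ⟨h1, h2⟩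
    refine ⟨by omega, ?_⟩
    convert h2 using 2
    omega
  · rintro ⟨h1, h2⟩
    refine ⟨by omega, ?_⟩
    convert h2 using 2
    omega

theorem win_far {s : ℤ} (hs : s ≤ -5) (m : ℕ) : Win s (S m) 0 := by
  intro t ht
  simp only [S, Set.mem_ofPred_eq, Nat.zero_testBit]
  constructor
  · rintro ⟨h1, _⟩; omega
  · intro h; exact absurd h (by simp)

theorem Wb_sound (lim : ℕ) (f : ℕ) : ∀ (a p : ℕ), Wb lim f a p = true → ∀ n, p / 2 ^ n % 32 = 0 →
    pop5 (a / 2 ^ n) ≤ lim := by
  induction f with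
  | zero =>
    intro a p h n _
    have : a = 0 := Nat.eq_of_beq_eq_true h
    subst this
    simp [pop5]
  | succ f ih =>
    intro a p h n hn
    rw [Wb, Bool.and_eq_true] at h
    cases n with
    | zero =>
      simp only [pow_zero, Nat.div_one] at hn ⊢
      have h1 := h.1
      rw [hn] at h1
      simpa using h1
    | succ n =>
      have := ih (a / 2) (p / 2) h.2 n (by rw [Nat.div_div_eq_div_mul, ← pow_succ']; exact hn)
      rwa [Nat.div_div_eq_div_mul, ← pow_succ'] at this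

def L' (lim : ℕ) (P H U : Set ℤ) : Prop :=
  ∀ s : ℤ, ¬ Bl1 s P → (0 ≤ s → c1 s (H ∪ U) ≤ lim) ∧ (s < 0 → c1 s H ≤ 1)

theorem Nb1_sound {h p : ℕ} (hN : Nb1 h p = true) (hp : p % 32 = 0) : pop5 h ≤ 1 := by
  unfold Nb1 at hN
  rw [hp] at hN
  simpa using hN

theorem Lb_sound {lim h p u : ℕ} (hL : Lb lim h p u = true) : L' lim (S p) (S h) (S u) := by
  unfold Lb at hL
  rw [Bool.and_eq_true] at hL
  intro s hs
  constructor
  · intro h0
    obtain ⟨n, rfl⟩ := Int.eq_ofNat_of_zero_le h0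
    have h1 := (win_nat n p).blk hs
    have h2 := Wb_sound lim 19 _ _ hL.1 n h1
    rw [← S_lor, (win_nat n _).cnt]
    exact h2
  · intro h0
    by_cases h5 : s ≤ -5
    · rw [(win_far h5 h).cnt]; simp [pop5]
    · have hN := hL.2
      unfold Nb at hN
      simp only [Bool.and_eq_true] at hN
      obtain ⟨n1, n2, n3, n4⟩ := hN
      have : s = -((1 : ℕ) : ℤ) ∨ s = -((2 : ℕ) : ℤ) ∨ s = -((3 : ℕ) : ℤ) ∨ s = -((4 : ℕ) : ℤ) := by
        push_cast; omega
      rcases this with rfl | rfl | rfl | rfl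
      · rw [(win_neg 1 h).cnt]; exact Nb1_sound n1 ((win_neg 1 p).blk hs)
      · rw [(win_neg 2 h).cnt]; exact Nb1_sound n2 ((win_neg 2 p).blk hs)
      · rw [(win_neg 3 h).cnt]; exact Nb1_sound n3 ((win_neg 3 p).blk hs)
      · rw [(win_neg 4 h).cnt]; exact Nb1_sound n4 ((win_neg 4 p).blk hs)

theorem c1_mono {s : ℤ} {A B : Set ℤ} (h : ∀ x, s ≤ x → x < s + 5 → x ∈ A → x ∈ B) : c1 s A ≤ c1 s B := by
  classical
  rw [c1_eq, c1_eq]
  apply Finset.card_le_card
  intro t ht
  simp only [Finset.mem_filter, Finset.mem_range] at ht ⊢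
  exact ⟨ht.1, h _ (by omega) (by omega) ht.2⟩

theorem c1_empty (s : ℤ) : c1 s ∅ = 0 := by
  classical
  rw [c1_eq]
  simp

theorem c1_insert (s y : ℤ) (A : Set ℤ) : c1 s (insert y A) ≤ c1 s A + 1 := by
  classical
  rw [c1_eq, c1_eq]
  have h1 : ((Finset.range 5).filter (fun t : ℕ => s + (t : ℤ) ∈ insert y A)) ⊆
      insert (y - s).toNat ((Finset.range 5).filter (fun t : ℕ => s + (t : ℤ) ∈ A)) := by
    intro t ht
    simp only [Finset.mem_filter, Finset.mem_range, Set.mem_insert_iff] at ht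
    simp only [Finset.mem_insert, Finset.mem_filter, Finset.mem_range]
    rcases ht.2 with h | h
    · left; omega
    · right; exact ⟨ht.1, h⟩
  exact (Finset.card_le_card h1).trans (Finset.card_insert_le _ _)

theorem V0_of {P H U : Set ℤ} (h : L' 2 P H U) : Vq 0 P H U := by
  simp only [Vq]
  refine ⟨fun s hs => ⟨fun h0 => ((h s hs).1 h0).trans (by norm_num), (h s hs).2⟩, ?_⟩
  intro y _ _ _ s hs
  refine ⟨fun h0 => ?_, (h s hs).2⟩
  have h1 := (h s hs).1 h0
  have h2 : H ∪ insert y U = insert y (H ∪ U) := Set.union_insert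
  rw [h2]
  exact (c1_insert s y _).trans (by omega)

theorem Lq_sub {P H U U' : Set ℤ} (h : Lq P H U) (hU : ∀ x, 0 ≤ x → x ∈ U' → x ∈ H ∪ U) : Lq P H U' := by
  intro s hs
  refine ⟨fun h0 => ?_, (h s hs).2⟩
  refine le_trans (c1_mono ?_) ((h s hs).1 h0)
  intro x hx _ hx'
  rcases hx' with hx' | hx'
  · exact Or.inl hx'
  · exact hU x (by omega) hx'

theorem c1_far (s u : ℤ) (hs : s ≤ u ∧ u < s + 5) (H0 : Set ℤ)
    (hfar : ∀ x ∈ H0, x + 5 ≤ u ∨ u + 5 ≤ x) (A : Set ℤ) (a b c : ℤ)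
    (hA : ∀ x ∈ A, x ∈ H0 ∨ x = a ∨ x = b ∨ x = c) : c1 s A ≤ 3 := by
  have h1 : c1 s A ≤ c1 s (insert a (insert b (insert c ∅))) := by
    refine c1_mono ?_
    intro x h1 h2 hx
    rcases hA x hx with h3 | h3 | h3 | h3
    · rcases hfar x h3 with h4 | h4 <;> omega
    · exact Or.inl h3
    · exact Or.inr (Or.inl h3)
    · exact Or.inr (Or.inr (Or.inl h3))
  have h2 := c1_insert s a (insert b (insert c ∅))
  have h3 := c1_insert s b (insert c ∅)
  have h4 := c1_insert s c ∅
  have h5 := c1_empty s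
  omega

theorem Lq_u {P H U : Set ℤ} (h : Lq P H U) (u : ℤ) (H0 : Set ℤ)
    (hfar : ∀ x ∈ H0, x + 5 ≤ u ∨ u + 5 ≤ x) (a b c : ℤ)
    (hA : ∀ x ∈ H ∪ insert u U, x ∈ H0 ∨ x = a ∨ x = b ∨ x = c) : Lq P H (insert u U) := by
  intro s hs
  refine ⟨fun h0 => ?_, (h s hs).2⟩
  by_cases hu : s ≤ u ∧ u < s + 5
  · exact c1_far s u hu H0 hfar _ a b c hA
  · refine le_trans (c1_mono ?_) ((h s hs).1 h0)
    intro x h1 h2 hx
    rcases hx with hx | hx | hx
    · exact Or.inl hx
    · omega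
    · exact Or.inr hx

theorem V1_neg {P H : Set ℤ} (h : Vq 1 P H ∅) (u : ℤ) (hu : u < 0) : Vq 1 P H {u} := by
  simp only [Vq] at h ⊢
  refine ⟨Lq_sub h.1 ?_, ?_⟩
  · intro x h0 hx
    rw [Set.mem_singleton_iff] at hx; omega
  · intro y hP hH _
    rcases h.2 y hP hH (by simp) with h1 | ⟨z, z0, zP, zH, _, zy, h1, h2⟩
    · left
      refine Lq_sub h1 ?_
      intro x h0 hx
      rcases hx with hx | hx
      · exact Or.inr (Or.inl hx)
      · rw [Set.mem_singleton_iff] at hx; omega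
    · right
      refine ⟨z, z0, zP, zH, ?_, zy, Lq_sub h1 ?_, ?_⟩
      · rw [Set.mem_singleton_iff]; omega
      · intro x h0 hx
        rw [Set.mem_singleton_iff] at hx; omega
      · intro y' a1 a2 _
        refine Lq_sub (h2 y' a1 a2 (by simp)) ?_
        intro x h0 hx
        rcases hx with hx | hx
        · exact Or.inr (Or.inl hx)
        · rw [Set.mem_singleton_iff] at hx; omega

theorem V1_far {P H : Set ℤ} (h : Vq 1 P H ∅) (u : ℤ) (hfar : ∀ x ∈ H, x + 5 ≤ u ∨ u + 5 ≤ x) :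
    Vq 1 P H {u} := by
  simp only [Vq] at h ⊢
  have hsing : ({u} : Set ℤ) = insert u ∅ := by simp
  have hcomm : ∀ y : ℤ, (insert y {u} : Set ℤ) = insert u (insert y ∅) := by
    intro y
    rw [hsing, Set.insert_comm]
  refine ⟨?_, ?_⟩
  · rw [hsing]
    refine Lq_u h.1 u H hfar u u u ?_
    intro x hx
    rcases hx with hx | hx | hx
    · exact Or.inl hx
    · exact Or.inr (Or.inl hx)
    · exact absurd hx (by simp)
  · intro y hP hH hy
    have caseL : Lq P H (insert y ∅) → Lq P H (insert y {u}) := by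
      intro h1
      rw [hcomm]
      refine Lq_u h1 u H hfar u y u ?_
      intro x hx
      rcases hx with hx | hx | hx | hx
      · exact Or.inl hx
      · exact Or.inr (Or.inl hx)
      · exact Or.inr (Or.inr (Or.inl hx))
      · exact absurd hx (by simp)
    by_cases hL : Lq P H (insert y ∅)
    · exact Or.inl (caseL hL)
    rcases h.2 y hP hH (by simp) with h1 | ⟨z, z0, zP, zH, _, zy, h1, h2⟩
    · exact absurd h1 hL
    · right
      have hzu : z ≠ u := by
        rintro rfl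
        apply hL
        intro s hs
        refine ⟨fun h0 => ?_, (h.1 s hs).2⟩
        by_cases hz : s ≤ z ∧ z < s + 5
        · exact c1_far s z hz H hfar _ y y y (by
            intro x hx
            rcases hx with hx | hx | hx
            · exact Or.inl hx
            · exact Or.inr (Or.inl hx)
            · exact absurd hx (by simp))
        · have hb : ¬ Bl1 s (insert z P) := by
            rintro ⟨t, t1, t2, t3 | t3⟩
            · omega
            · exact hs ⟨t, t1, t2, t3⟩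
          have := (h1 s hb).1 h0
          refine le_trans (c1_mono ?_) this
          intro x _ _ hx
          rcases hx with hx | hx | hx
          · exact Or.inl (Or.inr hx)
          · exact Or.inl (Or.inl hx)
          · exact absurd hx (by simp)
      refine ⟨z, z0, zP, zH, by simpa using hzu, zy, ?_, ?_⟩
      · rw [hsing]
        refine Lq_u h1 u H hfar u y y ?_
        intro x hx
        rcases hx with (hx | hx) | hx | hx
        · exact Or.inr (Or.inr (Or.inl hx))
        · exact Or.inl hx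
        · exact Or.inr (Or.inl hx)
        · exact absurd hx (by simp)
      · intro y' a1 a2 _
        rw [hcomm]
        refine Lq_u (h2 y' a1 a2 (by simp)) u H hfar u y y' ?_
        intro x hx
        rcases hx with (hx | hx) | hx | hx | hx
        · exact Or.inr (Or.inr (Or.inl hx))
        · exact Or.inl hx
        · exact Or.inr (Or.inl hx)
        · exact Or.inr (Or.inr (Or.inr hx))
        · exact absurd hx (by simp)

theorem allb_iff (n : ℕ) (f : ℕ → Bool) (h : allb n f = true) : ∀ i < n, f i = true := by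
  induction n with
  | zero => intro i hi; omega
  | succ n ih =>
    rw [allb, Bool.and_eq_true] at h
    intro i hi
    rcases Nat.lt_succ_iff_lt_or_eq.1 hi with h1 | h1
    · exact ih h.2 i h1
    · rw [h1]; exact h.1

theorem exb_iff (l : List ℕ) (f : ℕ → Bool) (h : exb l f = true) : ∃ i, f i = true := by
  induction l with
  | nil => exact absurd h (by simp [exb])
  | cons a l ih =>
    rw [exb, Bool.or_eq_true] at h
    rcases h with h | h
    · exact ⟨a, h⟩
    · exact ih h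

theorem Vb_sound {h p u : ℕ} (hV : Vb h p u = true) : Vq 1 (S p) (S h) (S u) := by
  unfold Vb at hV
  simp only [Bool.and_eq_true] at hV
  obtain ⟨hle, hL, hall⟩ := hV
  have hLq : Lq (S p) (S h) (S u) := Lb_sound hL
  simp only [Vq]
  refine ⟨hLq, ?_⟩
  intro y hyP hyH hyU
  by_cases hy0 : y < 0
  · left
    refine Lq_sub hLq ?_
    intro x h0 hx
    rcases hx with hx | hx
    · omega
    · exact Or.inr hx
  obtain ⟨n, rfl⟩ := Int.eq_ofNat_of_zero_le (not_lt.1 hy0)
  by_cases hn : n < 18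
  · have h1 := allb_iff 18 _ hall n hn
    have h2 : fr (Nat.lor (Nat.lor h u) p) n = true := by
      rw [fr_iff, S_lor, S_lor]
      rintro ((h | h) | h)
      · exact hyH h
      · exact hyU h
      · exact hyP h
    rw [h2] at h1
    simp only [Bool.not_true, Bool.false_or, Bool.or_eq_true] at h1
    rcases h1 with h1 | h1
    · left
      have := Lb_sound h1
      rw [S_bt] at this
      exact this
    · right
      obtain ⟨z, hz⟩ := exb_iff _ _ h1
      unfold Vz at hz
      simp only [Bool.and_eq_true, Bool.not_eq_true'] at hz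
      obtain ⟨z1, z2, z3⟩ := hz
      rw [fr_iff, S_lor, S_lor] at z2
      have z4 := V0_of (Lb_sound z3)
      rw [S_bt, S_bt] at z4
      refine ⟨z, by omega, fun h => z2 (Or.inr h), fun h => z2 (Or.inl (Or.inl h)),
        fun h => z2 (Or.inl (Or.inr h)), ?_, z4⟩
      intro h
      have : z = n := by exact_mod_cast h
      rw [this] at z1
      simp at z1
  · left
    have hlt : Nat.lor h u < 2 ^ 14 :=
      lt_of_le_of_lt (Nat.le_of_ble_eq_true hle) (by norm_num)
    have hfar : ∀ x ∈ S (Nat.lor h u), x + 5 ≤ (n : ℤ) ∨ (n : ℤ) + 5 ≤ x := by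
      intro x hx
      have := S_lt hlt hx
      left; push_cast at this; omega
    refine Lq_u hLq n _ hfar n n n ?_
    intro x hx
    rw [S_lor]
    rcases hx with hx | hx | hx
    · exact Or.inl (Or.inl hx)
    · exact Or.inr (Or.inl hx)
    · exact Or.inl (Or.inr hx)

theorem V1_all {h p : ℕ} (h10 : Nat.ble h 1023 = true) (h1 : Vq 1 (S p) (S h) ∅) (u : ℤ)
    (hu : u < 0 ∨ 14 ≤ u) : Vq 1 (S p) (S h) {u} := by
  rcases hu with hu | hu
  · exact V1_neg h1 u hu
  · refine V1_far h1 u ?_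
    intro x hx
    have hlt : h < 2 ^ 10 := by
      have := Nat.le_of_ble_eq_true h10
      norm_num; omega
    have := S_lt hlt hx
    left; push_cast at this; omega

theorem Ab_sound (n : ℕ) : ∀ {h p : ℕ}, Ab n h p = true → Aq n (S p) (S h) := by
  induction n with
  | zero =>
    intro h p hA
    rw [Ab] at hA
    simp only [Bool.and_eq_true] at hA
    obtain ⟨h10, hV, hall⟩ := hA
    have hV1 := Vb_sound hV
    rw [S_zero] at hV1
    rw [Aq]
    refine ⟨hV1, ?_⟩
    intro u uP uH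
    by_cases hu : u < 0 ∨ 14 ≤ u
    · exact V1_all h10 hV1 u hu
    · obtain ⟨m, rfl⟩ := Int.eq_ofNat_of_zero_le (by omega : 0 ≤ u)
      have h1 := allb_iff 14 _ hall m (by omega)
      have h2 : fr (Nat.lor h p) m = true := by
        rw [fr_iff, S_lor]
        rintro (h | h)
        · exact uH h
        · exact uP h
      rw [h2] at h1
      simp only [Bool.not_true, Bool.false_or] at h1
      have := Vb_sound h1
      rwa [S_pow] at this
  | succ n ih =>
    intro h p hA
    rw [Ab] at hA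
    simp only [Bool.and_eq_true] at hA
    obtain ⟨h10, hV, hall⟩ := hA
    have hV1 := Vb_sound hV
    rw [S_zero] at hV1
    rw [Aq]
    refine ⟨hV1, ?_⟩
    intro u uP uH
    by_cases hu : u < 0 ∨ 14 ≤ u
    · left; exact V1_all h10 hV1 u hu
    · obtain ⟨m, rfl⟩ := Int.eq_ofNat_of_zero_le (by omega : 0 ≤ u)
      have h1 := allb_iff 14 _ hall m (by omega)
      have h2 : fr (Nat.lor h p) m = true := by
        rw [fr_iff, S_lor]
        rintro (h | h)
        · exact uH h
        · exact uP h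
      rw [h2] at h1
      simp only [Bool.not_true, Bool.false_or, Bool.or_eq_true] at h1
      rcases h1 with h1 | h1
      · left
        have := Vb_sound h1
        rwa [S_pow] at this
      · right
        obtain ⟨d, hd⟩ := exb_iff _ _ h1
        simp only [Bool.and_eq_true, Bool.not_eq_true'] at hd
        obtain ⟨d1, d2, d3⟩ := hd
        rw [fr_iff, S_lor] at d2
        have d4 := ih d3
        rw [S_bt, S_bt] at d4
        refine ⟨d, by omega, fun h => d2 (Or.inr h), fun h => d2 (Or.inl h), ?_, d4⟩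
        intro h
        have : d = m := by exact_mod_cast h
        rw [this] at d1
        simp at d1

end J4182

/-- TARGET -/
theorem gadget1D (k : ℤ) (hk1 : 1 ≤ k) (hk4 : k ≤ 4) : Aq 3 ∅ {3, 3 + k} := by
  have key : ∀ j : ℕ, J4182.Ab 3 (J4182.bt (Nat.pow 2 (3 + j)) 3) 0 = true → Aq 3 ∅ {3, 3 + (j : ℤ)} := by
    intro j hj
    have := J4182.Ab_sound 3 hj
    rw [J4182.S_zero, J4182.S_bt, J4182.S_pow] at this
    push_cast at this
    exact this
  have h : k = ((1 : ℕ) : ℤ) ∨ k = ((2 : ℕ) : ℤ) ∨ k = ((3 : ℕ) : ℤ) ∨ k = ((4 : ℕ) : ℤ) := by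
    push_cast; omega
  rcases h with rfl | rfl | rfl | rfl
  · exact key 1 J4182.ab1
  · exact key 2 J4182.ab2
  · exact key 3 J4182.ab3
  · exact key 4 J4182.ab4

end Pool.Agent.Helper225.G
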