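import Pool.Agent.Helper225.GSys

set_option autoImplicit false

namespace Pool.Agent.Helper225.G

namespace L10




theorem l_dir8 {e : Cell} (he : IsDir e ∨ IsDir (-e.1, -e.2)) :
    (e.1 = 1 ∧ e.2 = 0) ∨ (e.1 = 0 ∧ e.2 = 1) ∨ (e.1 = 1 ∧ e.2 = 1) ∨ (e.1 = 1 ∧ e.2 = -1) ∨
    (e.1 = -1 ∧ e.2 = 0) ∨ (e.1 = 0 ∧ e.2 = -1) ∨ (e.1 = -1 ∧ e.2 = -1) ∨
      (e.1 = -1 ∧ e.2 = 1) := by
  unfold IsDir at he
  simp only [Prod.ext_iff] at he
  omega

theorem l_inj {o e : Cell} (he : IsDir e ∨ IsDir (-e.1, -e.2)) {s t : ℤ}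
    (h : lc o e s = lc o e t) : s = t := by
  simp only [lc, Prod.mk.injEq] at h
  obtain ⟨h1, h2⟩ := h
  rcases l_dir8 he with ⟨ha, hb⟩ | ⟨ha, hb⟩ | ⟨ha, hb⟩ | ⟨ha, hb⟩ | ⟨ha, hb⟩ | ⟨ha, hb⟩ |
    ⟨ha, hb⟩ | ⟨ha, hb⟩ <;> rw [ha] at h1 <;> rw [hb] at h2 <;> omega

theorem l_winj {a d : Cell} (hd : IsDir d) {i j : ℕ} (h : wn a d i = wn a d j) : i = j := by
  simp only [wn, Prod.mk.injEq] at h
  obtain ⟨h1, h2⟩ := h
  rcases l_dir8 (Or.inl hd) with ⟨ha, hb⟩ | ⟨ha, hb⟩ | ⟨ha, hb⟩ | ⟨ha, hb⟩ | ⟨ha, hb⟩ |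
    ⟨ha, hb⟩ | ⟨ha, hb⟩ | ⟨ha, hb⟩ <;> rw [ha] at h1 <;> rw [hb] at h2 <;> omega

/-- two cells of a window on the line: the window is contained in the line -/
theorem l_two {o e a d : Cell} (he : IsDir e ∨ IsDir (-e.1, -e.2)) (hd : IsDir d) {i j : ℕ}
    {s t : ℤ} (hij : i ≠ j) (h1 : wn a d i = lc o e s) (h2 : wn a d j = lc o e t) :
    ∃ r : ℤ, (∀ k : ℕ, wn a d k = lc o e (r + k)) ∨ (∀ k : ℕ, wn a d k = lc o e (r + 4 - k)) := by
  simp only [lc, wn, Prod.mk.injEq] at h1 h2 ⊢
  obtain ⟨h1a, h1b⟩ := h1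
  obtain ⟨h2a, h2b⟩ := h2
  rcases hd with hd | hd | hd | hd <;> subst hd <;>
  rcases l_dir8 he with ⟨ha, hb⟩ | ⟨ha, hb⟩ | ⟨ha, hb⟩ | ⟨ha, hb⟩ | ⟨ha, hb⟩ |
    ⟨ha, hb⟩ | ⟨ha, hb⟩ | ⟨ha, hb⟩ <;> rw [ha] at h1a h2a <;> rw [hb] at h1b h2b <;>
  simp only [mul_one, mul_zero, mul_neg, add_zero] at h1a h1b h2a h2b <;>
  first
  | (exfalso; omega)
  | (refine ⟨s - i, Or.inl fun k => ?_⟩; rw [ha, hb]; constructor <;> push_cast <;> linarith)
  | (refine ⟨s + i - 4, Or.inr fun k => ?_⟩; rw [ha, hb]; constructor <;> push_cast <;> linarith)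

theorem l_c1 (s : ℤ) (H : Set ℤ) [DecidablePred fun k : ℕ => s + (k : ℤ) ∈ H] :
    c1 s H = ((Finset.range 5).filter (fun k : ℕ => s + (k : ℤ) ∈ H)).card := by
  classical
  unfold c1
  rw [← Finset.card_map (⟨fun k : ℕ => (k : ℤ), Nat.cast_injective⟩ : ℕ ↪ ℤ)]
  congr 1
  ext t
  simp only [Finset.mem_filter, Finset.bind_def, Finset.pure_def, Finset.mem_sup,
    Finset.mem_map, Finset.mem_singleton, Function.Embedding.coeFn_mk]
  constructor
  · rintro ⟨⟨v, hv, rfl⟩, h2⟩
    exact ⟨v, ⟨hv, h2⟩, rfl⟩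
  · rintro ⟨v, ⟨hv, h2⟩, rfl⟩
    exact ⟨⟨v, hv, rfl⟩, h2⟩

theorem l_union (a d : Cell) (S T : Set Cell) : cnt a d (S ∪ T) ≤ cnt a d S + cnt a d T := by
  classical
  unfold cnt
  refine le_trans (Finset.card_le_card ?_) (Finset.card_union_le _ _)
  intro t ht
  simp only [Finset.mem_filter, Finset.mem_union, Set.mem_union] at ht ⊢
  tauto

theorem l_mono {a d : Cell} {S T : Set Cell} (h : ∀ k < 5, wn a d k ∈ S → wn a d k ∈ T) :
    cnt a d S ≤ cnt a d T := by
  classical
  unfold cnt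
  refine Finset.card_le_card ?_
  intro t ht
  simp only [Finset.mem_filter, Finset.mem_range] at ht ⊢
  exact ⟨ht.1, h t ht.1 ht.2⟩

theorem l_zero {a d : Cell} {S : Set Cell} (h : ¬ Meets a d S) : cnt a d S = 0 := by
  classical
  unfold cnt
  rw [Finset.card_eq_zero, Finset.filter_eq_empty_iff]
  intro t ht hS
  exact h ⟨t, Finset.mem_range.1 ht, hS⟩

theorem l_one {a d : Cell} {S : Set Cell}
    (h : ∀ i < 5, ∀ j < 5, wn a d i ∈ S → wn a d j ∈ S → i = j) : cnt a d S ≤ 1 := by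
  classical
  unfold cnt
  rw [Finset.card_le_one]
  intro i hi j hj
  simp only [Finset.mem_filter, Finset.mem_range] at hi hj
  exact h i hi.1 j hj.1 hi.2 hj.2

theorem l_sub {a d : Cell} (hd : IsDir d) {S : Set Cell} (h : S.Subsingleton) :
    cnt a d S ≤ 1 :=
  l_one fun _ _ _ _ hi hj => l_winj hd (h hi hj)

theorem l_ind {a d : Cell} {S : Set Cell} {p : Prop} (h1 : cnt a d S ≤ 1)
    (h : Meets a d S → p) : cnt a d S ≤ ind p := by
  classical
  unfold ind
  split_ifs with hp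
  · exact h1
  · rw [l_zero fun hm => hp (h hm)]

theorem l_cnt {o e a d : Cell} {r g : ℤ}
    (hr : (∀ k : ℕ, wn a d k = lc o e (r + k)) ∨ (∀ k : ℕ, wn a d k = lc o e (r + 4 - k)))
    (S : Set Cell) : cnt a d S = c1 (r - g) (tr o e g S) := by
  classical
  rw [l_c1]
  unfold cnt tr
  rcases hr with hr | hr
  · congr 1
    apply Finset.filter_congr
    intro k _
    rw [hr k, Set.mem_ofPred_eq]
    have : r - g + (k : ℤ) + g = r + k := by ring
    rw [this]
  · simp only [Finset.card_filter, Finset.sum_range_succ, Finset.sum_range_zero, hr,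
      Set.mem_ofPred_eq]
    have e0 : r + 4 - ((0 : ℕ) : ℤ) = r - g + ((4 : ℕ) : ℤ) + g := by push_cast; ring
    have e1 : r + 4 - ((1 : ℕ) : ℤ) = r - g + ((3 : ℕ) : ℤ) + g := by push_cast; ring
    have e2 : r + 4 - ((2 : ℕ) : ℤ) = r - g + ((2 : ℕ) : ℤ) + g := by push_cast; ring
    have e3 : r + 4 - ((3 : ℕ) : ℤ) = r - g + ((1 : ℕ) : ℤ) + g := by push_cast; ring
    have e4 : r + 4 - ((4 : ℕ) : ℤ) = r - g + ((0 : ℕ) : ℤ) + g := by push_cast; ring
    rw [e0, e1, e2, e3, e4]
    ring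

theorem l_hA {o e a d : Cell} {r : ℤ}
    (hr : (∀ k : ℕ, wn a d k = lc o e (r + k)) ∨ (∀ k : ℕ, wn a d k = lc o e (r + 4 - k)))
    {k : ℕ} (hk : k < 5) : ∃ t, r ≤ t ∧ t < r + 5 ∧ wn a d k = lc o e t := by
  rcases hr with hr | hr
  · exact ⟨r + k, by omega, by omega, hr k⟩
  · exact ⟨r + 4 - k, by omega, by omega, hr k⟩

theorem l_hB {o e a d : Cell} {r : ℤ}
    (hr : (∀ k : ℕ, wn a d k = lc o e (r + k)) ∨ (∀ k : ℕ, wn a d k = lc o e (r + 4 - k)))
    {t : ℤ} (h1 : r ≤ t) (h2 : t < r + 5) : ∃ k < 5, wn a d k = lc o e t := by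
  rcases hr with hr | hr
  · refine ⟨(t - r).toNat, by omega, ?_⟩
    rw [hr, Int.toNat_of_nonneg (by omega)]
    congr 1
    ring
  · refine ⟨(r + 4 - t).toNat, by omega, ?_⟩
    rw [hr, Int.toNat_of_nonneg (by omega)]
    congr 1
    ring

theorem l_nbl {o e a d : Cell} {r g : ℤ}
    (hr : (∀ k : ℕ, wn a d k = lc o e (r + k)) ∨ (∀ k : ℕ, wn a d k = lc o e (r + 4 - k)))
    {P : Set Cell} (h : ¬ Meets a d P) : ¬ Bl1 (r - g) (tr o e g P) := by
  rintro ⟨t, h1, h2, h3⟩
  obtain ⟨k, hk, hkt⟩ := l_hB (t := t + g) hr (by omega) (by omega)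
  exact h ⟨k, hk, by rw [hkt]; exact h3⟩

/-- a window with a cell off the board has no inner cell -/
theorem l_inner {a d : Cell} (hd : IsDir d) {i j : ℕ} (hi : i < 5) (hj : j < 5)
    (h : ¬ onB (wn a d i)) : wn a d j ∉ Inner := by
  intro hI
  apply h
  simp only [onB, wn, Inner, Set.mem_ofPred_eq] at hI ⊢
  obtain ⟨h1, h2, h3, h4⟩ := hI
  rcases l_dir8 (Or.inl hd) with ⟨ha, hb⟩ | ⟨ha, hb⟩ | ⟨ha, hb⟩ | ⟨ha, hb⟩ | ⟨ha, hb⟩ |
    ⟨ha, hb⟩ | ⟨ha, hb⟩ | ⟨ha, hb⟩ <;> rw [ha] at h1 h2 ⊢ <;> rw [hb] at h3 h4 ⊢ <;>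
    refine ⟨?_, ?_, ?_, ?_⟩ <;> omega

theorem l_Lq {P H U U' : Set ℤ} (h : ∀ t : ℤ, 0 ≤ t → (t ∈ U' ↔ t ∈ U)) (hL : Lq P H U) :
    Lq P H U' := by
  classical
  intro s hs
  refine ⟨fun h0 => ?_, (hL s hs).2⟩
  have h1 : c1 s (H ∪ U') = c1 s (H ∪ U) := by
    rw [l_c1, l_c1]
    congr 1
    apply Finset.filter_congr
    intro k _
    rw [Set.mem_union, Set.mem_union, h (s + k) (by omega)]
  rw [h1]
  exact (hL s hs).1 h0

theorem l_VL {m : ℕ} {P H U : Set ℤ} (h : Vq m P H U) : Lq P H U := by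
  cases m with
  | zero => exact h.1
  | succ m => exact h.1

theorem l_Vq {U U' : Set ℤ} (h : ∀ t : ℤ, 0 ≤ t → (t ∈ U' ↔ t ∈ U)) :
    ∀ (m : ℕ) (P H : Set ℤ), Vq m P H U → Vq m P H U' := by
  intro m
  induction m with
  | zero =>
    intro P H hV
    refine ⟨l_Lq h hV.1, fun y hyP hyH hyU => ?_⟩
    by_cases hy : y ∈ U
    · have hy0 : y < 0 := by
        by_contra hc
        exact hyU ((h y (by omega)).2 hy)
      refine l_Lq (U := U') (fun t ht => ?_) (l_Lq h hV.1)
      rw [Set.mem_insert_iff]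
      constructor
      · rintro (h1 | h1)
        · omega
        · exact h1
      · exact Or.inr
    · refine l_Lq (U := insert y U) (fun t ht => ?_) (hV.2 y hyP hyH hy)
      rw [Set.mem_insert_iff, Set.mem_insert_iff, h t ht]
  | succ m ih =>
    intro P H hV
    refine ⟨l_Lq h hV.1, fun y hyP hyH hyU => ?_⟩
    by_cases hy : y ∈ U
    · have hy0 : y < 0 := by
        by_contra hc
        exact hyU ((h y (by omega)).2 hy)
      left
      refine l_Lq (U := U') (fun t ht => ?_) (l_Lq h hV.1)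
      rw [Set.mem_insert_iff]
      constructor
      · rintro (h1 | h1)
        · omega
        · exact h1
      · exact Or.inr
    · rcases hV.2 y hyP hyH hy with hL | ⟨z, hz0, hzP, hzH, hzU, hzy, hV'⟩
      · left
        refine l_Lq (U := insert y U) (fun t ht => ?_) hL
        rw [Set.mem_insert_iff, Set.mem_insert_iff, h t ht]
      · right
        exact ⟨z, hz0, hzP, hzH, fun hc => hzU ((h z hz0).1 hc), hzy, ih _ _ hV'⟩

theorem l_AV {n : ℕ} {P H : Set ℤ} (h : Aq n P H) : Vq 1 P H ∅ := by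
  cases n with
  | zero => exact h.1
  | succ n => exact h.1

theorem l_trins {o e : Cell} (he : IsDir e ∨ IsDir (-e.1, -e.2)) (g t : ℤ) (S : Set Cell) :
    tr o e g (insert (lc o e (t + g)) S) = insert t (tr o e g S) := by
  ext s
  simp only [tr, Set.mem_ofPred_eq, Set.mem_insert_iff]
  constructor
  · rintro (h | h)
    · left
      have := l_inj he h
      omega
    · exact Or.inr h
  · rintro (h | h)
    · left
      rw [h]
    · exact Or.inr h

theorem l_trempty (o e : Cell) (g : ℤ) : tr o e g ∅ = ∅ := rfl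

theorem l_OLins {o e : Cell} {g t : ℤ} {S : Set Cell} (ht : 0 ≤ t) (h : OnLine o e g S) :
    OnLine o e g (insert (lc o e (t + g)) S) := by
  intro c hc
  rcases hc with hc | hc
  · exact ⟨t + g, by omega, hc⟩
  · exact h c hc

theorem l_blkB {j X : ℕ} {c : Cell} (h : c ∈ blk j X) : onB c := h.1

theorem l_noFour {FX BAD XXm XW : ℕ} {eX o e : Cell} {g : ℤ} (hg : 0 ≤ g)
    (hbad : ∀ c, onB c → c ∉ Inner → c ∈ blk 0 BAD) (hl : LineOK FX BAD XXm XW eX o e)
    (P H U1 U2 : Set Cell) (E : ℕ) (hP : OnLine o e g P) (hH : OnLine o e g H)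
    (hLq : Lq (tr o e g P) (tr o e g H) (tr o e g (U1 ∪ U2)))
    (hs1 : U1.Subsingleton) (hs2 : U2.Subsingleton)
    (h1 : U1 ⊆ {c | ¬ onB c} ∪ blk 0 XXm ∪ blk 2 E) (h2 : U2 ⊆ {c | ¬ onB c} ∪ blk 0 XXm ∪ blk 3 E)
    (hE1 : EntryOK FX 0 E) (hE2 : XOK XW eX E)
    (hv1 : blk 1 E ⊆ visOf BAD) :
    NoFour (blk 0 E ∪ P) (blk 1 E ∪ (H ∪ (U1 ∪ U2))) := by
  intro a d hd hm
  have hmE : ¬ Meets a d (blk 0 E) := fun ⟨t, ht, h⟩ => hm ⟨t, ht, Or.inl h⟩
  have hmP : ¬ Meets a d P := fun ⟨t, ht, h⟩ => hm ⟨t, ht, Or.inr h⟩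
  have hdir := hl.dir
  -- cells of the half line are not visible
  have hK : ∀ t : ℤ, 0 ≤ t → lc o e t ∉ blk 1 E := by
    intro t ht hc
    exact (hv1 hc).2 (hl.bad t ht hc.1).1
  -- windows not completely on the board
  have hoff : (∃ k < 5, ¬ onB (wn a d k)) → ¬ Meets a d (blk 1 E) := by
    rintro ⟨i, hi, hoi⟩ ⟨j, hj, hc⟩
    exact (hv1 hc).2 (hbad _ hc.1 (l_inner hd hi hj hoi))
  have hU1 : cnt a d U1 ≤ 1 := l_sub hd hs1
  have hU2 : cnt a d U2 ≤ 1 := l_sub hd hs2
  have htot : cnt a d (blk 1 E ∪ (H ∪ (U1 ∪ U2))) ≤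
      cnt a d (blk 1 E) + (cnt a d H + (cnt a d U1 + cnt a d U2)) := by
    refine le_trans (l_union _ _ _ _) (Nat.add_le_add_left ?_ _)
    refine le_trans (l_union _ _ _ _) (Nat.add_le_add_left ?_ _)
    exact l_union _ _ _ _
  have hY : ¬ Meets a d (blk 0 0) := by
    rintro ⟨t, _, h⟩
    have := h.2
    simp at this
  by_cases hline : ∃ r : ℤ, (∀ k : ℕ, wn a d k = lc o e (r + k)) ∨
      (∀ k : ℕ, wn a d k = lc o e (r + 4 - k))
  · obtain ⟨r, hr⟩ := hline
    have hbl := l_nbl (g := g) hr hmP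
    obtain ⟨hq1, hq2⟩ := hLq _ hbl
    by_cases hrg : g ≤ r
    · refine le_trans (l_mono (T := H ∪ (U1 ∪ U2)) fun k hk hc => ?_) ?_
      · rcases hc with hc | hc
        · obtain ⟨t, ht1, ht2, ht3⟩ := l_hA hr hk
          rw [ht3] at hc
          exact absurd hc (hK t (by omega))
        · exact hc
      · rw [l_cnt (g := g) hr]
        exact hq1 (by omega)
    · have hH1 : cnt a d H ≤ 1 := by
        rw [l_cnt (g := g) hr]
        exact hq2 (by omega)
      by_cases hv : Meets a d (blk 1 E)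
      · have honB : ∀ k < 5, onB (wn a d k) := by
          intro k hk
          by_contra hc
          exact hoff ⟨k, hk, hc⟩ hv
        have hr0 : r < 0 := by
          by_contra hc
          obtain ⟨k, hk, hv⟩ := hv
          obtain ⟨t, ht1, ht2, ht3⟩ := l_hA hr hk
          rw [ht3] at hv
          exact hK t (by omega) hv
        have hXX : ∀ k < 5, wn a d k ∉ blk 0 XXm := by
          intro k hk hc
          obtain ⟨t, ht0, ht⟩ := hl.xx _ hc
          obtain ⟨t', ht1', ht2', ht3'⟩ := l_hA hr hk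
          have htt : t' = t := l_inj hdir (ht3'.symm.trans ht)
          rcases hl.xw with hw | hw
          · rw [hw] at hc
            exact hc
          · have honB' : ∀ k : ℕ, k < 5 → onB (lc o e (r + k)) := by
              intro j hj
              obtain ⟨i, hi, hij⟩ := l_hB hr (t := r + j) (by omega) (by omega)
              rw [← hij]
              exact honB i hi
            rcases hw r (by omega) hr0 honB' with ⟨hw1, hw2⟩ | ⟨hw1, hw2⟩
            · have hwn : ∀ k : ℕ, wn (lc o e r) eX k = lc o e (r + k) := by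
                intro j
                subst hw2
                simp only [wn, lc, Prod.mk.injEq]
                constructor <;> ring
              obtain ⟨i, hi, hvi⟩ := hv
              obtain ⟨ti, hti1, hti2, hti3⟩ := l_hA hr hi
              obtain ⟨j, hj, hcj⟩ := hE2 _ hw1 (fun k hk => by rw [hwn]; exact honB' k hk)
                ⟨(ti - r).toNat, by omega, by
                  rw [hwn, Int.toNat_of_nonneg (by omega), add_sub_cancel, ← hti3]
                  exact hvi⟩
              rw [hwn] at hcj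
              obtain ⟨i', hi', hij'⟩ := l_hB hr (t := r + j) (by omega) (by omega)
              rw [← hij'] at hcj
              exact hmE ⟨i', hi', hcj⟩
            · have hwn : ∀ k : ℕ, wn (lc o e (r + 4)) eX k = lc o e (r + 4 - k) := by
                intro j
                subst hw2
                simp only [wn, lc, Prod.mk.injEq]
                constructor <;> ring
              obtain ⟨i, hi, hvi⟩ := hv
              obtain ⟨ti, hti1, hti2, hti3⟩ := l_hA hr hi
              obtain ⟨j, hj, hcj⟩ := hE2 _ hw1 (fun k hk => by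
                  rw [hwn]
                  have := honB' (4 - k) (by omega)
                  have e1 : r + 4 - (k : ℤ) = r + ((4 - k : ℕ) : ℤ) := by omega
                  rw [e1]
                  exact this)
                ⟨(r + 4 - ti).toNat, by omega, by
                  rw [hwn, Int.toNat_of_nonneg (by omega), sub_sub_cancel, ← hti3]
                  exact hvi⟩
              rw [hwn] at hcj
              obtain ⟨i', hi', hij'⟩ := l_hB hr (t := r + 4 - j) (by omega) (by omega)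
              rw [← hij'] at hcj
              exact hmE ⟨i', hi', hcj⟩
        have hen := hE1 a d hd honB hmE
        have i1 : cnt a d H ≤ ind (Meets a d (blk 0 FX) ∧ ¬ Meets a d (blk 0 0)) := by
          refine l_ind hH1 ?_
          rintro ⟨k, hk, hc⟩
          refine ⟨⟨k, hk, ?_⟩, hY⟩
          obtain ⟨t, ht, hct⟩ := hH _ hc
          have hB := honB k hk
          rw [hct] at hB ⊢
          exact (hl.bad t (by omega) hB).2
        have i2 : cnt a d U1 ≤ ind (Meets a d (blk 2 E)) := by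
          refine l_ind hU1 ?_
          rintro ⟨k, hk, hc⟩
          refine ⟨k, hk, ?_⟩
          rcases h1 hc with (h | h) | h
          · exact absurd (honB k hk) h
          · exact absurd h (hXX k hk)
          · exact h
        have i3 : cnt a d U2 ≤ ind (Meets a d (blk 3 E)) := by
          refine l_ind hU2 ?_
          rintro ⟨k, hk, hc⟩
          refine ⟨k, hk, ?_⟩
          rcases h2 hc with (h | h) | h
          · exact absurd (honB k hk) h
          · exact absurd h (hXX k hk)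
          · exact h
        omega
      · have := l_zero hv
        omega
  · -- at most one cell of the window on the line
    have hone : ∀ i < 5, ∀ j < 5, ∀ s t : ℤ, wn a d i = lc o e s → wn a d j = lc o e t → i = j := by
      intro i _ j _ s t h3 h4
      by_contra hij
      exact hline (l_two hdir hd hij h3 h4)
    have hH1 : cnt a d H ≤ 1 := by
      refine l_one fun i hi j hj h3 h4 => ?_
      obtain ⟨s, _, hs⟩ := hH _ h3
      obtain ⟨t, _, ht⟩ := hH _ h4
      exact hone i hi j hj s t hs ht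
    by_cases honB : ∀ k < 5, onB (wn a d k)
    · set K : Set Cell := {c | ∃ t : ℤ, 0 ≤ t ∧ c = lc o e t} with hKdef
      have hen := hE1 a d hd honB hmE
      have i1 : cnt a d (H ∪ ((U1 ∪ U2) ∩ K)) ≤
          ind (Meets a d (blk 0 FX) ∧ ¬ Meets a d (blk 0 0)) := by
        have hsub : H ∪ ((U1 ∪ U2) ∩ K) ⊆ K := by
          rintro c (hc | hc)
          · obtain ⟨t, ht, hct⟩ := hH _ hc
            exact ⟨t, by omega, hct⟩
          · exact hc.2
        refine l_ind (l_one fun i hi j hj h3 h4 => ?_) ?_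
        · obtain ⟨s, _, hs⟩ := hsub h3
          obtain ⟨t, _, ht⟩ := hsub h4
          exact hone i hi j hj s t hs ht
        · rintro ⟨k, hk, hc⟩
          refine ⟨⟨k, hk, ?_⟩, hY⟩
          obtain ⟨t, ht, hct⟩ := hsub hc
          have hB := honB k hk
          rw [hct] at hB ⊢
          exact (hl.bad t ht hB).2
      have i2 : cnt a d (U1 \ K) ≤ ind (Meets a d (blk 2 E)) := by
        refine l_ind (l_sub hd (hs1.anti Set.sdiff_subset)) ?_
        rintro ⟨k, hk, hc⟩
        refine ⟨k, hk, ?_⟩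
        rcases h1 hc.1 with (h | h) | h
        · exact absurd (honB k hk) h
        · exact absurd (hl.xx _ h) hc.2
        · exact h
      have i3 : cnt a d (U2 \ K) ≤ ind (Meets a d (blk 3 E)) := by
        refine l_ind (l_sub hd (hs2.anti Set.sdiff_subset)) ?_
        rintro ⟨k, hk, hc⟩
        refine ⟨k, hk, ?_⟩
        rcases h2 hc.1 with (h | h) | h
        · exact absurd (honB k hk) h
        · exact absurd (hl.xx _ h) hc.2
        · exact h
      have htot2 : cnt a d (blk 1 E ∪ (H ∪ (U1 ∪ U2))) ≤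
          cnt a d (blk 1 E) + (cnt a d (H ∪ ((U1 ∪ U2) ∩ K)) +
            (cnt a d (U1 \ K) + cnt a d (U2 \ K))) := by
        refine le_trans ?_ (le_trans (l_union _ _ _ _) (Nat.add_le_add_left
          (le_trans (l_union _ _ _ _) (Nat.add_le_add_left (l_union _ _ _ _) _)) _))
        refine l_mono fun k _ hc => ?_
        by_cases hk : wn a d k ∈ K
        · rcases hc with hc | hc | hc | hc
          · exact Or.inl hc
          · exact Or.inr (Or.inl (Or.inl hc))
          · exact Or.inr (Or.inl (Or.inr ⟨Or.inl hc, hk⟩))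
          · exact Or.inr (Or.inl (Or.inr ⟨Or.inr hc, hk⟩))
        · rcases hc with hc | hc | hc | hc
          · exact Or.inl hc
          · exact Or.inr (Or.inl (Or.inl hc))
          · exact Or.inr (Or.inr (Or.inl ⟨hc, hk⟩))
          · exact Or.inr (Or.inr (Or.inr ⟨hc, hk⟩))
      omega
    · push Not at honB
      have := l_zero (hoff honB)
      omega

/-- TARGET: the system with hidden stones on a line. The data fields are fixed; only the proofs
are missing. -/
noncomputable def lineHS (FX BAD XXm XW : ℕ) (eX o e : Cell) (g : ℤ) (hg : 0 ≤ g)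
    (hbad : ∀ c, onB c → c ∉ Inner → c ∈ blk 0 BAD) (hl : LineOK FX BAD XXm XW eX o e) : HS where
  Vis := visOf BAD
  XX := blk 0 XXm
  HH := blk 0 FX
  EOK := fun E => EntryOK FX 0 E ∧ XOK XW eX E
  M := 1
  A := fun n P H => P.Finite ∧ H.Finite ∧ OnLine o e g P ∧ OnLine o e g H ∧
    Aq n (tr o e g P) (tr o e g H)
  V := fun m P H U => P.Finite ∧ H.Finite ∧ U.Finite ∧ OnLine o e g P ∧ OnLine o e g H ∧
    Vq m (tr o e g P) (tr o e g H) (tr o e g U)
  L := fun P H U => P.Finite ∧ H.Finite ∧ U.Finite ∧ OnLine o e g P ∧ OnLine o e g H ∧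
    Lq (tr o e g P) (tr o e g H) (tr o e g U)
  eok_congr := by
    intro E E' h ⟨h1, h2⟩
    have e0 := h 0 (by norm_num)
    have e1 := h 1 (by norm_num)
    have e2 := h 2 (by norm_num)
    have e3 := h 3 (by norm_num)
    refine ⟨?_, ?_⟩
    · intro a d hd hon hm
      rw [← e0] at hm
      rw [← e1, ← e2, ← e3]
      exact h1 a d hd hon hm
    · intro p hp hon hw
      rw [← e0]
      rw [← e1] at hw
      exact h2 p hp hon hw
  vis_onB := fun c hc => hc.1
  xx_vis := by
    intro c hc hv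
    obtain ⟨t, ht, hct⟩ := hl.xx c hc
    have hB := hv.1
    apply hv.2
    rw [hct] at hB ⊢
    exact (hl.bad t ht hB).1
  L_fin := fun P H U h => ⟨h.1, h.2.1, h.2.2.1⟩
  L_vis := by
    rintro P H U ⟨_, _, _, hP, _⟩ c hc hv
    obtain ⟨t, ht, hct⟩ := hP c hc
    have hB := hv.1
    apply hv.2
    rw [hct] at hB ⊢
    exact (hl.bad t (by omega) hB).1
  L_hid := by
    rintro P H U ⟨_, _, _, _, hH, _⟩ c hc hB
    obtain ⟨t, ht, hct⟩ := hH c hc
    rw [hct] at hB ⊢
    exact (hl.bad t (by omega) hB).2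
  V_L := fun m P H U ⟨h1, h2, h3, h4, h5, h6⟩ => ⟨h1, h2, h3, h4, h5, l_VL h6⟩
  A_V := fun n P H ⟨h1, h2, h3, h4, h5⟩ => ⟨h1, h2, Set.finite_empty, h3, h4, l_AV h5⟩
  A_step := by
    rintro n P H ⟨hPf, hHf, hP, hH, hA⟩ u huP huH
    by_cases hu : ∃ t : ℤ, 0 ≤ t ∧ u = lc o e (t + g)
    · obtain ⟨t, ht, rfl⟩ := hu
      have htr : tr o e g {lc o e (t + g)} = {t} := by
        have := l_trins (o := o) hl.dir g t ∅
        rw [l_trempty] at this
        simpa using this
      cases n with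
      | zero =>
        left
        refine ⟨hPf, hHf, Set.finite_singleton _, hP, hH, ?_⟩
        rw [htr]
        exact hA.2 t huP huH
      | succ n =>
        rcases hA.2 t huP huH with hV | ⟨z, hz0, hzP, hzH, hzt, hA'⟩
        · left
          refine ⟨hPf, hHf, Set.finite_singleton _, hP, hH, ?_⟩
          rw [htr]
          exact hV
        · right
          refine ⟨n, lc o e (z + g), rfl, hzP, hzH, fun hc => hzt ?_, fun hv => ?_,
            hPf.insert _, hHf.insert _, l_OLins hz0 hP, l_OLins ht hH, ?_⟩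
          · have := l_inj hl.dir hc
            omega
          · exact hv.2 (hl.bad _ (by omega) hv.1).1
          · rw [l_trins hl.dir, l_trins hl.dir]
            exact hA'
    · left
      refine ⟨hPf, hHf, Set.finite_singleton _, hP, hH, ?_⟩
      refine l_Vq (U := ∅) (fun t ht => ?_) _ _ _ (l_AV hA)
      constructor
      · intro hc
        exact absurd ⟨t, ht, (Set.mem_singleton_iff.1 hc).symm⟩ hu
      · intro hc
        exact absurd hc (Set.notMem_empty _)
  V_step := by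
    rintro m P H U ⟨hPf, hHf, hUf, hP, hH, hV⟩ y hyP hyH hyU
    by_cases hy : ∃ t : ℤ, 0 ≤ t ∧ y = lc o e (t + g)
    · obtain ⟨t, ht, rfl⟩ := hy
      cases m with
      | zero =>
        left
        refine ⟨hPf, hHf, hUf.insert _, hP, hH, ?_⟩
        rw [l_trins hl.dir]
        exact hV.2 t hyP hyH hyU
      | succ m =>
        rcases hV.2 t hyP hyH hyU with hL | ⟨z, hz0, hzP, hzH, hzU, hzt, hV'⟩
        · left
          refine ⟨hPf, hHf, hUf.insert _, hP, hH, ?_⟩
          rw [l_trins hl.dir]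
          exact hL
        · right
          refine ⟨m, lc o e (z + g), rfl, hzP, hzH, hzU, fun hc => hzt ?_, fun hv => ?_,
            hPf.insert _, hHf.insert _, hUf, l_OLins hz0 hP, l_OLins ht hH, ?_⟩
          · have := l_inj hl.dir hc
            omega
          · exact hv.2 (hl.bad _ (by omega) hv.1).1
          · rw [l_trins hl.dir, l_trins hl.dir]
            exact hV'
    · left
      refine ⟨hPf, hHf, hUf.insert _, hP, hH, ?_⟩
      refine l_Lq (U := tr o e g U) (fun t ht => ?_) (l_VL hV)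
      constructor
      · rintro (hc | hc)
        · exact absurd ⟨t, ht, hc.symm⟩ hy
        · exact hc
      · exact Or.inr
  noFour := by
    rintro P H U1 U2 E ⟨_, _, _, hP, hH, hLq⟩ hs1 hs2 h1 h2 ⟨hE1, hE2⟩ _ hv1
    exact l_noFour hg hbad hl P H U1 U2 E hP hH hLq hs1 hs2 h1 h2 hE1 hE2 hv1

end L10

end Pool.Agent.Helper225.G
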