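import Pool.Agent.Helper225.GSys

set_option autoImplicit false

namespace Pool.Agent.Helper225.G

namespace S9



theorem wn_inj {a d : Cell} (hd : IsDir d) {t t' : ℕ} (h : wn a d t = wn a d t') : t = t' := by
  have h1 : a.1 + (t : ℤ) * d.1 = a.1 + (t' : ℤ) * d.1 := congrArg Prod.fst h
  have h2 : a.2 + (t : ℤ) * d.2 = a.2 + (t' : ℤ) * d.2 := congrArg Prod.snd h
  rcases hd with hd | hd | hd | hd <;> rw [hd] at h1 h2 <;> simp at h1 h2 <;> omega

theorem cnt_union' (a d : Cell) (A B : Set Cell) : cnt a d (A ∪ B) ≤ cnt a d A + cnt a d B := by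
  classical
  unfold cnt
  refine le_trans (Finset.card_le_card ?_) (Finset.card_union_le _ _)
  intro t ht
  simp only [Finset.mem_filter, Finset.mem_union, Set.mem_union] at ht ⊢
  tauto

theorem cnt_zero' {a d : Cell} {S : Set Cell} (h : ∀ t, t < 5 → wn a d t ∉ S) :
    cnt a d S = 0 := by
  classical
  unfold cnt
  rw [Finset.card_eq_zero, Finset.filter_eq_empty_iff]
  intro t ht
  exact h t (Finset.mem_range.1 ht)

theorem cnt_sub {a d : Cell} (hd : IsDir d) {U : Set Cell} (hU : U.Subsingleton) :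
    cnt a d U ≤ 1 := by
  classical
  unfold cnt
  rw [Finset.card_le_one]
  intro t ht t' ht'
  rw [Finset.mem_filter] at ht ht'
  exact wn_inj hd (hU ht.2 ht'.2)

theorem ind_true' {p : Prop} (h : p) : ind p = 1 := by
  unfold ind
  rw [if_pos h]

theorem ind_le (p : Prop) : ind p ≤ 1 := by
  unfold ind
  split_ifs <;> norm_num

theorem cnt_U {a d : Cell} (hd : IsDir d) (ho : ∀ t < 5, onB (wn a d t)) {U R : Set Cell}
    (hU : U.Subsingleton) (hR : U ⊆ {c | ¬ onB c} ∪ ∅ ∪ R) : cnt a d U ≤ ind (Meets a d R) := by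
  by_cases h : Meets a d R
  · rw [ind_true' h]
    exact cnt_sub hd hU
  · rw [cnt_zero']
    · exact Nat.zero_le _
    · intro t ht hcon
      rcases hR hcon with (h1 | h1) | h1
      · exact h1 (ho t ht)
      · exact h1
      · exact h ⟨t, ht, h1⟩

theorem cnt_H {FX Y : ℕ} {H : Set Cell} (hH : SimpleOK FX Y H) {a d : Cell} (hd : IsDir d)
    (ho : ∀ t < 5, onB (wn a d t)) :
    cnt a d H ≤ ind (Meets a d (blk 0 FX) ∧ ¬ Meets a d (blk 0 Y)) := by
  by_cases h : Meets a d (blk 0 FX) ∧ ¬ Meets a d (blk 0 Y)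
  · rw [ind_true' h]
    exact hH.one a d hd
  · rw [cnt_zero']
    · exact Nat.zero_le _
    · intro t ht hcon
      apply h
      refine ⟨⟨t, ht, hH.inF _ hcon (ho t ht)⟩, fun hY => ?_⟩
      exact hH.noY a d hd hY ⟨t, ht, hcon⟩

theorem off_inner {a d : Cell} (hd : IsDir d) {t0 : ℕ} (ht0 : t0 < 5) (hoff : ¬ onB (wn a d t0))
    {t : ℕ} (ht : t < 5) : wn a d t ∉ Inner := by
  intro hin
  apply hoff
  unfold Inner wn at hin
  unfold onB wn
  simp only [Set.mem_setOf_eq] at hin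
  rcases hd with hd | hd | hd | hd <;> rw [hd] at hin ⊢ <;> simp at hin ⊢ <;> omega

theorem simple_noFour (FX Y BAD : ℕ) (hbad : ∀ c, onB c → c ∉ Inner → c ∈ blk 0 BAD)
    {H U1 U2 : Set Cell} {E : ℕ} (hH : SimpleOK FX Y H) (h1 : U1.Subsingleton)
    (h2 : U2.Subsingleton) (r1 : U1 ⊆ {c | ¬ onB c} ∪ ∅ ∪ blk 2 E)
    (r2 : U2 ⊆ {c | ¬ onB c} ∪ ∅ ∪ blk 3 E) (hE : EntryOK FX Y E)
    (hv : blk 1 E ⊆ visOf BAD) :
    NoFour (blk 0 E ∪ ∅) (blk 1 E ∪ (H ∪ (U1 ∪ U2))) := by
  intro a d hd hm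
  have hm' : ¬ Meets a d (blk 0 E) := by
    intro hh
    apply hm
    obtain ⟨t, ht, hc⟩ := hh
    exact ⟨t, ht, Or.inl hc⟩
  have c1 := cnt_union' a d (blk 1 E) (H ∪ (U1 ∪ U2))
  have c2 := cnt_union' a d H (U1 ∪ U2)
  have c3 := cnt_union' a d U1 U2
  by_cases ho : ∀ t < 5, onB (wn a d t)
  · have e := hE a d hd ho hm'
    have k1 := cnt_H hH hd ho
    have k2 := cnt_U hd ho h1 r1
    have k3 := cnt_U hd ho h2 r2
    omega
  · push Not at ho
    obtain ⟨t0, ht0, hoff⟩ := ho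
    have k0 : cnt a d (blk 1 E) = 0 := by
      apply cnt_zero'
      intro t ht hc
      have hv' := hv hc
      apply hv'.2
      apply hbad _ hv'.1
      exact off_inner hd ht0 hoff ht
    have k1 := hH.one a d hd
    have k2 := cnt_sub (a := a) hd h1
    have k3 := cnt_sub (a := a) hd h2
    omega

/-- TARGET: the system with hidden stones no two of which share a window.
The data fields are fixed; only the proofs are missing. -/
noncomputable def simpleHS (FX Y BAD : ℕ) (hbad : ∀ c, onB c → c ∉ Inner → c ∈ blk 0 BAD) : HS where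
  Vis := visOf BAD
  XX := ∅
  HH := blk 0 FX
  EOK := fun E => EntryOK FX Y E
  M := 0
  A := fun _ P H => P = ∅ ∧ SimpleOK FX Y H
  V := fun _ P H U => P = ∅ ∧ SimpleOK FX Y H ∧ U.Finite
  L := fun P H U => P = ∅ ∧ SimpleOK FX Y H ∧ U.Finite
  eok_congr := by
    intro E E' h hE a d hd ho hm
    rw [← h 1 (by norm_num), ← h 2 (by norm_num), ← h 3 (by norm_num)]
    refine hE a d hd ho ?_
    rw [h 0 (by norm_num)]
    exact hm
  vis_onB := by
    intro c hc
    exact hc.1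
  xx_vis := by
    intro c hc
    exact absurd hc (Set.notMem_empty c)
  L_fin := by
    rintro P H U ⟨hP, hH, hU⟩
    exact ⟨by rw [hP]; exact Set.finite_empty, hH.fin, hU⟩
  L_vis := by
    rintro P H U ⟨hP, hH, hU⟩ c hc
    rw [hP] at hc
    exact absurd hc (Set.notMem_empty c)
  L_hid := by
    rintro P H U ⟨hP, hH, hU⟩ c hc ho
    exact hH.inF c hc ho
  V_L := by
    intro m P H U h
    exact h
  A_V := by
    rintro n P H ⟨hP, hH⟩
    exact ⟨hP, hH, Set.finite_empty⟩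
  A_step := by
    rintro n P H ⟨hP, hH⟩ u _ _
    exact Or.inl ⟨hP, hH, Set.finite_singleton u⟩
  V_step := by
    rintro m P H U ⟨hP, hH, hU⟩ y _ _ _
    exact Or.inl ⟨hP, hH, hU.insert y⟩
  noFour := by
    rintro P H U1 U2 E ⟨hP, hH, hU⟩ h1 h2 r1 r2 hE hv0 hv1
    rw [hP]
    exact simple_noFour FX Y BAD hbad hH h1 h2 r1 r2 hE hv1

end S9

end Pool.Agent.Helper225.G
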