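import Pool.Agent.Helper225.GFinal
import Pool.Agent.Helper225.GSimple
import Pool.Agent.Helper225.GLine
import Pool.Agent.Helper225.GGadP

set_option autoImplicit false

namespace Pool.Agent.Helper225.G

theorem simple_win {FX BAD s S : ℕ} (h : runT (fun _ => 1) FX 0 BAD 0 0 1 s S = true)
    (H : Set Cell) (hH : SimpleOK FX 0 H) (hd : Disjoint (blk 0 S) (blk 1 S ∪ H)) :
    Win 516 (blk 0 S) (blk 1 S ∪ H) := by
  have hb : sub BORD BAD = true := by
    unfold runT at h
    exact (C8.cnd_true (C8.cnd_true h).1).1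
  have hM := runT_sound (S9.simpleHS FX 0 BAD (bad_of_sub hb)) FX 0 BAD 0 0 1 s S h
    (fun a ha i => (C8.chkX_sound FX 0 0 1 a (1, 0) (Or.inl ⟨rfl, rfl⟩) ha i).1) rfl
    (fun c hc => hc) (by
      change (∅ : Set Cell) = blk 0 0
      rw [bitFacts.zero])
  have := hM 0 ∅ H (blk 0 S) (blk 1 S ∪ H) ⟨rfl, hH⟩ (by simp) le_rfl hd
  exact this

theorem line_win {FX BAD XXm XW sX s S : ℕ} {eX o e : Cell}
    (h : runT (fun _ => 1) FX 0 BAD XXm XW sX s S = true) (he : StrideOf eX sX)
    (hl : LineOK FX BAD XXm XW eX o e) (g : ℤ) (hg : 0 ≤ g) (k : ℤ) (hk1 : 1 ≤ k) (hk4 : k ≤ 4)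
    (hd : Disjoint (blk 0 S) (blk 1 S ∪ {lc o e (g + 3), lc o e (g + 3 + k)})) :
    Win 520 (blk 0 S) (blk 1 S ∪ {lc o e (g + 3), lc o e (g + 3 + k)}) := by
  have hb : sub BORD BAD = true := by
    unfold runT at h
    exact (C8.cnd_true (C8.cnd_true h).1).1
  have hM := runT_sound (L10.lineHS FX BAD XXm XW eX o e g hg (bad_of_sub hb) hl)
    FX 0 BAD XXm XW sX s S h
    (fun a ha i => C8.chkX_sound FX 0 XW sX a eX he ha i) rfl (fun c hc => hc) rfl
  have hne : e.1 ≠ 0 ∨ e.2 ≠ 0 := by
    rcases hl.dir with h | h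
    · exact W8.dir_ne h
    · have := W8.dir_ne h
      simp only [ne_eq, neg_eq_zero] at this
      exact this
  have hinj : ∀ t t' : ℤ, lc o e t = lc o e t' → t = t' := by
    intro t t' h
    have h1 : o.1 + t * e.1 = o.1 + t' * e.1 := congrArg Prod.fst h
    have h2 : o.2 + t * e.2 = o.2 + t' * e.2 := congrArg Prod.snd h
    rcases hne with h3 | h3
    · exact mul_right_cancel₀ h3 (by linarith)
    · exact mul_right_cancel₀ h3 (by linarith)
  have htr : tr o e g {lc o e (g + 3), lc o e (g + 3 + k)} = {3, 3 + k} := by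
    ext t
    simp only [tr, Set.mem_ofPred_eq, Set.mem_insert_iff, Set.mem_singleton_iff]
    constructor
    · rintro (h | h)
      · left
        have := hinj _ _ h
        omega
      · right
        have := hinj _ _ h
        omega
    · rintro (h | h)
      · left
        rw [h]
        congr 1
        ring
      · right
        rw [h]
        congr 1
        ring
  have hA : (L10.lineHS FX BAD XXm XW eX o e g hg (bad_of_sub hb) hl).A 3 ∅
      {lc o e (g + 3), lc o e (g + 3 + k)} := by
    refine ⟨Set.finite_empty, Set.toFinite _, ?_, ?_, ?_⟩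
    · intro c hc
      exact absurd hc (by simp)
    · intro c hc
      rcases hc with h | h
      · exact ⟨g + 3, by omega, h⟩
      · exact ⟨g + 3 + k, by omega, h⟩
    · rw [htr]
      have : tr o e g ∅ = ∅ := by
        ext t
        simp [tr]
      rw [this]
      exact gadget1D k hk1 hk4
  exact hM 3 ∅ _ (blk 0 S) (blk 1 S ∪ {lc o e (g + 3), lc o e (g + 3 + k)}) hA (by simp) le_rfl hd

end Pool.Agent.Helper225.G
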