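import Pool.Agent.Helper225.GC2b

set_option autoImplicit false

namespace Pool.Agent.Helper225.G

theorem root_aux (N : ℕ) (hN : 521 ≤ N) (hs : ∀ y ∈ Sec, Win 521 {((15, 15) : Cell)} {y})
    (c_1_0 : Win N {((15, 15) : Cell)} {(((15 : ℤ) + 1, (15 : ℤ) + 0) : Cell)})
    (c_1_1 : Win N {((15, 15) : Cell)} {(((15 : ℤ) + 1, (15 : ℤ) + 1) : Cell)})
    (c_2_0 : Win N {((15, 15) : Cell)} {(((15 : ℤ) + 2, (15 : ℤ) + 0) : Cell)})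
    (c_2_1 : Win N {((15, 15) : Cell)} {(((15 : ℤ) + 2, (15 : ℤ) + 1) : Cell)})
    (c_2_2 : Win N {((15, 15) : Cell)} {(((15 : ℤ) + 2, (15 : ℤ) + 2) : Cell)})
    (c_3_0 : Win N {((15, 15) : Cell)} {(((15 : ℤ) + 3, (15 : ℤ) + 0) : Cell)})
    (c_3_1 : Win N {((15, 15) : Cell)} {(((15 : ℤ) + 3, (15 : ℤ) + 1) : Cell)})
    (c_3_2 : Win N {((15, 15) : Cell)} {(((15 : ℤ) + 3, (15 : ℤ) + 2) : Cell)})
    (c_3_3 : Win N {((15, 15) : Cell)} {(((15 : ℤ) + 3, (15 : ℤ) + 3) : Cell)})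
    (c_4_0 : Win N {((15, 15) : Cell)} {(((15 : ℤ) + 4, (15 : ℤ) + 0) : Cell)})
    (c_4_1 : Win N {((15, 15) : Cell)} {(((15 : ℤ) + 4, (15 : ℤ) + 1) : Cell)})
    (c_4_2 : Win N {((15, 15) : Cell)} {(((15 : ℤ) + 4, (15 : ℤ) + 2) : Cell)})
    (c_4_3 : Win N {((15, 15) : Cell)} {(((15 : ℤ) + 4, (15 : ℤ) + 3) : Cell)})
    (c_4_4 : Win N {((15, 15) : Cell)} {(((15 : ℤ) + 4, (15 : ℤ) + 4) : Cell)})
    (c_5_0 : Win N {((15, 15) : Cell)} {(((15 : ℤ) + 5, (15 : ℤ) + 0) : Cell)})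
    (c_5_1 : Win N {((15, 15) : Cell)} {(((15 : ℤ) + 5, (15 : ℤ) + 1) : Cell)})
    (c_5_2 : Win N {((15, 15) : Cell)} {(((15 : ℤ) + 5, (15 : ℤ) + 2) : Cell)})
    (c_5_3 : Win N {((15, 15) : Cell)} {(((15 : ℤ) + 5, (15 : ℤ) + 3) : Cell)})
    (c_5_4 : Win N {((15, 15) : Cell)} {(((15 : ℤ) + 5, (15 : ℤ) + 4) : Cell)})
    (c_5_5 : Win N {((15, 15) : Cell)} {(((15 : ℤ) + 5, (15 : ℤ) + 5) : Cell)}) :
    Win (N + 1) ∅ ∅ := by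
  refine root_win N hN ?_ hs
  intro u v hv hvu hu huv
  have h0 : ¬ (u = 0 ∧ v = 0) := fun h => huv (by rw [h.1, h.2])
  have hu0 : 1 ≤ u := by omega
  clear h0 huv
  rcases (by omega : u = 1 ∨ u = 2 ∨ u = 3 ∨ u = 4 ∨ u = 5) with rfl | rfl | rfl | rfl | rfl
  · rcases (by omega : v = 0 ∨ v = 1) with rfl | rfl
    · exact c_1_0
    · exact c_1_1
  · rcases (by omega : v = 0 ∨ v = 1 ∨ v = 2) with rfl | rfl | rfl
    · exact c_2_0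
    · exact c_2_1
    · exact c_2_2
  · rcases (by omega : v = 0 ∨ v = 1 ∨ v = 2 ∨ v = 3) with rfl | rfl | rfl | rfl
    · exact c_3_0
    · exact c_3_1
    · exact c_3_2
    · exact c_3_3
  · rcases (by omega : v = 0 ∨ v = 1 ∨ v = 2 ∨ v = 3 ∨ v = 4) with rfl | rfl | rfl | rfl | rfl
    · exact c_4_0
    · exact c_4_1
    · exact c_4_2
    · exact c_4_3
    · exact c_4_4
  · rcases (by omega : v = 0 ∨ v = 1 ∨ v = 2 ∨ v = 3 ∨ v = 4 ∨ v = 5) with rfl | rfl | rfl | rfl | rfl | rfl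
    · exact c_5_0
    · exact c_5_1
    · exact c_5_2
    · exact c_5_3
    · exact c_5_4
    · exact c_5_5

end Pool.Agent.Helper225.G
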