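import Mathlib

set_option autoImplicit false

namespace Pool.Agent.Helper225.G

/-- cells of the infinite board -/
abbrev Cell := ℤ × ℤ

/-- the four directions of lines -/
def IsDir (d : Cell) : Prop := d = (1, 0) ∨ d = (0, 1) ∨ d = (1, 1) ∨ d = (1, -1)

/-- S contains five consecutive cells of a line -/
def Five (S : Set Cell) : Prop :=
  ∃ a d : Cell, IsDir d ∧ ∀ t : ℤ, 0 ≤ t → t < 5 → (a.1 + t * d.1, a.2 + t * d.2) ∈ S

/-- First (stones B) is to move against Second (stones W) and can force a win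
within n of his own moves. -/
def Win : ℕ → Set Cell → Set Cell → Prop
  | 0, _, _ => False
  | n + 1, B, W => ∃ x : Cell, x ∉ B ∧ x ∉ W ∧
      (Five (insert x B) ∨
        ∀ y : Cell, y ∉ insert x B → y ∉ W →
          ¬ Five (insert y W) ∧ Win n (insert x B) (insert y W))

theorem five_mono {S S' : Set Cell} (h : S ⊆ S') (hS : Five S) : Five S' := by
  obtain ⟨a, d, hd, h1⟩ := hS
  exact ⟨a, d, hd, fun t ht0 ht5 => h (h1 t ht0 ht5)⟩

theorem not_five_empty : ¬ Five (∅ : Set Cell) := by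
  rintro ⟨a, d, _, h⟩
  exact h 0 le_rfl (by norm_num)

theorem exists_free {S : Set Cell} (hS : S.Finite) : ∃ x, x ∉ S :=
  hS.exists_notMem

/-- black stones of a history -/
def Bl (h : List (ℤ × ℤ)) : Set Cell := {x | ∃ i : ℕ, h[2 * i]? = some x}

/-- white stones of a history -/
def Wl (h : List (ℤ × ℤ)) : Set Cell := {x | ∃ i : ℕ, h[2 * i + 1]? = some x}

theorem mem_hist {h : List (ℤ × ℤ)} {x : ℤ × ℤ} (hx : x ∈ h) : x ∈ Bl h ∨ x ∈ Wl h := by
  obtain ⟨i, hi⟩ := List.mem_iff_getElem?.1 hx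
  rcases Nat.even_or_odd' i with ⟨c, rfl | rfl⟩
  · exact Or.inl ⟨c, hi⟩
  · exact Or.inr ⟨c, hi⟩

/-- witness of a win in `n + 1` moves -/
def Good (n : ℕ) (B W : Set Cell) (x : Cell) : Prop :=
  x ∉ B ∧ x ∉ W ∧ (Five (insert x B) ∨
        ∀ y : Cell, y ∉ insert x B → y ∉ W →
          ¬ Five (insert y W) ∧ Win n (insert x B) (insert y W))

theorem exists_move (h : List (ℤ × ℤ)) : ∃ x : ℤ × ℤ, x ∉ h ∧
    ∀ n, Win (n + 1) (Bl h) (Wl h) → (∀ k ≤ n, ¬ Win k (Bl h) (Wl h)) →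
      Good n (Bl h) (Wl h) x := by
  classical
  by_cases hex : ∃ n, Win n (Bl h) (Wl h)
  · have h1 := Nat.find_spec hex
    obtain ⟨n, hn⟩ : ∃ n, Nat.find hex = n + 1 := by
      rcases Nat.eq_zero_or_pos (Nat.find hex) with h0 | h0
      · rw [h0] at h1
        exact h1.elim
      · exact ⟨Nat.find hex - 1, by omega⟩
    rw [hn] at h1
    obtain ⟨x, hxB, hxW, hx⟩ := h1
    refine ⟨x, ?_, ?_⟩
    · intro hxh
      rcases mem_hist hxh with h2 | h2
      · exact hxB h2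
      · exact hxW h2
    · intro m hm hmin
      have h2 : m = n := by
        have h3 : Nat.find hex ≤ m + 1 := Nat.find_min' hex hm
        have h4 : ¬ Nat.find hex ≤ m := by
          intro h5
          exact hmin _ h5 (Nat.find_spec hex)
        omega
      subst h2
      exact ⟨hxB, hxW, hx⟩
  · obtain ⟨x, hx⟩ := exists_free (S := {x | x ∈ h}) (List.finite_toSet h)
    refine ⟨x, hx, ?_⟩
    intro n hn _
    exact (hex ⟨_, hn⟩).elim

/-- the strategy -/
noncomputable def strat (h : List (ℤ × ℤ)) : ℤ × ℤ := (exists_move h).choose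

theorem strat_free (h : List (ℤ × ℤ)) : strat h ∉ h := (exists_move h).choose_spec.1

theorem strat_good (h : List (ℤ × ℤ)) (n : ℕ) (h1 : Win (n + 1) (Bl h) (Wl h))
    (h2 : ∀ k ≤ n, ¬ Win k (Bl h) (Wl h)) : Good n (Bl h) (Wl h) (strat h) :=
  (exists_move h).choose_spec.2 n h1 h2

/-- black stones after `m` rounds -/
def BB (p : ℕ → ℤ × ℤ) (m : ℕ) : Set Cell := {x | ∃ i < m, p (2 * i) = x}

/-- white stones after `m` rounds -/
def WW (p : ℕ → ℤ × ℤ) (m : ℕ) : Set Cell := {x | ∃ i < m, p (2 * i + 1) = x}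

theorem Bl_ofFn (p : ℕ → ℤ × ℤ) (m : ℕ) :
    Bl (List.ofFn (fun i : Fin (2 * m) => p (i : ℕ))) = BB p m := by
  ext x
  constructor
  · rintro ⟨i, hi⟩
    rw [List.getElem?_ofFn] at hi
    split_ifs at hi with h
    exact ⟨i, by omega, Option.some.inj hi⟩
  · rintro ⟨i, hi, hx⟩
    refine ⟨i, ?_⟩
    rw [List.getElem?_ofFn, dif_pos (by omega)]
    exact congrArg some hx

theorem Wl_ofFn (p : ℕ → ℤ × ℤ) (m : ℕ) :
    Wl (List.ofFn (fun i : Fin (2 * m) => p (i : ℕ))) = WW p m := by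
  ext x
  constructor
  · rintro ⟨i, hi⟩
    rw [List.getElem?_ofFn] at hi
    split_ifs at hi with h
    exact ⟨i, by omega, Option.some.inj hi⟩
  · rintro ⟨i, hi, hx⟩
    refine ⟨i, ?_⟩
    rw [List.getElem?_ofFn, dif_pos (by omega)]
    exact congrArg some hx

theorem BB_succ (p : ℕ → ℤ × ℤ) (m : ℕ) : BB p (m + 1) = insert (p (2 * m)) (BB p m) := by
  ext x
  constructor
  · rintro ⟨i, hi, hx⟩
    rcases Nat.lt_succ_iff_lt_or_eq.1 hi with h | h
    · exact Or.inr ⟨i, h, hx⟩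
    · subst h
      exact Or.inl hx.symm
  · rintro (hx | ⟨i, hi, hx⟩)
    · exact ⟨m, by omega, hx.symm⟩
    · exact ⟨i, by omega, hx⟩

theorem WW_succ (p : ℕ → ℤ × ℤ) (m : ℕ) : WW p (m + 1) = insert (p (2 * m + 1)) (WW p m) := by
  ext x
  constructor
  · rintro ⟨i, hi, hx⟩
    rcases Nat.lt_succ_iff_lt_or_eq.1 hi with h | h
    · exact Or.inr ⟨i, h, hx⟩
    · subst h
      exact Or.inl hx.symm
  · rintro (hx | ⟨i, hi, hx⟩)
    · exact ⟨m, by omega, hx.symm⟩
    · exact ⟨i, by omega, hx⟩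

theorem play_free {p : ℕ → ℤ × ℤ}
    (hp : ∀ k : ℕ, p (2 * k) = strat (List.ofFn (fun i : Fin (2 * k) => p (i : ℕ)))) :
    ∀ m i : ℕ, i < 2 * m → p i ≠ p (2 * m) := by
  intro m i hi heq
  apply strat_free (List.ofFn (fun i : Fin (2 * m) => p (i : ℕ)))
  rw [← hp m, ← heq, List.mem_ofFn]
  exact ⟨⟨i, hi⟩, rfl⟩

theorem play_win {p : ℕ → ℤ × ℤ}
    (hp : ∀ k : ℕ, p (2 * k) = strat (List.ofFn (fun i : Fin (2 * k) => p (i : ℕ))))
    (hq : ∀ j i : ℕ, i < 2 * j + 1 → p i ≠ p (2 * j + 1)) :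
    ∀ n m : ℕ, Win n (BB p m) (WW p m) → ¬ Five (WW p m) →
      ∃ k, k < m + n ∧ Five (BB p (k + 1)) ∧ ¬ Five (WW p k) := by
  classical
  intro n
  induction n using Nat.strong_induction_on with
  | _ n ih =>
    intro m hwin hnf
    have hex : ∃ n, Win n (BB p m) (WW p m) := ⟨n, hwin⟩
    have h1 := Nat.find_spec hex
    have h1' : Nat.find hex ≤ n := Nat.find_min' hex hwin
    obtain ⟨l, hl⟩ : ∃ l, Nat.find hex = l + 1 := by
      rcases Nat.eq_zero_or_pos (Nat.find hex) with h0 | h0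
      · rw [h0] at h1
        exact h1.elim
      · exact ⟨Nat.find hex - 1, by omega⟩
    rw [hl] at h1 h1'
    have hmin : ∀ k ≤ l, ¬ Win k (BB p m) (WW p m) := by
      intro k hk
      exact Nat.find_min hex (by omega)
    have hg := strat_good (List.ofFn (fun i : Fin (2 * m) => p (i : ℕ))) l
      (by rw [Bl_ofFn, Wl_ofFn]; exact h1) (by rw [Bl_ofFn, Wl_ofFn]; exact hmin)
    rw [← hp m, Bl_ofFn, Wl_ofFn] at hg
    obtain ⟨hxB, hxW, hx⟩ := hg
    rcases hx with hx | hx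
    · refine ⟨m, by omega, ?_, hnf⟩
      rw [BB_succ]
      exact hx
    · have h2 : p (2 * m + 1) ∉ insert (p (2 * m)) (BB p m) := by
        rintro (h3 | ⟨i, hi, h3⟩)
        · exact hq m (2 * m) (by omega) h3.symm
        · exact hq m (2 * i) (by omega) h3
      have h4 : p (2 * m + 1) ∉ WW p m := by
        rintro ⟨i, hi, h3⟩
        exact hq m (2 * i + 1) (by omega) h3
      obtain ⟨h5, h6⟩ := hx _ h2 h4
      rw [← BB_succ, ← WW_succ] at h6
      rw [← WW_succ] at h5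
      obtain ⟨k, hk, h7⟩ := ih l (by omega) (m + 1) h6 h5
      exact ⟨k, by omega, h7⟩

theorem BB_zero (p : ℕ → ℤ × ℤ) : BB p 0 = ∅ := by
  ext x
  constructor
  · rintro ⟨i, hi, _⟩
    omega
  · intro h
    exact h.elim

theorem WW_zero (p : ℕ → ℤ × ℤ) : WW p 0 = ∅ := by
  ext x
  constructor
  · rintro ⟨i, hi, _⟩
    omega
  · intro h
    exact h.elim

/-- TARGET 1: from the recursive notion of winning to a strategy (time-bounded form). -/
theorem bounded_of_win (N : ℕ) (h : Win N ∅ ∅) :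
    ∃ N : ℕ, ∃ σ : List (ℤ × ℤ) → ℤ × ℤ,
      ∀ p : ℕ → ℤ × ℤ,
        (∀ k : ℕ, p (2 * k) = σ (List.ofFn (fun i : Fin (2 * k) => p (i : ℕ)))) →
        (∀ j i : ℕ, i < 2 * j + 1 → p i ≠ p (2 * j + 1)) →
        ∃ m : ℕ, m < N ∧
          (∀ k : ℕ, k ≤ m → ∀ i : ℕ, i < 2 * k → p i ≠ p (2 * k)) ∧
          (∃ a d : ℤ × ℤ,
              (d = (1, 0) ∨ d = (0, 1) ∨ d = (1, 1) ∨ d = (1, -1)) ∧
              ∀ t : ℤ, 0 ≤ t → t < 5 →
                ∃ i : ℕ, i ≤ m ∧ p (2 * i) = (a.1 + t * d.1, a.2 + t * d.2)) ∧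
          ¬ (∃ a d : ℤ × ℤ,
              (d = (1, 0) ∨ d = (0, 1) ∨ d = (1, 1) ∨ d = (1, -1)) ∧
              ∀ t : ℤ, 0 ≤ t → t < 5 →
                ∃ i : ℕ, i < m ∧ p (2 * i + 1) = (a.1 + t * d.1, a.2 + t * d.2)) := by
  refine ⟨N, strat, ?_⟩
  intro p hp hq
  obtain ⟨k, hk, h5, hn5⟩ := play_win hp hq N 0 (by rw [BB_zero, WW_zero]; exact h)
    (by rw [WW_zero]; exact not_five_empty)
  refine ⟨k, by omega, fun j _ i hi => play_free hp j i hi, ?_, ?_⟩
  · obtain ⟨a, d, hd, h1⟩ := h5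
    refine ⟨a, d, hd, ?_⟩
    intro t ht0 ht5
    obtain ⟨i, hi, hx⟩ := h1 t ht0 ht5
    exact ⟨i, by omega, hx⟩
  · rintro ⟨a, d, hd, h1⟩
    apply hn5
    refine ⟨a, d, hd, ?_⟩
    intro t ht0 ht5
    obtain ⟨i, hi, hx⟩ := h1 t ht0 ht5
    exact ⟨i, hi, hx⟩

/-- TARGET 2: the unbounded form, where the strategy must always move to a free cell. -/
theorem strategy_of_win (N : ℕ) (h : Win N ∅ ∅) :
    ∃ σ : List (ℤ × ℤ) → ℤ × ℤ,
      ∀ p : ℕ → ℤ × ℤ,
        (∀ m : ℕ, p (2 * m) = σ (List.ofFn (fun i : Fin (2 * m) => p i))) →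
        (∀ m i : ℕ, i < 2 * m + 1 → p i ≠ p (2 * m + 1)) →
        (∀ m i : ℕ, i < 2 * m → p i ≠ p (2 * m)) ∧
        ∃ n : ℕ,
          (∃ a d : ℤ × ℤ,
              d ∈ ({((1 : ℤ), (0 : ℤ)), ((0 : ℤ), (1 : ℤ)), ((1 : ℤ), (1 : ℤ)),
                    ((1 : ℤ), (-1 : ℤ))} : Finset (ℤ × ℤ)) ∧
              ∀ k : ℕ, k < 5 → ∃ i : ℕ, i ≤ n ∧ p (2 * i) = a + (k : ℤ) • d) ∧
          ¬ (∃ b e : ℤ × ℤ,
              e ∈ ({((1 : ℤ), (0 : ℤ)), ((0 : ℤ), (1 : ℤ)), ((1 : ℤ), (1 : ℤ)),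
                    ((1 : ℤ), (-1 : ℤ))} : Finset (ℤ × ℤ)) ∧
              ∀ k : ℕ, k < 5 → ∃ i : ℕ, i < n ∧ p (2 * i + 1) = b + (k : ℤ) • e) := by
  have hdir : ∀ d : ℤ × ℤ, d ∈ ({((1 : ℤ), (0 : ℤ)), ((0 : ℤ), (1 : ℤ)), ((1 : ℤ), (1 : ℤ)),
                    ((1 : ℤ), (-1 : ℤ))} : Finset (ℤ × ℤ)) ↔ IsDir d := by
    intro d
    simp only [Finset.mem_insert, Finset.mem_singleton, IsDir]
  have hsm : ∀ (a d : ℤ × ℤ) (t : ℤ), a + t • d = (a.1 + t * d.1, a.2 + t * d.2) := by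
    intro a d t
    ext <;> simp
  refine ⟨strat, ?_⟩
  intro p hp hq
  refine ⟨play_free hp, ?_⟩
  obtain ⟨k, hk, h5, hn5⟩ := play_win hp hq N 0 (by rw [BB_zero, WW_zero]; exact h)
    (by rw [WW_zero]; exact not_five_empty)
  refine ⟨k, ?_, ?_⟩
  · obtain ⟨a, d, hd, h1⟩ := h5
    refine ⟨a, d, (hdir d).2 hd, ?_⟩
    intro t ht5
    obtain ⟨i, hi, hx⟩ := h1 t (by omega) (by omega)
    exact ⟨i, by omega, by rw [hsm]; exact hx⟩
  · rintro ⟨a, d, hd, h1⟩
    apply hn5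
    refine ⟨a, d, (hdir d).1 hd, ?_⟩
    intro t ht0 ht5
    obtain ⟨i, hi, hx⟩ := h1 t.toNat (by omega)
    refine ⟨i, hi, ?_⟩
    rw [hx, hsm, Int.toNat_of_nonneg ht0]

/-- TARGET 3 (three monotonicity lemmas): more time, more black stones, fewer white stones. -/
theorem win_mono_n {n m : ℕ} (hnm : n ≤ m) {B W : Set Cell} (h : Win n B W) : Win m B W := by
  induction n generalizing m B W with
  | zero => exact h.elim
  | succ n ih =>
    obtain ⟨k, rfl⟩ : ∃ k, m = k + 1 := ⟨m - 1, by omega⟩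
    obtain ⟨x, hxB, hxW, hx⟩ := h
    refine ⟨x, hxB, hxW, ?_⟩
    rcases hx with hx | hx
    · exact Or.inl hx
    · right
      intro y hyB hyW
      exact ⟨(hx y hyB hyW).1, ih (by omega) (hx y hyB hyW).2⟩

theorem win_mono_B {n : ℕ} {B B' W : Set Cell} (hB : B ⊆ B') (hfin : B'.Finite) (hfinW : W.Finite)
    (hdis : Disjoint B' W) (h : Win n B W) : Win n B' W := by
  induction n generalizing B B' W with
  | zero => exact h.elim
  | succ n ih =>
    obtain ⟨x, hxB, hxW, hx⟩ := h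
    have key : ∀ x0 : Cell, x0 ∉ B' → x0 ∉ W → insert x B ⊆ insert x0 B' → Win (n + 1) B' W := by
      intro x0 h0B h0W hsub
      refine ⟨x0, h0B, h0W, ?_⟩
      rcases hx with hx | hx
      · exact Or.inl (five_mono hsub hx)
      · right
        intro y hyB hyW
        obtain ⟨h1, h2⟩ := hx y (fun h => hyB (hsub h)) hyW
        refine ⟨h1, ih hsub (hfin.insert x0) (hfinW.insert y) ?_ h2⟩
        rw [Set.disjoint_left]
        intro z hz hz'
        rcases hz' with rfl | hz'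
        · exact hyB hz
        · rcases hz with rfl | hz
          · exact h0W hz'
          · exact Set.disjoint_left.1 hdis hz hz'
    by_cases hxB' : x ∈ B'
    · obtain ⟨x0, hx0⟩ := exists_free (hfin.union hfinW)
      apply key x0 (fun h => hx0 (Or.inl h)) (fun h => hx0 (Or.inr h))
      apply Set.insert_subset
      · exact Set.mem_insert_of_mem _ hxB'
      · exact hB.trans (Set.subset_insert _ _)
    · exact key x hxB' hxW (Set.insert_subset_insert hB)

theorem win_anti_W {n : ℕ} {B W W' : Set Cell} (hW : W' ⊆ W) (hfin : B.Finite) (hfinW : W.Finite)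
    (h : Win n B W) : Win n B W' := by
  induction n generalizing B W W' with
  | zero => exact h.elim
  | succ n ih =>
    obtain ⟨x, hxB, hxW, hx⟩ := h
    refine ⟨x, hxB, fun h => hxW (hW h), ?_⟩
    rcases hx with hx | hx
    · exact Or.inl hx
    · right
      intro y hyB hyW
      by_cases hyW' : y ∈ W
      · obtain ⟨y0, hy0⟩ := exists_free ((hfin.insert x).union hfinW)
        obtain ⟨h1, h2⟩ := hx y0 (fun h => hy0 (Or.inl h)) (fun h => hy0 (Or.inr h))
        have hsub : insert y W' ⊆ insert y0 W := by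
          apply Set.insert_subset
          · exact Set.mem_insert_of_mem _ hyW'
          · exact hW.trans (Set.subset_insert _ _)
        exact ⟨fun h => h1 (five_mono hsub h), ih hsub (hfin.insert x) (hfinW.insert y0) h2⟩
      · obtain ⟨h1, h2⟩ := hx y hyB hyW'
        have hsub : insert y W' ⊆ insert y W := Set.insert_subset_insert hW
        exact ⟨fun h => h1 (five_mono hsub h), ih hsub (hfin.insert x) (hfinW.insert y) h2⟩

end Pool.Agent.Helper225.G
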