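import Pool.Agent.Helper225.GBits

set_option autoImplicit false

namespace Pool.Agent.Helper225.G

theorem bf_fin (j X : ℕ) : (blk j X).Finite := by
  refine ((Set.finite_lt_nat 1024).image cell).subset ?_
  intro c hc
  obtain ⟨h1, h2⟩ := cell_ix c hc.1
  exact ⟨ix c, h2, h1⟩

theorem bf_zero (j : ℕ) : blk j 0 = ∅ := by
  ext c
  rw [mem_blk]
  simp

theorem bf_b1 (X : ℕ) : blk 1 (Nat.land B1 X) = blk 1 X := by
  rw [blk_land]
  have h : blk 1 B1 = {c | onB c} := by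
    have := blk_shl 0 1 BM
    have h2 : blk 1 B1 = blk 0 BM := this
    rw [h2, blk_BM, if_pos rfl]
  rw [h]
  ext c
  exact ⟨fun h => h.2, fun h => ⟨h.1, h⟩⟩

theorem bf_b1z (j X : ℕ) (hj : j ≠ 1) : blk j (Nat.land B1 X) = ∅ := by
  rw [blk_land]
  have h : blk j B1 = ∅ := by
    rcases Nat.lt_or_gt_of_ne hj with h | h
    · exact blk_shl_lt j 1 BM h
    · obtain ⟨i, rfl⟩ : ∃ i, j = i + 1 := ⟨j - 1, by omega⟩
      have h2 : blk (i + 1) B1 = blk i BM := blk_shl i 1 BM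
      rw [h2, blk_BM, if_neg (by omega)]
  rw [h, Set.empty_inter]

theorem bf_bm (X : ℕ) : blk 0 (Nat.land X BM) = blk 0 X := by
  rw [blk_land, blk_BM, if_pos rfl]
  ext c
  exact ⟨fun h => h.1, fun h => ⟨h, h.1⟩⟩

theorem bf_bmz (j X : ℕ) (hj : j ≠ 0) : blk j (Nat.land X BM) = ∅ := by
  rw [blk_land, blk_BM, if_neg hj, Set.inter_empty]

theorem bf_rest3 (KK X : ℕ) : blk 3 (rest KK X) = blk 3 KK \ (blk 0 X ∪ blk 1 X) := by
  have h0 : blk 3 (Nat.shiftLeft X 3264) = blk 0 X := blk_shl 0 3 X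
  have h1 : blk 3 (Nat.shiftLeft X 2176) = blk 1 X := blk_shl 1 2 X
  ext c
  unfold rest
  rw [mem_blk_xor, blk_land 3 (Nat.land KK FU3), blk_land 3 KK FU3, blk_lor, h0, h1, blk_FU3,
    if_pos rfl]
  simp only [Set.mem_inter_iff, Set.mem_union, Set.mem_sdiff, Set.mem_ofPred_eq]
  constructor
  · intro h
    by_cases h3 : c ∈ blk 3 KK
    · refine ⟨h3, fun h4 => h ?_⟩
      exact ⟨fun h5 => ⟨h5, h4⟩, fun h5 => h5.1⟩
    · exact absurd ⟨fun h5 => absurd h5.1 h3, fun h5 => h5.1⟩ h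
  · rintro ⟨h3, h4⟩ h
    exact h4 (h.1 ⟨h3, h3.1⟩).2

theorem bf_restz (j KK X : ℕ) (hj : j ≠ 3) : blk j (rest KK X) = ∅ := by
  ext c
  unfold rest
  rw [mem_blk_xor, blk_land j (Nat.land KK FU3), blk_land j KK FU3, blk_FU3, if_neg hj]
  simp

theorem bf_cmz (j x : ℕ) (hj : j ≠ 0) : blk j (cm (Nat.land x 1023)) = ∅ := by
  have h : Nat.land x 1023 < 1024 := land_lt x 10
  rw [blk_cm _ _ h, if_neg hj]

theorem bf_g3z (j w : ℕ) (hj : j ≠ 0) : blk j (g3 w) = ∅ := by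
  unfold g3
  rw [blk_lor, bf_cmz _ _ hj, bf_cmz _ _ hj, Set.union_empty]

theorem bf_g2z (j w : ℕ) (hj : j ≠ 0) : blk j (g2 w) = ∅ := by
  unfold g2
  rw [blk_lor, bf_cmz _ _ hj, bf_cmz _ _ hj, Set.union_empty]

theorem bf_gl_succ (n s G : ℕ) (k : Nat → Nat → Bool) : gl (n + 1) s G k =
    Nat.rec (motive := fun _ => Bool) false
      (fun w _ => gl n (Nat.shiftRight s 24) (Nat.lor G (g2 w)) k) (Nat.land s 16777215) := rfl

theorem bf_glf (n : ℕ) : ∀ (s G : ℕ) (k : Nat → Nat → Bool), gl n s G k = true →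
    (∀ j, j ≠ 0 → blk j G = ∅) →
    ∃ s' G', (∀ j, j ≠ 0 → blk j G' = ∅) ∧ k s' G' = true := by
  induction n with
  | zero =>
    intro s G k h hG
    exact ⟨s, G, hG, h⟩
  | succ n ih =>
    intro s G k h hG
    rw [bf_gl_succ] at h
    cases hw : Nat.land s 16777215 with
    | zero =>
      rw [hw] at h
      exact absurd h (by simp)
    | succ w =>
      rw [hw] at h
      refine ih (Nat.shiftRight s 24) (Nat.lor G (g2 w)) k h ?_
      intro j hj
      rw [blk_lor, hG j hj, bf_g2z j w hj, Set.union_empty]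

theorem bf_legal (KK S w : ℕ) (h : Nat.beq (Nat.land (Nat.lor KK S) (bb2 w)) 0 = true) :
    ∃ b : Cell, onB b ∧ b ∉ blk 0 KK ∧ b ∉ blk 1 KK ∧ b ∉ blk 0 S ∧ b ∉ blk 1 S ∧
      blk 0 (Nat.lor S (cm (pw w))) = insert b (blk 0 S) ∧
      (∀ j, j ≠ 0 → blk j (Nat.lor S (cm (pw w))) = blk j S) := by
  have hp := pw_lt w
  have h0 : cell (pw w) ∈ blk 0 (bb2 w) := by
    unfold bb2
    rw [blk_lor, blk_cm _ _ hp, if_pos rfl]
    exact Or.inl rfl
  have h1 : cell (pw w) ∈ blk 1 (bb2 w) := by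
    unfold bb2
    rw [blk_lor]
    have h2 : blk 1 (Nat.shiftLeft (cm (pw w)) 1088) = blk 0 (cm (pw w)) := blk_shl 0 1 _
    rw [h2, blk_cm _ _ hp, blk_cm _ _ hp, if_pos rfl]
    exact Or.inr rfl
  have k0 : ∀ j, j < 2 → cell (pw w) ∉ blk j (Nat.lor KK S) := by
    intro j hj hc
    have := land_zero j _ _ h _ hc
    interval_cases j
    · exact this h0
    · exact this h1
  have a0 := k0 0 (by norm_num)
  have a1 := k0 1 (by norm_num)
  rw [blk_lor] at a0 a1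
  refine ⟨cell (pw w), (ix_cell _ hp).2, fun h => a0 (Or.inl h), fun h => a1 (Or.inl h),
    fun h => a0 (Or.inr h), fun h => a1 (Or.inr h), ?_, ?_⟩
  · rw [blk_lor, blk_cm _ _ hp, if_pos rfl, Set.union_singleton]
  · intro j hj
    rw [blk_lor, blk_cm _ _ hp, if_neg hj, Set.union_empty]

theorem bf_badf (KK Z : ℕ)
    (h : Nat.beq (Nat.land (Nat.land Z BM) (Nat.shiftRight KK 2176)) 0 = true) :
    ∀ c ∈ blk 0 Z, c ∉ blk 2 KK := by
  intro c hc h2
  have h3 : c ∈ blk 0 (Nat.land Z BM) := by rw [bf_bm]; exact hc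
  have h4 := land_zero 0 _ _ h c h3
  have h5 : blk 0 (Nat.shiftRight KK 2176) = blk 2 KK := blk_shr 0 2 KK
  rw [h5] at h4
  exact h4 h2

theorem bf_bwf (KK w : ℕ) (c : Cell) (h : Nat.beq (Nat.land KK (bw w)) 0 = true)
    (hc : c ∈ blk 0 (bw w)) : c ∉ blk 0 KK :=
  fun h2 => land_zero 0 _ _ h c h2 hc

/-- `bwz` is true for all blocks `j ≥ 2` -/
theorem bf_bwz2 (j w : ℕ) (hj : 2 ≤ j) : blk j (bw w) = ∅ := by
  ext c
  rw [mem_blk, tb_bw, decide_eq_true_eq]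
  simp only [Set.mem_empty_iff_false, iff_false, not_and]
  intro hc h
  have h1 := pw_lt w
  have h2 : kw w * sdw w ≤ 231 := mul_small _ _ (kw_lt w) (by rw [sdw_eq]; exact sd_le _ (dw_lt w))
  omega

theorem bitFacts : BitFacts where
  fin := bf_fin
  zero := bf_zero
  lor := blk_lor
  shl1 := fun j X => blk_shl j 1 X
  shl1z := fun X => blk_shl_lt 0 1 X (by norm_num)
  shl2 := fun j X => blk_shl j 2 X
  shl2z := fun j X h => blk_shl_lt j 2 X h
  shl3 := fun j X => blk_shl j 3 X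
  shl3z := fun j X h => blk_shl_lt j 3 X h
  shr1 := fun j X => blk_shr j 1 X
  shr2 := fun j X => blk_shr j 2 X
  shr3 := fun j X => blk_shr j 3 X
  b1 := bf_b1
  b1z := bf_b1z
  bm := bf_bm
  bmz := bf_bmz
  rest3 := bf_rest3
  restz := bf_restz
  g3z := bf_g3z
  glf := bf_glf
  legal := bf_legal
  badf := bf_badf
  bwf := bf_bwf

end Pool.Agent.Helper225.G
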