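import Pool.Agent.Helper225.GHS

set_option autoImplicit false

namespace Pool.Agent.Helper225.G

/-! ### bit lemmas -/

theorem tb_lor (x y i : ℕ) : (Nat.lor x y).testBit i = (x.testBit i || y.testBit i) :=
  Nat.testBit_or x y i
theorem tb_land (x y i : ℕ) : (Nat.land x y).testBit i = (x.testBit i && y.testBit i) :=
  Nat.testBit_and x y i
theorem tb_xor (x y i : ℕ) : (Nat.xor x y).testBit i = (x.testBit i ^^ y.testBit i) :=
  Nat.testBit_xor x y i
theorem tb_shl (x n i : ℕ) :
    (Nat.shiftLeft x n).testBit i = (decide (i ≥ n) && x.testBit (i - n)) := by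
  have := Nat.testBit_shiftLeft (i := n) (j := i) x
  exact this
theorem tb_shr (x n i : ℕ) : (Nat.shiftRight x n).testBit i = x.testBit (n + i) := by
  have := Nat.testBit_shiftRight (i := n) (j := i) x
  exact this
theorem tb_one (i : ℕ) : (1 : ℕ).testBit i = decide (i = 0) := by
  by_cases h : i = 0
  · subst h; rfl
  · have h1 : ¬ (1 : ℕ).testBit i = true := fun h2 =>
      h (Nat.testBit_one_eq_true_iff_self_eq_zero.mp h2)
    simp [h, h1]
theorem tb_shl_one (n i : ℕ) : (Nat.shiftLeft 1 n).testBit i = decide (i = n) := by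
  rw [tb_shl, tb_one]
  by_cases h : i = n
  · subst h; simp
  · by_cases h2 : i ≥ n
    · have : ¬ i - n = 0 := by omega
      simp [h, this]
    · simp [h, h2]
theorem shl_one_sub (n : ℕ) : Nat.sub (Nat.shiftLeft 1 n) 1 = 2 ^ n - 1 := by
  have : Nat.shiftLeft 1 n = 2 ^ n := by
    have := Nat.one_shiftLeft n
    exact this
  rw [this]
  rfl
theorem tb_ones (n i : ℕ) : (Nat.sub (Nat.shiftLeft 1 n) 1).testBit i = decide (i < n) := by
  rw [shl_one_sub]
  exact Nat.testBit_two_pow_sub_one n i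

theorem ix_lt {c : Cell} (h : onB c) : ix c < 1024 := by
  obtain ⟨h1, h2, h3, h4⟩ := h
  unfold ix
  omega

theorem mem_blk (j X : ℕ) (c : Cell) :
    c ∈ blk j X ↔ onB c ∧ X.testBit (1088 * j + 64 + ix c) = true := Iff.rfl

/-- TARGET 1 -/
theorem blk_lor (j X Y : ℕ) : blk j (Nat.lor X Y) = blk j X ∪ blk j Y := by
  ext c
  rw [Set.mem_union, mem_blk, mem_blk, mem_blk, tb_lor, Bool.or_eq_true]
  tauto

/-- TARGET 2 -/
theorem blk_land (j X Y : ℕ) : blk j (Nat.land X Y) = blk j X ∩ blk j Y := by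
  ext c
  rw [Set.mem_inter_iff, mem_blk, mem_blk, mem_blk, tb_land, Bool.and_eq_true]
  tauto

theorem mem_blk_xor_aux (j X Y : ℕ) (c : Cell) (h : onB c) :
    c ∈ blk j (Nat.xor X Y) ↔ ¬ (c ∈ blk j X ↔ c ∈ blk j Y) := by
  rw [mem_blk, mem_blk, mem_blk, tb_xor]
  cases X.testBit (1088 * j + 64 + ix c) <;> cases Y.testBit (1088 * j + 64 + ix c) <;> simp [h]

/-- TARGET 3 -/
theorem mem_blk_xor (j X Y : ℕ) (c : Cell) :
    c ∈ blk j (Nat.xor X Y) ↔ ¬ (c ∈ blk j X ↔ c ∈ blk j Y) := by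
  by_cases h : onB c
  · exact mem_blk_xor_aux j X Y c h
  · rw [mem_blk, mem_blk, mem_blk]
    simp [h]

/-- TARGET 4 -/
theorem blk_shr (j m X : ℕ) : blk j (Nat.shiftRight X (1088 * m)) = blk (j + m) X := by
  ext c
  rw [mem_blk, mem_blk, tb_shr]
  have : 1088 * m + (1088 * j + 64 + ix c) = 1088 * (j + m) + 64 + ix c := by ring
  rw [this]

/-- TARGET 5 -/
theorem blk_shl (j m X : ℕ) : blk (j + m) (Nat.shiftLeft X (1088 * m)) = blk j X := by
  ext c
  rw [mem_blk, mem_blk, tb_shl]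
  have h1 : 1088 * (j + m) + 64 + ix c ≥ 1088 * m := by omega
  have h2 : 1088 * (j + m) + 64 + ix c - 1088 * m = 1088 * j + 64 + ix c := by omega
  rw [h2, decide_eq_true h1, Bool.true_and]

/-- TARGET 6 (bits of the salt area of X, the 64 low bits, move into no cell bit) -/
theorem blk_shl_lt (j m X : ℕ) (h : j < m) : blk j (Nat.shiftLeft X (1088 * m)) = ∅ := by
  ext c
  rw [mem_blk, tb_shl]
  simp only [Set.mem_empty_iff_false, iff_false, not_and]
  intro hc
  have h0 := ix_lt hc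
  have h1 : ¬ (1088 * j + 64 + ix c ≥ 1088 * m) := by omega
  rw [decide_eq_false h1, Bool.false_and]
  simp

/-- TARGET 7 -/
theorem blk_BM (j : ℕ) : blk j BM = if j = 0 then {c | onB c} else ∅ := by
  ext c
  rw [mem_blk]
  unfold BM
  rw [tb_ones]
  by_cases hj : j = 0
  · rw [if_pos hj, Set.mem_ofPred_eq]
    constructor
    · exact fun h => h.1
    · intro h
      have := ix_lt h
      refine ⟨h, decide_eq_true (by omega)⟩
  · rw [if_neg hj]
    simp only [Set.mem_empty_iff_false, iff_false, not_and]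
    intro h
    have := ix_lt h
    rw [decide_eq_false (by omega)]
    simp

/-- TARGET 8 -/
theorem blk_FU3 (j : ℕ) : blk j FU3 = if j = 3 then {c | onB c} else ∅ := by
  ext c
  rw [mem_blk]
  unfold FU3
  rw [tb_shl, tb_ones]
  by_cases hj : j = 3
  · rw [if_pos hj, Set.mem_ofPred_eq]
    constructor
    · exact fun h => h.1
    · intro h
      have := ix_lt h
      refine ⟨h, ?_⟩
      rw [decide_eq_true (by omega), decide_eq_true (by omega)]
      rfl
  · rw [if_neg hj]
    simp only [Set.mem_empty_iff_false, iff_false, not_and]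
    intro h
    have := ix_lt h
    rcases Nat.lt_or_gt_of_ne hj with h3 | h3
    · rw [decide_eq_false (by omega)]
      simp
    · rw [decide_eq_false (p := 1088 * j + 64 + ix c - 3328 < 1024) (by omega)]
      simp

/-- TARGET 9 -/
theorem blk_EM (j : ℕ) (X : ℕ) (h : j < 4) : blk j (Nat.land X EM) = blk j X := by
  ext c
  rw [mem_blk, mem_blk, tb_land]
  unfold EM
  rw [tb_ones]
  constructor
  · rintro ⟨h1, h2⟩
    exact ⟨h1, (Bool.and_eq_true _ _ ▸ h2 : _ ∧ _).1⟩
  · rintro ⟨h1, h2⟩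
    have := ix_lt h1
    refine ⟨h1, ?_⟩
    rw [h2, decide_eq_true (by omega)]
    rfl

/-- TARGET 10 -/
theorem blk_NS2 (j : ℕ) : blk j NS2 = if j < 2 then {c | onB c} else ∅ := by
  ext c
  rw [mem_blk]
  unfold NS2
  rw [tb_lor, tb_shl, tb_shl, tb_ones, tb_ones]
  by_cases hj : j < 2
  · rw [if_pos hj, Set.mem_ofPred_eq]
    constructor
    · exact fun h => h.1
    · intro h
      have := ix_lt h
      refine ⟨h, ?_⟩
      interval_cases j
      · rw [decide_eq_true (p := 1088 * 0 + 64 + ix c ≥ 64) (by omega),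
          decide_eq_true (p := 1088 * 0 + 64 + ix c - 64 < 1024) (by omega)]
        rfl
      · rw [decide_eq_true (p := 1088 * 1 + 64 + ix c ≥ 1152) (by omega),
          decide_eq_true (p := 1088 * 1 + 64 + ix c - 1152 < 1024) (by omega)]
        simp
  · rw [if_neg hj]
    simp only [Set.mem_empty_iff_false, iff_false, not_and]
    intro h
    have := ix_lt h
    rw [decide_eq_false (p := 1088 * j + 64 + ix c - 64 < 1024) (by omega),
      decide_eq_false (p := 1088 * j + 64 + ix c - 1152 < 1024) (by omega)]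
    simp

/-- TARGET 11 -/
theorem cell_ix (c : Cell) (h : onB c) : cell (ix c) = c ∧ ix c < 1024 := by
  refine ⟨?_, ix_lt h⟩
  obtain ⟨h1, h2, h3, h4⟩ := h
  unfold cell ix
  ext
  · show (((c.1.toNat + 32 * c.2.toNat) % 32 : ℕ) : ℤ) = c.1
    omega
  · show (((c.1.toNat + 32 * c.2.toNat) / 32 : ℕ) : ℤ) = c.2
    omega

/-- TARGET 12 -/
theorem ix_cell (i : ℕ) (h : i < 1024) : ix (cell i) = i ∧ onB (cell i) := by
  refine ⟨?_, ?_⟩
  · unfold ix cell
    show (((i % 32 : ℕ) : ℤ)).toNat + 32 * (((i / 32 : ℕ) : ℤ)).toNat = i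
    omega
  · unfold onB cell
    show (0 : ℤ) ≤ ((i % 32 : ℕ) : ℤ) ∧ ((i % 32 : ℕ) : ℤ) < 32 ∧ (0 : ℤ) ≤ ((i / 32 : ℕ) : ℤ) ∧
      ((i / 32 : ℕ) : ℤ) < 32
    omega

theorem tb_cm (i q : ℕ) : (cm i).testBit q = decide (q = 64 + i) := by
  unfold cm
  exact tb_shl_one _ _

/-- TARGET 13 -/
theorem blk_cm (j i : ℕ) (h : i < 1024) : blk j (cm i) = if j = 0 then {cell i} else ∅ := by
  ext c
  rw [mem_blk, tb_cm, decide_eq_true_eq]
  by_cases hj : j = 0
  · rw [if_pos hj, Set.mem_singleton_iff]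
    constructor
    · rintro ⟨h1, h2⟩
      have h3 : ix c = i := by omega
      rw [← h3]
      exact (cell_ix c h1).1.symm
    · rintro rfl
      obtain ⟨h1, h2⟩ := ix_cell i h
      refine ⟨h2, ?_⟩
      rw [h1]
      omega
  · rw [if_neg hj]
    simp only [Set.mem_empty_iff_false, iff_false, not_and]
    intro h1
    have := ix_lt h1
    omega

/-- TARGET 14: two masks with no common bit have no common cell -/
theorem land_zero (j X Y : ℕ) (h : Nat.beq (Nat.land X Y) 0 = true) (c : Cell) (h1 : c ∈ blk j X) :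
    c ∉ blk j Y := by
  intro h2
  have h3 : c ∈ blk j (Nat.land X Y) := by
    rw [blk_land]
    exact ⟨h1, h2⟩
  rw [Nat.eq_of_beq_eq_true h] at h3
  rw [mem_blk] at h3
  simp at h3


/-- stride of direction number d -/
def sd (d : ℕ) : ℕ := Nat.land (Nat.shiftRight 0x1F212001 (Nat.shiftLeft d 3)) 255

theorem valid0 : ∀ p < 1024, (blkd 0).testBit p = true → p % 32 + 4 < 32 := by decide +kernel
theorem valid1 : ∀ p < 1024, (blkd 1).testBit p = true → p / 32 + 4 < 32 := by decide +kernel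
theorem valid2 : ∀ p < 1024, (blkd 2).testBit p = true → p % 32 + 4 < 32 ∧ p / 32 + 4 < 32 := by
  decide +kernel
theorem valid3 : ∀ p < 1024, (blkd 3).testBit p = true → 4 ≤ p % 32 ∧ p / 32 + 4 < 32 := by
  decide +kernel

theorem sd0 : sd 0 = 1 := by decide +kernel
theorem sd1 : sd 1 = 32 := by decide +kernel
theorem sd2 : sd 2 = 33 := by decide +kernel
theorem sd3 : sd 3 = 31 := by decide +kernel

theorem win_data (d p : ℕ) (hd : d < 4) (hp : p < 1024) (hv : (blkd d).testBit p = true) :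
    0 < sd d ∧ sd d ≤ 33 ∧ (∀ t, t < 5 → p + t * sd d < 1024) ∧
      ∃ (a D : Cell) (σ : ℕ → ℕ), IsDir D ∧ (∀ t, t < 5 → σ t < 5 ∧ σ (σ t) = t) ∧
        ∀ t, t < 5 → wn a D t = cell (p + σ t * sd d) := by
  interval_cases d
  · have h := valid0 p hp hv
    rw [sd0]
    refine ⟨by norm_num, by norm_num, fun t ht => by omega, cell p, (1, 0), id, Or.inl rfl,
      fun t ht => ⟨ht, rfl⟩, fun t ht => ?_⟩
    unfold wn cell
    ext
    · show ((p % 32 : ℕ) : ℤ) + (t : ℤ) * 1 = (((p + t * 1) % 32 : ℕ) : ℤ)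
      omega
    · show ((p / 32 : ℕ) : ℤ) + (t : ℤ) * 0 = (((p + t * 1) / 32 : ℕ) : ℤ)
      omega
  · have h := valid1 p hp hv
    rw [sd1]
    refine ⟨by norm_num, by norm_num, fun t ht => by omega, cell p, (0, 1), id,
      Or.inr (Or.inl rfl), fun t ht => ⟨ht, rfl⟩, fun t ht => ?_⟩
    unfold wn cell
    ext
    · show ((p % 32 : ℕ) : ℤ) + (t : ℤ) * 0 = (((p + t * 32) % 32 : ℕ) : ℤ)
      omega
    · show ((p / 32 : ℕ) : ℤ) + (t : ℤ) * 1 = (((p + t * 32) / 32 : ℕ) : ℤ)
      omega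
  · have h := valid2 p hp hv
    rw [sd2]
    refine ⟨by norm_num, by norm_num, fun t ht => by omega, cell p, (1, 1), id,
      Or.inr (Or.inr (Or.inl rfl)), fun t ht => ⟨ht, rfl⟩, fun t ht => ?_⟩
    unfold wn cell
    ext
    · show ((p % 32 : ℕ) : ℤ) + (t : ℤ) * 1 = (((p + t * 33) % 32 : ℕ) : ℤ)
      omega
    · show ((p / 32 : ℕ) : ℤ) + (t : ℤ) * 1 = (((p + t * 33) / 32 : ℕ) : ℤ)
      omega
  · have h := valid3 p hp hv
    rw [sd3]
    refine ⟨by norm_num, by norm_num, fun t ht => by omega, cell (p + 4 * 31), (1, -1),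
      fun t => 4 - t, Or.inr (Or.inr (Or.inr rfl)), fun t ht => ⟨by show 4 - t < 5; omega,
      by show 4 - (4 - t) = t; omega⟩, fun t ht => ?_⟩
    unfold wn cell
    ext
    · show (((p + 4 * 31) % 32 : ℕ) : ℤ) + (t : ℤ) * 1 = (((p + (4 - t) * 31) % 32 : ℕ) : ℤ)
      interval_cases t <;> omega
    · show (((p + 4 * 31) / 32 : ℕ) : ℤ) + (t : ℤ) * (-1) = (((p + (4 - t) * 31) / 32 : ℕ) : ℤ)
      interval_cases t <;> omega

/-- direction number -/
def dw (w : ℕ) : ℕ := Nat.land (Nat.shiftRight w 13) 3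

theorem sdw_eq (w : ℕ) : sdw w = sd (dw w) := rfl

theorem land_lt (x n : ℕ) : Nat.land x (2 ^ n - 1) < 2 ^ n := by
  have : Nat.land x (2 ^ n - 1) = x % 2 ^ n := Nat.and_two_pow_sub_one_eq_mod x n
  rw [this]
  exact Nat.mod_lt _ (by positivity)

theorem dw_lt (w : ℕ) : dw w < 4 := land_lt (Nat.shiftRight w 13) 2
theorem pw_lt (w : ℕ) : pw w < 1024 := land_lt (Nat.shiftRight w 3) 10
theorem kw_lt (w : ℕ) : kw w < 8 := land_lt (Nat.shiftRight w 15) 3
theorem jw_lt (w : ℕ) : jw w < 8 := land_lt (Nat.shiftRight w 18) 3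

theorem sd_le (d : ℕ) (hd : d < 4) : sd d ≤ 33 := by
  interval_cases d
  · rw [sd0]; norm_num
  · rw [sd1]; norm_num
  · rw [sd2]
  · rw [sd3]; norm_num

theorem tb_pat (s q : ℕ) : (pat s).testBit q = true ↔ ∃ t < 5, q = t * s := by
  unfold pat
  rw [tb_lor, tb_lor, tb_lor, tb_lor, tb_one, tb_shl_one, tb_shl_one, tb_shl_one, tb_shl_one]
  simp only [Bool.or_eq_true, decide_eq_true_eq]
  constructor
  · rintro (h | h | h | h | h)
    · exact ⟨0, by norm_num, by omega⟩
    · exact ⟨1, by norm_num, by omega⟩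
    · exact ⟨2, by norm_num, h⟩
    · exact ⟨3, by norm_num, h⟩
    · exact ⟨4, by norm_num, h⟩
  · rintro ⟨t, ht, h⟩
    interval_cases t
    · left; omega
    · right; left; omega
    · right; right; left; exact h
    · right; right; right; left; exact h
    · right; right; right; right; exact h

theorem mw_cases (w : ℕ) : mw w = 0 ∨ ((blkd (dw w)).testBit (pw w) = true ∧
    ∀ q, (mw w).testBit q = true ↔ ∃ t < 5, q = 64 + pw w + t * sdw w) := by
  have h1 : Nat.land (Nat.shiftRight (blkd (dw w)) (pw w)) 1 =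
      (Nat.shiftRight (blkd (dw w)) (pw w)) % 2 := Nat.and_one_is_mod _
  rcases Nat.mod_two_eq_zero_or_one (Nat.shiftRight (blkd (dw w)) (pw w)) with h | h
  · left
    show Nat.mul (Nat.land (Nat.shiftRight (blkd (dw w)) (pw w)) 1) _ = 0
    rw [h1, h]
    exact Nat.zero_mul _
  · right
    refine ⟨?_, fun q => ?_⟩
    · have h2 : (Nat.shiftRight (blkd (dw w)) (pw w)).testBit 0 = true := by
        rw [Nat.testBit_zero]
        exact decide_eq_true h
      rw [tb_shr] at h2
      exact h2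
    · have h3 : mw w = Nat.shiftLeft (pat (sdw w)) (Nat.add 64 (pw w)) := by
        show Nat.mul (Nat.land (Nat.shiftRight (blkd (dw w)) (pw w)) 1) _ = _
        rw [h1, h]
        exact Nat.one_mul _
      rw [h3, tb_shl, Bool.and_eq_true, decide_eq_true_eq, tb_pat]
      have h4 : Nat.add 64 (pw w) = 64 + pw w := rfl
      rw [h4]
      constructor
      · rintro ⟨h5, t, ht, h6⟩
        exact ⟨t, ht, by omega⟩
      · rintro ⟨t, ht, h6⟩
        exact ⟨by omega, t, ht, by omega⟩

theorem tb_bw (w q : ℕ) : (bw w).testBit q = decide (q = 64 + pw w + kw w * sdw w) := by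
  unfold bw
  rw [tb_cm]
  have : 64 + Nat.add (pw w) (Nat.mul (kw w) (sdw w)) = 64 + pw w + kw w * sdw w := by
    show 64 + (pw w + kw w * sdw w) = _
    ring
  rw [this]

theorem tb_cw (w q : ℕ) : (cw w).testBit q = decide (q = 64 + pw w + jw w * sdw w) := by
  unfold cw
  rw [tb_cm]
  have : 64 + Nat.add (pw w) (Nat.mul (jw w) (sdw w)) = 64 + pw w + jw w * sdw w := by
    show 64 + (pw w + jw w * sdw w) = _
    ring
  rw [this]

theorem mul_small (k s : ℕ) (hk : k < 8) (hs : s ≤ 33) : k * s ≤ 231 := by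
  calc k * s ≤ 7 * 33 := Nat.mul_le_mul (by omega) hs
    _ = 231 := by norm_num


theorem xor_iff' (a b : Bool) : (a ^^ b) = true ↔ ¬ (a = true ↔ b = true) := by
  cases a <;> cases b <;> simp

theorem tb_salt (x q : ℕ) (hq : 64 ≤ q) :
    (Nat.land x 0xFFFFFFFFFFFFFFFF).testBit q = false := by
  have h : (0xFFFFFFFFFFFFFFFF : ℕ) = 2 ^ 64 - 1 := by norm_num
  rw [h, tb_land, Nat.testBit_two_pow_sub_one, decide_eq_false (by omega), Bool.and_false]

theorem tb_Sm (w q : ℕ) (hq : 64 ≤ q) : (Sm w).testBit q = true ↔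
    (q = 64 + pw w + kw w * sdw w ∨ (1088 ≤ q ∧ q - 1088 = 64 + pw w + jw w * sdw w)) := by
  unfold Sm
  rw [tb_lor, tb_lor, tb_salt _ _ hq, tb_shl, tb_bw, tb_cw]
  simp only [Bool.or_false, Bool.or_eq_true, Bool.and_eq_true, decide_eq_true_eq, ge_iff_le]

theorem cell_mem (j X i : ℕ) (hi : i < 1024) :
    cell i ∈ blk j X ↔ X.testBit (1088 * j + 64 + i) = true := by
  obtain ⟨h1, h2⟩ := ix_cell i hi
  rw [mem_blk, h1]
  exact ⟨fun h => h.2, fun h => ⟨h2, h⟩⟩

theorem cell_inj {i j : ℕ} (hi : i < 1024) (hj : j < 1024) : cell i = cell j ↔ i = j := by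
  constructor
  · intro h
    rw [← (ix_cell i hi).1, ← (ix_cell j hj).1, h]
  · rintro rfl; rfl

/-- equality of sets of board cells, bit by bit -/
theorem blk_ext (j X i0 : ℕ) (hi0 : i0 < 1024) (j' X' : ℕ)
    (h : ∀ i < 1024, X.testBit (1088 * j + 64 + i) = true ↔
      (i = i0 ∨ X'.testBit (1088 * j' + 64 + i) = true)) :
    blk j X = insert (cell i0) (blk j' X') := by
  ext c
  by_cases hc : onB c
  · obtain ⟨h1, h2⟩ := cell_ix c hc
    rw [← h1, Set.mem_insert_iff, cell_mem _ _ _ h2, cell_mem _ _ _ h2, cell_inj h2 hi0]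
    exact h _ h2
  · constructor
    · intro h3
      exact absurd h3.1 hc
    · rintro (h3 | h3)
      · rw [h3] at hc
        exact absurd (ix_cell i0 hi0).2 hc
      · exact absurd h3.1 hc

theorem chk_bits (S w : ℕ) (h : Nat.beq (Nat.land S (Chk w)) (Exp w) = true) (q : ℕ) :
    (S.testBit q = true ∧ ((mw w).testBit q = true ∨ (1088 ≤ q ∧
      (q - 1088 = 64 + pw w + kw w * sdw w ∨ q - 1088 = 64 + pw w + jw w * sdw w)))) ↔
    ¬ ((mw w).testBit q = true ↔
      (q = 64 + pw w + kw w * sdw w ∨ q = 64 + pw w + jw w * sdw w)) := by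
  have h1 : (Nat.land S (Chk w)).testBit q = (Exp w).testBit q := by
    rw [Nat.eq_of_beq_eq_true h]
  rw [tb_land] at h1
  unfold Chk Exp at h1
  rw [tb_lor, tb_xor, tb_shl, tb_lor, tb_lor, tb_bw, tb_cw, tb_bw, tb_cw, Bool.eq_iff_iff,
    xor_iff'] at h1
  simp only [Bool.or_eq_true, Bool.and_eq_true, decide_eq_true_eq, ge_iff_le] at h1
  exact h1

/-- TARGET 15: a forcing step. -/
theorem chk_step (S w : ℕ) (h : Nat.beq (Nat.land S (Chk w)) (Exp w) = true) :
    ∃ (a d : Cell) (i j : ℕ), IsDir d ∧ i < 5 ∧ j < 5 ∧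
      (∀ t, t < 5 → onB (wn a d t)) ∧
      (∀ t, t < 5 → t ≠ i → t ≠ j → wn a d t ∈ blk 0 S) ∧
      wn a d i ∉ blk 0 S ∧ wn a d j ∉ blk 0 S ∧ wn a d i ∉ blk 1 S ∧ wn a d j ∉ blk 1 S ∧
      blk 0 (Nat.xor S (Sm w)) = insert (wn a d i) (blk 0 S) ∧
      blk 1 (Nat.xor S (Sm w)) = insert (wn a d j) (blk 1 S) ∧
      blk 0 (Nat.lor S (bw w)) = insert (wn a d i) (blk 0 S) ∧
      blk 1 (Nat.lor S (bw w)) = blk 1 S ∧
      (∀ KK, Nat.beq (Nat.land KK (Sm w)) 0 = true → wn a d i ∉ blk 0 KK ∧ wn a d j ∉ blk 1 KK) := by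
  have HP := chk_bits S w h
  have hp := pw_lt w
  have hsle : sdw w ≤ 33 := sd_le _ (dw_lt w)
  have hks := mul_small _ _ (kw_lt w) hsle
  have hjs := mul_small _ _ (jw_lt w) hsle
  set p := pw w with hpdef
  set s := sdw w with hsdef
  set k := kw w with hkdef
  set j := jw w with hjdef
  rcases mw_cases w with h0 | ⟨hv, hM⟩
  · exfalso
    have h1 := HP (64 + p + k * s)
    rw [h0, Nat.zero_testBit] at h1
    have h2 := h1.mpr (by simp)
    rcases h2.2 with h3 | ⟨h3, h4 | h4⟩
    · exact absurd h3 (by simp)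
    · omega
    · omega
  · obtain ⟨hs0, -, hw5, a, D, σ, hD, hσ, hwn⟩ := win_data (dw w) p (dw_lt w) hp hv
    simp only [← hpdef, ← hsdef] at hM
    have hseq : sd (dw w) = s := rfl
    rw [hseq] at hs0 hw5 hwn
    have hinj : ∀ t u : ℕ, t * s = u * s → t = u := fun t u htu =>
      Nat.eq_of_mul_eq_mul_right hs0 htu
    have hk5 : k < 5 := by
      by_contra hk
      have h1 := HP (64 + p + k * s)
      have h2 : ¬ (mw w).testBit (64 + p + k * s) = true := by
        rw [hM]
        rintro ⟨t, ht, h3⟩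
        have : k = t := hinj k t (by omega)
        omega
      have h3 := h1.mpr (by
        intro h4
        exact h2 (h4.mpr (Or.inl rfl)))
      rcases h3.2 with h4 | ⟨h4, h5 | h5⟩
      · exact h2 h4
      · omega
      · omega
    have hj5 : j < 5 := by
      by_contra hk
      have h1 := HP (64 + p + j * s)
      have h2 : ¬ (mw w).testBit (64 + p + j * s) = true := by
        rw [hM]
        rintro ⟨t, ht, h3⟩
        have : j = t := hinj j t (by omega)
        omega
      have h3 := h1.mpr (by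
        intro h4
        exact h2 (h4.mpr (Or.inr rfl)))
      rcases h3.2 with h4 | ⟨h4, h5 | h5⟩
      · exact h2 h4
      · omega
      · omega
    have hMt : ∀ t < 5, (mw w).testBit (64 + p + t * s) = true := fun t ht =>
      (hM _).mpr ⟨t, ht, rfl⟩
    have hMbig : ∀ q, 1088 ≤ q → ¬ (mw w).testBit q = true := by
      intro q hq h1
      obtain ⟨t, ht, h2⟩ := (hM q).mp h1
      have := hw5 t ht
      omega
    have hSt : ∀ t < 5, t ≠ k → t ≠ j → S.testBit (64 + p + t * s) = true := by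
      intro t ht htk htj
      refine ((HP (64 + p + t * s)).mpr ?_).1
      intro h1
      rcases h1.mp (hMt t ht) with h2 | h2
      · exact htk (hinj t k (by omega))
      · exact htj (hinj t j (by omega))
    have hSk : ¬ S.testBit (64 + p + k * s) = true := by
      intro h1
      exact ((HP (64 + p + k * s)).mp ⟨h1, Or.inl (hMt k hk5)⟩)
        ⟨fun _ => Or.inl rfl, fun _ => hMt k hk5⟩
    have hSj : ¬ S.testBit (64 + p + j * s) = true := by
      intro h1
      exact ((HP (64 + p + j * s)).mp ⟨h1, Or.inl (hMt j hj5)⟩)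
        ⟨fun _ => Or.inr rfl, fun _ => hMt j hj5⟩
    have hpk : p + k * s < 1024 := hw5 k hk5
    have hpj : p + j * s < 1024 := hw5 j hj5
    have hSk1 : ¬ S.testBit (1088 + (64 + p + k * s)) = true := by
      intro h1
      refine ((HP (1088 + (64 + p + k * s))).mp ⟨h1, Or.inr ⟨by omega, Or.inl (by omega)⟩⟩) ?_
      constructor
      · intro h2
        exact absurd h2 (hMbig _ (by omega))
      · rintro (h2 | h2) <;> omega
    have hSj1 : ¬ S.testBit (1088 + (64 + p + j * s)) = true := by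
      intro h1
      refine ((HP (1088 + (64 + p + j * s))).mp ⟨h1, Or.inr ⟨by omega, Or.inr (by omega)⟩⟩) ?_
      constructor
      · intro h2
        exact absurd h2 (hMbig _ (by omega))
      · rintro (h2 | h2) <;> omega
    have hwk : wn a D (σ k) = cell (p + k * s) := by
      rw [hwn (σ k) (hσ k hk5).1, (hσ k hk5).2]
    have hwj : wn a D (σ j) = cell (p + j * s) := by
      rw [hwn (σ j) (hσ j hj5).1, (hσ j hj5).2]
    refine ⟨a, D, σ k, σ j, hD, (hσ k hk5).1, (hσ j hj5).1, ?_, ?_, ?_, ?_, ?_, ?_, ?_, ?_, ?_, ?_, ?_⟩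
    · intro t ht
      rw [hwn t ht]
      exact (ix_cell _ (hw5 _ (hσ t ht).1)).2
    · intro t ht htk htj
      rw [hwn t ht, cell_mem _ _ _ (hw5 _ (hσ t ht).1)]
      have h1 : 1088 * 0 + 64 + (p + σ t * s) = 64 + p + σ t * s := by ring
      rw [h1]
      apply hSt _ (hσ t ht).1
      · intro h2
        apply htk
        rw [← h2, (hσ t ht).2]
      · intro h2
        apply htj
        rw [← h2, (hσ t ht).2]
    · rw [hwk, cell_mem _ _ _ hpk]
      have h1 : 1088 * 0 + 64 + (p + k * s) = 64 + p + k * s := by ring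
      rw [h1]
      exact hSk
    · rw [hwj, cell_mem _ _ _ hpj]
      have h1 : 1088 * 0 + 64 + (p + j * s) = 64 + p + j * s := by ring
      rw [h1]
      exact hSj
    · rw [hwk, cell_mem _ _ _ hpk]
      have h1 : 1088 * 1 + 64 + (p + k * s) = 1088 + (64 + p + k * s) := by ring
      rw [h1]
      exact hSk1
    · rw [hwj, cell_mem _ _ _ hpj]
      have h1 : 1088 * 1 + 64 + (p + j * s) = 1088 + (64 + p + j * s) := by ring
      rw [h1]
      exact hSj1
    · rw [hwk]
      apply blk_ext _ _ _ hpk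
      intro i hi
      rw [tb_xor, xor_iff', tb_Sm _ _ (by omega), ← hpdef, ← hsdef, ← hkdef, ← hjdef]
      by_cases hik : i = p + k * s
      · subst hik
        have h1 : 1088 * 0 + 64 + (p + k * s) = 64 + p + k * s := by ring
        rw [h1]
        simp [hSk]
      · have h2 : ¬ (1088 * 0 + 64 + i = 64 + p + k * s ∨
            (1088 ≤ 1088 * 0 + 64 + i ∧ 1088 * 0 + 64 + i - 1088 = 64 + p + j * s)) := by
          rintro (h3 | h3) <;> omega
        simp only [h2, hik, false_or, iff_false, not_not]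
    · rw [hwj]
      apply blk_ext _ _ _ hpj
      intro i hi
      rw [tb_xor, xor_iff', tb_Sm _ _ (by omega), ← hpdef, ← hsdef, ← hkdef, ← hjdef]
      by_cases hik : i = p + j * s
      · subst hik
        have h1 : 1088 * 1 + 64 + (p + j * s) = 1088 + (64 + p + j * s) := by ring
        rw [h1]
        have h2 : (1088 + (64 + p + j * s) = 64 + p + k * s ∨
            (1088 ≤ 1088 + (64 + p + j * s) ∧
              1088 + (64 + p + j * s) - 1088 = 64 + p + j * s)) :=
          Or.inr ⟨by omega, by omega⟩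
        simp only [h2, hSj1, iff_true, true_or]
        simp
      · have h2 : ¬ (1088 * 1 + 64 + i = 64 + p + k * s ∨
            (1088 ≤ 1088 * 1 + 64 + i ∧ 1088 * 1 + 64 + i - 1088 = 64 + p + j * s)) := by
          rintro (h3 | h3) <;> omega
        simp only [h2, hik, false_or, iff_false, not_not]
    · rw [hwk]
      apply blk_ext _ _ _ hpk
      intro i hi
      rw [tb_lor, Bool.or_eq_true, tb_bw, decide_eq_true_eq, ← hpdef, ← hsdef, ← hkdef]
      constructor
      · rintro (h1 | h1)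
        · exact Or.inr h1
        · exact Or.inl (by omega)
      · rintro (h1 | h1)
        · exact Or.inr (by omega)
        · exact Or.inl h1
    · ext c
      rw [mem_blk, mem_blk, tb_lor, Bool.or_eq_true, tb_bw, decide_eq_true_eq, ← hpdef, ← hsdef,
        ← hkdef]
      constructor
      · rintro ⟨h1, h2 | h2⟩
        · exact ⟨h1, h2⟩
        · omega
      · rintro ⟨h1, h2⟩
        exact ⟨h1, Or.inl h2⟩
    · intro KK hKK
      have h0 : ∀ q, ¬ (KK.testBit q = true ∧ (Sm w).testBit q = true) := by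
        intro q hq
        have h1 : (Nat.land KK (Sm w)).testBit q = true := by
          rw [tb_land, hq.1, hq.2]; rfl
        rw [Nat.eq_of_beq_eq_true hKK, Nat.zero_testBit] at h1
        exact absurd h1 (by simp)
      have hSm := tb_Sm w
      simp only [← hpdef, ← hsdef, ← hkdef, ← hjdef] at hSm
      constructor
      · rw [hwk, cell_mem _ _ _ hpk]
        intro h1
        exact h0 _ ⟨h1, (hSm _ (by omega)).mpr (Or.inl (by omega))⟩
      · rw [hwj, cell_mem _ _ _ hpj]
        intro h1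
        exact h0 _ ⟨h1, (hSm _ (by omega)).mpr (Or.inr ⟨by omega, by omega⟩)⟩

theorem chkF_bits (S w : ℕ) (h : Nat.beq (Nat.land S (ChkF w)) (ExpF w) = true) (q : ℕ) :
    (S.testBit q = true ∧ ((mw w).testBit q = true ∨ (1088 ≤ q ∧
      q - 1088 = 64 + pw w + kw w * sdw w))) ↔
    ¬ ((mw w).testBit q = true ↔ q = 64 + pw w + kw w * sdw w) := by
  have h1 : (Nat.land S (ChkF w)).testBit q = (ExpF w).testBit q := by
    rw [Nat.eq_of_beq_eq_true h]
  rw [tb_land] at h1
  unfold ChkF ExpF at h1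
  rw [tb_lor, tb_xor, tb_shl, tb_bw, tb_bw, Bool.eq_iff_iff, xor_iff'] at h1
  simp only [Bool.or_eq_true, Bool.and_eq_true, decide_eq_true_eq, ge_iff_le] at h1
  exact h1

/-- TARGET 16: a five. -/
theorem chk_five (S w : ℕ) (h : Nat.beq (Nat.land S (ChkF w)) (ExpF w) = true) :
    ∃ (a d : Cell) (i : ℕ), IsDir d ∧ i < 5 ∧
      (∀ t, t < 5 → onB (wn a d t)) ∧
      (∀ t, t < 5 → t ≠ i → wn a d t ∈ blk 0 S) ∧
      wn a d i ∉ blk 0 S ∧ wn a d i ∉ blk 1 S ∧ wn a d i ∈ blk 0 (bw w) := by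
  have HP := chkF_bits S w h
  have hp := pw_lt w
  have hsle : sdw w ≤ 33 := sd_le _ (dw_lt w)
  have hks := mul_small _ _ (kw_lt w) hsle
  set p := pw w with hpdef
  set s := sdw w with hsdef
  set k := kw w with hkdef
  rcases mw_cases w with h0 | ⟨hv, hM⟩
  · exfalso
    have h1 := HP (64 + p + k * s)
    rw [h0, Nat.zero_testBit] at h1
    have h2 := h1.mpr (by simp)
    rcases h2.2 with h3 | ⟨h3, h4⟩
    · exact absurd h3 (by simp)
    · omega
  · obtain ⟨hs0, -, hw5, a, D, σ, hD, hσ, hwn⟩ := win_data (dw w) p (dw_lt w) hp hv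
    simp only [← hpdef, ← hsdef] at hM
    have hseq : sd (dw w) = s := rfl
    rw [hseq] at hs0 hw5 hwn
    have hinj : ∀ t u : ℕ, t * s = u * s → t = u := fun t u htu =>
      Nat.eq_of_mul_eq_mul_right hs0 htu
    have hk5 : k < 5 := by
      by_contra hk
      have h1 := HP (64 + p + k * s)
      have h2 : ¬ (mw w).testBit (64 + p + k * s) = true := by
        rw [hM]
        rintro ⟨t, ht, h3⟩
        have : k = t := hinj k t (by omega)
        omega
      have h3 := h1.mpr (by
        intro h4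
        exact h2 (h4.mpr rfl))
      rcases h3.2 with h4 | ⟨h4, h5⟩
      · exact h2 h4
      · omega
    have hMt : ∀ t < 5, (mw w).testBit (64 + p + t * s) = true := fun t ht =>
      (hM _).mpr ⟨t, ht, rfl⟩
    have hMbig : ∀ q, 1088 ≤ q → ¬ (mw w).testBit q = true := by
      intro q hq h1
      obtain ⟨t, ht, h2⟩ := (hM q).mp h1
      have := hw5 t ht
      omega
    have hSt : ∀ t < 5, t ≠ k → S.testBit (64 + p + t * s) = true := by
      intro t ht htk
      refine ((HP (64 + p + t * s)).mpr ?_).1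
      intro h1
      have h2 := h1.mp (hMt t ht)
      exact htk (hinj t k (by omega))
    have hSk : ¬ S.testBit (64 + p + k * s) = true := by
      intro h1
      exact ((HP (64 + p + k * s)).mp ⟨h1, Or.inl (hMt k hk5)⟩)
        ⟨fun _ => rfl, fun _ => hMt k hk5⟩
    have hpk : p + k * s < 1024 := hw5 k hk5
    have hSk1 : ¬ S.testBit (1088 + (64 + p + k * s)) = true := by
      intro h1
      refine ((HP (1088 + (64 + p + k * s))).mp ⟨h1, Or.inr ⟨by omega, by omega⟩⟩) ?_
      constructor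
      · intro h2
        exact absurd h2 (hMbig _ (by omega))
      · intro h2; omega
    have hwk : wn a D (σ k) = cell (p + k * s) := by
      rw [hwn (σ k) (hσ k hk5).1, (hσ k hk5).2]
    refine ⟨a, D, σ k, hD, (hσ k hk5).1, ?_, ?_, ?_, ?_, ?_⟩
    · intro t ht
      rw [hwn t ht]
      exact (ix_cell _ (hw5 _ (hσ t ht).1)).2
    · intro t ht htk
      rw [hwn t ht, cell_mem _ _ _ (hw5 _ (hσ t ht).1)]
      have h1 : 1088 * 0 + 64 + (p + σ t * s) = 64 + p + σ t * s := by ring
      rw [h1]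
      apply hSt _ (hσ t ht).1
      intro h2
      apply htk
      rw [← h2, (hσ t ht).2]
    · rw [hwk, cell_mem _ _ _ hpk]
      have h1 : 1088 * 0 + 64 + (p + k * s) = 64 + p + k * s := by ring
      rw [h1]
      exact hSk
    · rw [hwk, cell_mem _ _ _ hpk]
      have h1 : 1088 * 1 + 64 + (p + k * s) = 1088 + (64 + p + k * s) := by ring
      rw [h1]
      exact hSk1
    · rw [hwk, cell_mem _ _ _ hpk, tb_bw, decide_eq_true_eq, ← hpdef, ← hsdef, ← hkdef]
      ring

end Pool.Agent.Helper225.G
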