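import Pool.Agent.Helper225.GNode

set_option autoImplicit false

namespace Pool.Agent.Helper225.G

theorem runT_soundT (Q : HS) (T : ℕ → ℕ) (F : ℕ) (hF : 266 ≤ F)
    (hT : ∀ i S, Nat.land S NS2 = T i → MW Q F S) (FX Y BAD XX XW sX s S : ℕ)
    (h : runT T FX Y BAD XX XW sX s S = true) (hck : CkOK Q (chkX FX Y XW sX))
    (hV : Q.Vis = visOf BAD) (hH : Q.HH ⊆ blk 0 FX) (hX : Q.XX = blk 0 XX) :
    MW Q (F + 250) S := by
  unfold runT at h
  obtain ⟨h1, h⟩ := C8.cnd_true h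
  obtain ⟨hb, h1⟩ := C8.cnd_true h1
  obtain ⟨-, hs⟩ := C8.cnd_true h1
  obtain ⟨k1, k2, k3⟩ := mkK_facts FX BAD XX
  have hK : KOK Q (mkK FX BAD XX) 0 := by
    refine ⟨?_, ?_, ?_, ?_, ?_⟩
    · intro c hc hcv
      rw [hV] at hcv
      have hcb : c ∈ blk 0 BAD := by
        by_contra hcon
        exact hcv ⟨hc, hcon⟩
      exact ⟨(k1 c (Or.inr hcb)).1, (k1 c (Or.inr hcb)).2, k2 c hcb⟩
    · intro c hc _
      exact k1 c (Or.inl (hH hc))
    · intro c hc
      rw [bitFacts.zero, bitFacts.zero] at hc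
      rcases hc with h | h <;> exact absurd h (by simp)
    · intro c hc hcx
      rw [hX] at hcx
      exact k3 c hc hcx
    · exact ⟨bitFacts.zero 0, bitFacts.zero 1⟩
  have hR := (vr_spec Q (chkX FX Y XW sX) hck 200).1
  have hm := (mn_spec bitFacts winFacts and3Fact Q (chkX FX Y XW sX) (push_fact Q _ hck) hR
    T F hF hT (mkK FX BAD XX) hK 250).1
  obtain ⟨s', Z', acc', n', hk, hg⟩ := hm s S 0 0 NE _ h
  refine (hg (hck _ hk)).2 ⟨?_, ?_⟩
  · intro c hc
    rw [hV]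
    refine ⟨hc.1, ?_⟩
    have := land_zero 0 S _ hs c hc
    rw [blk_lor] at this
    intro hcb
    exact this (Or.inl hcb)
  · intro c hc
    rw [hV]
    refine ⟨hc.1, ?_⟩
    have := land_zero 1 S _ hs c hc
    rw [blk_lor, bitFacts.shl1 0] at this
    intro hcb
    exact this (Or.inr hcb)


noncomputable def Q0 : HS := S9.simpleHS 0 0 BORD (bad_of_sub (by decide +kernel))

/-- the position is won -/
def PosP (F : ℕ) (b w : List ℕ) : Prop := MW Q0 F (stG b w)

theorem MW.mono {Q : HS} {F F' S : ℕ} (h : F ≤ F') (hm : MW Q F S) : MW Q F' S :=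
  fun n P H B W h1 h2 h3 h4 => win_mono_n (by omega) (hm n P H B W h1 h2 h3 h4)

theorem PosP.mono {F F' : ℕ} (h : F ≤ F') {b w : List ℕ} (hm : PosP F b w) : PosP F' b w :=
  MW.mono h hm

theorem tb_cases (L : List (List ℕ × List ℕ)) (i : ℕ) :
    tb L i = 1 ∨ ∃ p ∈ L, tb L i = stG p.1 p.2 := by
  induction L generalizing i with
  | nil => exact Or.inl rfl
  | cons a L ih =>
    cases i with
    | zero => exact Or.inr ⟨a, List.mem_cons_self, rfl⟩
    | succ i =>
      rcases ih i with h | ⟨p, h1, h2⟩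
      · exact Or.inl h
      · exact Or.inr ⟨p, List.mem_cons_of_mem _ h1, h2⟩

theorem blk_eq_NS2 {j S N : ℕ} (hj : j < 2) (h : Nat.land S NS2 = N) : blk j S = blk j N := by
  rw [← h, blk_land, blk_NS2, if_pos hj]
  ext c
  exact ⟨fun hc => ⟨hc, hc.1⟩, fun hc => hc.1⟩

theorem pos_of_cert {F : ℕ} (hF : 266 ≤ F) {L : List (List ℕ × List ℕ)} {b w : List ℕ}
    (h : CertP L b w) (hL : ∀ p ∈ L, PosP F p.1 p.2) : PosP (F + 250) b w := by
  obtain ⟨s, hs⟩ := h
  refine runT_soundT Q0 (tb L) F hF ?_ 0 0 BORD 0 0 1 s _ hs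
    (fun a ha i => (C8.chkX_sound 0 0 0 1 a (1, 0) (Or.inl ⟨rfl, rfl⟩) ha i).1) rfl
    (fun c hc => hc) (by
      change (∅ : Set Cell) = blk 0 0
      rw [bitFacts.zero])
  intro i S hS
  rcases tb_cases L i with h | ⟨p, hp, h⟩
  · exfalso
    rw [h] at hS
    have h3 : (Nat.land S NS2).testBit 0 = true := by rw [hS]; exact Nat.testBit_one_zero
    rw [tb_land] at h3
    have h4 : NS2.testBit 0 = false := by decide +kernel
    rw [h4] at h3
    simp at h3
  · rw [h] at hS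
    intro n P H B W h1 h2 h3 h4
    refine hL p hp n P H B W h1 ?_ ?_ h4
    · rw [h2, blk_eq_NS2 (by norm_num) hS]
    · rw [← blk_eq_NS2 (by norm_num) hS]; exact h3

theorem winL_of_pos {F : ℕ} {b w : List ℕ} (h : PosP F b w) (ok : okL b w = true) :
    WinL F b w := by
  obtain ⟨h1, h2, h3⟩ := okL_lt ok
  obtain ⟨e0, e1⟩ := blk_stG h1 h2
  refine h 0 ∅ ∅ (cells b) (cells w) ⟨rfl, simpleOK_empty 0⟩ (by rw [e0, Set.union_empty])
    (by rw [e1, Set.union_empty]) (okL_disj ok)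

end Pool.Agent.Helper225.G
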