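import Pool.Agent.Helper225.GCase2c
import Pool.Agent.Helper225.GTab

set_option autoImplicit false

namespace Pool.Agent.Helper225.G

theorem cells_II : cells [528, 495] = {((15 : ℤ), (15 : ℤ)), (16, 16)} := by
  rw [cells_cons, cells_cons, cells_nil, insert_empty_eq, cell_528, cell_495, Set.pair_comm]

theorem lineP_of {X XW sX : ℕ} (h : CertK X XW sX [528, 495] []) (a b m : ℤ)
    (hl : ∃ eX, StrideOf eX sX ∧
      LineOK X (Nat.lor BORD X) X XW eX (m + 3, a + b * (m + 3)) (-1, -b))
    (hX : (Nat.testBit X (64 + 528) || Nat.testBit X (64 + 495)) = false) :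
    LineP a b (-b) m := by
  obtain ⟨eX, he, hl⟩ := hl
  rw [Bool.or_eq_false_iff] at hX
  intro x hx k hk1 hk4
  have := line_win' h he hl (by decide) (by
    intro i hi
    rcases List.mem_cons.1 hi with rfl | hi
    · exact hX.1
    · rcases List.mem_cons.1 hi with rfl | hi
      · exact hX.2
      · exact absurd hi (by simp)) (m - x) (by omega) k hk1 hk4
  rw [cells_II] at this
  have e0 : lc (m + 3, a + b * (m + 3)) (-1, -b) (m - x + 3) = (x, a + b * x) := by
    unfold lc
    simp only [Prod.mk.injEq]
    constructor <;> ring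
  have e1 : lc (m + 3, a + b * (m + 3)) (-1, -b) (m - x + 3 + k) =
      (x + k * (-1), a + b * x + k * (-b)) := by
    unfold lc
    simp only [Prod.mk.injEq]
    constructor <;> ring
  rw [e0, e1] at this
  exact this

theorem pw_of {k l : ℕ} (h : CertG 0 [528, 495] [l, k]) (ok : okL [528, 495] [l, k] = true)
    (c e : Cell) (n : ℤ) (hk : cell k = c) (hl : cell l = (c.1 + n * e.1, c.2 + n * e.2)) :
    PW c e n := by
  have := winL_of_cert h ok
  unfold WinL at this
  rw [cells_II, cells_cons, cells_cons, cells_nil, insert_empty_eq, Set.pair_comm (cell l) (cell k),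
    hk, hl] at this
  exact this

theorem cls_to_win {n k : ℕ} (h : WinL n [495] [k]) (c : Cell) (hc : cell k = c) :
    Win n {((15 : ℤ), (15 : ℤ))} {c} := by
  unfold WinL at h
  rw [cells_cons, cells_cons, cells_nil, insert_empty_eq, insert_empty_eq, cell_495, hc] at h
  exact h

def sameL (a b : List ℕ) : Bool := a.all (fun i => b.any (fun k => Nat.beq i k)) &&
  b.all (fun i => a.any (fun k => Nat.beq i k))

theorem sameL_cells {a b : List ℕ} (h : sameL a b = true) : cells a = cells b := by
  unfold sameL at h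
  rw [Bool.and_eq_true, List.all_eq_true, List.all_eq_true] at h
  ext c
  constructor
  · rintro ⟨i, hi, rfl⟩
    have := h.1 i hi
    rw [List.any_eq_true] at this
    obtain ⟨k, hk, h'⟩ := this
    rw [Nat.beq_eq] at h'
    exact ⟨k, hk, by rw [h']⟩
  · rintro ⟨i, hi, rfl⟩
    have := h.2 i hi
    rw [List.any_eq_true] at this
    obtain ⟨k, hk, h'⟩ := this
    rw [Nat.beq_eq] at h'
    exact ⟨k, hk, by rw [h']⟩

theorem WinL.conv {n : ℕ} {b w : List ℕ} (h : WinL n b w) {b' w' : List ℕ}
    (hs : (sameL b b' && sameL w w') = true) : WinL n b' w' := by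
  rw [Bool.and_eq_true] at hs
  unfold WinL at h ⊢
  rw [← sameL_cells hs.1, ← sameL_cells hs.2]
  exact h

end Pool.Agent.Helper225.G
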