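import Pool.Agent.Helper225.GRoot

set_option autoImplicit false

namespace Pool.Agent.Helper225.G

/-- the region of the far first moves of Second -/
def Sec : Set Cell := {c | ∃ u v : ℤ, 6 ≤ u ∧ v ≤ u ∧ (v = -1 ∨ v = 0 ∨ 2 ≤ v) ∧ c = (15 - u, 15 - v)}

/-- the pair c, c + k e is won -/
def PW (c e : Cell) (k : ℤ) : Prop :=
  Win 520 {(15, 15), (16, 16)} {c, (c.1 + k * e.1, c.2 + k * e.2)}

theorem cell_528 : cell 528 = (16, 16) := by decide

theorem b0II : blk 0 stII = {((15 : ℤ), (15 : ℤ)), (16, 16)} := by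
  rw [blk_stII.1, cell_495, cell_528]

/-- the part of Sec on the board, by number -/
def secB (i : ℕ) : Bool :=
  Nat.ble (i % 32) 9 && (Nat.beq (i / 32) 16 ||
    (Nat.ble (i / 32) 15 && !(Nat.beq (i / 32) 14) && Nat.ble (i % 32) (i / 32)))

theorem secB_of {y : Cell} (hy : y ∈ Sec) (hb : onB y) : secB (ix y) = true := by
  obtain ⟨u, v, hu, hvu, hv, rfl⟩ := hy
  obtain ⟨h1, h2, h3, h4⟩ := hb
  simp only at h1 h2 h3 h4
  unfold secB ix
  simp only
  have e1 : ((15 - u).toNat + 32 * (15 - v).toNat) % 32 = (15 - u).toNat := by omega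
  have e2 : ((15 - u).toNat + 32 * (15 - v).toNat) / 32 = (15 - v).toNat := by omega
  rw [e1, e2]
  have a1 : Nat.ble (15 - u).toNat 9 = true := by
    rw [Nat.ble_eq]; omega
  rw [a1, Bool.true_and]
  rcases hv with hv | hv
  · have : Nat.beq (15 - v).toNat 16 = true := by
      rw [hv]; decide
    rw [this, Bool.true_or]
  · have a2 : Nat.ble (15 - v).toNat 15 = true := by
      rw [Nat.ble_eq]; omega
    have a3 : Nat.beq (15 - v).toNat 14 = false := by
      rw [← Bool.not_eq_true, Nat.beq_eq]; omega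
    have a4 : Nat.ble (15 - u).toNat (15 - v).toNat = true := by
      rw [Nat.ble_eq]; omega
    rw [a2, a3, a4]
    simp

/-- noncommon pairs -/
theorem case2_nc (LF : List ℕ) (SECM : ℕ) (hne : LF ≠ []) (hF : ∀ FX ∈ LF, CertF FX)
    (hsec : ∀ i < 1024, secB i = true → SECM.testBit (64 + i) = true)
    (hs : ∀ FX ∈ LF, Nat.beq (Nat.land SECM FX) SECM = true) (hc : covB LF [] 528 528 = true)
    (y z : Cell) (hy : y ∈ Sec) (hz0 : z ≠ (15, 15)) (hz1 : z ≠ (16, 16))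
    (hnc : ∀ a d, IsDir d → cnt a d {y, z} ≤ 1) :
    Win 516 {(15, 15), (16, 16)} {y, z} := by
  have hy0 : y ≠ (15, 15) := by
    obtain ⟨u, v, hu, hvu, hv, rfl⟩ := hy
    intro h
    have := congrArg Prod.fst h
    simp only at this
    omega
  have hy1 : y ≠ (16, 16) := by
    obtain ⟨u, v, hu, hvu, hv, rfl⟩ := hy
    intro h
    have := congrArg Prod.fst h
    simp only at this
    omega
  have use : ∀ FX ∈ LF, (onB z → z ∈ blk 0 FX) → Win 516 {(15, 15), (16, 16)} {y, z} := by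
    intro FX hFX hz
    obtain ⟨s, hcs⟩ := hF FX hFX
    have hyF : onB y → y ∈ blk 0 FX := by
      intro hb
      refine ⟨hb, ?_⟩
      have h1 := hsec (ix y) (ix_lt hb) (secB_of hy hb)
      have h2 := Nat.eq_of_beq_eq_true (hs FX hFX)
      rw [← h2, tb_land, Bool.and_eq_true] at h1
      simpa using h1.2
    have := simple_win hcs {y, z} (simpleOK_two hyF hz hnc) (by
      rw [b0II, blk_stII.2, Set.empty_union, Set.disjoint_left]
      intro c hc hc'
      rw [Set.mem_insert_iff, Set.mem_singleton_iff] at hc hc'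
      rcases hc with hc | hc <;> rcases hc' with hc' | hc'
      · exact hy0 (hc'.symm.trans hc)
      · exact hz0 (hc'.symm.trans hc)
      · exact hy1 (hc'.symm.trans hc)
      · exact hz1 (hc'.symm.trans hc))
    rwa [b0II, blk_stII.2, Set.empty_union] at this
  by_cases hb : onB z
  · obtain ⟨hcell, hlt⟩ := cell_ix z hb
    rcases covB_sound hc (ix z) hlt with h | h | h | h | ⟨FX, hFX, h⟩
    · exact absurd (hcell.symm.trans (by rw [h, cell_495])) hz0
    · exact absurd (hcell.symm.trans (by rw [h, cell_528])) hz1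
    · exact absurd (hcell.symm.trans (by rw [h, cell_528])) hz1
    · exact absurd h (by simp)
    · exact use FX hFX (fun _ => ⟨hb, by simpa using h⟩)
  · obtain ⟨FX, L', rfl⟩ := List.exists_cons_of_ne_nil hne
    exact use FX List.mem_cons_self (fun h => absurd h hb)

/-- two cells of a common window -/
theorem common_cases (y z : Cell) (h : ¬ ∀ a d, IsDir d → cnt a d {y, z} ≤ 1) :
    ∃ (d : Cell) (k : ℤ), IsDir d ∧ 1 ≤ k ∧ k ≤ 4 ∧
      (z = (y.1 + k * d.1, y.2 + k * d.2) ∨ y = (z.1 + k * d.1, z.2 + k * d.2)) := by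
  push Not at h
  obtain ⟨a, d, hd, hc⟩ := h
  unfold cnt at hc
  obtain ⟨s, hs, t, ht, hst⟩ := Finset.one_lt_card.1 hc
  have hs1 : s < 5 ∧ (wn a d s = y ∨ wn a d s = z) := by
    have := (@Finset.mem_filter _ _ (_) _ _).1 hs
    exact ⟨Finset.mem_range.1 this.1, this.2⟩
  have ht1 : t < 5 ∧ (wn a d t = y ∨ wn a d t = z) := by
    have := (@Finset.mem_filter _ _ (_) _ _).1 ht
    exact ⟨Finset.mem_range.1 this.1, this.2⟩
  have hinj : wn a d s ≠ wn a d t := fun h => hst (S9.wn_inj hd h)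
  obtain ⟨hs5, hs⟩ := hs1
  obtain ⟨ht5, ht⟩ := ht1
  have key : ∀ (s t : ℕ) (p q : Cell), s < 5 → t < 5 → s < t → wn a d s = p → wn a d t = q →
      ∃ k : ℤ, 1 ≤ k ∧ k ≤ 4 ∧ q = (p.1 + k * d.1, p.2 + k * d.2) := by
    intro s t p q hs5 ht5 hst hp hq
    refine ⟨(t : ℤ) - s, by omega, by omega, ?_⟩
    rw [← hp, ← hq]
    unfold wn
    simp only [Prod.mk.injEq]
    constructor <;> ring
  rcases hs with hs | hs <;> rcases ht with ht | ht
  · exact absurd (hs.trans ht.symm) hinj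
  · rcases lt_or_gt_of_ne hst with hlt | hlt
    · obtain ⟨k, h1, h2, h3⟩ := key s t y z hs5 ht5 hlt hs ht
      exact ⟨d, k, hd, h1, h2, Or.inl h3⟩
    · obtain ⟨k, h1, h2, h3⟩ := key t s z y ht5 hs5 hlt ht hs
      exact ⟨d, k, hd, h1, h2, Or.inr h3⟩
  · rcases lt_or_gt_of_ne hst with hlt | hlt
    · obtain ⟨k, h1, h2, h3⟩ := key s t z y hs5 ht5 hlt hs ht
      exact ⟨d, k, hd, h1, h2, Or.inr h3⟩
    · obtain ⟨k, h1, h2, h3⟩ := key t s y z ht5 hs5 hlt ht hs
      exact ⟨d, k, hd, h1, h2, Or.inl h3⟩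
  · exact absurd (hs.trans ht.symm) hinj

/-- the region seen by the tree for far pairs -/
def D27 : Set Cell := {c | 10 ≤ c.1 ∧ c.1 ≤ 27 ∧ 10 ≤ c.2 ∧ c.2 ≤ 27}

def CertS (M : ℕ) : Prop := ∃ s, runT (fun _ => 1) M 0 M 0 0 1 s stII = true

theorem lc_add (c e : Cell) (g k : ℤ) :
    lc (c.1 - 3 * e.1, c.2 - 3 * e.2) e (3 + k) = (c.1 + k * e.1, c.2 + k * e.2) := by
  unfold lc
  simp only [Prod.mk.injEq]
  constructor <;> ring

/-- far pairs on a line that does not meet D27 beyond them -/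
theorem s3_pair {M : ℕ} (hM : CertS M)
    (hbits : ∀ i < 1024, ¬ (10 ≤ i % 32 ∧ i % 32 ≤ 27 ∧ 10 ≤ i / 32 ∧ i / 32 ≤ 27) →
      M.testBit (64 + i) = true) (c e : Cell) (hd : IsDir e ∨ IsDir (-e.1, -e.2))
    (hK : ∀ t : ℤ, -3 ≤ t → (c.1 + t * e.1, c.2 + t * e.2) ∉ D27) (k : ℤ) (hk1 : 1 ≤ k)
    (hk4 : k ≤ 4) : PW c e k := by
  obtain ⟨s, hs⟩ := hM
  have hnD : ∀ t : ℤ, 0 ≤ t → lc (c.1 - 3 * e.1, c.2 - 3 * e.2) e t ∉ D27 := by
    intro t ht
    have := hK (t - 3) (by omega)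
    have e1 : lc (c.1 - 3 * e.1, c.2 - 3 * e.2) e t = (c.1 + (t - 3) * e.1, c.2 + (t - 3) * e.2) := by
      unfold lc
      simp only [Prod.mk.injEq]
      constructor <;> ring
    rw [e1]; exact this
  have hbad : ∀ t : ℤ, 0 ≤ t → onB (lc (c.1 - 3 * e.1, c.2 - 3 * e.2) e t) →
      lc (c.1 - 3 * e.1, c.2 - 3 * e.2) e t ∈ blk 0 M := by
    intro t ht hb
    have h1 := hnD t ht
    generalize lc (c.1 - 3 * e.1, c.2 - 3 * e.2) e t = p at h1 hb ⊢
    refine ⟨hb, ?_⟩
    have := hbits (ix p) (ix_lt hb) (by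
      rintro ⟨a1, a2, a3, a4⟩
      apply h1
      obtain ⟨b1, b2, b3, b4⟩ := hb
      unfold ix at a1 a2 a3 a4
      have c1 : (p.1.toNat + 32 * p.2.toNat) % 32 = p.1.toNat := by omega
      have c2 : (p.1.toNat + 32 * p.2.toNat) / 32 = p.2.toNat := by omega
      rw [c1] at a1 a2
      rw [c2] at a3 a4
      refine ⟨?_, ?_, ?_, ?_⟩ <;> omega)
    simpa using this
  have hl : LineOK M M 0 0 (1, 0) (c.1 - 3 * e.1, c.2 - 3 * e.2) e := by
    refine ⟨hd, fun t ht hb => ⟨hbad t ht hb, hbad t ht hb⟩, ?_, Or.inl (bitFacts.zero 0)⟩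
    intro p hp
    rw [bitFacts.zero] at hp
    exact absurd hp (by simp)
  have := line_win hs (Or.inl ⟨rfl, rfl⟩) hl 0 le_rfl k hk1 hk4 (by
    rw [b0II, blk_stII.2, Set.empty_union, Set.disjoint_left]
    intro p hp hp'
    have hpD : p ∈ D27 := by
      rw [Set.mem_insert_iff, Set.mem_singleton_iff] at hp
      rcases hp with hp | hp <;> rw [hp] <;> refine ⟨?_, ?_, ?_, ?_⟩ <;> norm_num
    rw [Set.mem_insert_iff, Set.mem_singleton_iff] at hp'
    rcases hp' with hp' | hp'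
    · exact hnD _ (by norm_num) (hp' ▸ hpD)
    · exact hnD _ (by omega) (hp' ▸ hpD))
  rw [b0II, blk_stII.2, Set.empty_union] at this
  have e0 : lc (c.1 - 3 * e.1, c.2 - 3 * e.2) e (0 + 3) = c := by
    have := lc_add c e 0 0
    simp only [add_zero, zero_mul] at this
    rw [zero_add]; exact this
  have e1 : lc (c.1 - 3 * e.1, c.2 - 3 * e.2) e (0 + 3 + k) = (c.1 + k * e.1, c.2 + k * e.2) := by
    rw [zero_add]; exact lc_add c e 0 k
  rw [e0, e1] at this
  exact this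

end Pool.Agent.Helper225.G
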