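import Pool.Agent.Helper225.GKline

set_option autoImplicit false

namespace Pool.Agent.Helper225.G

def cells (L : List ℕ) : Set Cell := {c | ∃ i ∈ L, c = cell i}

theorem cells_nil : cells [] = ∅ := by
  ext c; simp [cells]

theorem cells_cons (i : ℕ) (L : List ℕ) : cells (i :: L) = insert (cell i) (cells L) := by
  ext c; simp [cells]

theorem cells_finite (L : List ℕ) : (cells L).Finite := by
  induction L with
  | nil => rw [cells_nil]; exact Set.finite_empty
  | cons i L ih => rw [cells_cons]; exact ih.insert _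

theorem cells_ncard (L : List ℕ) : (cells L).ncard ≤ L.length := by
  induction L with
  | nil => rw [cells_nil]; simp
  | cons i L ih =>
    rw [cells_cons, List.length_cons]
    exact (Set.ncard_insert_le _ _).trans (by omega)

theorem mem_cells {L : List ℕ} (hL : ∀ i ∈ L, i < 1024) {i : ℕ} (hi : i < 1024) :
    cell i ∈ cells L ↔ i ∈ L := by
  constructor
  · rintro ⟨k, hk, h⟩
    rw [(cell_inj hi (hL k hk)).1 h]
    exact hk
  · intro h
    exact ⟨i, h, rfl⟩

theorem five_card {S : Set Cell} (hS : S.Finite) (h : Five S) : 5 ≤ S.ncard := by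
  obtain ⟨a, d, hd, h⟩ := h
  have h1 : (Set.range (fun t : Fin 5 => wn a d t)).ncard = 5 := by
    rw [← Set.image_univ, Set.ncard_image_of_injective _ (fun s t hst => Fin.ext (S9.wn_inj hd hst)),
      Set.ncard_univ]
    simp
  rw [← h1]
  refine Set.ncard_le_ncard ?_ hS
  rintro c ⟨t, rfl⟩
  exact h t (by omega) (by have := t.2; omega)

theorem blk_msk (L : List ℕ) (hL : ∀ i ∈ L, i < 1024) :
    blk 0 (msk L) = cells L ∧ blk 1 (msk L) = ∅ := by
  induction L with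
  | nil =>
    rw [cells_nil]
    exact ⟨bitFacts.zero 0, bitFacts.zero 1⟩
  | cons i L ih =>
    obtain ⟨h0, h1⟩ := ih (fun k hk => hL k (List.mem_cons_of_mem _ hk))
    have hi := hL i List.mem_cons_self
    have e : msk (i :: L) = Nat.lor (cm i) (msk L) := rfl
    rw [e, blk_lor, blk_lor, h0, h1, blk_cm 0 i hi, blk_cm 1 i hi, cells_cons, if_pos rfl,
      if_neg (by norm_num), Set.empty_union, Set.insert_eq]
    exact ⟨rfl, rfl⟩

theorem blk_stG {b w : List ℕ} (hb : ∀ i ∈ b, i < 1024) (hw : ∀ i ∈ w, i < 1024) :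
    blk 0 (stG b w) = cells b ∧ blk 1 (stG b w) = cells w := by
  unfold stG
  rw [blk_lor, blk_lor, (blk_msk b hb).1, (blk_msk b hb).2, bitFacts.shl1z, bitFacts.shl1 0,
    (blk_msk w hw).1]
  exact ⟨Set.union_empty _, Set.empty_union _⟩

def WinL (n : ℕ) (b w : List ℕ) : Prop := Win n (cells b) (cells w)

theorem WinL.mono {n m : ℕ} (h : n ≤ m) {b w : List ℕ} (hw : WinL n b w) : WinL m b w :=
  win_mono_n h hw

/-- the lists are lists of board cells without common members -/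
def okL (b w : List ℕ) : Bool :=
  b.all (fun i => Nat.ble (i + 1) 1024) && w.all (fun i => Nat.ble (i + 1) 1024) &&
    b.all (fun i => w.all (fun k => !Nat.beq i k))

theorem okL_lt {b w : List ℕ} (h : okL b w = true) :
    (∀ i ∈ b, i < 1024) ∧ (∀ i ∈ w, i < 1024) ∧ (∀ i ∈ b, ∀ k ∈ w, i ≠ k) := by
  unfold okL at h
  rw [Bool.and_eq_true, Bool.and_eq_true, List.all_eq_true, List.all_eq_true, List.all_eq_true] at h
  obtain ⟨⟨h1, h2⟩, h3⟩ := h
  refine ⟨fun i hi => ?_, fun i hi => ?_, fun i hi k hk => ?_⟩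
  · have := Nat.le_of_ble_eq_true (h1 i hi)
    omega
  · have := Nat.le_of_ble_eq_true (h2 i hi)
    omega
  · have := h3 i hi
    rw [List.all_eq_true] at this
    have := this k hk
    rintro rfl
    simp at this

theorem okL_disj {b w : List ℕ} (h : okL b w = true) : Disjoint (cells b) (cells w) := by
  obtain ⟨h1, h2, h3⟩ := okL_lt h
  rw [Set.disjoint_left]
  rintro c ⟨i, hi, rfl⟩ hc
  have := (mem_cells h2 (h1 i hi)).1 hc
  exact h3 i hi i this rfl

theorem winL_of_cert {b w : List ℕ} (h : CertG 0 b w) (ok : okL b w = true) : WinL 520 b w := by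
  obtain ⟨s, hs⟩ := h
  obtain ⟨h1, h2, h3⟩ := okL_lt ok
  obtain ⟨e0, e1⟩ := blk_stG h1 h2
  have := simple_win hs ∅ (simpleOK_empty 0) (by
    rw [e0, e1, Set.union_empty]
    exact okL_disj ok)
  rw [e0, e1, Set.union_empty] at this
  exact win_mono_n (by norm_num) this

theorem win_of_certG {FX : ℕ} {b w : List ℕ} (h : CertG FX b w) (ok : okL b w = true) {y : Cell}
    (hy : onB y → y ∈ blk 0 FX) (hyb : y ∉ cells b) :
    Win 520 (cells b) (insert y (cells w)) := by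
  obtain ⟨s, hs⟩ := h
  obtain ⟨h1, h2, h3⟩ := okL_lt ok
  obtain ⟨e0, e1⟩ := blk_stG h1 h2
  have := simple_win hs {y} (simpleOK_one hy) (by
    rw [e0, e1, Set.disjoint_left]
    rintro c hc (hc' | hc')
    · exact Set.disjoint_left.1 (okL_disj ok) hc hc'
    · rw [Set.mem_singleton_iff] at hc'
      exact hyb (hc' ▸ hc))
  rw [e0, e1, Set.union_comm, ← Set.insert_eq] at this
  exact win_mono_n (by norm_num) this

/-- all board cells are covered -/
def covG (LH LN occ : List ℕ) : Bool :=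
  Nat.beq (Nat.land (List.foldr Nat.lor (List.foldr (fun i x => Nat.lor (cm i) x) (msk occ) LN) LH)
    F0) F0

theorem tb_foldr (L : List ℕ) (x q : ℕ) (h : (List.foldr Nat.lor x L).testBit q = true) :
    (∃ F ∈ L, F.testBit q = true) ∨ x.testBit q = true := by
  induction L with
  | nil => exact Or.inr h
  | cons F L ih =>
    rw [List.foldr_cons, tb_lor, Bool.or_eq_true] at h
    rcases h with h | h
    · exact Or.inl ⟨F, List.mem_cons_self, h⟩
    · rcases ih h with ⟨F', h1, h2⟩ | h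
      · exact Or.inl ⟨F', List.mem_cons_of_mem _ h1, h2⟩
      · exact Or.inr h

theorem tb_foldr_cm (L : List ℕ) (x i : ℕ)
    (h : (List.foldr (fun i x => Nat.lor (cm i) x) x L).testBit (64 + i) = true) :
    i ∈ L ∨ x.testBit (64 + i) = true := by
  induction L with
  | nil => exact Or.inr h
  | cons F L ih =>
    rw [List.foldr_cons, tb_lor, Bool.or_eq_true] at h
    rcases h with h | h
    · rw [tb_cm, decide_eq_true_eq] at h
      left
      have : i = F := by omega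
      rw [this]; exact List.mem_cons_self
    · rcases ih h with h | h
      · exact Or.inl (List.mem_cons_of_mem _ h)
      · exact Or.inr h

theorem covG_sound {LH LN occ : List ℕ} (h : covG LH LN occ = true) (i : ℕ) (hi : i < 1024) :
    i ∈ occ ∨ i ∈ LN ∨ ∃ FX ∈ LH, FX.testBit (64 + i) = true := by
  have h1 := Nat.eq_of_beq_eq_true h
  have h2 := congrArg (fun x => Nat.testBit x (64 + i)) h1
  change (Nat.land _ F0).testBit (64 + i) = F0.testBit (64 + i) at h2
  rw [tb_F0 hi, tb_land, Bool.and_eq_true] at h2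
  rcases tb_foldr _ _ _ h2.1 with h | h
  · exact Or.inr (Or.inr h)
  · rcases tb_foldr_cm _ _ _ h with h | h
    · exact Or.inr (Or.inl h)
    · left
      rcases tb_foldr_cm occ 0 i h with h | h
      · exact h
      · simp at h

/-- a position with First to move -/
theorem node_win {n : ℕ} (hn : 520 ≤ n) {b w : List ℕ} (j : ℕ) (LH LN : List ℕ)
    (ok : okL (j :: b) w = true) (hj : j ∉ b) (hw : w.length ≤ 3) (hne : LH ≠ [])
    (hH : ∀ FX ∈ LH, CertG FX (j :: b) w) (hN : ∀ l ∈ LN, WinL n (j :: b) (l :: w))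
    (hc : covG LH LN (j :: (b ++ w)) = true) : WinL (n + 1) b w := by
  obtain ⟨h1, h2, h3⟩ := okL_lt ok
  have hb : ∀ i ∈ b, i < 1024 := fun i hi => h1 i (List.mem_cons_of_mem _ hi)
  have hj' : j < 1024 := h1 j List.mem_cons_self
  refine ⟨cell j, fun h => hj ((mem_cells hb hj').1 h), fun h =>
    h3 j List.mem_cons_self j ((mem_cells h2 hj').1 h) rfl, Or.inr ?_⟩
  intro y hyB hyW
  rw [← cells_cons] at hyB ⊢
  refine ⟨fun h5 => ?_, ?_⟩
  · have := five_card ((cells_finite w).insert y) h5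
    have h' := Set.ncard_insert_le y (cells w)
    have h'' := cells_ncard w
    omega
  by_cases hon : onB y
  · obtain ⟨hcell, hlt⟩ := cell_ix y hon
    rcases covG_sound hc (ix y) hlt with h | h | ⟨FX, hFX, h⟩
    · exfalso
      rcases List.mem_cons.1 h with h | h
      · exact hyB (by rw [← hcell, h, cells_cons]; exact Set.mem_insert _ _)
      · rcases List.mem_append.1 h with h | h
        · exact hyB (by rw [← hcell, cells_cons]; exact Set.mem_insert_of_mem _ ⟨_, h, rfl⟩)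
        · exact hyW (by rw [← hcell]; exact ⟨_, h, rfl⟩)
    · have := hN _ h
      unfold WinL at this
      rwa [cells_cons (ix y) w, hcell] at this
    · exact win_mono_n hn (win_of_certG (hH FX hFX) ok (fun _ => ⟨hon, by simpa using h⟩) hyB)
  · obtain ⟨FX, L', rfl⟩ := List.exists_cons_of_ne_nil hne
    exact win_mono_n hn (win_of_certG (hH FX List.mem_cons_self) ok (fun h => absurd h hon) hyB)

/-- the numbered cell lies on the line -/
def onLine (ox oy ex ey : ℤ) (k n : ℕ) : Bool :=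
  decide (((k % 32 : ℕ) : ℤ) = ox + n * ex) && decide (((k / 32 : ℕ) : ℤ) = oy + n * ey)

theorem onLine_eq {ox oy ex ey : ℤ} {k n : ℕ} (h : onLine ox oy ex ey k n = true) :
    cell k = lc (ox, oy) (ex, ey) n := by
  unfold onLine at h
  rw [Bool.and_eq_true, decide_eq_true_eq, decide_eq_true_eq] at h
  unfold cell lc
  rw [h.1, h.2]

/-- two white stones of a half line -/
theorem line_win' {X XW sX : ℕ} {b : List ℕ} (h : CertK X XW sX b []) {eX : Cell}
    (he : StrideOf eX sX) {o e : Cell} (hl : LineOK X (Nat.lor BORD X) X XW eX o e)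
    (ok : okL b [] = true) (hX : ∀ i ∈ b, X.testBit (64 + i) = false) (g : ℤ) (hg : 0 ≤ g) (k : ℤ)
    (hk1 : 1 ≤ k) (hk4 : k ≤ 4) : Win 520 (cells b) {lc o e (g + 3), lc o e (g + 3 + k)} := by
  obtain ⟨s, hs⟩ := h
  obtain ⟨b1, b2, b3⟩ := okL_lt ok
  obtain ⟨e0, e1⟩ := blk_stG b1 b2
  have hnot : ∀ t : ℤ, 0 ≤ t → lc o e t ∉ cells b := by
    rintro t ht ⟨i, hi, h⟩
    have hi' := b1 i hi
    have hon : onB (lc o e t) := by
      rw [h]; exact (ix_cell i hi').2
    have h1 := ((hl.bad t ht hon).2).2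
    rw [h, (ix_cell i hi').1] at h1
    have h2 := hX i hi
    have e : 1088 * 0 + 64 + i = 64 + i := by ring
    rw [e, h2] at h1
    exact absurd h1 (by simp)
  have := line_win hs he hl g hg k hk1 hk4 (by
    rw [e0, e1, cells_nil, Set.empty_union, Set.disjoint_left]
    intro c hc hc'
    rw [Set.mem_insert_iff, Set.mem_singleton_iff] at hc'
    rcases hc' with hc' | hc'
    · exact hnot _ (by omega) (hc' ▸ hc)
    · exact hnot _ (by omega) (hc' ▸ hc))
  rw [e0, e1, cells_nil, Set.empty_union] at this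
  exact this

/-- two white stones of a half line, numbered -/
theorem winL_of_line {X XW sX : ℕ} {b : List ℕ} (h : CertK X XW sX b []) {eX : Cell}
    (he : StrideOf eX sX) {ox oy ex ey : ℤ} (hl : LineOK X (Nat.lor BORD X) X XW eX (ox, oy) (ex, ey))
    (ok : okL b [] = true) (hX : ∀ i ∈ b, X.testBit (64 + i) = false) (k l n1 n2 : ℕ)
    (hk : onLine ox oy ex ey k n1 = true) (hll : onLine ox oy ex ey l n2 = true) (h3 : 3 ≤ n1)
    (h3' : 3 ≤ n2) (hne : n1 ≠ n2) (h4 : n1 ≤ n2 + 4) (h4' : n2 ≤ n1 + 4) :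
    WinL 520 b [l, k] := by
  have key : ∀ (k l n1 n2 : ℕ), onLine ox oy ex ey k n1 = true → onLine ox oy ex ey l n2 = true →
      3 ≤ n1 → n1 < n2 → n2 ≤ n1 + 4 → Win 520 (cells b) {cell k, cell l} := by
    intro k l n1 n2 hk hll h3 hlt h4
    have := line_win' h he hl ok hX ((n1 : ℤ) - 3) (by omega) ((n2 : ℤ) - n1) (by omega) (by omega)
    have a1 : (n1 : ℤ) - 3 + 3 = n1 := by ring
    have a2 : (n1 : ℤ) + ((n2 : ℤ) - n1) = n2 := by ring
    rw [a1, a2, ← onLine_eq hk, ← onLine_eq hll] at this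
    exact this
  unfold WinL
  rw [cells_cons, cells_cons, cells_nil, insert_empty_eq]
  rcases lt_or_gt_of_ne hne with h | h
  · rw [Set.pair_comm]
    exact key k l n1 n2 hk hll h3 h h4'
  · exact key l k n2 n1 hll hk h3' h h4

/-- all data of a line, with one white stone k (number n1) and partners P (cell, number) -/
def lineB (X XW sX : ℕ) (b : List ℕ) (ox oy ex ey : ℤ) (k n1 : ℕ) (P : List (ℕ × ℕ)) : Bool :=
  okL b [] && b.all (fun i => !Nat.testBit X (64 + i)) &&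
  (decide (0 ≤ ox ∧ ox < 32 ∧ 0 ≤ oy ∧ oy < 32) && Nat.beq X (lmask ox oy ex ey 0 32) &&
  ((Nat.beq sX 1 && decide (ey = 0) && ((decide (ex = 1) && Nat.beq XW (lmask ox oy ex ey (-4) 4)) ||
      (decide (ex = -1) && Nat.beq XW (lmask ox oy ex ey 0 4)))) ||
   (Nat.beq sX 32 && decide (ex = 0) && ((decide (ey = 1) && Nat.beq XW (lmask ox oy ex ey (-4) 4)) ||
      (decide (ey = -1) && Nat.beq XW (lmask ox oy ex ey 0 4)))) ||
   (Nat.beq sX 33 && ((decide (ex = 1 ∧ ey = 1) && Nat.beq XW (lmask ox oy ex ey (-4) 4)) ||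
      (decide (ex = -1 ∧ ey = -1) && Nat.beq XW (lmask ox oy ex ey 0 4)))) ||
   (Nat.beq sX 31 && ((decide (ex = -1 ∧ ey = 1) && Nat.beq XW (lmask ox oy ex ey (-4) 4)) ||
      (decide (ex = 1 ∧ ey = -1) && Nat.beq XW (lmask ox oy ex ey 0 4)))))) &&
  (onLine ox oy ex ey k n1 && Nat.ble 3 n1 && P.all (fun p => onLine ox oy ex ey p.1 p.2 &&
    Nat.ble 3 p.2 && !Nat.beq n1 p.2 && Nat.ble n1 (p.2 + 4) && Nat.ble p.2 (n1 + 4)))

theorem lineOK_of {X XW sX : ℕ} {ox oy ex ey : ℤ}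
    (h : (decide (0 ≤ ox ∧ ox < 32 ∧ 0 ≤ oy ∧ oy < 32) && Nat.beq X (lmask ox oy ex ey 0 32) &&
  ((Nat.beq sX 1 && decide (ey = 0) && ((decide (ex = 1) && Nat.beq XW (lmask ox oy ex ey (-4) 4)) ||
      (decide (ex = -1) && Nat.beq XW (lmask ox oy ex ey 0 4)))) ||
   (Nat.beq sX 32 && decide (ex = 0) && ((decide (ey = 1) && Nat.beq XW (lmask ox oy ex ey (-4) 4)) ||
      (decide (ey = -1) && Nat.beq XW (lmask ox oy ex ey 0 4)))) ||
   (Nat.beq sX 33 && ((decide (ex = 1 ∧ ey = 1) && Nat.beq XW (lmask ox oy ex ey (-4) 4)) ||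
      (decide (ex = -1 ∧ ey = -1) && Nat.beq XW (lmask ox oy ex ey 0 4)))) ||
   (Nat.beq sX 31 && ((decide (ex = -1 ∧ ey = 1) && Nat.beq XW (lmask ox oy ex ey (-4) 4)) ||
      (decide (ex = 1 ∧ ey = -1) && Nat.beq XW (lmask ox oy ex ey 0 4)))))) = true) :
    ∃ eX, StrideOf eX sX ∧ LineOK X (Nat.lor BORD X) X XW eX (ox, oy) (ex, ey) := by
  rw [Bool.and_eq_true, Bool.and_eq_true, decide_eq_true_eq, Nat.beq_eq] at h
  obtain ⟨⟨⟨o1, o2, o3, o4⟩, hX⟩, h⟩ := h
  simp only [Bool.or_eq_true, Bool.and_eq_true, decide_eq_true_eq, Nat.beq_eq] at h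
  have mk : ∀ (hd : IsDir (ex, ey) ∨ IsDir (-ex, -ey)) (eX : Cell) (_ : StrideOf eX sX)
      (_ : (eX = (ex, ey) ∧ XW = lmask ox oy ex ey (-4) 4) ∨
        (eX = (-ex, -ey) ∧ XW = lmask ox oy ex ey 0 4)),
      ∃ eX, StrideOf eX sX ∧ LineOK X (Nat.lor BORD X) X XW eX (ox, oy) (ex, ey) :=
    fun hd eX h1 h2 => ⟨eX, h1, lineOK_lmask X XW ox oy ex ey o1 o2 o3 o4 hd hX eX h2⟩
  rcases h with ((h | h) | h) | h
  · obtain ⟨⟨hs, h0⟩, h | h⟩ := h
    · obtain ⟨h1, h2⟩ := h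
      subst h0 h1
      exact mk (Or.inl (Or.inl rfl)) (1, 0) (Or.inl ⟨rfl, hs⟩) (Or.inl ⟨rfl, h2⟩)
    · obtain ⟨h1, h2⟩ := h
      subst h0 h1
      exact mk (Or.inr (Or.inl (by norm_num))) (1, 0) (Or.inl ⟨rfl, hs⟩) (Or.inr ⟨by norm_num, h2⟩)
  · obtain ⟨⟨hs, h0⟩, h | h⟩ := h
    · obtain ⟨h1, h2⟩ := h
      subst h0 h1
      exact mk (Or.inl (Or.inr (Or.inl rfl))) (0, 1) (Or.inr (Or.inl ⟨rfl, hs⟩)) (Or.inl ⟨rfl, h2⟩)
    · obtain ⟨h1, h2⟩ := h
      subst h0 h1
      exact mk (Or.inr (Or.inr (Or.inl (by norm_num)))) (0, 1) (Or.inr (Or.inl ⟨rfl, hs⟩))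
        (Or.inr ⟨by norm_num, h2⟩)
  · obtain ⟨hs, h | h⟩ := h
    · obtain ⟨⟨h0, h1⟩, h2⟩ := h
      subst h0 h1
      exact mk (Or.inl (Or.inr (Or.inr (Or.inl rfl)))) (1, 1) (Or.inr (Or.inr (Or.inl ⟨rfl, hs⟩)))
        (Or.inl ⟨rfl, h2⟩)
    · obtain ⟨⟨h0, h1⟩, h2⟩ := h
      subst h0 h1
      exact mk (Or.inr (Or.inr (Or.inr (Or.inl (by norm_num))))) (1, 1)
        (Or.inr (Or.inr (Or.inl ⟨rfl, hs⟩))) (Or.inr ⟨by norm_num, h2⟩)
  · obtain ⟨hs, h | h⟩ := h
    · obtain ⟨⟨h0, h1⟩, h2⟩ := h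
      subst h0 h1
      exact mk (Or.inr (Or.inr (Or.inr (Or.inr (by norm_num))))) (-1, 1)
        (Or.inr (Or.inr (Or.inr ⟨rfl, hs⟩))) (Or.inl ⟨rfl, h2⟩)
    · obtain ⟨⟨h0, h1⟩, h2⟩ := h
      subst h0 h1
      exact mk (Or.inl (Or.inr (Or.inr (Or.inr (by norm_num))))) (-1, 1)
        (Or.inr (Or.inr (Or.inr ⟨rfl, hs⟩))) (Or.inr ⟨by norm_num, h2⟩)

theorem line_class {X XW sX : ℕ} {b : List ℕ} (h : CertK X XW sX b []) (ox oy ex ey : ℤ)
    (k n1 : ℕ) (P : List (ℕ × ℕ)) (hB : lineB X XW sX b ox oy ex ey k n1 P = true) :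
    ∀ p ∈ P, WinL 520 b [p.1, k] := by
  unfold lineB at hB
  rw [Bool.and_eq_true, Bool.and_eq_true, Bool.and_eq_true] at hB
  obtain ⟨⟨⟨ok, hXb⟩, hl⟩, hP⟩ := hB
  obtain ⟨eX, he, hl⟩ := lineOK_of hl
  rw [List.all_eq_true] at hXb
  rw [Bool.and_eq_true, Bool.and_eq_true, List.all_eq_true] at hP
  obtain ⟨⟨hk, h3⟩, hP⟩ := hP
  intro p hp
  have h1 := hP p hp
  rw [Bool.and_eq_true, Bool.and_eq_true, Bool.and_eq_true, Bool.and_eq_true] at h1
  obtain ⟨⟨⟨⟨a1, a2⟩, a3⟩, a4⟩, a5⟩ := h1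
  refine winL_of_line h he hl ok (fun i hi => by simpa using hXb i hi) k p.1 n1 p.2 hk a1
    (Nat.le_of_ble_eq_true h3) (Nat.le_of_ble_eq_true a2) ?_ (Nat.le_of_ble_eq_true a4)
    (Nat.le_of_ble_eq_true a5)
  intro h
  rw [h] at a3
  simp at a3

end Pool.Agent.Helper225.G
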