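import Pool.Agent.Helper225.GCase2
import Pool.Agent.Helper225.GNode

set_option autoImplicit false

namespace Pool.Agent.Helper225.G

/-- all the pairs (x, a + b x) with x at most m -/
def LineP (a b : ℤ) (e : ℤ) (m : ℤ) : Prop :=
  ∀ x : ℤ, x ≤ m → ∀ k : ℤ, 1 ≤ k → k ≤ 4 → PW (x, a + b * x) (-1, e) k

/-- the facts used for pairs with a common window -/
structure C2 : Prop where
  s3 : ∀ (c e : Cell), (IsDir e ∨ IsDir (-e.1, -e.2)) →
    (∀ t : ℤ, -3 ≤ t → (c.1 + t * e.1, c.2 + t * e.2) ∉ D27) → ∀ k : ℤ, 1 ≤ k → k ≤ 4 → PW c e k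
  r10 : LineP 10 0 0 13
  r11 : LineP 11 0 0 13
  r12 : LineP 12 0 0 13
  r13 : LineP 13 0 0 12
  r15 : LineP 15 0 0 11
  r16 : LineP 16 0 0 9
  d0 : LineP 0 1 (-1) 11
  d1 : LineP 1 1 (-1) 10
  d2 : LineP 2 1 (-1) 10
  d3 : LineP 3 1 (-1) 13
  d4 : LineP 4 1 (-1) 13
  d5 : LineP 5 1 (-1) 13
  d6 : LineP 6 1 (-1) 13
  d7 : LineP 7 1 (-1) 13
  d8 : LineP 8 1 (-1) 12
  d9 : LineP 9 1 (-1) 11
  d10 : LineP 10 1 (-1) 10
  d11 : LineP 11 1 (-1) 9
  d12 : LineP 12 1 (-1) 8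
  d13 : LineP 13 1 (-1) 7
  a20 : LineP 20 (-1) 1 13
  a21 : LineP 21 (-1) 1 13
  a22 : LineP 22 (-1) 1 13
  a23 : LineP 23 (-1) 1 13
  a24 : LineP 24 (-1) 1 13
  a25 : LineP 25 (-1) 1 13
  e1 : PW (12, 12) (-1, -1) 4
  e2 : PW (12, 12) (-1, -1) 3
  e3 : PW (13, 13) (-1, -1) 4
  e4 : PW (11, 12) (-1, -1) 2
  e5 : PW (11, 12) (-1, -1) 3
  e6 : PW (11, 12) (-1, -1) 4
  e7 : PW (12, 13) (-1, -1) 3
  e8 : PW (12, 13) (-1, -1) 4
  e9 : PW (13, 14) (-1, -1) 4
  e10 : PW (11, 13) (-1, -1) 2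
  e11 : PW (11, 13) (-1, -1) 3
  e12 : PW (11, 13) (-1, -1) 4
  e13 : PW (12, 14) (-1, -1) 3
  e14 : PW (12, 14) (-1, -1) 4
  e15 : PW (13, 15) (-1, -1) 4
  e16 : PW (13, 13) (-1, 0) 4
  e17 : PW (12, 15) (-1, 0) 3
  e18 : PW (12, 15) (-1, 0) 4
  e19 : PW (13, 15) (-1, 0) 4
  e20 : PW (10, 16) (-1, 0) 1
  e21 : PW (10, 16) (-1, 0) 2
  e22 : PW (10, 16) (-1, 0) 3
  e23 : PW (10, 16) (-1, 0) 4
  e24 : PW (11, 16) (-1, 0) 2
  e25 : PW (11, 16) (-1, 0) 3
  e26 : PW (11, 16) (-1, 0) 4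
  e27 : PW (12, 16) (-1, 0) 3
  e28 : PW (12, 16) (-1, 0) 4
  e29 : PW (13, 16) (-1, 0) 4

/-- Sec in coordinates -/
theorem sec_iff {y : Cell} (h : y ∈ Sec) : y.1 ≤ 9 ∧ (y.2 = 16 ∨ y.2 = 15 ∨ (y.2 ≤ 13 ∧ y.1 ≤ y.2)) := by
  obtain ⟨u, v, hu, hvu, hv, rfl⟩ := h
  simp only
  omega

theorem row_pair (H : C2) (x r k : ℤ) (hk1 : 1 ≤ k) (hk4 : k ≤ 4) (hx : x - k ≤ 9)
    (hr : r = 16 ∨ r = 15 ∨ r ≤ 13) (hx9 : x ≤ 9 ∨ x - k ≤ 9) : PW (x, r) (-1, 0) k := by
  by_cases h6 : x ≤ 6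
  · refine H.s3 _ _ (Or.inr (Or.inl (by norm_num))) ?_ k hk1 hk4
    intro t ht hD
    have := hD.1
    simp only at this
    omega
  by_cases h9 : r ≤ 9
  · refine H.s3 _ _ (Or.inr (Or.inl (by norm_num))) ?_ k hk1 hk4
    intro t ht hD
    have := hD.2.2.1
    simp only at this
    omega
  have use : ∀ m : ℤ, LineP r 0 0 m → x ≤ m → PW (x, r) (-1, 0) k := by
    intro m hL hm
    have := hL x hm k hk1 hk4
    simpa using this
  have hrc : r = 10 ∨ r = 11 ∨ r = 12 ∨ r = 13 ∨ r = 15 ∨ r = 16 := by omega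
  rcases hrc with rfl | rfl | rfl | rfl | rfl | rfl
  · exact use _ H.r10 (by omega)
  · exact use _ H.r11 (by omega)
  · exact use _ H.r12 (by omega)
  · by_cases h : x ≤ 12
    · exact use _ H.r13 h
    · obtain rfl : x = 13 := by omega
      obtain rfl : k = 4 := by omega
      exact H.e16
  · by_cases h : x ≤ 11
    · exact use _ H.r15 h
    · have hc : (x = 12 ∧ k = 3) ∨ (x = 12 ∧ k = 4) ∨ (x = 13 ∧ k = 4) := by omega
      rcases hc with ⟨rfl, rfl⟩ | ⟨rfl, rfl⟩ | ⟨rfl, rfl⟩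
      · exact H.e17
      · exact H.e18
      · exact H.e19
  · by_cases h : x ≤ 9
    · exact use _ H.r16 h
    · have hc : (x = 10 ∧ k = 1) ∨ (x = 10 ∧ k = 2) ∨ (x = 10 ∧ k = 3) ∨ (x = 10 ∧ k = 4) ∨
        (x = 11 ∧ k = 2) ∨ (x = 11 ∧ k = 3) ∨ (x = 11 ∧ k = 4) ∨ (x = 12 ∧ k = 3) ∨
        (x = 12 ∧ k = 4) ∨ (x = 13 ∧ k = 4) := by omega
      rcases hc with ⟨rfl, rfl⟩ | ⟨rfl, rfl⟩ | ⟨rfl, rfl⟩ | ⟨rfl, rfl⟩ | ⟨rfl, rfl⟩ | ⟨rfl, rfl⟩ |
        ⟨rfl, rfl⟩ | ⟨rfl, rfl⟩ | ⟨rfl, rfl⟩ | ⟨rfl, rfl⟩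
      · exact H.e20
      · exact H.e21
      · exact H.e22
      · exact H.e23
      · exact H.e24
      · exact H.e25
      · exact H.e26
      · exact H.e27
      · exact H.e28
      · exact H.e29

/-- (x, x + q), (x - k, x + q - k) where one of them is in Sec -/
theorem diag_pair (H : C2) (x q k : ℤ) (hk1 : 1 ≤ k) (hk4 : k ≤ 4)
    (h : (x, x + q) ∈ Sec ∨ (x - k, x + q - k) ∈ Sec) : PW (x, x + q) (-1, -1) k := by
  have h1 : (x ≤ 9 ∧ (x + q = 16 ∨ x + q = 15 ∨ (x + q ≤ 13 ∧ x ≤ x + q))) ∨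
      (x - k ≤ 9 ∧ (x + q - k = 16 ∨ x + q - k = 15 ∨ (x + q - k ≤ 13 ∧ x - k ≤ x + q - k))) := by
    rcases h with h | h
    · exact Or.inl (sec_iff h)
    · exact Or.inr (sec_iff h)
  by_cases h6 : x ≤ 6
  · refine H.s3 _ _ (Or.inr (Or.inr (Or.inr (Or.inl (by norm_num))))) ?_ k hk1 hk4
    intro t ht hD
    have := hD.1
    simp only at this
    omega
  have use : ∀ m : ℤ, LineP q 1 (-1) m → x ≤ m → PW (x, x + q) (-1, -1) k := by
    intro m hL hm
    have := hL x hm k hk1 hk4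
    have e : q + 1 * x = x + q := by ring
    rwa [e] at this
  have hq0 : 0 ≤ q := by omega
  have hq13 : q ≤ 13 := by omega
  interval_cases q
  · by_cases h : x ≤ 11
    · exact use _ H.d0 h
    · have hc : (x = 12 ∧ k = 3) ∨ (x = 12 ∧ k = 4) ∨ (x = 13 ∧ k = 4) := by omega
      rcases hc with ⟨rfl, rfl⟩ | ⟨rfl, rfl⟩ | ⟨rfl, rfl⟩
      · exact H.e2
      · exact H.e1
      · exact H.e3
  · by_cases h : x ≤ 10
    · exact use _ H.d1 h
    · have hc : (x = 11 ∧ k = 2) ∨ (x = 11 ∧ k = 3) ∨ (x = 11 ∧ k = 4) ∨ (x = 12 ∧ k = 3) ∨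
        (x = 12 ∧ k = 4) ∨ (x = 13 ∧ k = 4) := by omega
      rcases hc with ⟨rfl, rfl⟩ | ⟨rfl, rfl⟩ | ⟨rfl, rfl⟩ | ⟨rfl, rfl⟩ | ⟨rfl, rfl⟩ | ⟨rfl, rfl⟩
      · exact H.e4
      · exact H.e5
      · exact H.e6
      · exact H.e7
      · exact H.e8
      · exact H.e9
  · by_cases h : x ≤ 10
    · exact use _ H.d2 h
    · have hc : (x = 11 ∧ k = 2) ∨ (x = 11 ∧ k = 3) ∨ (x = 11 ∧ k = 4) ∨ (x = 12 ∧ k = 3) ∨
        (x = 12 ∧ k = 4) ∨ (x = 13 ∧ k = 4) := by omega
      rcases hc with ⟨rfl, rfl⟩ | ⟨rfl, rfl⟩ | ⟨rfl, rfl⟩ | ⟨rfl, rfl⟩ | ⟨rfl, rfl⟩ | ⟨rfl, rfl⟩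
      · exact H.e10
      · exact H.e11
      · exact H.e12
      · exact H.e13
      · exact H.e14
      · exact H.e15
  · exact use _ H.d3 (by omega)
  · exact use _ H.d4 (by omega)
  · exact use _ H.d5 (by omega)
  · exact use _ H.d6 (by omega)
  · exact use _ H.d7 (by omega)
  · exact use _ H.d8 (by omega)
  · exact use _ H.d9 (by omega)
  · exact use _ H.d10 (by omega)
  · exact use _ H.d11 (by omega)
  · exact use _ H.d12 (by omega)
  · exact use _ H.d13 (by omega)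

/-- (x, s - x), (x - k, s - x + k) where one of them is in Sec -/
theorem anti_pair (H : C2) (x s k : ℤ) (hk1 : 1 ≤ k) (hk4 : k ≤ 4)
    (h : (x, s - x) ∈ Sec ∨ (x - k, s - x + k) ∈ Sec) : PW (x, s - x) (-1, 1) k := by
  have h1 : (x ≤ 9 ∧ (s - x = 16 ∨ s - x = 15 ∨ (s - x ≤ 13 ∧ x ≤ s - x))) ∨
      (x - k ≤ 9 ∧ (s - x + k = 16 ∨ s - x + k = 15 ∨ (s - x + k ≤ 13 ∧ x - k ≤ s - x + k))) := by
    rcases h with h | h
    · exact Or.inl (sec_iff h)
    · exact Or.inr (sec_iff h)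
  by_cases h6 : x ≤ 6
  · refine H.s3 _ _ (Or.inr (Or.inr (Or.inr (Or.inr (by norm_num))))) ?_ k hk1 hk4
    intro t ht hD
    have := hD.1
    simp only at this
    omega
  by_cases h19 : s ≤ 19
  · refine H.s3 _ _ (Or.inr (Or.inr (Or.inr (Or.inr (by norm_num))))) ?_ k hk1 hk4
    intro t ht hD
    have h1 := hD.1
    have h2 := hD.2.2.1
    simp only at h1 h2
    omega
  have use : ∀ m : ℤ, LineP s (-1) 1 m → x ≤ m → PW (x, s - x) (-1, 1) k := by
    intro m hL hm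
    have := hL x hm k hk1 hk4
    have e : s + -1 * x = s - x := by ring
    rwa [e] at this
  have hs0 : 20 ≤ s := by omega
  have hs1 : s ≤ 25 := by omega
  have hx13 : x ≤ 13 := by omega
  interval_cases s
  · exact use _ H.a20 hx13
  · exact use _ H.a21 hx13
  · exact use _ H.a22 hx13
  · exact use _ H.a23 hx13
  · exact use _ H.a24 hx13
  · exact use _ H.a25 hx13

/-- (x, y), (x, y - k) with x at most 9 -/
theorem col_pair (H : C2) (x y k : ℤ) (hk1 : 1 ≤ k) (hk4 : k ≤ 4) (hx : x ≤ 9) :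
    PW (x, y) (0, -1) k := by
  refine H.s3 _ _ (Or.inr (Or.inr (Or.inl (by norm_num)))) ?_ k hk1 hk4
  intro t ht hD
  have := hD.1
  simp only at this
  omega

theorem case2_common (H : C2) (y z : Cell) (hy : y ∈ Sec)
    (h : ¬ ∀ a d, IsDir d → cnt a d {y, z} ≤ 1) : Win 520 {(15, 15), (16, 16)} {y, z} := by
  obtain ⟨y1, y2⟩ := y
  obtain ⟨z1, z2⟩ := z
  obtain ⟨d, k, hd, hk1, hk4, hz⟩ := common_cases _ _ h
  have hs := sec_iff hy
  simp only at hs
  rcases hz with hz | hz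
  · rcases hd with rfl | rfl | rfl | rfl
    · -- z = y + k (1, 0)
      simp only [Prod.mk.injEq] at hz
      obtain ⟨rfl, rfl⟩ := hz
      have := row_pair H (y1 + k * 1) (y2 + k * 0) k hk1 hk4 (by omega) (by omega) (by omega)
      unfold PW at this
      simp only at this
      have e1 : y1 + k * 1 + k * -1 = y1 := by ring
      have e2 : y2 + k * 0 + k * 0 = y2 := by ring
      rw [e1, e2] at this
      rw [Set.pair_comm (y1, y2)]; exact this
    · simp only [Prod.mk.injEq] at hz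
      obtain ⟨rfl, rfl⟩ := hz
      have := col_pair H (y1 + k * 0) (y2 + k * 1) k hk1 hk4 (by omega)
      unfold PW at this
      simp only at this
      have e1 : y1 + k * 0 + k * 0 = y1 := by ring
      have e2 : y2 + k * 1 + k * -1 = y2 := by ring
      rw [e1, e2] at this
      rw [Set.pair_comm (y1, y2)]; exact this
    · simp only [Prod.mk.injEq] at hz
      obtain ⟨rfl, rfl⟩ := hz
      have := diag_pair H (y1 + k * 1) (y2 - y1) k hk1 hk4 (Or.inr (by
        have e1 : y1 + k * 1 - k = y1 := by ring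
        have e2 : y1 + k * 1 + (y2 - y1) - k = y2 := by ring
        rw [e1, e2]; exact hy))
      unfold PW at this
      simp only at this
      have e0 : y1 + k * 1 + (y2 - y1) = y2 + k * 1 := by ring
      have e1 : y1 + k * 1 + k * -1 = y1 := by ring
      have e2 : y2 + k * 1 + k * -1 = y2 := by ring
      rw [e0, e1, e2] at this
      rw [Set.pair_comm (y1, y2)]; exact this
    · -- z = y + k (1, -1)
      simp only [Prod.mk.injEq] at hz
      obtain ⟨rfl, rfl⟩ := hz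
      have := anti_pair H (y1 + k * 1) (y1 + y2) k hk1 hk4 (Or.inr (by
        have e1 : y1 + k * 1 - k = y1 := by ring
        have e2 : y1 + y2 - (y1 + k * 1) + k = y2 := by ring
        rw [e1, e2]; exact hy))
      unfold PW at this
      simp only at this
      have e0 : y1 + y2 - (y1 + k * 1) = y2 + k * -1 := by ring
      have e1 : y1 + k * 1 + k * -1 = y1 := by ring
      have e2 : y2 + k * -1 + k * 1 = y2 := by ring
      rw [e0, e1, e2] at this
      rw [Set.pair_comm (y1, y2)]; exact this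
  · rcases hd with rfl | rfl | rfl | rfl
    · simp only [Prod.mk.injEq] at hz
      obtain ⟨rfl, rfl⟩ := hz
      have := row_pair H (z1 + k * 1) (z2 + k * 0) k hk1 hk4 (by omega) (by omega) (by omega)
      unfold PW at this
      simp only at this
      have e1 : z1 + k * 1 + k * -1 = z1 := by ring
      have e2 : z2 + k * 0 + k * 0 = z2 := by ring
      rw [e1, e2] at this
      exact this
    · simp only [Prod.mk.injEq] at hz
      obtain ⟨rfl, rfl⟩ := hz
      have := col_pair H (z1 + k * 0) (z2 + k * 1) k hk1 hk4 (by omega)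
      unfold PW at this
      simp only at this
      have e1 : z1 + k * 0 + k * 0 = z1 := by ring
      have e2 : z2 + k * 1 + k * -1 = z2 := by ring
      rw [e1, e2] at this
      exact this
    · simp only [Prod.mk.injEq] at hz
      obtain ⟨rfl, rfl⟩ := hz
      have := diag_pair H (z1 + k * 1) (z2 - z1) k hk1 hk4 (Or.inl (by
        have e2 : z1 + k * 1 + (z2 - z1) = z2 + k * 1 := by ring
        rw [e2]; exact hy))
      unfold PW at this
      simp only at this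
      have e0 : z1 + k * 1 + (z2 - z1) = z2 + k * 1 := by ring
      have e1 : z1 + k * 1 + k * -1 = z1 := by ring
      have e2 : z2 + k * 1 + k * -1 = z2 := by ring
      rw [e0, e1, e2] at this
      exact this
    · simp only [Prod.mk.injEq] at hz
      obtain ⟨rfl, rfl⟩ := hz
      have := anti_pair H (z1 + k * 1) (z1 + z2) k hk1 hk4 (Or.inl (by
        have e2 : z1 + z2 - (z1 + k * 1) = z2 + k * -1 := by ring
        rw [e2]; exact hy))
      unfold PW at this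
      simp only at this
      have e0 : z1 + z2 - (z1 + k * 1) = z2 + k * -1 := by ring
      have e1 : z1 + k * 1 + k * -1 = z1 := by ring
      have e2 : z2 + k * -1 + k * 1 = z2 := by ring
      rw [e0, e1, e2] at this
      exact this

/-- First answers a far stone of Second -/
theorem sec_win (H : C2)
    (hNC : ∀ y z : Cell, y ∈ Sec → z ≠ (15, 15) → z ≠ (16, 16) →
      (∀ a d, IsDir d → cnt a d {y, z} ≤ 1) → Win 516 {(15, 15), (16, 16)} {y, z})
    (y : Cell) (hy : y ∈ Sec) : Win 521 {(15, 15)} {y} := by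
  have hs := sec_iff hy
  refine ⟨(16, 16), by simp, ?_, Or.inr ?_⟩
  · intro h
    rw [Set.mem_singleton_iff] at h
    rw [← h] at hs
    simp only at hs
    omega
  intro z hz hzy
  refine ⟨not_five_two z y, ?_⟩
  rw [Set.pair_comm (16, 16) (15, 15)] at hz ⊢
  have e : insert z {y} = ({y, z} : Set Cell) := Set.pair_comm _ _
  rw [e]
  have hz0 : z ≠ (15, 15) := fun h => hz (by rw [h]; simp)
  have hz1 : z ≠ (16, 16) := fun h => hz (by rw [h]; simp)
  by_cases h : ∀ a d, IsDir d → cnt a d {y, z} ≤ 1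
  · exact win_mono_n (by norm_num) (hNC y z hy hz0 hz1 h)
  · exact case2_common H y z hy h

/-- the root: the classes near the first stone, and the far ones -/
theorem root_win (N : ℕ) (hN : 521 ≤ N)
    (hc : ∀ u v : ℤ, 0 ≤ v → v ≤ u → u ≤ 5 → (u, v) ≠ (0, 0) →
      Win N {((15, 15) : Cell)} {((15 + u, 15 + v) : Cell)})
    (hs : ∀ y ∈ Sec, Win 521 {((15, 15) : Cell)} {y}) : Win (N + 1) ∅ ∅ := by
  refine root_sym N fun u v hv hvu huv => ?_
  by_cases h5 : u ≤ 5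
  · exact hc u v hv hvu h5 huv
  by_cases h1 : v = 1
  · subst h1
    have h := win_mono_n hN (hs (15 - u, 16) ⟨u, -1, by omega, by omega, Or.inl rfl, by
      norm_num⟩)
    have := win_neg 30 h
    simp only [Set.image_singleton] at this
    have e1 : (30 - 15 : ℤ) = 15 := by norm_num
    have e2 : 30 - (15 - u) = 15 + u := by ring
    have e3 : (15 + 1 : ℤ) = 16 := by norm_num
    rw [e3]
    rwa [e1, e2] at this
  · have h := win_mono_n hN (hs (15 - u, 15 - v) ⟨u, v, by omega, by omega, by omega, rfl⟩)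
    have := win_point 30 30 h
    simp only [Set.image_singleton] at this
    have e1 : (30 - 15 : ℤ) = 15 := by norm_num
    have e2 : 30 - (15 - u) = 15 + u := by ring
    have e3 : 30 - (15 - v) = 15 + v := by ring
    rwa [e1, e2, e3] at this

end Pool.Agent.Helper225.G
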