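set_option autoImplicit false

namespace Pool.Agent.Helper225.G

noncomputable section

/-- conditional -/
def cnd (b : Bool) (t e : Bool) : Bool := Bool.rec (motive := fun _ => Bool) e t b

/-- stride of the direction coded in the word -/
def sdw (w : Nat) : Nat :=
  Nat.land (Nat.shiftRight 0x1F212001 (Nat.shiftLeft (Nat.land (Nat.shiftRight w 13) 3) 3)) 255

/-- first cell of the window coded in the word -/
def pw (w : Nat) : Nat := Nat.land (Nat.shiftRight w 3) 1023
def kw (w : Nat) : Nat := Nat.land (Nat.shiftRight w 15) 7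
def jw (w : Nat) : Nat := Nat.land (Nat.shiftRight w 18) 7

/-- mask of the cell number i -/
def cm (i : Nat) : Nat := Nat.shiftLeft 1 (Nat.add 64 i)

def bw (w : Nat) : Nat := cm (Nat.add (pw w) (Nat.mul (kw w) (sdw w)))
def cw (w : Nat) : Nat := cm (Nat.add (pw w) (Nat.mul (jw w) (sdw w)))

def pat (s : Nat) : Nat :=
  Nat.lor 1 (Nat.lor (Nat.shiftLeft 1 s) (Nat.lor (Nat.shiftLeft 1 (Nat.mul 2 s))
    (Nat.lor (Nat.shiftLeft 1 (Nat.mul 3 s)) (Nat.shiftLeft 1 (Nat.mul 4 s)))))

/-- n rows with the same pattern r -/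
def rowsM (r : Nat) (n : Nat) : Nat :=
  Nat.rec (motive := fun _ => Nat) 0 (fun _ x => Nat.lor (Nat.shiftLeft x 32) r) n

/-- valid starts for the four directions: bit p of the mask -/
def blkd (d : Nat) : Nat :=
  Nat.rec (motive := fun _ => Nat) (rowsM 0x0FFFFFFF 32)
    (fun d1 _ => Nat.rec (motive := fun _ => Nat) (rowsM 0xFFFFFFFF 28)
      (fun d2 _ => Nat.rec (motive := fun _ => Nat) (rowsM 0x0FFFFFFF 28)
        (fun _ _ => rowsM 0xFFFFFFF0 28) d2) d1) d

/-- mask of the window coded in the word, 0 if it is not a window of the board -/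
def mw (w : Nat) : Nat :=
  Nat.mul (Nat.land (Nat.shiftRight (blkd (Nat.land (Nat.shiftRight w 13) 3)) (pw w)) 1)
    (Nat.shiftLeft (pat (sdw w)) (Nat.add 64 (pw w)))

def Chk (w : Nat) : Nat := Nat.lor (mw w) (Nat.shiftLeft (Nat.lor (bw w) (cw w)) 1088)
def Exp (w : Nat) : Nat := Nat.xor (mw w) (Nat.lor (bw w) (cw w))
def Sm (w : Nat) : Nat :=
  Nat.lor (Nat.lor (bw w) (Nat.shiftLeft (cw w) 1088))
    (Nat.land (Nat.mul w 0x9E3779B97F4A7C15) 0xFFFFFFFFFFFFFFFF)
def ChkF (w : Nat) : Nat := Nat.lor (mw w) (Nat.shiftLeft (bw w) 1088)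
def ExpF (w : Nat) : Nat := Nat.xor (mw w) (bw w)
/-- cell in both blocks -/
def bb2 (w : Nat) : Nat := Nat.lor (cm (pw w)) (Nat.shiftLeft (cm (pw w)) 1088)

/-- mask of the low block -/
def BM : Nat := Nat.sub (Nat.shiftLeft 1 1088) 1
/-- block number 1 -/
def B1 : Nat := Nat.shiftLeft BM 1088
/-- block number 3 -/
def B3 : Nat := Nat.shiftLeft BM 3264
/-- all cells in block 3 -/
def FU3 : Nat := Nat.shiftLeft (Nat.sub (Nat.shiftLeft 1 1024) 1) 3328
/-- cells outside the inner square, in block 0 -/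
def BORD : Nat := Nat.shiftLeft (Nat.lor (Nat.lor (rowsM 0xFFFFFFFF 4) (Nat.shiftLeft (rowsM 0xFFFFFFFF 4) 896))
  (rowsM 0xF000000F 32)) 64
/-- blocks 0 and 1 without salt -/
def NS2 : Nat := Nat.lor (Nat.shiftLeft (Nat.sub (Nat.shiftLeft 1 1024) 1) 64)
  (Nat.shiftLeft (Nat.sub (Nat.shiftLeft 1 1024) 1) 1152)
/-- entry mask, four blocks -/
def EM : Nat := Nat.sub (Nat.shiftLeft 1 4352) 1

/-- n copies of x -/
def rp (x : Nat) (n : Nat) : Nat :=
  Nat.rec (motive := fun _ => Nat) 0 (fun _ r => Nat.lor (Nat.shiftLeft r 4352) x) n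

/-- union of the five shifts -/
def sh5 (x s : Nat) : Nat :=
  Nat.lor (Nat.lor x (Nat.shiftRight x s)) (Nat.lor (Nat.shiftRight x (Nat.mul 2 s))
    (Nat.lor (Nat.shiftRight x (Nat.mul 3 s)) (Nat.shiftRight x (Nat.mul 4 s))))

/-- windows meeting FX and missing Y -/
def fxw (FX Y s : Nat) : Nat := Nat.xor (sh5 FX s) (Nat.land (sh5 FX s) (sh5 Y s))

def maj (a b c : Nat) : Nat := Nat.lor (Nat.land a b) (Nat.land c (Nat.lor a b))

def sub (T NB : Nat) : Bool := Nat.beq (Nat.land T NB) T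

def d4 (v o c1 c2 c3 c4 : Nat) : Bool :=
  sub (Nat.land v (Nat.lor (Nat.lor (Nat.land c1 c2) (Nat.land c3 c4))
    (Nat.land (Nat.lor c1 c2) (Nat.lor c3 c4)))) o
def d3 (v o s1 c1 s2 c2 ns nz : Nat) : Bool :=
  d4 v o c1 c2 (maj ns nz s1) (Nat.land s2 (Nat.xor s1 (Nat.xor ns nz)))
def d2 (v o f x0 x1 x2 x3 x4 : Nat) : Bool :=
  d3 v o (Nat.xor x0 (Nat.xor x1 x2)) (maj x0 x1 x2) (Nat.xor f (Nat.xor x3 x4)) (maj x3 x4 f)
    (Nat.shiftRight o 2176) (Nat.shiftRight o 3264)
def d1 (v f a s : Nat) : Bool :=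
  d2 v (sh5 a s) f (Nat.shiftRight a 1088) (Nat.shiftRight a (Nat.add 1088 s))
    (Nat.shiftRight a (Nat.add 1088 (Nat.mul 2 s))) (Nat.shiftRight a (Nat.add 1088 (Nat.mul 3 s)))
    (Nat.shiftRight a (Nat.add 1088 (Nat.mul 4 s)))

/-- number of entries in a batch -/
def NE : Nat := 48
def LIM2 : Nat := Nat.shiftLeft 1 (Nat.mul 4352 64)

def chk (FX Y a : Nat) : Bool :=
  cnd (Nat.ble LIM2 a) false
    (cnd (d1 (rp (Nat.shiftLeft (blkd 0) 64) 64) (rp (fxw FX Y 1) 64) a 1)
      (cnd (d1 (rp (Nat.shiftLeft (blkd 1) 64) 64) (rp (fxw FX Y 32) 64) a 32)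
        (cnd (d1 (rp (Nat.shiftLeft (blkd 2) 64) 64) (rp (fxw FX Y 33) 64) a 33)
          (d1 (rp (Nat.shiftLeft (blkd 3) 64) 64) (rp (fxw FX Y 31) 64) a 31) false) false) false)

/-- every window (stride sX, starts in XW) with a white stone has a black stone -/
def xchk (XW sX a : Nat) : Bool :=
  sub (Nat.land (rp XW 64) (Nat.shiftRight (sh5 a sX) 1088)) (sh5 a sX)

def chkX (FX Y XW sX a : Nat) : Bool :=
  cnd (chk FX Y a) (cnd (Nat.beq XW 0) true (xchk XW sX a)) false

/-- continuation: stream, mask, accumulator, counter -/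
abbrev KT := Nat → Nat → Nat → Nat → Bool

def flush (ck : Nat → Bool) (a : Nat) (k : Nat → Nat → Bool) : Bool := cnd (ck a) (k 0 NE) false

def push2 (ck : Nat → Bool) (a n : Nat) (k : Nat → Nat → Bool) : Bool :=
  Nat.rec (motive := fun _ => Bool) (flush ck a k) (fun m _ => k a m) n

/-- record the position E with unknown regions C -/
def push (ck : Nat → Bool) (E C acc n : Nat) (k : Nat → Nat → Bool) : Bool :=
  push2 ck (Nat.lor (Nat.shiftLeft acc 4352) (Nat.land (Nat.lor E C) EM)) n k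

def pEnd2 (w2 s S S1 S0 KK acc n : Nat) (k : KT) : Bool :=
  cnd (Nat.beq (Nat.land S1 (ChkF w2)) (ExpF w2))
    (cnd (Nat.beq (Nat.land (Nat.lor (Nat.xor S1 S0) (bw w2)) KK) 0)
      (k (Nat.shiftRight s 48) S acc n) false) false

def pEnd (w s S S0 KK acc n : Nat) (k : KT) : Bool :=
  Nat.rec (motive := fun _ => Bool) false
    (fun w2 _ => pEnd2 w2 s S (Nat.xor S (Sm w)) S0 KK acc n k)
    (Nat.land (Nat.shiftRight s 24) 16777215)

/-- pessimistic forcing sequence: stream s, state S, start state S0; passes on the last state -/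
def pess (S0 KK acc n : Nat) (k : KT) (fuel : Nat) : Nat → Nat → Bool :=
  Nat.rec (motive := fun _ => Nat → Nat → Bool) (fun _ _ => false)
    (fun _ ih s S => Nat.rec (motive := fun _ => Bool) false
      (fun w _ => Bool.rec (motive := fun _ => Bool) false
        (Nat.rec (motive := fun _ => Bool) (ih (Nat.shiftRight s 24) (Nat.xor S (Sm w)))
          (fun _ _ => pEnd w s S S0 KK acc n k) (Nat.land w 7))
        (Nat.beq (Nat.land S (Chk w)) (Exp w)))
      (Nat.land s 16777215)) fuel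

/-- selector, stream, state, KK, C, mask, acc, counter -/
abbrev FT := Nat → Nat → Nat → Nat → Nat → Nat → Nat → Nat → KT → Bool

def vFive (w s S KK acc n : Nat) (k : KT) : Bool :=
  cnd (Nat.beq (Nat.land S (ChkF w)) (ExpF w))
    (cnd (Nat.beq (Nat.land KK (bw w)) 0) (k (Nat.shiftRight s 24) 0 acc n) false) false

def vStep (ck : Nat → Bool) (ih : FT) (sel w s S KK C acc n : Nat) (k : KT) : Bool :=
  cnd (Nat.beq (Nat.land S (Chk w)) (Exp w))
    (cnd (Nat.beq (Nat.land KK (Sm w)) 0)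
      (push ck (Nat.lor S (bw w)) C acc n fun acc' n' =>
        ih sel (Nat.shiftRight s 24) (Nat.xor S (Sm w)) KK C 0 acc' n' k) false) false

/-- all cells of block 3 of KK except those of the masks in block 0 and 1 of X, in block 3 -/
def rest (KK X : Nat) : Nat :=
  Nat.xor (Nat.land KK FU3)
    (Nat.land (Nat.land KK FU3) (Nat.lor (Nat.shiftLeft X 3264) (Nat.shiftLeft X 2176)))

/-- block 3 of r added to blocks 0 and 1 of KK -/
def kk' (KK r : Nat) : Nat := Nat.lor KK (Nat.lor (Nat.shiftRight r 3264) (Nat.shiftRight r 2176))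

/-- leaf of a reply node: passes on the last state of a pessimistic sequence, or 0 -/
def leafU2 (ih : FT) (t s S KK C acc n : Nat) (k : KT) : Bool :=
  cnd (Nat.ble t 1) (pess S KK acc n k 64 s S) (ih 2 s S KK C 0 acc n k)

def leafU (ih : FT) (s S KK C acc n : Nat) (k : KT) : Bool :=
  Nat.rec (motive := fun _ => Bool) false
    (fun w _ => leafU2 ih (Nat.land w 7) s S KK C acc n k) (Nat.land s 16777215)

/-- end of a reply node; Z holds the explicit cells, the one-of cells, the union of white stones -/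
def vDef (ck : Nat → Bool) (ih : FT) (s S KK C Z acc n : Nat) (k : KT) : Bool :=
  cnd (Nat.beq (Nat.land (Nat.land Z BM) (Nat.shiftRight KK 2176)) 0)
    (leafU ih s S (kk' KK (rest KK (Nat.lor S Z)))
      (Nat.lor C (rest KK (Nat.lor S Z))) acc n fun s' Sx acc' n' =>
        push ck (Nat.lor S (Nat.land B1 (Nat.lor Sx (Nat.shiftRight Z 1088))))
          (Nat.lor C (rest KK (Nat.lor S (Nat.land Z BM)))) acc' n' fun acc2 n2 => k s' 0 acc2 n2) false

def vAnd (ck : Nat → Bool) (ih : FT) (w s S KK C acc n : Nat) (k : KT) : Bool :=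
  cnd (Nat.beq (Nat.land (Nat.lor KK S) (bb2 w)) 0)
    (ih 1 (Nat.shiftRight s 24) (Nat.lor S (cm (pw w))) KK C 0 acc n
      fun s2 Z acc2 n2 => vDef ck ih s2 (Nat.lor S (cm (pw w))) KK C Z acc2 n2 k) false

/-- direct pessimistic leaf -/
def vPess (ck : Nat → Bool) (s S KK C acc n : Nat) (k : KT) : Bool :=
  pess S KK acc n (fun s' Sx acc' n' =>
    push ck (Nat.lor S (Nat.land B1 Sx)) C acc' n' fun acc2 n2 => k s' 0 acc2 n2) 64 s S

def vBody2 (ck : Nat → Bool) (ih : FT) (w s S KK C acc n : Nat) (k : KT) : Bool :=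
  Nat.rec (motive := fun _ => Bool) (vFive w s S KK acc n k)
    (fun t _ => Nat.rec (motive := fun _ => Bool) (vStep ck ih 0 w s S KK C acc n k)
      (fun _ _ => vAnd ck ih w s S KK C acc n k) t) (Nat.sub (Nat.land w 7) 2)

def vBody (ck : Nat → Bool) (ih : FT) (s S KK C acc n : Nat) (k : KT) : Bool :=
  Nat.rec (motive := fun _ => Bool) false
    (fun w _ => cnd (Nat.ble (Nat.land w 7) 1)
      (vPess ck s S KK C acc n k)
      (vBody2 ck ih w s S KK C acc n k)) (Nat.land s 16777215)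

/-- forcing sequence with recorded positions (no reply nodes) -/
def lBody (ck : Nat → Bool) (ih : FT) (s S KK C acc n : Nat) (k : KT) : Bool :=
  Nat.rec (motive := fun _ => Bool) false
    (fun w _ => cnd (Nat.beq (Nat.land w 7) 2) (vFive w s S KK acc n k)
      (vStep ck ih 2 w s S KK C acc n k)) (Nat.land s 16777215)

/-- two cells of a word -/
def g2 (w : Nat) : Nat := Nat.lor (cm (Nat.land w 1023)) (cm (Nat.land (Nat.shiftRight w 10) 1023))
/-- two cells of a header word -/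
def g3 (w : Nat) : Nat :=
  Nat.lor (cm (Nat.land (Nat.shiftRight w 3) 1023)) (cm (Nat.land (Nat.shiftRight w 13) 1023))

def gl (n : Nat) : Nat → Nat → (Nat → Nat → Bool) → Bool :=
  Nat.rec (motive := fun _ => Nat → Nat → (Nat → Nat → Bool) → Bool)
    (fun s G k => k s G)
    (fun _ ih s G k => Nat.rec (motive := fun _ => Bool) false
      (fun w _ => ih (Nat.shiftRight s 24) (Nat.lor G (g2 w)) k) (Nat.land s 16777215)) n

/-- explicit replies G, all placed -/
def kP (ih : FT) (s2 S KK C Z acc n G : Nat) (k : KT) : Bool :=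
  ih 0 s2 (Nat.lor S (Nat.shiftLeft G 1088)) KK C 0 acc n fun s3 _ acc3 n3 =>
    ih 1 s3 S KK C (Nat.lor Z G) acc3 n3 k

/-- one unknown reply among G -/
def kR (ih : FT) (s2 S KK C Z acc n G : Nat) (k : KT) : Bool :=
  leafU ih s2 S (Nat.lor KK (Nat.lor G (Nat.shiftLeft G 1088))) (Nat.lor C (Nat.shiftLeft G 3264))
    acc n fun s3 Sx acc3 n3 =>
      ih 1 s3 S KK C (Nat.lor Z (Nat.lor (Nat.shiftLeft G 1088) (Nat.shiftLeft (Nat.land B1 Sx) 1088)))
        acc3 n3 k

def kBody3 (ih : FT) (h s S KK C Z acc n t : Nat) (k : KT) : Bool :=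
  gl (Nat.shiftRight h 3) (Nat.shiftRight s 24) 0 fun s2 G =>
    Nat.rec (motive := fun _ => Bool) (kP ih s2 S KK C Z acc n G k)
      (fun _ _ => kR ih s2 S KK C Z acc n G k) t

def kBody (ih : FT) (s S KK C Z acc n : Nat) (k : KT) : Bool :=
  Nat.rec (motive := fun _ => Bool) false
    (fun h _ => Nat.rec (motive := fun _ => Bool) (k (Nat.shiftRight s 24) Z acc n)
      (fun t _ => Nat.rec (motive := fun _ => Bool)
        (kP ih (Nat.shiftRight s 24) S KK C Z acc n (g3 h) k)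
        (fun t _ => Nat.rec (motive := fun _ => Bool)
          (kR ih (Nat.shiftRight s 24) S KK C Z acc n (g3 h) k)
          (fun t _ => kBody3 ih h s S KK C Z acc n t k) t) t)
      (Nat.land h 7))
    (Nat.land s 16777215)

def vr (ck : Nat → Bool) (fuel : Nat) : FT :=
  Nat.rec (motive := fun _ => FT) (fun _ _ _ _ _ _ _ _ _ => false)
    (fun _ ih sel s S KK C Z acc n k =>
      Nat.rec (motive := fun _ => Bool) (vBody ck ih s S KK C acc n k)
        (fun t _ => Nat.rec (motive := fun _ => Bool) (kBody ih s S KK C Z acc n k)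
          (fun _ _ => lBody ck ih s S KK C acc n k) t) sel) fuel

/-- selector, stream, state, mask, acc, counter -/
abbrev MT := Nat → Nat → Nat → Nat → Nat → Nat → KT → Bool

/-- main node default run -/
def mDef (ck : Nat → Bool) (KK s S Z acc n : Nat) (k : KT) : Bool :=
  cnd (Nat.beq (Nat.land (Nat.land Z BM) (Nat.shiftRight KK 2176)) 0)
    (vr ck 200 0 s S (kk' KK (rest KK (Nat.lor S Z))) (Nat.shiftRight (rest KK (Nat.lor S Z)) 1088)
      0 acc n k) false

def mQ (ck : Nat → Bool) (KK : Nat) (ih : MT) (w s S acc n : Nat) (k : KT) : Bool :=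
  cnd (Nat.beq (Nat.land (Nat.lor KK S) (bb2 w)) 0)
    (push ck (Nat.lor S (cm (pw w))) 0 acc n fun acc' n' =>
      ih 1 (Nat.shiftRight s 24) (Nat.lor S (cm (pw w))) 0 acc' n'
        fun s2 Z acc2 n2 => mDef ck KK s2 (Nat.lor S (cm (pw w))) Z acc2 n2 k) false

/-- proved position number i of the table -/
def mTab (T : Nat → Nat) (w s S acc n : Nat) (k : KT) : Bool :=
  cnd (Nat.beq (Nat.land S NS2) (T (Nat.shiftRight w 3))) (k (Nat.shiftRight s 24) 0 acc n) false

def mNode (T : Nat → Nat) (ck : Nat → Bool) (KK : Nat) (ih : MT) (s S acc n : Nat) (k : KT) : Bool :=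
  Nat.rec (motive := fun _ => Bool) false
    (fun w _ => cnd (Nat.ble (Nat.land w 7) 5) (vr ck 200 0 s S KK 0 0 acc n k)
      (cnd (Nat.beq (Nat.land w 7) 6) (mQ ck KK ih w s S acc n k)
        (mTab T w s S acc n k))) (Nat.land s 16777215)

def mP (ih : MT) (s2 S Z acc n G : Nat) (k : KT) : Bool :=
  ih 0 s2 (Nat.lor S (Nat.shiftLeft G 1088)) 0 acc n fun s3 _ acc3 n3 =>
    ih 1 s3 S (Nat.lor Z G) acc3 n3 k

def mR (ck : Nat → Bool) (KK : Nat) (ih : MT) (s2 S Z acc n G : Nat) (k : KT) : Bool :=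
  vr ck 200 0 s2 S (Nat.lor KK (Nat.lor G (Nat.shiftLeft G 1088))) (Nat.shiftLeft G 2176) 0 acc n
    fun s3 _ acc3 n3 => ih 1 s3 S (Nat.lor Z (Nat.shiftLeft G 1088)) acc3 n3 k

def mKids3 (ck : Nat → Bool) (KK : Nat) (ih : MT) (h s S Z acc n t : Nat) (k : KT) : Bool :=
  gl (Nat.shiftRight h 3) (Nat.shiftRight s 24) 0 fun s2 G =>
    Nat.rec (motive := fun _ => Bool) (mP ih s2 S Z acc n G k)
      (fun _ _ => mR ck KK ih s2 S Z acc n G k) t

def mKids (ck : Nat → Bool) (KK : Nat) (ih : MT) (s S Z acc n : Nat) (k : KT) : Bool :=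
  Nat.rec (motive := fun _ => Bool) false
    (fun h _ => Nat.rec (motive := fun _ => Bool) (k (Nat.shiftRight s 24) Z acc n)
      (fun t _ => Nat.rec (motive := fun _ => Bool)
        (mP ih (Nat.shiftRight s 24) S Z acc n (g3 h) k)
        (fun t _ => Nat.rec (motive := fun _ => Bool)
          (mR ck KK ih (Nat.shiftRight s 24) S Z acc n (g3 h) k)
          (fun t _ => mKids3 ck KK ih h s S Z acc n t k) t) t)
      (Nat.land h 7))
    (Nat.land s 16777215)

def mn (T : Nat → Nat) (ck : Nat → Bool) (KK fuel : Nat) : MT :=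
  Nat.rec (motive := fun _ => MT) (fun _ _ _ _ _ _ _ => false)
    (fun _ ih sel s S Z acc n k =>
      Nat.rec (motive := fun _ => Bool) (mNode T ck KK ih s S acc n k)
        (fun _ _ => mKids ck KK ih s S Z acc n k) sel) fuel

/-- the constant KK of a tree: forbidden cells twice, cells where no visible stone may lie,
cells that may be unknown -/
def mkK (FX BAD XX : Nat) : Nat :=
  Nat.lor (Nat.lor (Nat.lor FX BAD) (Nat.shiftLeft (Nat.lor FX BAD) 1088))
    (Nat.lor (Nat.shiftLeft BAD 2176)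
      (Nat.xor FU3 (Nat.land FU3 (Nat.shiftLeft XX 3264))))

/-- check a whole tree -/
def runT (T : Nat → Nat) (FX Y BAD XX XW sX s S : Nat) : Bool :=
  cnd (cnd (sub BORD BAD) (cnd (sub XX BAD)
      (Nat.beq (Nat.land S (Nat.lor BAD (Nat.shiftLeft BAD 1088))) 0) false) false)
    (mn T (chkX FX Y XW sX) (mkK FX BAD XX) 250 0 s S 0 0 NE
      fun _ _ acc _ => chkX FX Y XW sX acc) false

end

end Pool.Agent.Helper225.G
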