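import Pool.Agent.Helper225.GSys

set_option autoImplicit false

namespace Pool.Agent.Helper225.G

namespace C8


section aux
lemma tb_land (a b q : ℕ) : (Nat.land a b).testBit q = (a.testBit q && b.testBit q) :=
  Nat.testBit_and a b q
lemma tb_lor (a b q : ℕ) : (Nat.lor a b).testBit q = (a.testBit q || b.testBit q) :=
  Nat.testBit_or a b q
lemma tb_xor (a b q : ℕ) : (Nat.xor a b).testBit q = (a.testBit q ^^ b.testBit q) :=
  Nat.testBit_xor a b q
lemma tb_shr (a n q : ℕ) : (Nat.shiftRight a n).testBit q = a.testBit (q + n) := by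
  rw [Nat.add_comm]; exact Nat.testBit_shiftRight a
lemma tb_shl (a n q : ℕ) : (Nat.shiftLeft a n).testBit (q + n) = a.testBit q := by
  have h : (Nat.shiftLeft a n).testBit (q + n) = (decide (q + n ≥ n) && a.testBit (q + n - n)) :=
    Nat.testBit_shiftLeft a
  rw [h]
  simp

lemma shl_one (n : ℕ) : Nat.shiftLeft 1 n = 2 ^ n := Nat.one_shiftLeft n

lemma em_bit (n r : ℕ) : (Nat.sub (Nat.shiftLeft 1 n) 1).testBit r = decide (r < n) := by
  rw [shl_one]
  exact Nat.testBit_two_pow_sub_one n r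

lemma cnd_true {b t : Bool} (h : cnd b t false = true) : b = true ∧ t = true := by
  cases b
  · exact absurd h (by simp [cnd])
  · exact ⟨rfl, h⟩

lemma cnd_true' {b t : Bool} (h : cnd b false t = true) : b = false ∧ t = true := by
  cases b
  · exact ⟨rfl, h⟩
  · exact absurd h (by simp [cnd])

lemma sub_bit {T NB : ℕ} (h : sub T NB = true) (q : ℕ) (hq : T.testBit q = true) :
    NB.testBit q = true := by
  unfold sub at h
  have h1 : Nat.land T NB = T := Nat.eq_of_beq_eq_true h
  have h2 := tb_land T NB q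
  rw [h1, hq] at h2
  simpa using h2.symm

lemma sh5_bit (x s r : ℕ) : (sh5 x s).testBit r = true ↔ ∃ k < 5, x.testBit (r + s * k) = true := by
  unfold sh5
  simp only [tb_lor, tb_shr, Nat.mul_eq, Bool.or_eq_true]
  constructor
  · rintro ((h | h) | (h | (h | h)))
    · exact ⟨0, by norm_num, by rw [Nat.mul_zero, Nat.add_zero]; exact h⟩
    · exact ⟨1, by norm_num, by rw [Nat.mul_one]; exact h⟩
    · exact ⟨2, by norm_num, by rw [Nat.mul_comm s 2]; exact h⟩
    · exact ⟨3, by norm_num, by rw [Nat.mul_comm s 3]; exact h⟩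
    · exact ⟨4, by norm_num, by rw [Nat.mul_comm s 4]; exact h⟩
  · rintro ⟨k, hk, h⟩
    interval_cases k
    · left; left; rw [Nat.mul_zero, Nat.add_zero] at h; exact h
    · left; right; rw [Nat.mul_one] at h; exact h
    · right; left; rw [Nat.mul_comm s 2] at h; exact h
    · right; right; left; rw [Nat.mul_comm s 3] at h; exact h
    · right; right; right; rw [Nat.mul_comm s 4] at h; exact h

def majB (a b c : Bool) : Bool := (a && b) || (c && (a || b))

lemma maj_bit (a b c q : ℕ) : (maj a b c).testBit q = majB (a.testBit q) (b.testBit q)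
    (c.testBit q) := by
  unfold maj majB
  simp only [tb_lor, tb_land]

def thrB (x0 x1 x2 x3 x4 f ns nz : Bool) : Bool :=
  ((majB x0 x1 x2 && majB x3 x4 f) ||
      (majB ns nz (x0 ^^ (x1 ^^ x2)) && ((f ^^ (x3 ^^ x4)) && ((x0 ^^ (x1 ^^ x2)) ^^ (ns ^^ nz))))) ||
    ((majB x0 x1 x2 || majB x3 x4 f) &&
      (majB ns nz (x0 ^^ (x1 ^^ x2)) || ((f ^^ (x3 ^^ x4)) && ((x0 ^^ (x1 ^^ x2)) ^^ (ns ^^ nz)))))

lemma thrB_of : ∀ x0 x1 x2 x3 x4 f ns nz : Bool,
    4 ≤ x0.toNat + x1.toNat + x2.toNat + x3.toNat + x4.toNat + f.toNat + ns.toNat + nz.toNat →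
    thrB x0 x1 x2 x3 x4 f ns nz = true := by
  decide

lemma d1_bit {v f a s : ℕ} (h : d1 v f a s = true) (q : ℕ) (hv : v.testBit q = true)
    (ht : thrB (a.testBit (q + 1088)) (a.testBit (q + (1088 + s))) (a.testBit (q + (1088 + 2 * s)))
      (a.testBit (q + (1088 + 3 * s))) (a.testBit (q + (1088 + 4 * s))) (f.testBit q)
      ((sh5 a s).testBit (q + 2176)) ((sh5 a s).testBit (q + 3264)) = true) :
    (sh5 a s).testBit q = true := by
  unfold d1 d2 d3 d4 at h
  apply sub_bit h q
  simp only [tb_land, tb_lor, tb_xor, tb_shr, maj_bit, Nat.add_eq, Nat.mul_eq, hv, Bool.true_and]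
  exact ht

lemma rp_bit (x q : ℕ) (hx : x.testBit q = true) : ∀ n i, i < n →
    (rp x n).testBit (4352 * i + q) = true := by
  intro n
  induction n with
  | zero => intro i hi; exact absurd hi (Nat.not_lt_zero i)
  | succ n ih =>
    intro i hi
    have h1 : rp x (n + 1) = Nat.lor (Nat.shiftLeft (rp x n) 4352) x := rfl
    rw [h1, tb_lor]
    rcases Nat.eq_zero_or_pos i with h0 | h0
    · subst h0
      rw [Nat.mul_zero, Nat.zero_add, hx, Bool.or_true]
    · obtain ⟨j, rfl⟩ : ∃ j, i = j + 1 := ⟨i - 1, by omega⟩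
      have h2 : 4352 * (j + 1) + q = (4352 * j + q) + 4352 := by ring
      rw [h2, tb_shl, ih j (by omega), Bool.true_or]

lemma rowsM_bit (r x : ℕ) (hr : r.testBit x = true) : ∀ n y, y < n →
    (rowsM r n).testBit (x + 32 * y) = true := by
  intro n
  induction n with
  | zero => intro i hi; exact absurd hi (Nat.not_lt_zero i)
  | succ n ih =>
    intro y hy
    have h1 : rowsM r (n + 1) = Nat.lor (Nat.shiftLeft (rowsM r n) 32) r := rfl
    rw [h1, tb_lor]
    rcases Nat.eq_zero_or_pos y with h0 | h0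
    · subst h0
      rw [Nat.mul_zero, Nat.add_zero, hr, Bool.or_true]
    · obtain ⟨j, rfl⟩ : ∃ j, y = j + 1 := ⟨y - 1, by omega⟩
      have h2 : x + 32 * (j + 1) = (x + 32 * j) + 32 := by ring
      rw [h2, tb_shl, ih j (by omega), Bool.true_or]

lemma ind_eq {p : Prop} {b : Bool} (h : p ↔ b = true) : ind p = b.toNat := by
  unfold ind
  cases b
  · rw [if_neg]; rfl
    intro hp; exact absurd (h.1 hp) (by simp)
  · rw [if_pos (h.2 rfl)]; rfl

/-- the main step: one window -/
lemma window (FX Y a i s p v f : ℕ) (b : ℕ → Cell)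
    (hb : ∀ k < 5, onB (b k) ∧ ix (b k) = p + s * k)
    (hd : d1 v f a s = true) (hv : v.testBit (4352 * i + (64 + p)) = true)
    (hf : (fxw FX Y s).testBit (64 + p) = true → f.testBit (4352 * i + (64 + p)) = true)
    (h0 : ¬ ∃ k < 5, b k ∈ blk 0 (a >>> (4352 * i))) :
    (ind (b 0 ∈ blk 1 (a >>> (4352 * i))) + ind (b 1 ∈ blk 1 (a >>> (4352 * i))) +
      ind (b 2 ∈ blk 1 (a >>> (4352 * i))) + ind (b 3 ∈ blk 1 (a >>> (4352 * i))) +
      ind (b 4 ∈ blk 1 (a >>> (4352 * i)))) +
      ind ((∃ k < 5, b k ∈ blk 0 FX) ∧ ¬ ∃ k < 5, b k ∈ blk 0 Y) +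
      ind (∃ k < 5, b k ∈ blk 2 (a >>> (4352 * i))) +
      ind (∃ k < 5, b k ∈ blk 3 (a >>> (4352 * i))) ≤ 3 := by
  have hmem : ∀ (E j k : ℕ), k < 5 → (b k ∈ blk j E ↔ E.testBit (1088 * j + 64 + (p + s * k)) = true) := by
    intro E j k hk
    obtain ⟨h1, h2⟩ := hb k hk
    unfold blk
    rw [Set.mem_ofPred_eq, h2]
    exact ⟨fun h => h.2, fun h => ⟨h1, h⟩⟩
  have hsh : ∀ r, (a >>> (4352 * i)).testBit r = a.testBit (4352 * i + r) := by
    intro r
    rw [Nat.testBit_shiftRight]
  have hsh5 : ∀ j, (∃ k < 5, b k ∈ blk j (a >>> (4352 * i))) ↔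
      (sh5 a s).testBit (4352 * i + (64 + p) + 1088 * j) = true := by
    intro j
    rw [sh5_bit]
    constructor
    · rintro ⟨k, hk, h⟩
      refine ⟨k, hk, ?_⟩
      rw [hmem _ _ _ hk, hsh] at h
      have e : 4352 * i + (64 + p) + 1088 * j + s * k =
        4352 * i + (1088 * j + 64 + (p + s * k)) := by ring
      rw [e]; exact h
    · rintro ⟨k, hk, h⟩
      refine ⟨k, hk, ?_⟩
      rw [hmem _ _ _ hk, hsh]
      have e : 4352 * i + (64 + p) + 1088 * j + s * k =
        4352 * i + (1088 * j + 64 + (p + s * k)) := by ring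
      rw [← e]; exact h
  have hX : ∀ Z : ℕ, (∃ k < 5, b k ∈ blk 0 Z) ↔ (sh5 Z s).testBit (64 + p) = true := by
    intro Z
    rw [sh5_bit]
    constructor
    · rintro ⟨k, hk, h⟩
      refine ⟨k, hk, ?_⟩
      rw [hmem _ _ _ hk] at h
      have e : 64 + p + s * k = 1088 * 0 + 64 + (p + s * k) := by ring
      rw [e]; exact h
    · rintro ⟨k, hk, h⟩
      refine ⟨k, hk, ?_⟩
      rw [hmem _ _ _ hk]
      have e : 64 + p + s * k = 1088 * 0 + 64 + (p + s * k) := by ring
      rw [← e]; exact h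
  have hx : ∀ k, k < 5 → ind (b k ∈ blk 1 (a >>> (4352 * i))) =
      (a.testBit (4352 * i + (64 + p) + (1088 + k * s))).toNat := by
    intro k hk
    apply ind_eq
    rw [hmem _ _ _ hk, hsh]
    have e : 4352 * i + (64 + p) + (1088 + k * s) =
      4352 * i + (1088 * 1 + 64 + (p + s * k)) := by ring
    rw [e]
  have hF : ind ((∃ k < 5, b k ∈ blk 0 FX) ∧ ¬ ∃ k < 5, b k ∈ blk 0 Y) ≤
      (f.testBit (4352 * i + (64 + p))).toNat := by
    by_cases hc : (∃ k < 5, b k ∈ blk 0 FX) ∧ ¬ ∃ k < 5, b k ∈ blk 0 Y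
    · have h1 : (fxw FX Y s).testBit (64 + p) = true := by
        unfold fxw
        rw [tb_xor, tb_land, (hX FX).1 hc.1]
        have h2 : (sh5 Y s).testBit (64 + p) = false := by
          rw [← Bool.not_eq_true]
          intro h3
          exact hc.2 ((hX Y).2 h3)
        rw [h2]; rfl
      rw [hf h1]
      unfold ind
      rw [if_pos hc]
      exact le_refl _
    · unfold ind
      rw [if_neg hc]
      exact Nat.zero_le _
  have h2 : ind (∃ k < 5, b k ∈ blk 2 (a >>> (4352 * i))) =
      ((sh5 a s).testBit (4352 * i + (64 + p) + 2176)).toNat := ind_eq (hsh5 2)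
  have h3 : ind (∃ k < 5, b k ∈ blk 3 (a >>> (4352 * i))) =
      ((sh5 a s).testBit (4352 * i + (64 + p) + 3264)).toNat := ind_eq (hsh5 3)
  rw [h2, h3, hx 0 (by norm_num), hx 1 (by norm_num), hx 2 (by norm_num), hx 3 (by norm_num),
    hx 4 (by norm_num)]
  simp only [Nat.zero_mul, Nat.one_mul, Nat.add_zero]
  by_contra hcon
  have hcon := not_le.1 hcon
  apply h0
  rw [hsh5 0]
  have h5 := d1_bit hd (4352 * i + (64 + p)) hv (thrB_of _ _ _ _ _ _ _ _ (by
    omega))
  rw [Nat.mul_zero, Nat.add_zero]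
  exact h5

lemma cnt_eq (a d : Cell) (S : Set Cell) : cnt a d S = ind (wn a d 0 ∈ S) + ind (wn a d 1 ∈ S) +
    ind (wn a d 2 ∈ S) + ind (wn a d 3 ∈ S) + ind (wn a d 4 ∈ S) := by
  classical
  unfold cnt ind
  rw [Finset.card_filter]
  simp only [Finset.sum_range_succ, Finset.sum_range_zero, Nat.zero_add]

lemma meets_iff (a d : Cell) (S : Set Cell) : Meets a d S ↔ ∃ k < 5, wn a d k ∈ S := Iff.rfl

lemma meets_iff' (a d : Cell) (S : Set Cell) : Meets a d S ↔ ∃ k < 5, wn a d (4 - k) ∈ S := by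
  constructor
  · rintro ⟨t, ht, h⟩
    refine ⟨4 - t, by omega, ?_⟩
    have : 4 - (4 - t) = t := by omega
    rw [this]; exact h
  · rintro ⟨t, ht, h⟩
    exact ⟨4 - t, by omega, h⟩

lemma bits28 : ∀ x < 28, Nat.testBit 0x0FFFFFFF x = true := by decide
lemma bits32 : ∀ x < 32, Nat.testBit 0xFFFFFFFF x = true := by decide
lemma bits4 : ∀ x < 32, 4 ≤ x → Nat.testBit 0xFFFFFFF0 x = true := by decide

lemma v_bit (M p i : ℕ) (hi : i < 64) (h : M.testBit p = true) :
    (rp (Nat.shiftLeft M 64) 64).testBit (4352 * i + (64 + p)) = true := by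
  apply rp_bit _ _ _ _ _ hi
  rw [Nat.add_comm, tb_shl]
  exact h

lemma f_bit (FX Y s p i : ℕ) (hi : i < 64) (h : (fxw FX Y s).testBit (64 + p) = true) :
    (rp (fxw FX Y s) 64).testBit (4352 * i + (64 + p)) = true :=
  rp_bit _ _ h _ _ hi

end aux

/-- TARGET 1: the batch test is sound. -/
theorem chk_sound (FX Y a : ℕ) (h : chk FX Y a = true) : GoodA FX Y a := by
  unfold chk at h
  obtain ⟨hlim, h⟩ := cnd_true' h
  obtain ⟨e0, h⟩ := cnd_true h
  obtain ⟨e1, h⟩ := cnd_true h
  obtain ⟨e2, e3⟩ := cnd_true h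
  intro i
  by_cases hi : i < 64
  · intro c d hd hon h0
    rcases hd with rfl | rfl | rfl | rfl
    · -- (1, 0)
      have hw : ∀ k < 5, onB (wn c (1, 0) k) ∧ ix (wn c (1, 0) k) = ix (wn c (1, 0) 0) + 1 * k := by
        intro k hk
        refine ⟨hon k hk, ?_⟩
        have h1 := hon k hk
        have h2 := hon 0 (by norm_num)
        simp only [wn, onB, ix] at h1 h2 ⊢
        push_cast at h1 h2 ⊢
        omega
      have hv : (blkd 0).testBit (ix (wn c (1, 0) 0)) = true := by
        have h1 := hon 4 (by norm_num)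
        have h2 := hon 0 (by norm_num)
        simp only [wn, onB] at h1 h2
        push_cast at h1 h2
        exact rowsM_bit 0x0FFFFFFF (wn c (1, 0) 0).1.toNat (bits28 _ (by simp only [wn]; push_cast; omega))
          32 (wn c (1, 0) 0).2.toNat (by simp only [wn]; push_cast; omega)
      have key := window FX Y a i 1 _ _ _ (wn c (1, 0)) hw e0 (v_bit _ _ _ hi hv)
        (f_bit FX Y 1 _ i hi) h0
      rw [cnt_eq]
      exact key
    · -- (0, 1)
      have hw : ∀ k < 5, onB (wn c (0, 1) k) ∧ ix (wn c (0, 1) k) = ix (wn c (0, 1) 0) + 32 * k := by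
        intro k hk
        refine ⟨hon k hk, ?_⟩
        have h1 := hon k hk
        have h2 := hon 0 (by norm_num)
        simp only [wn, onB, ix] at h1 h2 ⊢
        push_cast at h1 h2 ⊢
        omega
      have hv : (blkd 1).testBit (ix (wn c (0, 1) 0)) = true := by
        have h1 := hon 4 (by norm_num)
        have h2 := hon 0 (by norm_num)
        simp only [wn, onB] at h1 h2
        push_cast at h1 h2
        exact rowsM_bit 0xFFFFFFFF (wn c (0, 1) 0).1.toNat (bits32 _ (by simp only [wn]; push_cast; omega))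
          28 (wn c (0, 1) 0).2.toNat (by simp only [wn]; push_cast; omega)
      have key := window FX Y a i 32 _ _ _ (wn c (0, 1)) hw e1 (v_bit _ _ _ hi hv)
        (f_bit FX Y 32 _ i hi) h0
      rw [cnt_eq]
      exact key
    · -- (1, 1)
      have hw : ∀ k < 5, onB (wn c (1, 1) k) ∧ ix (wn c (1, 1) k) = ix (wn c (1, 1) 0) + 33 * k := by
        intro k hk
        refine ⟨hon k hk, ?_⟩
        have h1 := hon k hk
        have h2 := hon 0 (by norm_num)
        simp only [wn, onB, ix] at h1 h2 ⊢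
        push_cast at h1 h2 ⊢
        omega
      have hv : (blkd 2).testBit (ix (wn c (1, 1) 0)) = true := by
        have h1 := hon 4 (by norm_num)
        have h2 := hon 0 (by norm_num)
        simp only [wn, onB] at h1 h2
        push_cast at h1 h2
        exact rowsM_bit 0x0FFFFFFF (wn c (1, 1) 0).1.toNat (bits28 _ (by simp only [wn]; push_cast; omega))
          28 (wn c (1, 1) 0).2.toNat (by simp only [wn]; push_cast; omega)
      have key := window FX Y a i 33 _ _ _ (wn c (1, 1)) hw e2 (v_bit _ _ _ hi hv)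
        (f_bit FX Y 33 _ i hi) h0
      rw [cnt_eq]
      exact key
    · -- (1, -1)
      have hw : ∀ k < 5, onB (wn c (1, -1) (4 - k)) ∧
          ix (wn c (1, -1) (4 - k)) = ix (wn c (1, -1) 4) + 31 * k := by
        intro k hk
        refine ⟨hon (4 - k) (by omega), ?_⟩
        have h1 := hon (4 - k) (by omega)
        have h2 := hon 4 (by norm_num)
        have h3 : ((4 - k : ℕ) : ℤ) = 4 - (k : ℤ) := by omega
        simp only [wn, onB, ix] at h1 h2 ⊢
        rw [h3] at h1 ⊢
        push_cast at h1 h2 ⊢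
        omega
      have hv : (blkd 3).testBit (ix (wn c (1, -1) 4)) = true := by
        have h1 := hon 4 (by norm_num)
        have h2 := hon 0 (by norm_num)
        simp only [wn, onB] at h1 h2
        push_cast at h1 h2
        exact rowsM_bit 0xFFFFFFF0 (wn c (1, -1) 4).1.toNat
          (bits4 _ (by simp only [wn]; push_cast; omega) (by simp only [wn]; push_cast; omega))
          28 (wn c (1, -1) 4).2.toNat (by simp only [wn]; push_cast; omega)
      have key := window FX Y a i 31 _ _ _ (fun k => wn c (1, -1) (4 - k)) hw e3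
        (v_bit _ _ _ hi hv) (f_bit FX Y 31 _ i hi) (by rw [← meets_iff']; exact h0)
      rw [cnt_eq, meets_iff' c (1, -1) (blk 0 FX), meets_iff' c (1, -1) (blk 0 Y),
        meets_iff' c (1, -1) (blk 2 _), meets_iff' c (1, -1) (blk 3 _)]
      simp only [Nat.sub_zero] at key
      have g1 : 4 - 1 = 3 := rfl
      have g2 : 4 - 2 = 2 := rfl
      have g3 : 4 - 3 = 1 := rfl
      have g4 : 4 - 4 = 0 := rfl
      rw [g1, g2, g3, g4] at key
      omega
  · -- large i
    have hlt : a < 2 ^ (Nat.mul 4352 64) := by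
      have h1 : ¬ (LIM2 ≤ a) := by
        intro h2
        rw [Nat.ble_eq_true_of_le h2] at hlim
        exact absurd hlim (by simp)
      unfold LIM2 at h1
      rw [shl_one] at h1
      exact not_le.1 h1
    have hz : a >>> (4352 * i) = 0 := by
      rw [Nat.shiftRight_eq_div_pow]
      apply Nat.div_eq_of_lt
      apply hlt.trans_le
      apply Nat.pow_le_pow_right (by norm_num)
      exact Nat.mul_le_mul_left 4352 (not_lt.1 hi)
    rw [hz]
    intro c d _ _ _
    have hb : ∀ j, blk j 0 = ∅ := by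
      intro j
      ext x
      unfold blk
      simp
    have hm : ∀ j, ind (Meets c d (blk j 0)) = 0 := by
      intro j
      rw [hb]
      unfold ind Meets
      simp
    have hc : cnt c d (blk 1 0) = 0 := by
      rw [cnt_eq, hb]
      unfold ind
      simp
    rw [hm, hm, hc]
    unfold ind
    split_ifs <;> norm_num

lemma EntryOK_congr (FX Y E E' : ℕ) (h : ∀ r < 4352, E.testBit r = E'.testBit r)
    (hE : EntryOK FX Y E) : EntryOK FX Y E' := by
  have hb : ∀ j ≤ 3, blk j E' = blk j E := by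
    intro j hj
    ext x
    unfold blk
    simp only [Set.mem_ofPred_eq]
    constructor
    · rintro ⟨h1, h2⟩
      refine ⟨h1, ?_⟩
      rw [h _ (by simp only [onB, ix] at h1 ⊢; omega)]
      exact h2
    · rintro ⟨h1, h2⟩
      refine ⟨h1, ?_⟩
      rw [← h _ (by simp only [onB, ix] at h1 ⊢; omega)]
      exact h2
  intro a d hd hon h0
  rw [hb 0 (by norm_num)] at h0
  rw [hb 1 (by norm_num), hb 2 (by norm_num), hb 3 (by norm_num)]
  exact hE a d hd hon h0


lemma stride_ix {e : Cell} {sX : ℕ} (he : StrideOf e sX) (p : Cell)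
    (hon : ∀ k < 5, onB (wn p e k)) : ∀ k < 5, ix (wn p e k) = ix p + sX * k := by
  intro k hk
  have h1 := hon k hk
  have h2 := hon 0 (by norm_num)
  have h4 := hon 4 (by norm_num)
  rcases he with ⟨rfl, rfl⟩ | ⟨rfl, rfl⟩ | ⟨rfl, rfl⟩ | ⟨rfl, rfl⟩ <;>
  · simp only [wn, onB, ix] at h1 h2 h4 ⊢
    push_cast at h1 h2 h4 ⊢
    omega

/-- TARGET: meaning of the check of an accumulator (chk_sound and the bit lemmas above are proved) -/
theorem chkX_sound (FX Y XW sX a : ℕ) (e : Cell) (he : StrideOf e sX)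
    (h : chkX FX Y XW sX a = true) :
    ∀ i, EntryOK FX Y (a >>> (4352 * i)) ∧ XOK XW e (a >>> (4352 * i)) := by
  unfold chkX at h
  obtain ⟨hchk, h2⟩ := cnd_true h
  intro i
  refine ⟨chk_sound FX Y a hchk i, ?_⟩
  intro p hp hon hw
  -- the case XW = 0
  by_cases hXW : XW = 0
  · exfalso
    rw [hXW] at hp
    have := hp.2
    simp at this
  have hx : xchk XW sX a = true := by
    have hb : Nat.beq XW 0 = false := by
      rw [← Bool.not_eq_true]
      intro h3
      exact hXW (Nat.eq_of_beq_eq_true h3)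
    rw [hb] at h2
    exact h2
  have hsh : ∀ r, (a >>> (4352 * i)).testBit r = a.testBit (4352 * i + r) := by
    intro r
    rw [Nat.testBit_shiftRight]
  obtain ⟨k, hk, hkw⟩ := hw
  have hix := stride_ix he p hon
  have hbit := hkw.2
  rw [hsh, hix k hk] at hbit
  -- the index is small
  have hi : i < 64 := by
    by_contra hcon
    have hlim : Nat.ble LIM2 a = false := by
      unfold chk at hchk
      exact (cnd_true' hchk).1
    have hlt : a < 2 ^ (Nat.mul 4352 64) := by
      have h1 : ¬ (LIM2 ≤ a) := by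
        intro h2
        rw [Nat.ble_eq_true_of_le h2] at hlim
        exact absurd hlim (by simp)
      unfold LIM2 at h1
      rw [shl_one] at h1
      exact not_le.1 h1
    have hz : a >>> (4352 * i) = 0 := by
      rw [Nat.shiftRight_eq_div_pow]
      apply Nat.div_eq_of_lt
      apply hlt.trans_le
      apply Nat.pow_le_pow_right (by norm_num)
      exact Nat.mul_le_mul_left 4352 (not_lt.1 hcon)
    have := hkw.2
    rw [hz] at this
    simp at this
  have hq : (sh5 a sX).testBit (4352 * i + (64 + ix p)) = true := by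
    unfold xchk at hx
    refine sub_bit hx _ ?_
    rw [tb_land, tb_shr, Bool.and_eq_true]
    constructor
    · refine rp_bit _ _ ?_ _ _ hi
      have := hp.2
      rwa [Nat.mul_zero, Nat.zero_add] at this
    · rw [sh5_bit]
      refine ⟨k, hk, ?_⟩
      have e : 4352 * i + (64 + ix p) + 1088 + sX * k =
        4352 * i + (1088 * 1 + 64 + (ix p + sX * k)) := by ring
      rw [e]; exact hbit
  rw [sh5_bit] at hq
  obtain ⟨k', hk', hq'⟩ := hq
  refine ⟨k', hk', hon k' hk', ?_⟩
  rw [hsh, hix k' hk']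
  have e : 4352 * i + (64 + ix p) + sX * k' = 4352 * i + (1088 * 0 + 64 + (ix p + sX * k')) := by ring
  rw [← e]; exact hq'

end C8

end Pool.Agent.Helper225.G
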