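import Pool.Agent.Helper225.GBits

set_option autoImplicit false

namespace Pool.Agent.Helper225.G

theorem pf_cnd {b x : Bool} (h : cnd b x false = true) : b = true ∧ x = true := by
  cases b
  · exact absurd h (by simp [cnd])
  · exact ⟨rfl, h⟩

theorem pf_tb (acc X q : ℕ) :
    (Nat.lor (Nat.shiftLeft acc 4352) (Nat.land X EM)).testBit q =
      if q < 4352 then X.testBit q else acc.testBit (q - 4352) := by
  rw [tb_lor, tb_shl, tb_land]
  unfold EM
  rw [tb_ones]
  by_cases hq : q < 4352
  · rw [if_pos hq, decide_eq_false (p := q ≥ 4352) (by omega), decide_eq_true (p := q < 4352) hq]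
    simp
  · rw [if_neg hq, decide_eq_true (p := q ≥ 4352) (by omega),
      decide_eq_false (p := q < 4352) hq]
    simp

theorem pf_good (Q : HS) (acc E C : ℕ)
    (h : GoodP Q (Nat.lor (Nat.shiftLeft acc 4352) (Nat.land (Nat.lor E C) EM))) :
    GoodP Q acc ∧ Q.EOK (Nat.lor E C) := by
  constructor
  · intro i
    have h1 := h (i + 1)
    have e : (Nat.lor (Nat.shiftLeft acc 4352) (Nat.land (Nat.lor E C) EM)) >>> (4352 * (i + 1)) =
        acc >>> (4352 * i) := by
      apply Nat.eq_of_testBit_eq
      intro q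
      have e2 : 4352 * (i + 1) + q - 4352 = 4352 * i + q := by omega
      rw [Nat.testBit_shiftRight, Nat.testBit_shiftRight, pf_tb, if_neg (by omega), e2]
    rw [e] at h1
    exact h1
  · have h1 := h 0
    rw [Nat.mul_zero, Nat.shiftRight_zero] at h1
    refine Q.eok_congr _ _ ?_ h1
    intro j hj
    ext c
    rw [mem_blk, mem_blk]
    constructor
    · rintro ⟨h2, h3⟩
      have h4 := ix_lt h2
      rw [pf_tb, if_pos (by omega)] at h3
      exact ⟨h2, h3⟩
    · rintro ⟨h2, h3⟩
      have h4 := ix_lt h2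
      refine ⟨h2, ?_⟩
      rw [pf_tb, if_pos (by omega)]
      exact h3

/-- TARGET: recorded positions are good if the check accepts the accumulator -/
theorem push_fact (Q : HS) (ck : ℕ → Bool) (hck : CkOK Q ck) : PushFact Q ck := by
  intro E C acc n k h
  unfold push at h
  cases n with
  | zero =>
    have h1 : cnd (ck (Nat.lor (Nat.shiftLeft acc 4352) (Nat.land (Nat.lor E C) EM))) (k 0 NE) false
        = true := h
    obtain ⟨h2, h3⟩ := pf_cnd h1
    exact ⟨0, NE, h3, fun _ => pf_good Q acc E C (hck _ h2)⟩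
  | succ m =>
    have h1 : k (Nat.lor (Nat.shiftLeft acc 4352) (Nat.land (Nat.lor E C) EM)) m = true := h
    exact ⟨_, m, h1, fun h2 => pf_good Q acc E C h2⟩

end Pool.Agent.Helper225.G
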