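import Pool.Agent.Helper225.GHS

set_option autoImplicit false

namespace Pool.Agent.Helper225.G



theorem cnd_f {b t : Bool} (h : cnd b t false = true) : b = true ∧ t = true := by
  cases b
  · exact absurd h (by simp [cnd])
  · exact ⟨rfl, h⟩

theorem cnd_or {b t e : Bool} (h : cnd b t e = true) :
    (b = true ∧ t = true) ∨ (b = false ∧ e = true) := by
  cases b
  · exact Or.inr ⟨rfl, h⟩
  · exact Or.inl ⟨rfl, h⟩

theorem nrec_f {f : ℕ → Bool → Bool} {n : ℕ}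
    (h : Nat.rec (motive := fun _ => Bool) false f n = true) :
    ∃ w, n = w + 1 ∧ f w (Nat.rec (motive := fun _ => Bool) false f w) = true := by
  cases n with
  | zero => exact absurd h (by simp)
  | succ w => exact ⟨w, rfl, h⟩

/-- a cell that is not forbidden is visible, not hidden, not unknown -/
theorem keyc {Q : HS} {KK C : ℕ} (hK : KOK Q KK C) {c : Cell} (hc : onB c)
    (h : c ∉ blk 0 KK ∨ c ∉ blk 1 KK) :
    c ∈ Q.Vis ∧ c ∉ Q.HH ∧ c ∉ rg Q 2 C ∧ c ∉ rg Q 3 C := by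
  have hv : c ∈ Q.Vis := by
    by_contra hcon
    have := hK.vis c hc hcon
    tauto
  have hx : c ∉ Q.XX := fun hx => Q.xx_vis c hx hv
  refine ⟨hv, ?_, ?_, ?_⟩
  · intro hh
    have := hK.hid c hh hc
    tauto
  · rintro ((h1 | h1) | h1)
    · exact h1 hc
    · exact hx h1
    · have := hK.reg c (Or.inl h1)
      tauto
  · rintro ((h1 | h1) | h1)
    · exact h1 hc
    · exact hx h1
    · have := hK.reg c (Or.inr h1)
      tauto

/-- a cell that is not forbidden is in none of the sets of a position -/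
theorem keyw {Q : HS} {KK C : ℕ} (hK : KOK Q KK C) {c : Cell} (hc : onB c)
    (h : c ∉ blk 0 KK ∨ c ∉ blk 1 KK) {P H U1 U2 : Set Cell} (hL : Q.L P H (U1 ∪ U2))
    (h1 : U1 ⊆ rg Q 2 C) (h2 : U2 ⊆ rg Q 3 C) : c ∉ P ∧ c ∉ H ∪ (U1 ∪ U2) := by
  obtain ⟨hv, hh, hr2, hr3⟩ := keyc hK hc h
  refine ⟨fun hp => Q.L_vis _ _ _ hL c hp hv, ?_⟩
  rintro (hc' | hc' | hc')
  · exact hh (Q.L_hid _ _ _ hL c hc' hc)
  · exact hr2 (h1 hc')
  · exact hr3 (h2 hc')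

/-- hidden and unknown cells are forbidden -/
theorem keyF {Q : HS} {KK C : ℕ} (hK : KOK Q KK C) {c : Cell} {P H U1 U2 : Set Cell}
    (hL : Q.L P H (U1 ∪ U2)) (h1 : U1 ⊆ rg Q 2 C) (h2 : U2 ⊆ rg Q 3 C)
    (hc : c ∈ H ∪ (U1 ∪ U2)) : c ∈ Forb KK := by
  intro hb
  by_contra hcon
  have : c ∉ blk 0 KK ∨ c ∉ blk 1 KK := by tauto
  exact (keyw hK hb this hL h1 h2).2 hc

theorem fin_pos (hB : BitFacts) {Q : HS} {S : ℕ} {P H U B W : Set Cell} (hL : Q.L P H U)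
    (hBe : B = blk 0 S ∪ P) (hWe : W ⊆ blk 1 S ∪ (H ∪ U)) : B.Finite ∧ W.Finite := by
  obtain ⟨f1, f2, f3⟩ := Q.L_fin _ _ _ hL
  refine ⟨by rw [hBe]; exact (hB.fin 0 S).union f1, ?_⟩
  exact ((hB.fin 1 S).union (f2.union f3)).subset hWe

theorem core_five (hB : BitFacts) (hW : WinFacts) {Q : HS} {S KK C : ℕ} (hK : KOK Q KK C)
    {a d : Cell} {i : ℕ} (hd : IsDir d) (hi : i < 5) (hon : ∀ t, t < 5 → onB (wn a d t))
    (hin : ∀ t, t < 5 → t ≠ i → wn a d t ∈ blk 0 S) (hi1 : wn a d i ∉ blk 1 S)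
    (hk : wn a d i ∉ blk 0 KK) {n : ℕ} (hn : 1 ≤ n) {P H U1 U2 B W : Set Cell}
    (hL : Q.L P H (U1 ∪ U2)) (h1 : U1 ⊆ rg Q 2 C) (h2 : U2 ⊆ rg Q 3 C)
    (hBe : B = blk 0 S ∪ P) (hWe : W ⊆ blk 1 S ∪ (H ∪ (U1 ∪ U2))) : Win n B W := by
  obtain ⟨f1, f2⟩ := fin_pos hB hL hBe hWe
  refine hW.five hn f1 f2 hd (i := i) (a := a) ?_ ?_
  · intro t ht hti
    rw [hBe]
    exact Or.inl (hin t ht hti)
  · intro hw
    rcases hWe hw with h | h
    · exact hi1 h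
    · exact (keyw hK (hon i hi) (Or.inl hk) hL h1 h2).2 h

theorem core_step (hB : BitFacts) (hW : WinFacts) {Q : HS} {S KK C w : ℕ} (hK : KOK Q KK C)
    (hS : SOK Q S) {a d : Cell} {i j : ℕ} (hd : IsDir d) (hi : i < 5) (hj : j < 5)
    (hon : ∀ t, t < 5 → onB (wn a d t))
    (hin : ∀ t, t < 5 → t ≠ i → t ≠ j → wn a d t ∈ blk 0 S)
    (hi1 : wn a d i ∉ blk 1 S) (hj1 : wn a d j ∉ blk 1 S)
    (e0 : blk 0 (Nat.xor S (Sm w)) = insert (wn a d i) (blk 0 S))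
    (e1 : blk 1 (Nat.xor S (Sm w)) = insert (wn a d j) (blk 1 S))
    (e2 : blk 0 (Nat.lor S (bw w)) = insert (wn a d i) (blk 0 S))
    (e3 : blk 1 (Nat.lor S (bw w)) = blk 1 S)
    (hki : wn a d i ∉ blk 0 KK) (hkj : wn a d j ∉ blk 1 KK)
    (hE : Q.EOK (Nat.lor (Nat.lor S (bw w)) C)) {n : ℕ} (hn : 1 ≤ n)
    {P H U1 U2 B W : Set Cell}
    (hL : Q.L P H (U1 ∪ U2)) (s1 : U1.Subsingleton) (s2 : U2.Subsingleton)
    (h1 : U1 ⊆ rg Q 2 C) (h2 : U2 ⊆ rg Q 3 C)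
    (hBe : B = blk 0 S ∪ P) (hWe : W ⊆ blk 1 S ∪ (H ∪ (U1 ∪ U2))) (hD : Disjoint B W)
    (hcont : ∀ B' W' : Set Cell, B' = blk 0 (Nat.xor S (Sm w)) ∪ P →
      W' ⊆ blk 1 (Nat.xor S (Sm w)) ∪ (H ∪ (U1 ∪ U2)) → Disjoint B' W' → Win n B' W') :
    Win (n + 1) B W := by
  obtain ⟨f1, f2⟩ := fin_pos hB hL hBe hWe
  obtain ⟨ki1, ki2⟩ := keyw hK (hon i hi) (Or.inl hki) hL h1 h2
  obtain ⟨kj1, kj2⟩ := keyw hK (hon j hj) (Or.inr hkj) hL h1 h2
  have hiW : wn a d i ∉ W := by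
    intro hw
    rcases hWe hw with h | h
    · exact hi1 h
    · exact ki2 h
  have hjW : wn a d j ∉ W := by
    intro hw
    rcases hWe hw with h | h
    · exact hj1 h
    · exact kj2 h
  have b0 : blk 0 (Nat.lor (Nat.lor S (bw w)) C) = insert (wn a d i) (blk 0 S) := by
    rw [hB.lor, e2, hK.low.1, Set.union_empty]
  have b1 : blk 1 (Nat.lor (Nat.lor S (bw w)) C) = blk 1 S := by
    rw [hB.lor, e3, hK.low.2, Set.union_empty]
  have hrg : ∀ j, rg Q j C ⊆ {c | ¬ onB c} ∪ Q.XX ∪ blk j (Nat.lor (Nat.lor S (bw w)) C) := by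
    intro j c hc
    rcases hc with hc | hc
    · exact Or.inl hc
    · right
      rw [hB.lor]
      exact Or.inr hc
  have hnf := Q.noFour P H U1 U2 (Nat.lor (Nat.lor S (bw w)) C) hL s1 s2
    (h1.trans (hrg 2)) (h2.trans (hrg 3)) hE
    (by
      rw [b0]
      intro c hc
      rcases hc with hc | hc
      · rw [hc]; exact (keyc hK (hon i hi) (Or.inl hki)).1
      · exact hS.1 hc)
    (by rw [b1]; exact hS.2)
  rw [b0, b1] at hnf
  have hBi : insert (wn a d i) B = insert (wn a d i) (blk 0 S) ∪ P := by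
    rw [hBe, Set.insert_union]
  refine hW.step hn f1 f2 hD hd (i := i) (j := j) (a := a) ?_ hiW hjW ?_ ?_
  · intro t ht hti htj
    rw [hBe]
    exact Or.inl (hin t ht hti htj)
  · rw [hBi]
    exact hW.nfMono hnf le_rfl hWe
  · intro hiB hjB hne
    apply hcont
    · rw [e0, hBi]
    · rw [e1]
      intro c hc
      rcases hc with hc | hc
      · exact Or.inl (Or.inl hc)
      · rcases hWe hc with h | h
        · exact Or.inl (Or.inr h)
        · exact Or.inr h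
    · rw [Set.disjoint_insert_left, Set.disjoint_insert_right, Set.mem_insert_iff]
      exact ⟨by rintro (h | h); exacts [hne h, hiW h], hjB, hD⟩

theorem core_pess (hB : BitFacts) (hW : WinFacts) (hPe : PessFact) {Q : HS} {S KK C : ℕ}
    (hK : KOK Q KK C) {acc n s : ℕ} {k : KT} (h : pess S KK acc n k 64 s S = true) :
    ∃ s' Sx, k s' Sx acc n = true ∧ (SOK Q S → blk 1 Sx ⊆ Q.Vis) ∧
      (∀ F, 65 ≤ F → ∀ P H U1 U2 B W : Set Cell, Q.L P H (U1 ∪ U2) →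
        U1 ⊆ rg Q 2 C → U2 ⊆ rg Q 3 C → B = blk 0 S ∪ P → W ⊆ blk 1 S ∪ (H ∪ (U1 ∪ U2)) →
        Disjoint B W → NoFour B (W ∪ blk 1 Sx) → Win F B W) := by
  obtain ⟨s', Sx, Sf, hk, g0, g1, g2, g3, g4, g5, g6⟩ :=
    hPe S KK acc n k 64 s S h le_rfl le_rfl
  refine ⟨s', Sx, hk, ?_, ?_⟩
  · intro hS c hc
    have hb : onB c := hc.1
    by_cases hkk : c ∈ blk 1 KK
    · exact hS.2 (g5 c hkk (g3 hc))
    · exact (keyc hK hb (Or.inr hkk)).1
  · intro F hF P H U1 U2 B W hL h1 h2 hBe hWe hD hnf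
    obtain ⟨f1, f2⟩ := fin_pos hB hL hBe hWe
    refine hW.mono hF (g6 B W f1 f2 hD ?_ ?_ hnf)
    · rw [hBe]; exact Set.subset_union_left
    · intro c hc
      rcases hWe hc with h | h
      · exact Or.inl h
      · exact Or.inr (keyF hK hL h1 h2 h)

variable (hB : BitFacts) (hW : WinFacts) (hSt : StepFact) (hFi : FiveFact) (hPe : PessFact)

include hB hW hSt hFi hPe

/-- TARGET 1: leaves of reply nodes -/
theorem leafU_spec (Q : HS) (F : ℕ) (hF : 65 ≤ F) (ih : FT) (h : LeafSpec Q F ih) :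
    LeafUSpec Q F ih := by
  intro s S KK C acc n k hrun hK
  obtain ⟨w, -, hw⟩ := nrec_f hrun
  rcases cnd_or hw with ⟨-, h1⟩ | ⟨-, h1⟩
  · obtain ⟨s', Sx, hk, hv, hwin⟩ := core_pess hB hW hPe hK h1
    refine ⟨s', Sx, acc, n, hk, fun hg => ⟨hg, fun hS => ⟨hv hS, ?_⟩⟩⟩
    intro P H U1 U2 B W hL _ _ r1 r2 hBe hWe hD hnf
    exact hwin F hF P H U1 U2 B W hL r1 r2 hBe hWe hD hnf
  · obtain ⟨s', acc', n', hk, hg⟩ := h _ _ _ _ _ _ _ _ h1 hK
    refine ⟨s', 0, acc', n', hk, fun hga => ⟨(hg hga).1, fun hS => ⟨?_, ?_⟩⟩⟩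
    · rw [hB.zero]; exact Set.empty_subset _
    · intro P H U1 U2 B W hL s1 s2 r1 r2 hBe hWe hD _
      exact (hg hga).2 hS P H U1 U2 B W hL s1 s2 r1 r2 hBe hWe hD

/-- TARGET 2: forcing run with recorded positions at a leaf of a reply node -/
theorem lBody_spec (Q : HS) (ck : ℕ → Bool) (hP : PushFact Q ck) (F : ℕ) (hF : 65 ≤ F) (ih : FT)
    (h : LeafSpec Q F ih) :
    ∀ s S KK C acc n (k : KT), lBody ck ih s S KK C acc n k = true → KOK Q KK C →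
    ∃ s' acc' n', k s' 0 acc' n' = true ∧
      (GoodP Q acc' → GoodP Q acc ∧ (SOK Q S → LW Q (F + 1) S C)) := by
  intro s S KK C acc n k hrun hK
  obtain ⟨w, -, hw⟩ := nrec_f hrun
  rcases cnd_or hw with ⟨-, h1⟩ | ⟨-, h1⟩
  · obtain ⟨t1, h2⟩ := cnd_f h1
    obtain ⟨t2, h3⟩ := cnd_f h2
    obtain ⟨a, d, i, hd, hi, hon, hin, hi0, hi1, hib⟩ := hFi S w t1
    refine ⟨_, acc, n, h3, fun hg => ⟨hg, fun _ => ?_⟩⟩
    intro P H U1 U2 B W hL _ _ r1 r2 hBe hWe hD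
    exact core_five hB hW hK hd hi hon hin hi1 (hB.bwf KK w _ t2 hib) (by omega) hL r1 r2 hBe hWe
  · obtain ⟨t1, h2⟩ := cnd_f h1
    obtain ⟨t2, h3⟩ := cnd_f h2
    obtain ⟨a, d, i, j, hd, hi, hj, hon, hin, hi0, hj0, hi1, hj1, e0, e1, e2, e3, hkk⟩ := hSt S w t1
    obtain ⟨hki, hkj⟩ := hkk KK t2
    obtain ⟨acc1, n1, h4, hg1⟩ := hP _ _ _ _ _ h3
    obtain ⟨s', acc', n', hk, hg2⟩ := h _ _ _ _ _ _ _ _ h4 hK
    refine ⟨s', acc', n', hk, fun hga => ?_⟩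
    obtain ⟨hga1, hlw⟩ := hg2 hga
    obtain ⟨hg0, hE⟩ := hg1 hga1
    refine ⟨hg0, fun hS => ?_⟩
    have hS' : SOK Q (Nat.xor S (Sm w)) := by
      refine ⟨?_, ?_⟩
      · rw [e0]
        exact Set.insert_subset (keyc hK (hon i hi) (Or.inl hki)).1 hS.1
      · rw [e1]
        exact Set.insert_subset (keyc hK (hon j hj) (Or.inr hkj)).1 hS.2
    intro P H U1 U2 B W hL s1 s2 r1 r2 hBe hWe hD
    exact core_step hB hW hK hS hd hi hj hon hin hi1 hj1 e0 e1 e2 e3 hki hkj hE (by omega)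
      hL s1 s2 r1 r2 hBe hWe hD (fun B' W' hB' hW' hD' =>
        hlw hS' P H U1 U2 B' W' hL s1 s2 r1 r2 hB' hW' hD')

/-- TARGET 3: forcing step of a run -/
theorem vStep_spec (Q : HS) (ck : ℕ → Bool) (hP : PushFact Q ck) (F : ℕ) (hF : 65 ≤ F) (ih : FT)
    (h : RunSpec Q F ih) :
    ∀ w s S KK C acc n (k : KT), vStep ck ih 0 w s S KK C acc n k = true → KOK Q KK C →
    ∃ s' Z' acc' n', k s' Z' acc' n' = true ∧
      (GoodP Q acc' → GoodP Q acc ∧ (SOK Q S → VW Q (F + 1) S C)) := by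
  intro w s S KK C acc n k h1 hK
  obtain ⟨t1, h2⟩ := cnd_f h1
  obtain ⟨t2, h3⟩ := cnd_f h2
  obtain ⟨a, d, i, j, hd, hi, hj, hon, hin, hi0, hj0, hi1, hj1, e0, e1, e2, e3, hkk⟩ := hSt S w t1
  obtain ⟨hki, hkj⟩ := hkk KK t2
  obtain ⟨acc1, n1, h4, hg1⟩ := hP _ _ _ _ _ h3
  obtain ⟨s', Z', acc', n', hk, hg2⟩ := h _ _ _ _ _ _ _ _ h4 hK
  refine ⟨s', Z', acc', n', hk, fun hga => ?_⟩
  obtain ⟨hga1, hlw⟩ := hg2 hga
  obtain ⟨hg0, hE⟩ := hg1 hga1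
  refine ⟨hg0, fun hS => ?_⟩
  have hS' : SOK Q (Nat.xor S (Sm w)) := by
    refine ⟨?_, ?_⟩
    · rw [e0]
      exact Set.insert_subset (keyc hK (hon i hi) (Or.inl hki)).1 hS.1
    · rw [e1]
      exact Set.insert_subset (keyc hK (hon j hj) (Or.inr hkj)).1 hS.2
  intro m P H U B W hV s1 r1 hBe hWe hD
  have hL : Q.L P H (U ∪ ∅) := by rw [Set.union_empty]; exact Q.V_L _ _ _ _ hV
  rw [show F + 1 + m = (F + m) + 1 by omega]
  refine core_step hB hW hK hS hd hi hj hon hin hi1 hj1 e0 e1 e2 e3 hki hkj hE (by omega)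
    hL s1 Set.subsingleton_empty r1 (Set.empty_subset _) hBe (by rw [Set.union_empty]; exact hWe) hD
    (fun B' W' hB' hW' hD' => ?_)
  rw [Set.union_empty] at hW'
  exact hlw hS' m P H U B' W' hV s1 r1 hB' hW' hD'

/-- TARGET 4: five at the end of a run -/
theorem vFive_spec (Q : HS) (F : ℕ) (hF : 1 ≤ F) :
    ∀ w s S KK C acc n (k : KT), vFive w s S KK acc n k = true → KOK Q KK C →
    ∃ s' Z' acc' n', k s' Z' acc' n' = true ∧
      (GoodP Q acc' → GoodP Q acc ∧ (SOK Q S → VW Q F S C)) := by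
  intro w s S KK C acc n k h1 hK
  obtain ⟨t1, h2⟩ := cnd_f h1
  obtain ⟨t2, h3⟩ := cnd_f h2
  obtain ⟨a, d, i, hd, hi, hon, hin, hi0, hi1, hib⟩ := hFi S w t1
  refine ⟨_, _, acc, n, h3, fun hg => ⟨hg, fun _ => ?_⟩⟩
  intro m P H U B W hV s1 r1 hBe hWe hD
  have hL : Q.L P H (U ∪ ∅) := by rw [Set.union_empty]; exact Q.V_L _ _ _ _ hV
  exact core_five hB hW hK hd hi hon hin hi1 (hB.bwf KK w _ t2 hib) (by omega) hL r1
    (Set.empty_subset _) hBe (by rw [Set.union_empty]; exact hWe)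

/-- TARGET 5: pessimistic leaf of a run -/
theorem vPess_spec (Q : HS) (ck : ℕ → Bool) (hP : PushFact Q ck) (F : ℕ) (hF : 65 ≤ F) :
    ∀ s S KK C acc n (k : KT), vPess ck s S KK C acc n k = true → KOK Q KK C →
    ∃ s' Z' acc' n', k s' Z' acc' n' = true ∧
      (GoodP Q acc' → GoodP Q acc ∧ (SOK Q S → VW Q F S C)) := by
  intro s S KK C acc n k h1 hK
  obtain ⟨s', Sx, h2, hv, hwin⟩ := core_pess hB hW hPe hK h1
  obtain ⟨acc2, n2, h3, hg⟩ := hP _ _ _ _ _ h2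
  refine ⟨_, _, acc2, n2, h3, fun hga => ⟨(hg hga).1, fun hS => ?_⟩⟩
  have hE := (hg hga).2
  intro m P H U B W hV s1 r1 hBe hWe hD
  have hL : Q.L P H (U ∪ ∅) := by rw [Set.union_empty]; exact Q.V_L _ _ _ _ hV
  have hWe' : W ⊆ blk 1 S ∪ (H ∪ (U ∪ ∅)) := by rw [Set.union_empty]; exact hWe
  refine hwin (F + m) (by omega) P H U ∅ B W hL r1 (Set.empty_subset _) hBe hWe' hD ?_
  have b0 : blk 0 (Nat.lor (Nat.lor S (Nat.land B1 Sx)) C) = blk 0 S := by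
    rw [hB.lor, hB.lor, hB.b1z 0 _ (by norm_num), hK.low.1, Set.union_empty, Set.union_empty]
  have b1 : blk 1 (Nat.lor (Nat.lor S (Nat.land B1 Sx)) C) = blk 1 S ∪ blk 1 Sx := by
    rw [hB.lor, hB.lor, hB.b1, hK.low.2, Set.union_empty]
  have hnf := Q.noFour P H U ∅ (Nat.lor (Nat.lor S (Nat.land B1 Sx)) C) hL s1
    Set.subsingleton_empty
    (by
      intro c hc
      rcases r1 hc with h | h
      · exact Or.inl h
      · right
        rw [hB.lor]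
        exact Or.inr h)
    (Set.empty_subset _) hE (by rw [b0]; exact hS.1)
    (by rw [b1]; exact Set.union_subset hS.2 (hv hS))
  rw [b0, b1] at hnf
  rw [hBe]
  refine hW.nfMono hnf le_rfl ?_
  rintro c (hc | hc)
  · rcases hWe' hc with h | h
    · exact Or.inl (Or.inl h)
    · exact Or.inr h
  · exact Or.inl (Or.inr hc)

end Pool.Agent.Helper225.G
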