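import Pool.Agent.Helper225.GHS

set_option autoImplicit false

namespace Pool.Agent.Helper225.G



variable (hB : BitFacts) (hW : WinFacts)

include hB hW

theorem h4_kP (Q : HS) (F : ℕ) (ih : FT) (h0 : RunSpec Q F ih) (h1 : KidSpec Q F ih)
    (s S KK C Z acc n : ℕ) (k : KT) (G : ℕ) (hG : ∀ j, j ≠ 0 → blk j G = ∅)
    (h : kP ih s S KK C Z acc n G k = true) (hK : KOK Q KK C) :
    ∃ s' Z' acc' n', k s' Z' acc' n' = true ∧ (∀ j, blk j Z ⊆ blk j Z') ∧
      (GoodP Q acc' → GoodP Q acc ∧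
        (SOK Q S → blk 0 Z' ⊆ Q.Vis → blk 2 Z ⊆ Q.Vis → ∀ G, F ≤ G → KWe Q G S C Z → KWr Q G S C Z →
          blk 2 Z' ⊆ Q.Vis ∧ KWe Q G S C Z' ∧ KWr Q G S C Z')) := by
  unfold kP at h
  obtain ⟨s3, Z3, acc3, n3, h3, h4⟩ := h0 _ _ _ _ _ _ _ _ h hK
  obtain ⟨s', Z', acc', n', h5, h6, h7⟩ := h1 _ _ _ _ _ _ _ _ h3 hK
  have b0 : blk 0 (Nat.lor Z G) = blk 0 Z ∪ blk 0 G := hB.lor 0 Z G
  have b1 : blk 1 (Nat.lor Z G) = blk 1 Z := by rw [hB.lor, hG 1 (by norm_num), Set.union_empty]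
  have b2 : blk 2 (Nat.lor Z G) = blk 2 Z := by rw [hB.lor, hG 2 (by norm_num), Set.union_empty]
  have s0 : blk 0 (Nat.lor S (Nat.shiftLeft G 1088)) = blk 0 S := by
    rw [hB.lor, hB.shl1z, Set.union_empty]
  have s1 : blk 1 (Nat.lor S (Nat.shiftLeft G 1088)) = blk 1 S ∪ blk 0 G := by
    rw [hB.lor, hB.shl1 0]
  refine ⟨s', Z', acc', n', h5, fun j => ?_, fun hg => ?_⟩
  · refine Set.Subset.trans ?_ (h6 j)
    rw [hB.lor]
    exact Set.subset_union_left
  · obtain ⟨h8, h9⟩ := h7 hg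
    obtain ⟨h10, h11⟩ := h4 h8
    refine ⟨h10, fun hS hZ0 hZ2 G' hFG he hr => ?_⟩
    have hGv : blk 0 G ⊆ Q.Vis := by
      refine Set.Subset.trans ?_ hZ0
      refine Set.Subset.trans ?_ (h6 0)
      rw [b0]
      exact Set.subset_union_right
    have hV := h11 ⟨by rw [s0]; exact hS.1, by rw [s1]; exact Set.union_subset hS.2 hGv⟩
    refine h9 hS hZ0 (by rw [b2]; exact hZ2) G' hFG ?_ ?_
    · intro y hy m P H U B W hVm hU hUr hBe hWs hd
      rw [b0] at hy
      rcases hy with hy | hy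
      · exact he y hy m P H U B W hVm hU hUr hBe hWs hd
      · refine hW.mono (Nat.add_le_add_right hFG m) (hV m P H U B W hVm hU hUr ?_ ?_ hd)
        · rw [s0]; exact hBe
        · rw [s1]
          intro c hc
          rcases hWs hc with hc | hc | hc
          · left; right; rw [hc]; exact hy
          · left; left; exact hc
          · right; exact hc
    · intro y hy P H U B W hL hU hUr hBe hWs hd hnf
      rw [b1] at hy
      rw [b2] at hnf
      exact hr y hy P H U B W hL hU hUr hBe hWs hd hnf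

theorem h4_kR (Q : HS) (F : ℕ) (ih : FT) (h1 : KidSpec Q F ih) (h2 : LeafUSpec Q F ih)
    (s S KK C Z acc n : ℕ) (k : KT) (G : ℕ) (hG : ∀ j, j ≠ 0 → blk j G = ∅)
    (h : kR ih s S KK C Z acc n G k = true) (hK : KOK Q KK C) :
    ∃ s' Z' acc' n', k s' Z' acc' n' = true ∧ (∀ j, blk j Z ⊆ blk j Z') ∧
      (GoodP Q acc' → GoodP Q acc ∧
        (SOK Q S → blk 0 Z' ⊆ Q.Vis → blk 2 Z ⊆ Q.Vis → ∀ G, F ≤ G → KWe Q G S C Z → KWr Q G S C Z →
          blk 2 Z' ⊆ Q.Vis ∧ KWe Q G S C Z' ∧ KWr Q G S C Z')) := by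
  unfold kR at h
  have k0 : blk 0 (Nat.lor KK (Nat.lor G (Nat.shiftLeft G 1088))) = blk 0 KK ∪ blk 0 G := by
    rw [hB.lor, hB.lor, hB.shl1z, Set.union_empty]
  have k1 : blk 1 (Nat.lor KK (Nat.lor G (Nat.shiftLeft G 1088))) = blk 1 KK ∪ blk 0 G := by
    rw [hB.lor, hB.lor, hB.shl1 0, hG 1 (by norm_num), Set.empty_union]
  have kj : ∀ j, blk j KK ⊆ blk j (Nat.lor KK (Nat.lor G (Nat.shiftLeft G 1088))) := by
    intro j
    rw [hB.lor]
    exact Set.subset_union_left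
  have c0 : blk 0 (Nat.lor C (Nat.shiftLeft G 3264)) = blk 0 C := by
    rw [hB.lor, hB.shl3z 0 G (by norm_num), Set.union_empty]
  have c1 : blk 1 (Nat.lor C (Nat.shiftLeft G 3264)) = blk 1 C := by
    rw [hB.lor, hB.shl3z 1 G (by norm_num), Set.union_empty]
  have c2 : blk 2 (Nat.lor C (Nat.shiftLeft G 3264)) = blk 2 C := by
    rw [hB.lor, hB.shl3z 2 G (by norm_num), Set.union_empty]
  have c3 : blk 3 (Nat.lor C (Nat.shiftLeft G 3264)) = blk 3 C ∪ blk 0 G := by
    rw [hB.lor, hB.shl3 0]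
  have hK' : KOK Q (Nat.lor KK (Nat.lor G (Nat.shiftLeft G 1088)))
      (Nat.lor C (Nat.shiftLeft G 3264)) := by
    refine ⟨?_, ?_, ?_, ?_, ?_⟩
    · intro c hc hv
      obtain ⟨e1, e2, e3⟩ := hK.vis c hc hv
      exact ⟨kj 0 e1, kj 1 e2, kj 2 e3⟩
    · intro c hc ho
      obtain ⟨e1, e2⟩ := hK.hid c hc ho
      exact ⟨kj 0 e1, kj 1 e2⟩
    · intro c hc
      rw [c2, c3] at hc
      rcases hc with hc | hc | hc
      · obtain ⟨e1, e2⟩ := hK.reg c (Or.inl hc)
        exact ⟨kj 0 e1, kj 1 e2⟩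
      · obtain ⟨e1, e2⟩ := hK.reg c (Or.inr hc)
        exact ⟨kj 0 e1, kj 1 e2⟩
      · rw [k0, k1]
        exact ⟨Or.inr hc, Or.inr hc⟩
    · intro c hc hx
      exact kj 3 (hK.all c hc hx)
    · rw [c0, c1]
      exact hK.low
  obtain ⟨s3, Sx, acc3, n3, h3, h4⟩ := h2 _ _ _ _ _ _ _ h hK'
  obtain ⟨s', Z', acc', n', h5, h6, h7⟩ := h1 _ _ _ _ _ _ _ _ h3 hK
  have z0 : blk 0 (Nat.lor Z (Nat.lor (Nat.shiftLeft G 1088) (Nat.shiftLeft (Nat.land B1 Sx) 1088))) =
      blk 0 Z := by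
    rw [hB.lor, hB.lor, hB.shl1z, hB.shl1z, Set.union_empty, Set.union_empty]
  have z1 : blk 1 (Nat.lor Z (Nat.lor (Nat.shiftLeft G 1088) (Nat.shiftLeft (Nat.land B1 Sx) 1088))) =
      blk 1 Z ∪ blk 0 G := by
    rw [hB.lor, hB.lor, hB.shl1 0, hB.shl1 0, hB.b1z 0 Sx (by norm_num), Set.union_empty]
  have z2 : blk 2 (Nat.lor Z (Nat.lor (Nat.shiftLeft G 1088) (Nat.shiftLeft (Nat.land B1 Sx) 1088))) =
      blk 2 Z ∪ blk 1 Sx := by
    rw [hB.lor, hB.lor, hB.shl1 1, hB.shl1 1, hB.b1, hG 1 (by norm_num), Set.empty_union]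
  refine ⟨s', Z', acc', n', h5, fun j => ?_, fun hg => ?_⟩
  · refine Set.Subset.trans ?_ (h6 j)
    rw [hB.lor]
    exact Set.subset_union_left
  · obtain ⟨h8, h9⟩ := h7 hg
    obtain ⟨h10, h11⟩ := h4 h8
    refine ⟨h10, fun hS hZ0 hZ2 G' hFG he hr => ?_⟩
    obtain ⟨hSx, hLf⟩ := h11 hS
    refine h9 hS hZ0 (by rw [z2]; exact Set.union_subset hZ2 hSx) G' hFG ?_ ?_
    · intro y hy m P H U B W hVm hU hUr hBe hWs hd
      rw [z0] at hy
      exact he y hy m P H U B W hVm hU hUr hBe hWs hd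
    · intro y hy P H U B W hL hU hUr hBe hWs hd hnf
      rw [z1] at hy
      rw [z2] at hnf
      rcases hy with hy | hy
      · refine hr y hy P H U B W hL hU hUr hBe hWs hd ?_
        refine hW.nfMono hnf (Set.Subset.refl _) ?_
        exact Set.union_subset_union_right _ Set.subset_union_left
      · refine hW.mono hFG (hLf P H U {y} B W ?_ hU Set.subsingleton_singleton ?_ ?_ hBe ?_ hd ?_)
        · rw [Set.union_singleton]
          exact hL
        · unfold rg at hUr ⊢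
          rw [c2]
          exact hUr
        · unfold rg
          rw [c3]
          intro c hc
          rw [Set.mem_singleton_iff] at hc
          rw [hc]
          right; right; exact hy
        · intro c hc
          rcases hWs hc with hc | hc | hc | hc
          · right; right; right; exact hc
          · left; exact hc
          · right; left; exact hc
          · right; right; left; exact hc
        · refine hW.nfMono hnf (Set.Subset.refl _) ?_
          exact Set.union_subset_union_right _ Set.subset_union_right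

/-- TARGET: the list of explicit and one-of replies of a reply node -/
theorem kBody_spec (Q : HS) (F : ℕ) (ih : FT) (h0 : RunSpec Q F ih) (h1 : KidSpec Q F ih)
    (h2 : LeafUSpec Q F ih) :
    ∀ s S KK C Z acc n (k : KT), kBody ih s S KK C Z acc n k = true → KOK Q KK C →
    ∃ s' Z' acc' n', k s' Z' acc' n' = true ∧ (∀ j, blk j Z ⊆ blk j Z') ∧
      (GoodP Q acc' → GoodP Q acc ∧
        (SOK Q S → blk 0 Z' ⊆ Q.Vis → blk 2 Z ⊆ Q.Vis → ∀ G, F ≤ G → KWe Q G S C Z → KWr Q G S C Z →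
          blk 2 Z' ⊆ Q.Vis ∧ KWe Q G S C Z' ∧ KWr Q G S C Z')) := by
  intro s S KK C Z acc n k h hK
  unfold kBody at h
  generalize Nat.land s 16777215 = w at h
  cases w with
  | zero => exact absurd h (by simp)
  | succ w =>
    simp only at h
    generalize Nat.land w 7 = t at h
    rcases t with _ | _ | _ | t
    · exact ⟨_, Z, acc, n, h, fun j => Set.Subset.refl _,
        fun hg => ⟨hg, fun _ _ h2Z G _ he hr => ⟨h2Z, he, hr⟩⟩⟩
    · exact h4_kP hB hW Q F ih h0 h1 _ S KK C Z acc n k _ (fun j hj => hB.g3z j w hj) h hK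
    · exact h4_kR hB hW Q F ih h1 h2 _ S KK C Z acc n k _ (fun j hj => hB.g3z j w hj) h hK
    · simp only at h
      unfold kBody3 at h
      obtain ⟨s2, G, hG, h⟩ := hB.glf _ _ _ _ h (fun j _ => hB.zero j)
      cases t with
      | zero => exact h4_kP hB hW Q F ih h0 h1 _ S KK C Z acc n k _ hG h hK
      | succ t => exact h4_kR hB hW Q F ih h1 h2 _ S KK C Z acc n k _ hG h hK

end Pool.Agent.Helper225.G
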