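import Pool.Agent.Helper225.GHS

set_option autoImplicit false

namespace Pool.Agent.Helper225.G



variable (hW : WinFacts) (hfin : ∀ j X, (blk j X).Finite)

include hW hfin


omit hfin in
theorem and2_core (Q : HS) (F S C C' Z Sx E : ℕ) (hE : Q.EOK E)
    (hE0 : blk 0 E = blk 0 S) (hE1 : blk 1 E = blk 1 S ∪ (blk 1 Sx ∪ blk 2 Z))
    (hE2 : blk 2 C ⊆ blk 2 E)
    (hE3 : ∀ c, onB c → c ∉ Q.XX → c ∉ blk 0 S → c ∉ blk 1 S → c ∉ blk 0 Z → c ∈ blk 3 E)
    (hC2 : blk 2 C ⊆ blk 2 C')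
    (hC3 : ∀ c, onB c → c ∉ Q.XX → c ∉ blk 0 S → c ∉ blk 1 S → c ∉ blk 0 Z → c ∉ blk 1 Z →
      c ∈ blk 3 C')
    (hS : SOK Q S) (hSx : blk 1 Sx ⊆ Q.Vis) (hZ : blk 2 Z ⊆ Q.Vis)
    (hL : LfW Q F S C' Sx) (hKe : KWe Q F S C Z) (hKr : KWr Q F S C Z) (m : ℕ)
    (ih : ∀ m', m = m' + 1 → ∀ (P H U B W : Set Cell), Q.V m' P H U → U.Subsingleton →
      U ⊆ rg Q 2 C → B = blk 0 S ∪ P → W ⊆ blk 1 S ∪ (H ∪ U) → Disjoint B W →
      WTurn (F + m') B W) :
    ∀ (P H U B W : Set Cell), Q.V m P H U → U.Subsingleton → U ⊆ rg Q 2 C →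
      B = blk 0 S ∪ P → W ⊆ blk 1 S ∪ (H ∪ U) → Disjoint B W → WTurn (F + m) B W := by
  intro P H U B W hV hU hUr hB hWs hD y hyB hyW
  have hLL := Q.V_L m P H U hV
  have hE0v : blk 0 E ⊆ Q.Vis := by rw [hE0]; exact hS.1
  have hE1v : blk 1 E ⊆ Q.Vis := by
    rw [hE1]; exact Set.union_subset hS.2 (Set.union_subset hSx hZ)
  have hU2E : U ⊆ {c | ¬ onB c} ∪ Q.XX ∪ blk 2 E :=
    hUr.trans (Set.union_subset_union_right _ hE2)
  have hNF := Q.noFour P H U ∅ E (by rw [Set.union_empty]; exact hLL) hU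
    Set.subsingleton_empty hU2E (Set.empty_subset _) hE hE0v hE1v
  rw [Set.union_empty, hE0, hE1, ← hB] at hNF
  have hW2 : W ⊆ blk 1 S ∪ (blk 1 Sx ∪ blk 2 Z) ∪ (H ∪ U) := by
    intro c hc
    rcases hWs hc with h | h
    · exact Or.inl (Or.inl h)
    · exact Or.inr h
  have hNW : NoFour B W := hW.nfMono hNF (Set.Subset.refl _) hW2
  have hDy : Disjoint B (insert y W) := by
    rw [Set.disjoint_insert_right]; exact ⟨hyB, hD⟩
  refine ⟨hW.noFive hNW hD hyB, ?_⟩
  have hyS0 : y ∉ blk 0 S := fun h => hyB (by rw [hB]; exact Or.inl h)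
  have hyP : y ∉ P := fun h => hyB (by rw [hB]; exact Or.inr h)
  have hins : insert y W ⊆ insert y (blk 1 S ∪ (H ∪ U)) := Set.insert_subset_insert hWs
  by_cases hyZ : y ∈ blk 0 Z
  · exact hKe y hyZ m P H U B (insert y W) hV hU hUr hB hins hDy
  have hUr' : U ⊆ rg Q 2 C' := hUr.trans (Set.union_subset_union_right _ hC2)
  by_cases hyin : y ∈ blk 1 S ∪ (H ∪ U)
  · have h1 : insert y W ⊆ blk 1 S ∪ (H ∪ U) := Set.insert_subset hyin hWs
    refine hW.mono (Nat.le_add_right F m) ?_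
    refine hL P H U ∅ B (insert y W) (by rw [Set.union_empty]; exact hLL) hU
      Set.subsingleton_empty hUr' (Set.empty_subset _) hB (by rw [Set.union_empty]; exact h1) hDy ?_
    refine hW.nfMono hNF (Set.Subset.refl _) ?_
    refine Set.union_subset ?_ ?_
    · intro c hc
      rcases h1 hc with h | h
      · exact Or.inl (Or.inl h)
      · exact Or.inr h
    · intro c hc
      exact Or.inl (Or.inr (Or.inl hc))
  have hyS1 : y ∉ blk 1 S := fun h => hyin (Or.inl h)
  have hyH : y ∉ H := fun h => hyin (Or.inr (Or.inl h))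
  have hyU : y ∉ U := fun h => hyin (Or.inr (Or.inr h))
  rcases Q.V_step m P H U hV y hyP hyH hyU with hstep | ⟨m', z, hm, hzP, hzH, hzU, hzy, hzV, hV'⟩
  · have hstep' : Q.L P H (U ∪ {y}) := by rw [Set.union_singleton]; exact hstep
    have hyE : ({y} : Set Cell) ⊆ {c | ¬ onB c} ∪ Q.XX ∪ blk 3 E := by
      rw [Set.singleton_subset_iff]
      by_cases h1 : onB y
      · by_cases h2 : y ∈ Q.XX
        · exact Or.inl (Or.inr h2)
        · exact Or.inr (hE3 y h1 h2 hyS0 hyS1 hyZ)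
      · exact Or.inl (Or.inl h1)
    have hNF2 := Q.noFour P H U {y} E hstep' hU Set.subsingleton_singleton hU2E hyE hE hE0v hE1v
    rw [hE0, hE1, ← hB] at hNF2
    have hW3 : insert y W ⊆ blk 1 S ∪ (blk 1 Sx ∪ blk 2 Z) ∪ (H ∪ (U ∪ {y})) := by
      intro c hc
      rcases hc with rfl | hc
      · exact Or.inr (Or.inr (Or.inr rfl))
      · rcases hWs hc with h | h | h
        · exact Or.inl (Or.inl h)
        · exact Or.inr (Or.inl h)
        · exact Or.inr (Or.inr (Or.inl h))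
    refine hW.mono (Nat.le_add_right F m) ?_
    by_cases hyZ1 : y ∈ blk 1 Z
    · refine hKr y hyZ1 P H U B (insert y W) hstep hU hUr hB hins hDy ?_
      refine hW.nfMono hNF2 (Set.Subset.refl _) (Set.union_subset hW3 ?_)
      intro c hc
      exact Or.inl (Or.inr (Or.inr hc))
    · refine hL P H U {y} B (insert y W) hstep' hU Set.subsingleton_singleton hUr' ?_ hB ?_ hDy ?_
      · rw [Set.singleton_subset_iff]
        by_cases h1 : onB y
        · by_cases h2 : y ∈ Q.XX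
          · exact Or.inl (Or.inr h2)
          · exact Or.inr (hC3 y h1 h2 hyS0 hyS1 hyZ hyZ1)
        · exact Or.inl (Or.inl h1)
      · intro c hc
        rcases hc with rfl | hc
        · exact Or.inr (Or.inr (Or.inr rfl))
        · rcases hWs hc with h | h | h
          · exact Or.inl h
          · exact Or.inr (Or.inl h)
          · exact Or.inr (Or.inr (Or.inl h))
      · refine hW.nfMono hNF2 (Set.Subset.refl _) (Set.union_subset hW3 ?_)
        intro c hc
        exact Or.inl (Or.inr (Or.inl hc))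
  · have hzB : z ∉ B := by
      rw [hB]
      rintro (h | h)
      · exact hzV (hS.1 h)
      · exact hzP h
    have hzW : z ∉ insert y W := by
      rintro (h | h)
      · exact hzy h
      · rcases hWs h with h | h | h
        · exact hzV (hS.2 h)
        · exact hzH h
        · exact hzU h
    have hDz : Disjoint (insert z B) (insert y W) := by
      rw [Set.disjoint_insert_left]; exact ⟨hzW, hDy⟩
    have h1 := ih m' hm (insert z P) (insert y H) U (insert z B) (insert y W) hV' hU hUr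
      (by rw [hB, Set.union_insert]) (by
        intro c hc
        rcases hc with rfl | hc
        · exact Or.inr (Or.inl (Or.inl rfl))
        · rcases hWs hc with h | h | h
          · exact Or.inl h
          · exact Or.inr (Or.inl (Or.inr h))
          · exact Or.inr (Or.inr h)) hDz
    rw [hm]
    show Win ((F + m') + 1) B (insert y W)
    exact ⟨z, hzB, hzW, Or.inr h1⟩

omit hfin in
theorem and3_core (Q : HS) (F S C' Z E : ℕ) (hE : Q.EOK E)
    (hE0 : blk 0 E = blk 0 S) (hE1 : blk 1 E = blk 1 S)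
    (hC2 : ∀ c, onB c → c ∉ Q.XX → c ∉ blk 0 S → c ∉ blk 1 S → c ∉ blk 0 Z → c ∉ blk 1 Z →
      c ∈ blk 2 C')
    (hS : SOK Q S)
    (hL : VW Q F S C') (hKe : MWe Q F S Z) (hKr : MWr Q F S Z) (n : ℕ)
    (ih : ∀ n', n = n' + 1 → ∀ (P H B W : Set Cell), Q.A n' P H →
      B = blk 0 S ∪ P → W ⊆ blk 1 S ∪ H → Disjoint B W → WTurn (F + n' + Q.M) B W) :
    ∀ (P H B W : Set Cell), Q.A n P H →
      B = blk 0 S ∪ P → W ⊆ blk 1 S ∪ H → Disjoint B W → WTurn (F + n + Q.M) B W := by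
  intro P H B W hA hB hWs hD y hyB hyW
  have hV := Q.A_V n P H hA
  have hLL := Q.V_L Q.M P H ∅ hV
  have hE0v : blk 0 E ⊆ Q.Vis := by rw [hE0]; exact hS.1
  have hE1v : blk 1 E ⊆ Q.Vis := by rw [hE1]; exact hS.2
  have hNF := Q.noFour P H ∅ ∅ E (by rw [Set.union_empty]; exact hLL) Set.subsingleton_empty
    Set.subsingleton_empty (Set.empty_subset _) (Set.empty_subset _) hE hE0v hE1v
  rw [Set.union_empty, Set.union_empty, hE0, hE1, ← hB] at hNF
  have hNW : NoFour B W := hW.nfMono hNF (Set.Subset.refl _) hWs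
  have hDy : Disjoint B (insert y W) := by
    rw [Set.disjoint_insert_right]; exact ⟨hyB, hD⟩
  refine ⟨hW.noFive hNW hD hyB, ?_⟩
  have hyS0 : y ∉ blk 0 S := fun h => hyB (by rw [hB]; exact Or.inl h)
  have hyP : y ∉ P := fun h => hyB (by rw [hB]; exact Or.inr h)
  have hins : insert y W ⊆ insert y (blk 1 S ∪ H) := Set.insert_subset_insert hWs
  by_cases hyZ : y ∈ blk 0 Z
  · exact hKe y hyZ n P H B (insert y W) hA hB hins hDy
  by_cases hyin : y ∈ blk 1 S ∪ H
  · have h1 : insert y W ⊆ blk 1 S ∪ (H ∪ ∅) := by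
      rw [Set.union_empty]; exact Set.insert_subset hyin hWs
    exact hW.mono (by omega) (hL Q.M P H ∅ B (insert y W) hV Set.subsingleton_empty
      (Set.empty_subset _) hB h1 hDy)
  have hyS1 : y ∉ blk 1 S := fun h => hyin (Or.inl h)
  have hyH : y ∉ H := fun h => hyin (Or.inr h)
  rcases Q.A_step n P H hA y hyP hyH with hstep | ⟨n', d, hn, hdP, hdH, hdy, hdV, hA'⟩
  · by_cases hyZ1 : y ∈ blk 1 Z
    · exact hW.mono (by omega) (hKr y hyZ1 P H B (insert y W) hstep hB hins hDy)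
    · refine hW.mono (n := F + Q.M) (by omega) (hL Q.M P H {y} B (insert y W) hstep
        Set.subsingleton_singleton ?_ hB ?_ hDy)
      · rw [Set.singleton_subset_iff]
        by_cases h1 : onB y
        · by_cases h2 : y ∈ Q.XX
          · exact Or.inl (Or.inr h2)
          · exact Or.inr (hC2 y h1 h2 hyS0 hyS1 hyZ hyZ1)
        · exact Or.inl (Or.inl h1)
      · intro c hc
        rcases hc with rfl | hc
        · exact Or.inr (Or.inr rfl)
        · rcases hWs hc with h | h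
          · exact Or.inl h
          · exact Or.inr (Or.inl h)
  · have hdB : d ∉ B := by
      rw [hB]
      rintro (h | h)
      · exact hdV (hS.1 h)
      · exact hdP h
    have hdW : d ∉ insert y W := by
      rintro (h | h)
      · exact hdy h
      · rcases hWs h with h | h
        · exact hdV (hS.2 h)
        · exact hdH h
    have hDd : Disjoint (insert d B) (insert y W) := by
      rw [Set.disjoint_insert_left]; exact ⟨hdW, hDy⟩
    have h1 := ih n' hn (insert d P) (insert y H) (insert d B) (insert y W) hA'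
      (by rw [hB, Set.union_insert]) (by
        intro c hc
        rcases hc with rfl | hc
        · exact Or.inr (Or.inl rfl)
        · rcases hWs hc with h | h
          · exact Or.inl h
          · exact Or.inr (Or.inr h)) hDd
    have h2 : F + n + Q.M = (F + n' + Q.M) + 1 := by omega
    rw [h2]
    exact ⟨d, hdB, hdW, Or.inr h1⟩

/-- TARGET 1: reply node of a run, white to move, state S -/
theorem and2_lemma (Q : HS) (F S C C' Z Sx E : ℕ) (hE : Q.EOK E)
    (hE0 : blk 0 E = blk 0 S) (hE1 : blk 1 E = blk 1 S ∪ (blk 1 Sx ∪ blk 2 Z))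
    (hE2 : blk 2 C ⊆ blk 2 E)
    (hE3 : ∀ c, onB c → c ∉ Q.XX → c ∉ blk 0 S → c ∉ blk 1 S → c ∉ blk 0 Z → c ∈ blk 3 E)
    (hC2 : blk 2 C ⊆ blk 2 C')
    (hC3 : ∀ c, onB c → c ∉ Q.XX → c ∉ blk 0 S → c ∉ blk 1 S → c ∉ blk 0 Z → c ∉ blk 1 Z →
      c ∈ blk 3 C')
    (hS : SOK Q S) (hSx : blk 1 Sx ⊆ Q.Vis) (hZ : blk 2 Z ⊆ Q.Vis)
    (hL : LfW Q F S C' Sx) (hKe : KWe Q F S C Z) (hKr : KWr Q F S C Z) :
    ∀ (m : ℕ) (P H U B W : Set Cell), Q.V m P H U → U.Subsingleton → U ⊆ rg Q 2 C →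
      B = blk 0 S ∪ P → W ⊆ blk 1 S ∪ (H ∪ U) → Disjoint B W → WTurn (F + m) B W := by
  intro m
  induction m with
  | zero =>
    intro P H U B W hV hU hUr hB hWs hD
    exact and2_core hW Q F S C C' Z Sx E hE hE0 hE1 hE2 hE3 hC2 hC3 hS hSx hZ hL hKe hKr 0
      (fun m' hm' => absurd hm' (by omega)) P H U B W hV hU hUr hB hWs hD
  | succ m ih =>
    intro P H U B W hV hU hUr hB hWs hD
    refine and2_core hW Q F S C C' Z Sx E hE hE0 hE1 hE2 hE3 hC2 hC3 hS hSx hZ hL hKe hKr (m + 1)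
      ?_ P H U B W hV hU hUr hB hWs hD
    intro m' hm'
    obtain rfl : m = m' := by omega
    exact ih

/-- TARGET 2: quiet node, white to move, state S -/
theorem and3_lemma (Q : HS) (F S C' Z E : ℕ) (hE : Q.EOK E)
    (hE0 : blk 0 E = blk 0 S) (hE1 : blk 1 E = blk 1 S)
    (hC2 : ∀ c, onB c → c ∉ Q.XX → c ∉ blk 0 S → c ∉ blk 1 S → c ∉ blk 0 Z → c ∉ blk 1 Z →
      c ∈ blk 2 C')
    (hS : SOK Q S)
    (hL : VW Q F S C') (hKe : MWe Q F S Z) (hKr : MWr Q F S Z) :
    ∀ (n : ℕ) (P H B W : Set Cell), Q.A n P H →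
      B = blk 0 S ∪ P → W ⊆ blk 1 S ∪ H → Disjoint B W → WTurn (F + n + Q.M) B W := by
  intro n
  induction n with
  | zero =>
    intro P H B W hA hB hWs hD
    exact and3_core hW Q F S C' Z E hE hE0 hE1 hC2 hS hL hKe hKr 0
      (fun m' hm' => absurd hm' (by omega)) P H B W hA hB hWs hD
  | succ n ih =>
    intro P H B W hA hB hWs hD
    refine and3_core hW Q F S C' Z E hE hE0 hE1 hC2 hS hL hKe hKr (n + 1)
      ?_ P H B W hA hB hWs hD
    intro m' hm'
    obtain rfl : n = m' := by omega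
    exact ih

end Pool.Agent.Helper225.G
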