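import Pool.Agent.Helper225.GHS

set_option autoImplicit false

namespace Pool.Agent.Helper225.G



/-- (proved elsewhere) reply node of a run, white to move, state S -/
def And2Fact : Prop := ∀ (Q : HS) (F S C C' Z Sx E : ℕ) (_ : Q.EOK E)
    (_ : blk 0 E = blk 0 S) (_ : blk 1 E = blk 1 S ∪ (blk 1 Sx ∪ blk 2 Z))
    (_ : blk 2 C ⊆ blk 2 E)
    (_ : ∀ c, onB c → c ∉ Q.XX → c ∉ blk 0 S → c ∉ blk 1 S → c ∉ blk 0 Z → c ∈ blk 3 E)
    (_ : blk 2 C ⊆ blk 2 C')
    (_ : ∀ c, onB c → c ∉ Q.XX → c ∉ blk 0 S → c ∉ blk 1 S → c ∉ blk 0 Z → c ∉ blk 1 Z →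
      c ∈ blk 3 C')
    (_ : SOK Q S) (_ : blk 1 Sx ⊆ Q.Vis) (_ : blk 2 Z ⊆ Q.Vis)
    (_ : LfW Q F S C' Sx) (_ : KWe Q F S C Z) (_ : KWr Q F S C Z),
    ∀ (m : ℕ) (P H U B W : Set Cell), Q.V m P H U → U.Subsingleton → U ⊆ rg Q 2 C →
      B = blk 0 S ∪ P → W ⊆ blk 1 S ∪ (H ∪ U) → Disjoint B W → WTurn (F + m) B W

theorem h6_cnd {b t : Bool} (h : cnd b t false = true) : b = true ∧ t = true := by
  cases b with
  | false => exact absurd h (by simp [cnd])
  | true => exact ⟨rfl, h⟩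

theorem h6_onB {j X : ℕ} {c : Cell} (h : c ∈ blk j X) : onB c := h.1

variable (hB : BitFacts) (hW : WinFacts)

include hB hW

/-- TARGET: reply node of a run -/
theorem vAnd_spec (hA : And2Fact) (Q : HS) (ck : ℕ → Bool) (hP : PushFact Q ck) (F : ℕ) (ih : FT)
    (h1 : KidSpec Q F ih) (h2 : LeafUSpec Q F ih) :
    ∀ w s S KK C acc n (k : KT), vAnd ck ih w s S KK C acc n k = true → KOK Q KK C →
    ∃ s' Z' acc' n', k s' Z' acc' n' = true ∧
      (GoodP Q acc' → GoodP Q acc ∧ (SOK Q S → VW Q (F + 1) S C)) := by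
  intro w s S KK C acc n k hv hK
  unfold vAnd at hv
  obtain ⟨htest, hv⟩ := h6_cnd hv
  obtain ⟨b, hb, hb0, hb1, hbS0, hbS1, hS0, hSj⟩ := hB.legal KK S w htest
  set S' := Nat.lor S (cm (pw w)) with hS'
  clear_value S'
  have hbVis : b ∈ Q.Vis := by
    by_contra hc
    exact hb0 (hK.vis b hb hc).1
  obtain ⟨s2, Z, acc2, n2, hd, -, hkid⟩ := h1 _ _ _ _ _ _ _ _ hv hK
  unfold vDef at hd
  obtain ⟨hbad, hd⟩ := h6_cnd hd
  have hZ0 : blk 0 Z ⊆ Q.Vis := by
    intro c hc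
    by_contra hcv
    exact hB.badf KK Z hbad c hc (hK.vis c (h6_onB hc) hcv).2.2
  set r := rest KK (Nat.lor S' Z) with hr
  set C' := Nat.lor C r with hC'
  clear_value C' r
  have hkk0 : blk 0 (kk' KK r) = blk 0 KK ∪ (blk 3 r ∪ blk 2 r) := by
    unfold kk'
    rw [hB.lor, hB.lor, hB.shr3, hB.shr2]
  have hkk1 : blk 1 (kk' KK r) = blk 1 KK ∪ (blk 4 r ∪ blk 3 r) := by
    unfold kk'
    rw [hB.lor, hB.lor, hB.shr3, hB.shr2]
  have hkk2 : blk 2 (kk' KK r) = blk 2 KK ∪ (blk 5 r ∪ blk 4 r) := by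
    unfold kk'
    rw [hB.lor, hB.lor, hB.shr3, hB.shr2]
  have hkk3 : blk 3 (kk' KK r) = blk 3 KK ∪ (blk 6 r ∪ blk 5 r) := by
    unfold kk'
    rw [hB.lor, hB.lor, hB.shr3, hB.shr2]
  have hK' : KOK Q (kk' KK r) C' := by
    refine ⟨?_, ?_, ?_, ?_, ?_⟩
    · intro c hc hcv
      obtain ⟨g0, g1, g2⟩ := hK.vis c hc hcv
      rw [hkk0, hkk1, hkk2]
      exact ⟨Or.inl g0, Or.inl g1, Or.inl g2⟩
    · intro c hc hcb
      obtain ⟨g0, g1⟩ := hK.hid c hc hcb
      rw [hkk0, hkk1]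
      exact ⟨Or.inl g0, Or.inl g1⟩
    · intro c hc
      rw [hkk0, hkk1]
      have hr2 : blk 2 r = ∅ := by rw [hr]; exact hB.restz 2 _ _ (by norm_num)
      rw [hC', hB.lor, hB.lor, hr2] at hc
      rcases hc with hc | hc
      · rcases hc with hc | hc
        · obtain ⟨g0, g1⟩ := hK.reg c (Or.inl hc)
          exact ⟨Or.inl g0, Or.inl g1⟩
        · exact absurd hc (Set.notMem_empty c)
      · rcases hc with hc | hc
        · obtain ⟨g0, g1⟩ := hK.reg c (Or.inr hc)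
          exact ⟨Or.inl g0, Or.inl g1⟩
        · exact ⟨Or.inr (Or.inl hc), Or.inr (Or.inr hc)⟩
    · intro c hc hcx
      rw [hkk3]
      exact Or.inl (hK.all c hc hcx)
    · rw [hC', hB.lor, hB.lor, hr, hB.restz 0 _ _ (by norm_num), hB.restz 1 _ _ (by norm_num),
        hK.low.1, hK.low.2]
      simp
  obtain ⟨s3, Sx, acc3, n3, hpush, hleaf⟩ := h2 _ _ _ _ _ _ _ hd hK'
  obtain ⟨acc4, n4, hk, hgood⟩ := hP _ _ _ _ _ hpush
  refine ⟨s3, 0, acc4, n4, hk, fun hG => ?_⟩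
  obtain ⟨hG3, hE⟩ := hgood hG
  obtain ⟨hG2, hleaf'⟩ := hleaf hG3
  obtain ⟨hG1, hkid'⟩ := hkid hG2
  refine ⟨hG1, fun hSOK => ?_⟩
  have hSOK' : SOK Q S' := by
    refine ⟨?_, ?_⟩
    · rw [hS0]
      intro c hc
      rcases hc with rfl | hc
      · exact hbVis
      · exact hSOK.1 hc
    · rw [hSj 1 (by norm_num)]
      exact hSOK.2
  have hz : ∀ j, blk j 0 = ∅ := hB.zero
  obtain ⟨hZ2, hKWe, hKWr⟩ := hkid' hSOK' hZ0 (by rw [hz]; exact Set.empty_subset _) F le_rfl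
    (by
      intro y hy
      rw [hz] at hy
      exact absurd hy (Set.notMem_empty y))
    (by
      intro y hy
      rw [hz] at hy
      exact absurd hy (Set.notMem_empty y))
  obtain ⟨hSx, hLf⟩ := hleaf' hSOK'
  set R2 := rest KK (Nat.lor S' (Nat.land Z BM)) with hR2
  clear_value R2
  have key := hA Q F S' C C' Z Sx _ hE
    (by
      rw [hB.lor, hB.lor, hB.b1z 0 _ (by norm_num), hB.lor, hK.low.1, hR2,
        hB.restz 0 _ _ (by norm_num)]
      simp)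
    (by
      rw [hB.lor, hB.lor, hB.b1, hB.lor, hB.shr1, hB.lor, hK.low.2, hR2,
        hB.restz 1 _ _ (by norm_num)]
      simp)
    (by
      intro c hc
      rw [hB.lor, hB.lor 2 C]
      exact Or.inr (Or.inl hc))
    (by
      intro c hc hcx h0 h1 hz0
      rw [hB.lor, hB.lor 3 C, hR2, hB.rest3, hB.lor 0 S', hB.lor 1 S', hB.bm,
        hB.bmz 1 _ (by norm_num)]
      refine Or.inr (Or.inr ⟨hK.all c hc hcx, ?_⟩)
      rintro ((h | h) | (h | h))
      · exact h0 h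
      · exact hz0 h
      · exact h1 h
      · exact h)
    (by
      intro c hc
      rw [hC', hB.lor]
      exact Or.inl hc)
    (by
      intro c hc hcx h0 h1 hz0 hz1
      rw [hC', hB.lor, hr, hB.rest3, hB.lor 0 S', hB.lor 1 S']
      refine Or.inr ⟨hK.all c hc hcx, ?_⟩
      rintro ((h | h) | (h | h))
      · exact h0 h
      · exact hz0 h
      · exact h1 h
      · exact hz1 h)
    hSOK' hSx hZ2 hLf hKWe hKWr
  intro m P H U B W hV hU hUr hBeq hWs hdis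
  have hL := Q.V_L m P H U hV
  have hbB : b ∉ B := by
    rw [hBeq]
    rintro (h | h)
    · exact hbS0 h
    · exact Q.L_vis P H U hL b h hbVis
  have hbW : b ∉ W := by
    intro h
    rcases hWs h with h | h | h
    · exact hbS1 h
    · exact hb0 (hK.hid b (Q.L_hid P H U hL b h hb) hb).1
    · rcases hUr h with (h | h) | h
      · exact h hb
      · exact Q.xx_vis b h hbVis
      · exact hb0 (hK.reg b (Or.inl h)).1
  have hturn : WTurn (F + m) (insert b B) W := by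
    refine key m P H U (insert b B) W hV hU hUr ?_ ?_ ?_
    · rw [hS0, hBeq, Set.insert_union]
    · rw [hSj 1 (by norm_num)]
      exact hWs
    · rw [Set.disjoint_insert_left]
      exact ⟨hbW, hdis⟩
  have hF : F + 1 + m = (F + m) + 1 := by ring
  rw [hF]
  exact ⟨b, hbB, hbW, Or.inr fun y hy hyW => hturn y hy hyW⟩

end Pool.Agent.Helper225.G
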