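import Pool.Agent.Helper225.GHS

set_option autoImplicit false

namespace Pool.Agent.Helper225.G



/-- (proved elsewhere) quiet node, white to move, state S -/
def And3Fact : Prop := ∀ (Q : HS) (F S C' Z E : ℕ) (_ : Q.EOK E)
    (_ : blk 0 E = blk 0 S) (_ : blk 1 E = blk 1 S)
    (_ : ∀ c, onB c → c ∉ Q.XX → c ∉ blk 0 S → c ∉ blk 1 S → c ∉ blk 0 Z → c ∉ blk 1 Z →
      c ∈ blk 2 C')
    (_ : SOK Q S)
    (_ : VW Q F S C') (_ : MWe Q F S Z) (_ : MWr Q F S Z),
    ∀ (n : ℕ) (P H B W : Set Cell), Q.A n P H →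
      B = blk 0 S ∪ P → W ⊆ blk 1 S ∪ H → Disjoint B W → WTurn (F + n + Q.M) B W

/-- specification of mn, selector 0 -/
def MSpec0 (Q : HS) (F : ℕ) (ih : MT) : Prop :=
  ∀ s S Z acc n (k : KT), ih 0 s S Z acc n k = true →
    ∃ s' Z' acc' n', k s' Z' acc' n' = true ∧
      (GoodP Q acc' → GoodP Q acc ∧ (SOK Q S → MW Q F S))

/-- specification of mn, selector 1 -/
def MSpec1 (Q : HS) (F : ℕ) (ih : MT) : Prop :=
  ∀ s S Z acc n (k : KT), ih 1 s S Z acc n k = true →
    ∃ s' Z' acc' n', k s' Z' acc' n' = true ∧ (∀ j, blk j Z ⊆ blk j Z') ∧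
      (GoodP Q acc' → GoodP Q acc ∧
        (SOK Q S → blk 0 Z' ⊆ Q.Vis → ∀ G, F ≤ G → MWe Q G S Z → MWr Q G S Z →
          MWe Q G S Z' ∧ MWr Q G S Z'))

theorem h7_cnd {b t e : Bool} (h : cnd b t e = true) :
    (b = true ∧ t = true) ∨ (b = false ∧ e = true) := by
  cases b
  · exact Or.inr ⟨rfl, h⟩
  · exact Or.inl ⟨rfl, h⟩

theorem h7_cndf {b t : Bool} (h : cnd b t false = true) : b = true ∧ t = true := by
  rcases h7_cnd h with h | h
  · exact h
  · exact absurd h.2 (by simp)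

theorem h7_MW_mono (hW : WinFacts) {Q : HS} {F G S : ℕ} (h : MW Q F S) (hFG : F ≤ G) :
    MW Q G S :=
  fun n P H B W a b c d => hW.mono (by omega) (h n P H B W a b c d)

theorem h7_VW_mono (hW : WinFacts) {Q : HS} {F G S C : ℕ} (h : VW Q F S C) (hFG : F ≤ G) :
    VW Q G S C :=
  fun m P H U B W a b c d e f => hW.mono (by omega) (h m P H U B W a b c d e f)

theorem h7_KOK (hB : BitFacts) {Q : HS} {KK : ℕ} (hK : KOK Q KK 0) (X C' : ℕ)
    (hreg : ∀ c, c ∈ blk 2 C' ∨ c ∈ blk 3 C' →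
      c ∈ blk 0 (Nat.lor KK X) ∧ c ∈ blk 1 (Nat.lor KK X))
    (hlow : blk 0 C' = ∅ ∧ blk 1 C' = ∅) : KOK Q (Nat.lor KK X) C' := by
  have hm : ∀ j, blk j KK ⊆ blk j (Nat.lor KK X) := by
    intro j
    rw [hB.lor]
    exact Set.subset_union_left
  refine ⟨?_, ?_, hreg, ?_, hlow⟩
  · intro c h1 h2
    obtain ⟨a, b, d⟩ := hK.vis c h1 h2
    exact ⟨hm _ a, hm _ b, hm _ d⟩
  · intro c h1 h2
    obtain ⟨a, b⟩ := hK.hid c h1 h2
    exact ⟨hm _ a, hm _ b⟩
  · intro c h1 h2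
    exact hm _ (hK.all c h1 h2)

/-- conclusion of the specification of selector 1 -/
def H7C (Q : HS) (F S Z acc : ℕ) (k : KT) : Prop :=
  ∃ s' Z' acc' n', k s' Z' acc' n' = true ∧ (∀ j, blk j Z ⊆ blk j Z') ∧
      (GoodP Q acc' → GoodP Q acc ∧
        (SOK Q S → blk 0 Z' ⊆ Q.Vis → ∀ G, F ≤ G → MWe Q G S Z → MWr Q G S Z →
          MWe Q G S Z' ∧ MWr Q G S Z'))

theorem h7_mP (hB : BitFacts) (hW : WinFacts) (Q : HS) (F : ℕ) (ih : MT) (h0 : MSpec0 Q F ih)
    (h1 : MSpec1 Q F ih) (s2 S Z acc n G : ℕ) (k : KT) (hG : ∀ j, j ≠ 0 → blk j G = ∅)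
    (h : mP ih s2 S Z acc n G k = true) : H7C Q F S Z acc k := by
  unfold mP at h
  obtain ⟨s3, Z3, acc3, n3, h3, hg3⟩ := h0 _ _ _ _ _ _ h
  obtain ⟨s4, Z4, acc4, n4, h4, hsub, hg4⟩ := h1 _ _ _ _ _ _ h3
  refine ⟨s4, Z4, acc4, n4, h4, fun j => ?_, fun hgood => ?_⟩
  · refine Set.Subset.trans ?_ (hsub j)
    rw [hB.lor]; exact Set.subset_union_left
  obtain ⟨g3, k4⟩ := hg4 hgood
  obtain ⟨g, k3⟩ := hg3 g3
  refine ⟨g, fun hS hZ G' hG' he hr => ?_⟩
  have hGV : blk 0 G ⊆ Q.Vis := by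
    refine Set.Subset.trans (Set.Subset.trans ?_ (hsub 0)) hZ
    rw [hB.lor]; exact Set.subset_union_right
  have b0 : blk 0 (Nat.lor S (Nat.shiftLeft G 1088)) = blk 0 S := by
    rw [hB.lor, hB.shl1z, Set.union_empty]
  have b1 : blk 1 (Nat.lor S (Nat.shiftLeft G 1088)) = blk 1 S ∪ blk 0 G := by
    rw [hB.lor]
    have := hB.shl1 0 G
    rw [zero_add] at this
    rw [this]
  have hS1 : SOK Q (Nat.lor S (Nat.shiftLeft G 1088)) := by
    refine ⟨?_, ?_⟩
    · rw [b0]; exact hS.1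
    · rw [b1]; exact Set.union_subset hS.2 hGV
  have hMW := k3 hS1
  refine k4 hS hZ G' hG' ?_ ?_
  · intro y hy
    rw [hB.lor] at hy
    rcases hy with hy | hy
    · exact he y hy
    · intro m P H B W a1 a2 a3 a4
      refine hW.mono (by omega) (hMW m P H B W a1 (by rw [b0]; exact a2) ?_ a4)
      refine a3.trans ?_
      rw [b1]
      intro c hc
      rcases hc with rfl | hc | hc
      · exact Or.inl (Or.inr hy)
      · exact Or.inl (Or.inl hc)
      · exact Or.inr hc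
  · intro y hy
    rw [hB.lor, hG 1 one_ne_zero, Set.union_empty] at hy
    exact hr y hy

theorem h7_mR (hB : BitFacts) (hW : WinFacts) (Q : HS) (ck : ℕ → Bool)
    (hR : RunSpec Q 266 (vr ck 200)) (KK : ℕ) (hK : KOK Q KK 0) (F : ℕ) (hF : 266 ≤ F) (ih : MT)
    (h1 : MSpec1 Q F ih) (s2 S Z acc n G : ℕ) (k : KT) (hG : ∀ j, j ≠ 0 → blk j G = ∅)
    (h : mR ck KK ih s2 S Z acc n G k = true) : H7C Q F S Z acc k := by
  unfold mR at h
  have c2 : blk 2 (Nat.shiftLeft G 2176) = blk 0 G := by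
    have := hB.shl2 0 G
    rwa [zero_add] at this
  have c3 : blk 3 (Nat.shiftLeft G 2176) = ∅ := by
    have := hB.shl2 1 G
    rw [hG 1 one_ne_zero] at this
    exact this
  have s10 : blk 1 (Nat.shiftLeft G 1088) = blk 0 G := by
    have := hB.shl1 0 G
    rwa [zero_add] at this
  have hK' : KOK Q (Nat.lor KK (Nat.lor G (Nat.shiftLeft G 1088))) (Nat.shiftLeft G 2176) := by
    refine h7_KOK hB hK _ _ ?_ ⟨hB.shl2z 0 G (by norm_num), hB.shl2z 1 G (by norm_num)⟩
    rintro c (hc | hc)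
    · rw [c2] at hc
      rw [hB.lor, hB.lor, hB.lor, hB.lor, s10]
      exact ⟨Or.inr (Or.inl hc), Or.inr (Or.inr hc)⟩
    · rw [c3] at hc
      exact absurd hc (Set.notMem_empty c)
  obtain ⟨s3, Z3, acc3, n3, h3, hg3⟩ := hR _ _ _ _ _ _ _ _ h hK'
  obtain ⟨s4, Z4, acc4, n4, h4, hsub, hg4⟩ := h1 _ _ _ _ _ _ h3
  refine ⟨s4, Z4, acc4, n4, h4, fun j => ?_, fun hgood => ?_⟩
  · refine Set.Subset.trans ?_ (hsub j)
    rw [hB.lor]; exact Set.subset_union_left
  obtain ⟨g3, k4⟩ := hg4 hgood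
  obtain ⟨g, k3⟩ := hg3 g3
  refine ⟨g, fun hS hZ G' hG' he hr => ?_⟩
  have hVW := k3 hS
  refine k4 hS hZ G' hG' ?_ ?_
  · intro y hy
    rw [hB.lor, hB.shl1z, Set.union_empty] at hy
    exact he y hy
  · intro y hy
    rw [hB.lor, s10] at hy
    rcases hy with hy | hy
    · exact hr y hy
    · intro P H B W a1 a2 a3 a4
      refine hW.mono (by omega) (hVW Q.M P H {y} B W a1 Set.subsingleton_singleton ?_ a2 ?_ a4)
      · intro c hc
        rw [Set.mem_singleton_iff] at hc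
        subst hc
        right
        rw [c2]; exact hy
      · refine a3.trans ?_
        intro c hc
        rcases hc with rfl | hc | hc
        · exact Or.inr (Or.inr rfl)
        · exact Or.inl hc
        · exact Or.inr (Or.inl hc)

theorem h7_mQ (hB : BitFacts) (hW : WinFacts) (hA : And3Fact) (Q : HS) (ck : ℕ → Bool)
    (hP : PushFact Q ck) (hR : RunSpec Q 266 (vr ck 200)) (KK : ℕ) (hK : KOK Q KK 0) (F : ℕ)
    (hF : 266 ≤ F) (ih : MT) (h1 : MSpec1 Q F ih) (w s S acc n : ℕ) (k : KT)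
    (h : mQ ck KK ih w s S acc n k = true) :
    ∃ s' Z' acc' n', k s' Z' acc' n' = true ∧
      (GoodP Q acc' → GoodP Q acc ∧ (SOK Q S → MW Q (F + 1) S)) := by
  unfold mQ at h
  obtain ⟨hl, h⟩ := h7_cndf h
  obtain ⟨b, bB, b0, b1, bs0, bs1, e0, e1⟩ := hB.legal _ _ _ hl
  obtain ⟨S', hS'⟩ : ∃ S', S' = Nat.lor S (cm (pw w)) := ⟨_, rfl⟩
  rw [← hS'] at h e0 e1
  obtain ⟨acc1, n1, h2, hg1⟩ := hP _ _ _ _ _ h
  obtain ⟨s2, Z, acc2, n2, h3, -, hg2⟩ := h1 _ _ _ _ _ _ h2
  unfold mDef at h3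
  obtain ⟨hbad, h3⟩ := h7_cndf h3
  have hbad' := hB.badf _ _ hbad
  obtain ⟨r, hr⟩ : ∃ r, r = rest KK (Nat.lor S' Z) := ⟨_, rfl⟩
  rw [← hr] at h3
  have r3 : blk 3 r = blk 3 KK \ (blk 0 (Nat.lor S' Z) ∪ blk 1 (Nat.lor S' Z)) := by
    rw [hr]; exact hB.rest3 _ _
  have rz : ∀ j, j ≠ 3 → blk j r = ∅ := by
    intro j hj
    rw [hr]; exact hB.restz _ _ _ hj
  have C2 : blk 2 (Nat.shiftRight r 1088) = blk 3 r := hB.shr1 2 r
  have C3 : blk 3 (Nat.shiftRight r 1088) = ∅ := by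
    rw [hB.shr1 3 r]; exact rz 4 (by norm_num)
  have C0 : blk 0 (Nat.shiftRight r 1088) = ∅ := by
    rw [hB.shr1 0 r]; exact rz 1 (by norm_num)
  have C1 : blk 1 (Nat.shiftRight r 1088) = ∅ := by
    rw [hB.shr1 1 r]; exact rz 2 (by norm_num)
  have R0 : blk 0 (Nat.shiftRight r 3264) = blk 3 r := hB.shr3 0 r
  have R1 : blk 1 (Nat.shiftRight r 2176) = blk 3 r := hB.shr2 1 r
  have hK' : KOK Q (kk' KK r) (Nat.shiftRight r 1088) := by
    unfold kk'
    refine h7_KOK hB hK _ _ ?_ ⟨C0, C1⟩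
    rintro c (hc | hc)
    · rw [C2] at hc
      rw [hB.lor, hB.lor, hB.lor, hB.lor, R0, R1]
      exact ⟨Or.inr (Or.inl hc), Or.inr (Or.inr hc)⟩
    · rw [C3] at hc
      exact absurd hc (Set.notMem_empty c)
  obtain ⟨s4, Z4, acc4, n4, h4, hg4⟩ := hR _ _ _ _ _ _ _ _ h3 hK'
  refine ⟨s4, Z4, acc4, n4, h4, fun hgood => ?_⟩
  obtain ⟨g2, kV⟩ := hg4 hgood
  obtain ⟨g1, kM⟩ := hg2 g2
  obtain ⟨g, kE⟩ := hg1 g1
  refine ⟨g, fun hS => ?_⟩
  have hbV : b ∈ Q.Vis := by
    by_contra hcon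
    exact b0 (hK.vis b bB hcon).1
  have hSS' : SOK Q S' := by
    refine ⟨?_, ?_⟩
    · rw [e0]
      exact Set.insert_subset hbV hS.1
    · rw [e1 1 one_ne_zero]; exact hS.2
  have hZV : blk 0 Z ⊆ Q.Vis := by
    intro c hc
    by_contra hcon
    exact hbad' c hc (hK.vis c hc.1 hcon).2.2
  obtain ⟨hMe, hMr⟩ := kM hSS' hZV F le_rfl
    (fun y hy => by rw [hB.zero] at hy; exact absurd hy (Set.notMem_empty y))
    (fun y hy => by rw [hB.zero] at hy; exact absurd hy (Set.notMem_empty y))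
  have hVW : VW Q F S' (Nat.shiftRight r 1088) := h7_VW_mono hW (kV hSS') hF
  have E0 : blk 0 (Nat.lor S' 0) = blk 0 S' := by rw [hB.lor, hB.zero, Set.union_empty]
  have E1 : blk 1 (Nat.lor S' 0) = blk 1 S' := by rw [hB.lor, hB.zero, Set.union_empty]
  have hT := hA Q F S' (Nat.shiftRight r 1088) Z (Nat.lor S' 0) kE E0 E1 (by
    intro c c1 c2 c3 c4 c5 c6
    rw [C2, r3]
    refine ⟨hK.all c c1 c2, ?_⟩
    rw [hB.lor, hB.lor]
    rintro ((h | h) | (h | h))
    · exact c3 h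
    · exact c5 h
    · exact c4 h
    · exact c6 h) hSS' hVW hMe hMr
  intro m P H B W a1 a2 a3 a4
  have hL : Q.L P H ∅ := Q.V_L _ _ _ _ (Q.A_V _ _ _ a1)
  have hbP : b ∉ P := fun hb => Q.L_vis _ _ _ hL b hb hbV
  have hbH : b ∉ H := fun hb => b0 (hK.hid b (Q.L_hid _ _ _ hL b hb bB) bB).1
  have hbB : b ∉ B := by
    rw [a2]
    rintro (h | h)
    · exact bs0 h
    · exact hbP h
  have hbW : b ∉ W := fun hb => by
    rcases a3 hb with h | h
    · exact bs1 h
    · exact hbH h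
  have hWT := hT m P H (insert b B) W a1 (by rw [a2, e0, Set.insert_union])
    (by rw [e1 1 one_ne_zero]; exact a3)
    (by rw [Set.disjoint_insert_left]; exact ⟨hbW, a4⟩)
  have hn : F + 1 + m + Q.M = (F + m + Q.M) + 1 := by omega
  rw [hn]
  exact ⟨b, hbB, hbW, Or.inr hWT⟩

variable (hB : BitFacts) (hW : WinFacts)

include hB hW

/-- TARGET: the main level. (KOK is preserved when the unknown region is added to KK, see the
structure BitFacts.) -/
theorem mn_spec (hA : And3Fact) (Q : HS) (ck : ℕ → Bool) (hP : PushFact Q ck)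
    (hR : RunSpec Q 266 (vr ck 200)) (T : ℕ → ℕ) (F0 : ℕ) (hF0 : 266 ≤ F0)
    (hT : ∀ i S, Nat.land S NS2 = T i → MW Q F0 S) (KK : ℕ) (hK : KOK Q KK 0) :
    ∀ fuel, MSpec0 Q (F0 + fuel) (mn T ck KK fuel) ∧ MSpec1 Q (F0 + fuel) (mn T ck KK fuel) := by
  intro fuel
  induction fuel with
  | zero =>
    refine ⟨?_, ?_⟩
    · intro s S Z acc n k h
      exact absurd (show false = true from h) (by simp)
    · intro s S Z acc n k h
      exact absurd (show false = true from h) (by simp)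
  | succ fuel IH =>
    obtain ⟨ih0, ih1⟩ := IH
    obtain ⟨ih, hih⟩ : ∃ ih, ih = mn T ck KK fuel := ⟨_, rfl⟩
    rw [← hih] at ih0 ih1
    have hF : 266 ≤ F0 + fuel := by omega
    refine ⟨?_, ?_⟩
    · intro s S Z acc n k h
      have h' : mNode T ck KK ih s S acc n k = true := by rw [hih]; exact h
      clear h
      unfold mNode at h'
      generalize Nat.land s 16777215 = x at h'
      cases x with
      | zero => exact absurd (show false = true from h') (by simp)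
      | succ w =>
        have h2 : cnd (Nat.ble (Nat.land w 7) 5) (vr ck 200 0 s S KK 0 0 acc n k)
          (cnd (Nat.beq (Nat.land w 7) 6) (mQ ck KK ih w s S acc n k)
          (mTab T w s S acc n k)) = true := h'
        rcases h7_cnd h2 with ⟨-, h3⟩ | ⟨-, h3⟩
        · obtain ⟨s', Z', acc', n', hk, hg⟩ := hR _ _ _ _ _ _ _ _ h3 hK
          refine ⟨s', Z', acc', n', hk, fun hgood => ?_⟩
          obtain ⟨g, kV⟩ := hg hgood
          refine ⟨g, fun hS => ?_⟩
          intro m P H B W a1 a2 a3 a4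
          refine hW.mono (by omega) (kV hS Q.M P H ∅ B W (Q.A_V _ _ _ a1)
            Set.subsingleton_empty (Set.empty_subset _) a2 ?_ a4)
          rw [Set.union_empty]; exact a3
        · rcases h7_cnd h3 with ⟨-, h4⟩ | ⟨-, h4⟩
          · exact h7_mQ hB hW hA Q ck hP hR KK hK (F0 + fuel) hF ih ih1 w s S acc n k h4
          · unfold mTab at h4
            obtain ⟨h5, h6⟩ := h7_cndf h4
            refine ⟨_, _, _, _, h6, fun hgood => ⟨hgood, fun _ => ?_⟩⟩
            exact h7_MW_mono hW (hT _ S (Nat.eq_of_beq_eq_true h5)) (by omega)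
    · intro s S Z acc n k h
      have h' : mKids ck KK ih s S Z acc n k = true := by rw [hih]; exact h
      clear h
      have key : H7C Q (F0 + fuel) S Z acc k := by
        unfold mKids at h'
        generalize Nat.land s 16777215 = x at h'
        cases x with
        | zero => exact absurd (show false = true from h') (by simp)
        | succ w =>
          replace h' : (Nat.rec (motive := fun _ => Bool) (k (Nat.shiftRight s 24) Z acc n)
            (fun t _ => Nat.rec (motive := fun _ => Bool)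
              (mP ih (Nat.shiftRight s 24) S Z acc n (g3 w) k)
              (fun t _ => Nat.rec (motive := fun _ => Bool)
                (mR ck KK ih (Nat.shiftRight s 24) S Z acc n (g3 w) k)
                (fun t _ => mKids3 ck KK ih w s S Z acc n t k) t) t)
            (Nat.land w 7) : Bool) = true := h'
          have hg3 : ∀ j, j ≠ 0 → blk j (g3 w) = ∅ := fun j hj => hB.g3z j w hj
          generalize Nat.land w 7 = y at h'
          match y, h' with
          | 0, h' =>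
            exact ⟨_, Z, acc, n, h', fun j => Set.Subset.rfl, fun hg => ⟨hg,
              fun _ _ G _ he hr => ⟨he, hr⟩⟩⟩
          | 1, h' => exact h7_mP hB hW Q _ ih ih0 ih1 _ _ _ _ _ _ _ hg3 h'
          | 2, h' => exact h7_mR hB hW Q ck hR KK hK _ hF ih ih1 _ _ _ _ _ _ _ hg3 h'
          | t + 3, h' =>
            have h3 : mKids3 ck KK ih w s S Z acc n t k = true := h'
            unfold mKids3 at h3
            obtain ⟨s', G', hG', h4⟩ := hB.glf _ _ _ _ h3 (fun j _ => hB.zero j)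
            cases t with
            | zero => exact h7_mP hB hW Q _ ih ih0 ih1 _ _ _ _ _ _ _ hG' h4
            | succ t => exact h7_mR hB hW Q ck hR KK hK _ hF ih ih1 _ _ _ _ _ _ _ hG' h4
      obtain ⟨s', Z', acc', n', a, b, c⟩ := key
      refine ⟨s', Z', acc', n', a, b, fun hg => ?_⟩
      obtain ⟨c1, c2⟩ := c hg
      exact ⟨c1, fun hS hZ G hG => c2 hS hZ G (by omega)⟩

end Pool.Agent.Helper225.G
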