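import Pool.Agent.Helper225.GWin
import Pool.Agent.Helper225.GBitF
import Pool.Agent.Helper225.GPush
import Pool.Agent.Helper225.GRun1
import Pool.Agent.Helper225.GRun2
import Pool.Agent.Helper225.GRun3
import Pool.Agent.Helper225.GRun4
import Pool.Agent.Helper225.GRun5

set_option autoImplicit false

namespace Pool.Agent.Helper225.G

theorem stepFact : StepFact := fun S w h => chk_step S w h

theorem fiveFact : FiveFact := fun S w h => chk_five S w h

theorem pessFact : PessFact := fun S0 KK acc n k fuel s S h h0 h1 =>
  W8.pess_sound stepFact fiveFact S0 KK acc n k fuel s S h h0 h1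

theorem winFacts : WinFacts where
  mono := fun hnm _ _ h => W8.win_mono_n' hnm h
  noFive := fun h hd _ hy => W8.notFive_of_noFour h hd hy
  nfMono := fun h hB hW => W8.noFour_mono h hB hW
  five := fun hn hB hW _ _ _ hdir hM hb => W8.five_win hn hB hW hdir hM hb
  step := fun hn hB hW hd _ _ _ _ hdir hM hb hc hno ih => W8.step_win hn hB hW hd hdir hM hb hc hno ih

theorem and2Fact : And2Fact := fun Q F S C C' Z Sx E hE hE0 hE1 hE2 hE3 hC2 hC3 hS hSx hZ hL hKe hKr =>
  and2_lemma winFacts bitFacts.fin Q F S C C' Z Sx E hE hE0 hE1 hE2 hE3 hC2 hC3 hS hSx hZ hL hKe hKr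

theorem and3Fact : And3Fact := fun Q F S C' Z E hE hE0 hE1 hC2 hS hL hKe hKr =>
  and3_lemma winFacts bitFacts.fin Q F S C' Z E hE hE0 hE1 hC2 hS hL hKe hKr

/-- all three specifications of the run function -/
theorem vr_spec (Q : HS) (ck : ℕ → Bool) (hck : CkOK Q ck) : ∀ f : ℕ,
    RunSpec Q (f + 66) (vr ck f) ∧ KidSpec Q (f + 66) (vr ck f) ∧ LeafSpec Q (f + 66) (vr ck f) := by
  have hP := push_fact Q ck hck
  intro f
  induction f with
  | zero =>
    refine ⟨?_, ?_, ?_⟩
    · intro s S KK C Z acc n k h _
      exact absurd h (by simp [vr])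
    · intro s S KK C Z acc n k h _
      exact absurd h (by simp [vr])
    · intro s S KK C Z acc n k h _
      exact absurd h (by simp [vr])
  | succ f ih =>
    obtain ⟨h0, h1, h2⟩ := ih
    have hU : LeafUSpec Q (f + 66) (vr ck f) :=
      leafU_spec bitFacts winFacts stepFact fiveFact pessFact Q (f + 66) (by omega) (vr ck f) h2
    have e : f + 1 + 66 = f + 66 + 1 := by omega
    refine ⟨?_, ?_, ?_⟩
    · intro s S KK C Z acc n k h hK
      change vBody ck (vr ck f) s S KK C acc n k = true at h
      unfold vBody at h
      rw [e]
      have hw : ∀ (w : ℕ) (g : ℕ → Bool → Bool), Nat.rec (motive := fun _ => Bool) false g w = true →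
          ∃ w' b, g w' b = true := by
        intro w g hg
        cases w with
        | zero => exact absurd hg (by simp)
        | succ w => exact ⟨w, _, hg⟩
      obtain ⟨w, b, hg⟩ := hw _ _ h
      rcases ht : Nat.ble (Nat.land w 7) 1 with _ | _
      rotate_left
      · have hg' : vPess ck s S KK C acc n k = true := by
          change cnd _ _ _ = true at hg
          rw [ht] at hg
          exact hg
        exact vPess_spec bitFacts winFacts stepFact fiveFact pessFact Q ck hP (f + 66 + 1) (by omega)
          s S KK C acc n k hg' hK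
      · have hg' : vBody2 ck (vr ck f) w s S KK C acc n k = true := by
          change cnd _ _ _ = true at hg
          rw [ht] at hg
          exact hg
        unfold vBody2 at hg'
        rcases hx : Nat.sub (Nat.land w 7) 2 with _ | x
        · rw [hx] at hg'
          exact vFive_spec bitFacts winFacts stepFact fiveFact pessFact Q (f + 66 + 1) (by omega)
            w s S KK C acc n k hg' hK
        · rw [hx] at hg'
          rcases x with _ | x
          · exact vStep_spec bitFacts winFacts stepFact fiveFact pessFact Q ck hP (f + 66) (by omega)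
              (vr ck f) h0 w s S KK C acc n k hg' hK
          · exact vAnd_spec bitFacts winFacts and2Fact Q ck hP (f + 66) (vr ck f) h1 hU
              w s S KK C acc n k hg' hK
    · intro s S KK C Z acc n k h hK
      change kBody (vr ck f) s S KK C Z acc n k = true at h
      obtain ⟨s', Z', acc', n', hk, hZ, hG⟩ := kBody_spec bitFacts winFacts Q (f + 66) (vr ck f) h0 h1 hU
        s S KK C Z acc n k h hK
      refine ⟨s', Z', acc', n', hk, hZ, fun hg => ⟨(hG hg).1, ?_⟩⟩
      intro hS hv h2' G hFG
      exact (hG hg).2 hS hv h2' G (by omega)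
    · intro s S KK C Z acc n k h hK
      change lBody ck (vr ck f) s S KK C acc n k = true at h
      rw [e]
      exact lBody_spec bitFacts winFacts stepFact fiveFact pessFact Q ck hP (f + 66) (by omega)
        (vr ck f) h2 s S KK C acc n k h hK

end Pool.Agent.Helper225.G
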