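import Pool.Agent.Helper225.GFacts
import Pool.Agent.Helper225.GChkS

set_option autoImplicit false

namespace Pool.Agent.Helper225.G

theorem bord_bits : ∀ i < 1024, (i % 32 < 4 ∨ 27 < i % 32 ∨ i / 32 < 4 ∨ 27 < i / 32) →
    BORD.testBit (64 + i) = true := by decide +kernel

theorem bad_of_sub {BAD : ℕ} (h : sub BORD BAD = true) (c : Cell) (hc : onB c) (hi : c ∉ Inner) :
    c ∈ blk 0 BAD := by
  refine ⟨hc, ?_⟩
  have h2 : BORD.testBit (1088 * 0 + 64 + ix c) = true := by
    have h3 := cell_ix c hc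
    rw [show 1088 * 0 + 64 + ix c = 64 + ix c by omega]
    apply bord_bits (ix c) h3.2
    unfold Inner at hi
    simp only [Set.mem_ofPred_eq, not_and, not_le] at hi
    obtain ⟨h4, h5, h6, h7⟩ := hc
    unfold ix
    by_contra hcon
    push Not at hcon
    obtain ⟨a1, a2, a3, a4⟩ := hcon
    have b1 : (c.1.toNat + 32 * c.2.toNat) % 32 = c.1.toNat := by omega
    have b2 : (c.1.toNat + 32 * c.2.toNat) / 32 = c.2.toNat := by omega
    rw [b1] at a1 a2
    rw [b2] at a3 a4
    have := hi (by omega) (by omega) (by omega)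
    omega
  exact C8.sub_bit h _ h2

theorem mkK_facts (FX BAD XX : ℕ) :
    (∀ c, c ∈ blk 0 FX ∨ c ∈ blk 0 BAD → c ∈ blk 0 (mkK FX BAD XX) ∧ c ∈ blk 1 (mkK FX BAD XX)) ∧
    (∀ c, c ∈ blk 0 BAD → c ∈ blk 2 (mkK FX BAD XX)) ∧
    (∀ c, onB c → c ∉ blk 0 XX → c ∈ blk 3 (mkK FX BAD XX)) := by
  unfold mkK
  refine ⟨?_, ?_, ?_⟩
  · intro c hc
    constructor
    · rw [blk_lor, blk_lor, blk_lor]
      left; left
      rcases hc with h | h
      · exact Or.inl h
      · exact Or.inr h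
    · rw [blk_lor, blk_lor]
      left; right
      rw [bitFacts.shl1 0, blk_lor]
      rcases hc with h | h
      · exact Or.inl h
      · exact Or.inr h
  · intro c hc
    rw [blk_lor, blk_lor]
    right; rw [blk_lor]; left
    rw [bitFacts.shl2 0]
    exact hc
  · intro c hc hx
    rw [blk_lor, blk_lor]
    right
    rw [blk_lor]
    right
    rw [mem_blk_xor]
    have e1 : c ∈ blk 3 FU3 := by
      rw [blk_FU3, if_pos rfl]
      exact hc
    have e2 : c ∉ blk 3 (Nat.land FU3 (Nat.shiftLeft XX 3264)) := by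
      rw [blk_land, bitFacts.shl3 0]
      exact fun h => hx h.2
    exact fun h => e2 (h.1 e1)

theorem runT_sound (Q : HS) (FX Y BAD XX XW sX s S : ℕ)
    (h : runT (fun _ => 1) FX Y BAD XX XW sX s S = true) (hck : CkOK Q (chkX FX Y XW sX))
    (hV : Q.Vis = visOf BAD) (hH : Q.HH ⊆ blk 0 FX) (hX : Q.XX = blk 0 XX) :
    MW Q 516 S := by
  unfold runT at h
  obtain ⟨h1, h⟩ := C8.cnd_true h
  obtain ⟨hb, h1⟩ := C8.cnd_true h1
  obtain ⟨-, hs⟩ := C8.cnd_true h1
  obtain ⟨k1, k2, k3⟩ := mkK_facts FX BAD XX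
  have hK : KOK Q (mkK FX BAD XX) 0 := by
    refine ⟨?_, ?_, ?_, ?_, ?_⟩
    · intro c hc hcv
      rw [hV] at hcv
      have hcb : c ∈ blk 0 BAD := by
        by_contra hcon
        exact hcv ⟨hc, hcon⟩
      exact ⟨(k1 c (Or.inr hcb)).1, (k1 c (Or.inr hcb)).2, k2 c hcb⟩
    · intro c hc _
      exact k1 c (Or.inl (hH hc))
    · intro c hc
      rw [bitFacts.zero, bitFacts.zero] at hc
      rcases hc with h | h <;> exact absurd h (by simp)
    · intro c hc hcx
      rw [hX] at hcx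
      exact k3 c hc hcx
    · exact ⟨bitFacts.zero 0, bitFacts.zero 1⟩
  have hT : ∀ (i S : ℕ), Nat.land S NS2 = (fun _ => 1) i → MW Q 266 S := by
    intro i S hS
    exfalso
    have h3 : (Nat.land S NS2).testBit 0 = true := by rw [hS]; exact Nat.testBit_one_zero
    rw [tb_land] at h3
    have h4 : NS2.testBit 0 = false := by decide +kernel
    rw [h4] at h3
    simp at h3
  have hR := (vr_spec Q (chkX FX Y XW sX) hck 200).1
  have hm := (mn_spec bitFacts winFacts and3Fact Q (chkX FX Y XW sX) (push_fact Q _ hck) hR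
    (fun _ => 1) 266 le_rfl hT (mkK FX BAD XX) hK 250).1
  obtain ⟨s', Z', acc', n', hk, hg⟩ := hm s S 0 0 NE _ h
  refine (hg (hck _ hk)).2 ⟨?_, ?_⟩
  · intro c hc
    rw [hV]
    refine ⟨hc.1, ?_⟩
    have := land_zero 0 S _ hs c hc
    rw [blk_lor] at this
    intro hcb
    exact this (Or.inl hcb)
  · intro c hc
    rw [hV]
    refine ⟨hc.1, ?_⟩
    have := land_zero 1 S _ hs c hc
    rw [blk_lor, bitFacts.shl1 0] at this
    intro hcb
    exact this (Or.inr hcb)

end Pool.Agent.Helper225.G
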