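import Mathlib

set_option autoImplicit false

namespace Pool.Agent.Helper225.G

/-- the window of five cells starting at s is blocked by P -/
def Bl1 (s : ℤ) (P : Set ℤ) : Prop := ∃ t, s ≤ t ∧ t < s + 5 ∧ t ∈ P

open Classical in
/-- number of stones of H in the window starting at s -/
noncomputable def c1 (s : ℤ) (H : Set ℤ) : ℕ :=
  ((Finset.range 5).filter (fun t => s + (t : ℤ) ∈ H)).card

/-- unblocked windows contain at most three stones; unblocked windows starting before 0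
contain at most one stone of H -/
def Lq (P H U : Set ℤ) : Prop :=
  ∀ s : ℤ, ¬ Bl1 s P → (0 ≤ s → c1 s (H ∪ U) ≤ 3) ∧ (s < 0 → c1 s H ≤ 1)

def Vq : ℕ → Set ℤ → Set ℤ → Set ℤ → Prop
  | 0, P, H, U => Lq P H U ∧ ∀ y, y ∉ P → y ∉ H → y ∉ U → Lq P H (insert y U)
  | m + 1, P, H, U => Lq P H U ∧ ∀ y, y ∉ P → y ∉ H → y ∉ U → Lq P H (insert y U) ∨
      ∃ z, 0 ≤ z ∧ z ∉ P ∧ z ∉ H ∧ z ∉ U ∧ z ≠ y ∧ Vq m (insert z P) (insert y H) U

def Aq : ℕ → Set ℤ → Set ℤ → Prop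
  | 0, P, H => Vq 1 P H ∅ ∧ ∀ u, u ∉ P → u ∉ H → Vq 1 P H {u}
  | n + 1, P, H => Vq 1 P H ∅ ∧ ∀ u, u ∉ P → u ∉ H → Vq 1 P H {u} ∨
      ∃ d, 0 ≤ d ∧ d ∉ P ∧ d ∉ H ∧ d ≠ u ∧ Aq n (insert d P) (insert u H)

end Pool.Agent.Helper225.G
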