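import Pool.Agent.Helper225.GSem

set_option autoImplicit false

namespace Pool.Agent.Helper225.G

/-- a hidden system: P = answers of black outside the visible part, H = hidden white stones,
U = unknown white stones -/
structure HS where
  Vis : Set Cell
  XX : Set Cell
  HH : Set Cell
  EOK : ℕ → Prop
  M : ℕ
  A : ℕ → Set Cell → Set Cell → Prop
  V : ℕ → Set Cell → Set Cell → Set Cell → Prop
  L : Set Cell → Set Cell → Set Cell → Prop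
  eok_congr : ∀ E E' : ℕ, (∀ j < 4, blk j E = blk j E') → EOK E → EOK E'
  vis_onB : ∀ c ∈ Vis, onB c
  xx_vis : ∀ c ∈ XX, c ∉ Vis
  L_fin : ∀ P H U, L P H U → P.Finite ∧ H.Finite ∧ U.Finite
  L_vis : ∀ P H U, L P H U → ∀ c ∈ P, c ∉ Vis
  L_hid : ∀ P H U, L P H U → ∀ c ∈ H, onB c → c ∈ HH
  V_L : ∀ m P H U, V m P H U → L P H U
  A_V : ∀ n P H, A n P H → V M P H ∅
  A_step : ∀ n P H, A n P H → ∀ u, u ∉ P → u ∉ H → V M P H {u} ∨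
    ∃ n' d, n = n' + 1 ∧ d ∉ P ∧ d ∉ H ∧ d ≠ u ∧ d ∉ Vis ∧ A n' (insert d P) (insert u H)
  V_step : ∀ m P H U, V m P H U → ∀ y, y ∉ P → y ∉ H → y ∉ U → L P H (insert y U) ∨
    ∃ m' z, m = m' + 1 ∧ z ∉ P ∧ z ∉ H ∧ z ∉ U ∧ z ≠ y ∧ z ∉ Vis ∧
      V m' (insert z P) (insert y H) U
  noFour : ∀ P H U1 U2 E, L P H (U1 ∪ U2) → U1.Subsingleton → U2.Subsingleton →
    U1 ⊆ {c | ¬ onB c} ∪ XX ∪ blk 2 E → U2 ⊆ {c | ¬ onB c} ∪ XX ∪ blk 3 E →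
    EOK E → blk 0 E ⊆ Vis → blk 1 E ⊆ Vis →
    NoFour (blk 0 E ∪ P) (blk 1 E ∪ (H ∪ (U1 ∪ U2)))

/-- where the unknown stone number j may be -/
def rg (Q : HS) (j C : ℕ) : Set Cell := {c | ¬ onB c} ∪ Q.XX ∪ blk j C

/-- all entries of the accumulator are good -/
def GoodP (Q : HS) (acc : ℕ) : Prop := ∀ i, Q.EOK (acc >>> (4352 * i))

/-- the check implies that the entries are good -/
def CkOK (Q : HS) (ck : ℕ → Bool) : Prop := ∀ a, ck a = true → GoodP Q a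

/-- the forbidden cells contain all hidden or unknown cells -/
structure KOK (Q : HS) (KK C : ℕ) : Prop where
  vis : ∀ c, onB c → c ∉ Q.Vis → c ∈ blk 0 KK ∧ c ∈ blk 1 KK ∧ c ∈ blk 2 KK
  hid : ∀ c ∈ Q.HH, onB c → c ∈ blk 0 KK ∧ c ∈ blk 1 KK
  reg : ∀ c, c ∈ blk 2 C ∨ c ∈ blk 3 C → c ∈ blk 0 KK ∧ c ∈ blk 1 KK
  all : ∀ c, onB c → c ∉ Q.XX → c ∈ blk 3 KK
  low : blk 0 C = ∅ ∧ blk 1 C = ∅

/-- the stones of the state are visible -/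
def SOK (Q : HS) (S : ℕ) : Prop := blk 0 S ⊆ Q.Vis ∧ blk 1 S ⊆ Q.Vis

/-- the state is won at a reply node's leaf -/
def LW (Q : HS) (F S C : ℕ) : Prop :=
  ∀ P H U1 U2 B W : Set Cell, Q.L P H (U1 ∪ U2) → U1.Subsingleton → U2.Subsingleton →
    U1 ⊆ rg Q 2 C → U2 ⊆ rg Q 3 C → B = blk 0 S ∪ P → W ⊆ blk 1 S ∪ (H ∪ (U1 ∪ U2)) →
    Disjoint B W → Win F B W

/-- the same, provided there are no four white stones in a window, with the stones of Sx added -/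
def LfW (Q : HS) (F S C Sx : ℕ) : Prop :=
  ∀ P H U1 U2 B W : Set Cell, Q.L P H (U1 ∪ U2) → U1.Subsingleton → U2.Subsingleton →
    U1 ⊆ rg Q 2 C → U2 ⊆ rg Q 3 C → B = blk 0 S ∪ P → W ⊆ blk 1 S ∪ (H ∪ (U1 ∪ U2)) →
    Disjoint B W → NoFour B (W ∪ blk 1 Sx) → Win F B W

/-- the state is won by a run -/
def VW (Q : HS) (F S C : ℕ) : Prop :=
  ∀ (m : ℕ) (P H U B W : Set Cell), Q.V m P H U → U.Subsingleton → U ⊆ rg Q 2 C →
    B = blk 0 S ∪ P → W ⊆ blk 1 S ∪ (H ∪ U) → Disjoint B W → Win (F + m) B W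

/-- the explicit replies (block 0 of Z) at a reply node are answered -/
def KWe (Q : HS) (F S C Z : ℕ) : Prop :=
  ∀ y ∈ blk 0 Z, ∀ (m : ℕ) (P H U B W : Set Cell), Q.V m P H U → U.Subsingleton →
    U ⊆ rg Q 2 C → B = blk 0 S ∪ P → W ⊆ insert y (blk 1 S ∪ (H ∪ U)) → Disjoint B W →
    Win (F + m) B W

/-- the one-of replies (block 1 of Z) at a reply node are answered -/
def KWr (Q : HS) (F S C Z : ℕ) : Prop :=
  ∀ y ∈ blk 1 Z, ∀ (P H U B W : Set Cell), Q.L P H (insert y U) → U.Subsingleton →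
    U ⊆ rg Q 2 C → B = blk 0 S ∪ P → W ⊆ insert y (blk 1 S ∪ (H ∪ U)) → Disjoint B W →
    NoFour B (W ∪ blk 2 Z) → Win F B W

/-- main state won -/
def MW (Q : HS) (F S : ℕ) : Prop :=
  ∀ (n : ℕ) (P H B W : Set Cell), Q.A n P H → B = blk 0 S ∪ P → W ⊆ blk 1 S ∪ H →
    Disjoint B W → Win (F + n + Q.M) B W

def MWe (Q : HS) (F S Z : ℕ) : Prop :=
  ∀ y ∈ blk 0 Z, ∀ (n : ℕ) (P H B W : Set Cell), Q.A n P H → B = blk 0 S ∪ P →
    W ⊆ insert y (blk 1 S ∪ H) → Disjoint B W → Win (F + n + Q.M) B W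

def MWr (Q : HS) (F S Z : ℕ) : Prop :=
  ∀ y ∈ blk 1 Z, ∀ (P H B W : Set Cell), Q.V Q.M P H {y} → B = blk 0 S ∪ P →
    W ⊆ insert y (blk 1 S ∪ H) → Disjoint B W → Win (F + Q.M) B W

/-- specification of the run function, selector 0 -/
def RunSpec (Q : HS) (F : ℕ) (ih : FT) : Prop :=
  ∀ s S KK C Z acc n (k : KT), ih 0 s S KK C Z acc n k = true → KOK Q KK C →
    ∃ s' Z' acc' n', k s' Z' acc' n' = true ∧
      (GoodP Q acc' → GoodP Q acc ∧ (SOK Q S → VW Q F S C))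

/-- selector 1 -/
def KidSpec (Q : HS) (F : ℕ) (ih : FT) : Prop :=
  ∀ s S KK C Z acc n (k : KT), ih 1 s S KK C Z acc n k = true → KOK Q KK C →
    ∃ s' Z' acc' n', k s' Z' acc' n' = true ∧ (∀ j, blk j Z ⊆ blk j Z') ∧
      (GoodP Q acc' → GoodP Q acc ∧
        (SOK Q S → blk 0 Z' ⊆ Q.Vis → blk 2 Z ⊆ Q.Vis → ∀ G, F ≤ G → KWe Q G S C Z → KWr Q G S C Z →
          blk 2 Z' ⊆ Q.Vis ∧ KWe Q G S C Z' ∧ KWr Q G S C Z'))

/-- selector 2 -/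
def LeafSpec (Q : HS) (F : ℕ) (ih : FT) : Prop :=
  ∀ s S KK C Z acc n (k : KT), ih 2 s S KK C Z acc n k = true → KOK Q KK C →
    ∃ s' acc' n', k s' 0 acc' n' = true ∧
      (GoodP Q acc' → GoodP Q acc ∧ (SOK Q S → LW Q F S C))

/-- specification of leafU -/
def LeafUSpec (Q : HS) (F : ℕ) (ih : FT) : Prop :=
  ∀ s S KK C acc n (k : KT), leafU ih s S KK C acc n k = true → KOK Q KK C →
    ∃ s' Sx acc' n', k s' Sx acc' n' = true ∧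
      (GoodP Q acc' → GoodP Q acc ∧ (SOK Q S → blk 1 Sx ⊆ Q.Vis ∧ LfW Q F S C Sx))

/-- meaning of the test of a forcing step -/
def StepFact : Prop := ∀ (S w : ℕ), Nat.beq (Nat.land S (Chk w)) (Exp w) = true →
    ∃ (a d : Cell) (i j : ℕ), IsDir d ∧ i < 5 ∧ j < 5 ∧
      (∀ t, t < 5 → onB (wn a d t)) ∧
      (∀ t, t < 5 → t ≠ i → t ≠ j → wn a d t ∈ blk 0 S) ∧
      wn a d i ∉ blk 0 S ∧ wn a d j ∉ blk 0 S ∧ wn a d i ∉ blk 1 S ∧ wn a d j ∉ blk 1 S ∧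
      blk 0 (Nat.xor S (Sm w)) = insert (wn a d i) (blk 0 S) ∧
      blk 1 (Nat.xor S (Sm w)) = insert (wn a d j) (blk 1 S) ∧
      blk 0 (Nat.lor S (bw w)) = insert (wn a d i) (blk 0 S) ∧
      blk 1 (Nat.lor S (bw w)) = blk 1 S ∧
      (∀ KK, Nat.beq (Nat.land KK (Sm w)) 0 = true → wn a d i ∉ blk 0 KK ∧ wn a d j ∉ blk 1 KK)

/-- meaning of the test of a five -/
def FiveFact : Prop := ∀ (S w : ℕ), Nat.beq (Nat.land S (ChkF w)) (ExpF w) = true →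
    ∃ (a d : Cell) (i : ℕ), IsDir d ∧ i < 5 ∧
      (∀ t, t < 5 → onB (wn a d t)) ∧
      (∀ t, t < 5 → t ≠ i → wn a d t ∈ blk 0 S) ∧
      wn a d i ∉ blk 0 S ∧ wn a d i ∉ blk 1 S ∧ wn a d i ∈ blk 0 (bw w)

/-- cells that are off the board or forbidden in both blocks -/
def Forb (KK : ℕ) : Set Cell := {c | onB c → c ∈ blk 0 KK ∧ c ∈ blk 1 KK}

/-- meaning of a pessimistic forcing sequence. -/
def PessFact : Prop := ∀ (S0 KK acc n : ℕ) (k : KT) (fuel s S : ℕ),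
    pess S0 KK acc n k fuel s S = true →
      blk 0 S0 ⊆ blk 0 S → blk 1 S0 ⊆ blk 1 S →
      ∃ s' Sx Sf, k s' Sx acc n = true ∧ blk 0 S ⊆ blk 0 Sf ∧ blk 1 S ⊆ blk 1 Sf ∧
        blk 1 S ⊆ blk 1 Sx ∧ blk 1 Sx ⊆ blk 1 Sf ∧
        (∀ c, c ∈ blk 0 KK → c ∈ blk 0 Sf → c ∈ blk 0 S0) ∧
        (∀ c, c ∈ blk 1 KK → c ∈ blk 1 Sf → c ∈ blk 1 S0) ∧
        (∀ B W : Set Cell, B.Finite → W.Finite → Disjoint B W → blk 0 S ⊆ B →
          (∀ c, c ∈ W → c ∈ blk 1 S ∨ c ∈ Forb KK) →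
          NoFour B (W ∪ blk 1 Sx) → Win (fuel + 1) B W)

/-- meaning of a recorded position -/
def PushFact (Q : HS) (ck : ℕ → Bool) : Prop :=
  ∀ (E C acc n : ℕ) (k : ℕ → ℕ → Bool), push ck E C acc n k = true →
    ∃ acc' n', k acc' n' = true ∧ (GoodP Q acc' → GoodP Q acc ∧ Q.EOK (Nat.lor E C))

/-- facts about masks -/
structure BitFacts : Prop where
  fin : ∀ j X, (blk j X).Finite
  zero : ∀ j, blk j 0 = ∅
  lor : ∀ j X Y, blk j (Nat.lor X Y) = blk j X ∪ blk j Y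
  shl1 : ∀ j X, blk (j + 1) (Nat.shiftLeft X 1088) = blk j X
  shl1z : ∀ X, blk 0 (Nat.shiftLeft X 1088) = ∅
  shl2 : ∀ j X, blk (j + 2) (Nat.shiftLeft X 2176) = blk j X
  shl2z : ∀ j X, j < 2 → blk j (Nat.shiftLeft X 2176) = ∅
  shl3 : ∀ j X, blk (j + 3) (Nat.shiftLeft X 3264) = blk j X
  shl3z : ∀ j X, j < 3 → blk j (Nat.shiftLeft X 3264) = ∅
  shr1 : ∀ j X, blk j (Nat.shiftRight X 1088) = blk (j + 1) X
  shr2 : ∀ j X, blk j (Nat.shiftRight X 2176) = blk (j + 2) X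
  shr3 : ∀ j X, blk j (Nat.shiftRight X 3264) = blk (j + 3) X
  b1 : ∀ X, blk 1 (Nat.land B1 X) = blk 1 X
  b1z : ∀ j X, j ≠ 1 → blk j (Nat.land B1 X) = ∅
  bm : ∀ X, blk 0 (Nat.land X BM) = blk 0 X
  bmz : ∀ j X, j ≠ 0 → blk j (Nat.land X BM) = ∅
  rest3 : ∀ KK X, blk 3 (rest KK X) = blk 3 KK \ (blk 0 X ∪ blk 1 X)
  restz : ∀ j KK X, j ≠ 3 → blk j (rest KK X) = ∅
  g3z : ∀ j w, j ≠ 0 → blk j (g3 w) = ∅
  glf : ∀ n s G (k : Nat → Nat → Bool), gl n s G k = true → (∀ j, j ≠ 0 → blk j G = ∅) →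
    ∃ s' G', (∀ j, j ≠ 0 → blk j G' = ∅) ∧ k s' G' = true
  legal : ∀ KK S w, Nat.beq (Nat.land (Nat.lor KK S) (bb2 w)) 0 = true →
    ∃ b : Cell, onB b ∧ b ∉ blk 0 KK ∧ b ∉ blk 1 KK ∧ b ∉ blk 0 S ∧ b ∉ blk 1 S ∧
      blk 0 (Nat.lor S (cm (pw w))) = insert b (blk 0 S) ∧
      (∀ j, j ≠ 0 → blk j (Nat.lor S (cm (pw w))) = blk j S)
  badf : ∀ KK Z, Nat.beq (Nat.land (Nat.land Z BM) (Nat.shiftRight KK 2176)) 0 = true →
    ∀ c ∈ blk 0 Z, c ∉ blk 2 KK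
  bwf : ∀ KK w c, Nat.beq (Nat.land KK (bw w)) 0 = true → c ∈ blk 0 (bw w) → c ∉ blk 0 KK

/-- pure facts about winning -/
structure WinFacts : Prop where
  mono : ∀ {n m : ℕ}, n ≤ m → ∀ {B W : Set Cell}, Win n B W → Win m B W
  noFive : ∀ {B W : Set Cell}, NoFour B W → Disjoint B W → ∀ {y : Cell}, y ∉ B →
    ¬ Five (insert y W)
  nfMono : ∀ {B B' W W' : Set Cell}, NoFour B W → B ⊆ B' → W' ⊆ W → NoFour B' W'
  five : ∀ {n : ℕ} {B W : Set Cell}, 1 ≤ n → B.Finite → W.Finite → ∀ {a d : Cell} {i : ℕ},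
    IsDir d → (∀ t, t < 5 → t ≠ i → wn a d t ∈ B) → wn a d i ∉ W → Win n B W
  step : ∀ {n : ℕ} {B W : Set Cell}, 1 ≤ n → B.Finite → W.Finite → Disjoint B W →
    ∀ {a d : Cell} {i j : ℕ}, IsDir d → (∀ t, t < 5 → t ≠ i → t ≠ j → wn a d t ∈ B) →
    wn a d i ∉ W → wn a d j ∉ W → NoFour (insert (wn a d i) B) W →
    (wn a d i ∉ B → wn a d j ∉ B → wn a d i ≠ wn a d j →
      Win n (insert (wn a d i) B) (insert (wn a d j) W)) → Win (n + 1) B W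

/-- a white stone anywhere is no five, and the win -/
def WTurn (F : ℕ) (B W : Set Cell) : Prop :=
  ∀ y : Cell, y ∉ B → y ∉ W → ¬ Five (insert y W) ∧ Win F B (insert y W)

end Pool.Agent.Helper225.G
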