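import Pool.Agent.Helper225.GRoot

set_option autoImplicit false

namespace Pool.Agent.Helper225.G

theorem K_mem_lcm1 (ox oy ex ey t : ℤ) (c : Cell) :
    c ∈ blk 0 (lcm1 ox oy ex ey t) ↔ onB c ∧ c = lc (ox, oy) (ex, ey) t := by
  unfold lcm1
  split_ifs with h
  · have hB : onB (lc (ox, oy) (ex, ey) t) := h
    have h1 : (ox + t * ex).toNat + 32 * (oy + t * ey).toNat = ix (lc (ox, oy) (ex, ey) t) := rfl
    rw [h1, blk_cm 0 _ (ix_lt hB), if_pos rfl, (cell_ix _ hB).1, Set.mem_singleton_iff]
    constructor
    · rintro rfl
      exact ⟨hB, rfl⟩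
    · exact fun h => h.2
  · constructor
    · intro h2
      rw [mem_blk] at h2
      simp at h2
    · rintro ⟨h2, rfl⟩
      exact absurd h2 h

theorem K_mem_lmask (ox oy ex ey t0 : ℤ) (n : ℕ) (c : Cell) :
    c ∈ blk 0 (lmask ox oy ex ey t0 n) ↔ onB c ∧ ∃ m < n, c = lc (ox, oy) (ex, ey) (t0 + (m : ℤ)) := by
  induction n with
  | zero =>
    constructor
    · intro h
      have h2 : c ∈ blk 0 0 := h
      rw [mem_blk] at h2
      simp at h2
    · rintro ⟨_, m, hm, _⟩
      omega
  | succ n ih =>
    show c ∈ blk 0 (Nat.lor (lcm1 ox oy ex ey (t0 + n)) (lmask ox oy ex ey t0 n)) ↔ _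
    rw [blk_lor, Set.mem_union, ih, K_mem_lcm1]
    constructor
    · rintro (⟨h1, h2⟩ | ⟨h1, m, hm, h2⟩)
      · exact ⟨h1, n, by omega, h2⟩
      · exact ⟨h1, m, by omega, h2⟩
    · rintro ⟨h1, m, hm, h2⟩
      rcases Nat.lt_succ_iff_lt_or_eq.1 hm with h3 | h3
      · exact Or.inr ⟨h1, m, h3, h2⟩
      · left
        rw [h3] at h2
        exact ⟨h1, h2⟩

/-- TARGET: the masks of a half line fit (eX is the direction of the strides: e or -e) -/
theorem lineOK_lmask (X XW : ℕ) (ox oy ex ey : ℤ) (hox : 0 ≤ ox) (hox' : ox < 32) (hoy : 0 ≤ oy)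
    (hoy' : oy < 32) (hd : IsDir (ex, ey) ∨ IsDir (-ex, -ey)) (hX : X = lmask ox oy ex ey 0 32)
    (eX : Cell)
    (hW : (eX = (ex, ey) ∧ XW = lmask ox oy ex ey (-4) 4) ∨
      (eX = (-ex, -ey) ∧ XW = lmask ox oy ex ey 0 4)) :
    LineOK X (Nat.lor BORD X) X XW eX (ox, oy) (ex, ey) := by
  have hmem : ∀ t : ℤ, 0 ≤ t → onB (lc (ox, oy) (ex, ey) t) → lc (ox, oy) (ex, ey) t ∈ blk 0 X := by
    intro t ht hB
    have h32 : t < 32 := by
      obtain ⟨h1, h2, h3, h4⟩ := hB
      simp only [lc] at h1 h2 h3 h4
      rcases hd with h | h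
      · rcases h with h | h | h | h
        · have e1 := congrArg Prod.fst h
          have e2 := congrArg Prod.snd h
          simp only at e1 e2
          subst e1 e2
          omega
        · have e1 := congrArg Prod.fst h
          have e2 := congrArg Prod.snd h
          simp only at e1 e2
          subst e1 e2
          omega
        · have e1 := congrArg Prod.fst h
          have e2 := congrArg Prod.snd h
          simp only at e1 e2
          subst e1 e2
          omega
        · have e1 := congrArg Prod.fst h
          have e2 := congrArg Prod.snd h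
          simp only at e1 e2
          subst e1 e2
          omega
      · rcases h with h | h | h | h
        · have e1 := congrArg Prod.fst h
          have e2 := congrArg Prod.snd h
          simp only at e1 e2
          have e1' : ex = -1 := by omega
          have e2' : ey = 0 := by omega
          subst e1' e2'
          omega
        · have e1 := congrArg Prod.fst h
          have e2 := congrArg Prod.snd h
          simp only at e1 e2
          have e1' : ex = 0 := by omega
          have e2' : ey = -1 := by omega
          subst e1' e2'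
          omega
        · have e1 := congrArg Prod.fst h
          have e2 := congrArg Prod.snd h
          simp only at e1 e2
          have e1' : ex = -1 := by omega
          have e2' : ey = -1 := by omega
          subst e1' e2'
          omega
        · have e1 := congrArg Prod.fst h
          have e2 := congrArg Prod.snd h
          simp only at e1 e2
          have e1' : ex = -1 := by omega
          have e2' : ey = 1 := by omega
          subst e1' e2'
          omega
    rw [hX, K_mem_lmask]
    refine ⟨hB, t.toNat, by omega, ?_⟩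
    rw [Int.toNat_of_nonneg ht, zero_add]
  refine ⟨hd, ?_, ?_, ?_⟩
  · intro t ht hB
    have h1 := hmem t ht hB
    refine ⟨?_, h1⟩
    rw [blk_lor]
    exact Or.inr h1
  · intro c hc
    rw [hX, K_mem_lmask] at hc
    obtain ⟨_, m, _, h⟩ := hc
    exact ⟨0 + (m : ℤ), by omega, h⟩
  · right
    intro s hs hs0 hB
    rcases hW with ⟨h1, h2⟩ | ⟨h1, h2⟩
    · left
      refine ⟨?_, h1⟩
      rw [h2, K_mem_lmask]
      have hB0 := hB 0 (by norm_num)
      rw [Nat.cast_zero, add_zero] at hB0
      refine ⟨hB0, (s + 4).toNat, by omega, ?_⟩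
      rw [Int.toNat_of_nonneg (by omega)]
      congr 1
      ring
    · right
      refine ⟨?_, h1⟩
      rw [h2, K_mem_lmask]
      have hB4 := hB 4 (by norm_num)
      refine ⟨hB4, (s + 4).toNat, by omega, ?_⟩
      rw [Int.toNat_of_nonneg (by omega)]
      congr 1
      ring


end Pool.Agent.Helper225.G
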