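import Pool.Agent.Helper225.GChk

set_option autoImplicit false

namespace Pool.Agent.Helper225.G

noncomputable section

/-- state with black stones (15,15), number j and white stone number k -/
def stI (j k : Nat) : Nat := Nat.lor (Nat.lor (cm 495) (cm j)) (Nat.shiftLeft (cm k) 1088)
def stN (j k l : Nat) : Nat :=
  Nat.lor (Nat.lor (cm 495) (cm j)) (Nat.shiftLeft (Nat.lor (cm k) (cm l)) 1088)
/-- black stones (15,15) and number j -/
def st2 (j : Nat) : Nat := Nat.lor (cm 495) (cm j)
def stII : Nat := Nat.lor (cm 495) (cm 528)

/-- mask of a list of cells -/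
def msk (L : List Nat) : Nat := L.foldr (fun i x => Nat.lor (cm i) x) 0
/-- black stones b and white stones w -/
def stG (b w : List Nat) : Nat := Nat.lor (msk b) (Nat.shiftLeft (msk w) 1088)

/-- certificate for the position with black stones b and white stones w, where the mask FX gives
the cells that may hold a hidden white stone -/
def CertG (FX : Nat) (b w : List Nat) : Prop :=
  ∃ s, runT (fun _ => 1) FX 0 BORD 0 0 1 s (stG b w) = true

/-- the same for two hidden white stones of a half line -/
def CertK (X XW sX : Nat) (b w : List Nat) : Prop :=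
  ∃ s, runT (fun _ => 1) X 0 (Nat.lor BORD X) X XW sX s (stG b w) = true

/-- table of positions -/
def tb (L : List (List Nat × List Nat)) : Nat → Nat :=
  List.rec (motive := fun _ => Nat → Nat) (fun _ => 1)
    (fun a _ ih i => Nat.rec (motive := fun _ => Nat) (stG a.1 a.2) (fun n _ => ih n) i) L

/-- certificate for the position with black stones b and white stones w, which refers to the
positions of the table L -/
def CertP (L : List (List Nat × List Nat)) (b w : List Nat) : Prop :=
  ∃ s, runT (tb L) 0 0 BORD 0 0 1 s (stG b w) = true

/-- mask of the cell number t of the line through (ox, oy), 0 if off the board -/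
def lcm1 (ox oy ex ey t : Int) : Nat :=
  if 0 ≤ ox + t * ex ∧ ox + t * ex < 32 ∧ 0 ≤ oy + t * ey ∧ oy + t * ey < 32 then
    cm ((ox + t * ex).toNat + 32 * (oy + t * ey).toNat) else 0

/-- union of the masks of the cells t0, ..., t0 + n - 1 -/
def lmask (ox oy ex ey t0 : Int) : Nat → Nat
  | 0 => 0
  | n + 1 => Nat.lor (lcm1 ox oy ex ey (t0 + n)) (lmask ox oy ex ey t0 n)

end

end Pool.Agent.Helper225.G
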