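import Pool.Agent.Helper225.GHS

set_option autoImplicit false

namespace Pool.Agent.Helper225.G

lemma gF_five {g : Cell → Cell} (hg : ∀ d, IsDir d → ∃ d', IsDir d' ∧
    ((∀ (a : Cell) (t : ℤ), g (a.1 + t * d.1, a.2 + t * d.2) =
      ((g a).1 + t * d'.1, (g a).2 + t * d'.2)) ∨
    (∀ (a : Cell) (t : ℤ), g (a.1 + t * d.1, a.2 + t * d.2) =
      ((g a).1 - t * d'.1, (g a).2 - t * d'.2)))) (S : Set Cell) (h : Five S) :
    Five (g '' S) := by
  obtain ⟨a, d, hd, ha⟩ := h
  obtain ⟨d', hd', h1 | h1⟩ := hg d hd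
  · refine ⟨g a, d', hd', fun t ht0 ht5 => ⟨_, ha t ht0 ht5, h1 a t⟩⟩
  · refine ⟨((g a).1 - 4 * d'.1, (g a).2 - 4 * d'.2), d', hd', fun t ht0 ht5 =>
      ⟨_, ha (4 - t) (by omega) (by omega), ?_⟩⟩
    rw [h1 a (4 - t)]
    ext <;> simp only <;> ring

/-- TARGET 1: a bijection of the board that maps fives to fives, and its inverse too,
preserves the game -/
theorem win_map (f : Cell ≃ Cell) (hf : ∀ S : Set Cell, Five S → Five (f '' S))
    (hf' : ∀ S : Set Cell, Five S → Five (f.symm '' S)) {n : ℕ} {B W : Set Cell}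
    (h : Win n B W) : Win n (f '' B) (f '' W) := by
  induction n generalizing B W with
  | zero => exact h
  | succ n ih =>
    obtain ⟨x, hxB, hxW, h⟩ := h
    refine ⟨f x, ?_, ?_, ?_⟩
    · rwa [f.injective.mem_set_image]
    · rwa [f.injective.mem_set_image]
    · rcases h with h | h
      · left
        rw [← Set.image_insert_eq]
        exact hf _ h
      · right
        intro y hy hyW
        obtain ⟨z, rfl⟩ := f.surjective y
        rw [← Set.image_insert_eq, f.injective.mem_set_image] at hy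
        rw [f.injective.mem_set_image] at hyW
        obtain ⟨h1, h2⟩ := h z hy hyW
        rw [← Set.image_insert_eq, ← Set.image_insert_eq]
        refine ⟨fun h3 => h1 ?_, ih h2⟩
        have h4 := hf' _ h3
        rwa [← Set.image_comp, Equiv.symm_comp_self, Set.image_id] at h4

lemma gF_map {g g' : Cell → Cell} (hgg' : ∀ x, g' (g x) = x) (hg'g : ∀ x, g (g' x) = x)
    (h1 : ∀ S : Set Cell, Five S → Five (g '' S)) (h2 : ∀ S : Set Cell, Five S → Five (g' '' S))
    {n : ℕ} {B W : Set Cell} (h : Win n B W) : Win n (g '' B) (g '' W) :=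
  win_map ⟨g, g', hgg', hg'g⟩ h1 h2 h

/-- TARGET 2: reflection in the main diagonal -/
theorem win_swap {n : ℕ} {B W : Set Cell} (h : Win n B W) :
    Win n ((fun c : Cell => ((c.2, c.1) : Cell)) '' B) ((fun c : Cell => ((c.2, c.1) : Cell)) '' W) := by
  have h5 : ∀ S : Set Cell, Five S → Five ((fun c : Cell => ((c.2, c.1) : Cell)) '' S) := by
    refine gF_five fun d hd => ?_
    rcases hd with rfl | rfl | rfl | rfl
    · exact ⟨(0, 1), Or.inr (Or.inl rfl), Or.inl fun a t => rfl⟩
    · exact ⟨(1, 0), Or.inl rfl, Or.inl fun a t => rfl⟩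
    · exact ⟨(1, 1), Or.inr (Or.inr (Or.inl rfl)), Or.inl fun a t => rfl⟩
    · refine ⟨(1, -1), Or.inr (Or.inr (Or.inr rfl)), Or.inr fun a t => ?_⟩
      ext <;> simp only <;> ring
  exact gF_map (g' := fun c : Cell => ((c.2, c.1) : Cell)) (fun _ => rfl) (fun _ => rfl) h5 h5 h

/-- TARGET 3: reflection of the first coordinate -/
theorem win_neg (e : ℤ) {n : ℕ} {B W : Set Cell} (h : Win n B W) :
    Win n ((fun c : Cell => ((e - c.1, c.2) : Cell)) '' B)
      ((fun c : Cell => ((e - c.1, c.2) : Cell)) '' W) := by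
  have h5 : ∀ S : Set Cell, Five S → Five ((fun c : Cell => ((e - c.1, c.2) : Cell)) '' S) := by
    refine gF_five fun d hd => ?_
    rcases hd with rfl | rfl | rfl | rfl
    · refine ⟨(1, 0), Or.inl rfl, Or.inr fun a t => ?_⟩
      ext <;> simp only <;> ring
    · refine ⟨(0, 1), Or.inr (Or.inl rfl), Or.inl fun a t => ?_⟩
      ext <;> simp only <;> ring
    · refine ⟨(1, -1), Or.inr (Or.inr (Or.inr rfl)), Or.inr fun a t => ?_⟩
      ext <;> simp only <;> ring
    · refine ⟨(1, 1), Or.inr (Or.inr (Or.inl rfl)), Or.inr fun a t => ?_⟩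
      ext <;> simp only <;> ring
  refine gF_map (g' := fun c : Cell => ((e - c.1, c.2) : Cell)) (fun x => ?_) (fun x => ?_) h5 h5 h
  · ext <;> simp
  · ext <;> simp

/-- TARGET 4: point reflection -/
theorem win_point (e f : ℤ) {n : ℕ} {B W : Set Cell} (h : Win n B W) :
    Win n ((fun c : Cell => ((e - c.1, f - c.2) : Cell)) '' B)
      ((fun c : Cell => ((e - c.1, f - c.2) : Cell)) '' W) := by
  have h5 : ∀ S : Set Cell, Five S →
      Five ((fun c : Cell => ((e - c.1, f - c.2) : Cell)) '' S) := by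
    refine gF_five fun d hd => ⟨d, hd, Or.inr fun a t => ?_⟩
    ext <;> simp only <;> ring
  refine gF_map (g' := fun c : Cell => ((e - c.1, f - c.2) : Cell)) (fun x => ?_) (fun x => ?_)
    h5 h5 h
  · ext <;> simp
  · ext <;> simp

/-- TARGET 5: first move. If for every white reply in the octant there is a good second black
move, Black wins (bounded). -/
theorem root_sym (N : ℕ)
    (h : ∀ u v : ℤ, 0 ≤ v → v ≤ u → (u, v) ≠ (0, 0) →
      Win N {((15, 15) : Cell)} {((15 + u, 15 + v) : Cell)}) :
    Win (N + 1) ∅ ∅ := by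
  have W2 : ∀ u v : ℤ, 0 ≤ v → 0 ≤ u → (u, v) ≠ (0, 0) →
      Win N {((15, 15) : Cell)} {((15 + u, 15 + v) : Cell)} := by
    intro u v hv hu huv
    rcases le_total v u with h1 | h1
    · exact h u v hv h1 huv
    · have := win_swap (h v u hu h1 (fun h2 => huv (by
        simp only [Prod.mk.injEq] at h2 ⊢
        exact ⟨h2.2, h2.1⟩)))
      simpa only [Set.image_singleton] using this
  have W3 : ∀ u v : ℤ, 0 ≤ v → (u, v) ≠ (0, 0) →
      Win N {((15, 15) : Cell)} {((15 + u, 15 + v) : Cell)} := by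
    intro u v hv huv
    rcases le_total 0 u with h1 | h1
    · exact W2 u v hv h1 huv
    · have := win_neg 30 (W2 (-u) v hv (by omega) (fun h2 => huv (by
        simp only [Prod.mk.injEq] at h2 ⊢
        exact ⟨by omega, h2.2⟩)))
      simp only [Set.image_singleton] at this
      have e1 : (30 - 15 : ℤ) = 15 := by norm_num
      have e2 : 30 - (15 + -u) = 15 + u := by ring
      rwa [e1, e2] at this
  have W4 : ∀ u v : ℤ, (u, v) ≠ (0, 0) →
      Win N {((15, 15) : Cell)} {((15 + u, 15 + v) : Cell)} := by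
    intro u v huv
    rcases le_total 0 v with h1 | h1
    · exact W3 u v h1 huv
    · have := win_point 30 30 (W3 (-u) (-v) (by omega) (fun h2 => huv (by
        simp only [Prod.mk.injEq] at h2 ⊢
        omega)))
      simp only [Set.image_singleton] at this
      have e1 : (30 - 15 : ℤ) = 15 := by norm_num
      have e2 : 30 - (15 + -u) = 15 + u := by ring
      have e3 : 30 - (15 + -v) = 15 + v := by ring
      rwa [e1, e2, e3] at this
  refine ⟨(15, 15), fun h => h, fun h => h, Or.inr fun y hy _ => ⟨?_, ?_⟩⟩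
  · rintro ⟨a, d, hd, ha⟩
    have h0 := ha 0 (by norm_num) (by norm_num)
    have h1 := ha 1 (by norm_num) (by norm_num)
    simp only [Set.mem_insert_iff, Set.mem_empty_iff_false, or_false] at h0 h1
    rw [← h0] at h1
    simp only [Prod.mk.injEq] at h1
    rcases hd with rfl | rfl | rfl | rfl <;> simp at h1
  · have hy' : y ≠ (15, 15) := fun h => hy (by rw [h]; exact Set.mem_insert _ _)
    have h1 := W4 (y.1 - 15) (y.2 - 15) (fun h2 => hy' (by
      simp only [Prod.mk.injEq] at h2
      ext
      · simp only; omega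
      · simp only; omega))
    have e1 : ((15 + (y.1 - 15), 15 + (y.2 - 15)) : Cell) = y := by
      ext <;> simp
    rw [e1] at h1
    simpa using h1

end Pool.Agent.Helper225.G
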