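import Pool.Agent.Helper225.GApp
import Pool.Agent.Helper225.GSym
import Pool.Agent.Helper225.GSt

set_option autoImplicit false

namespace Pool.Agent.Helper225.G

theorem blk_stI {j k : ℕ} (hj : j < 1024) (hk : k < 1024) :
    blk 0 (stI j k) = {cell 495, cell j} ∧ blk 1 (stI j k) = {cell k} := by
  unfold stI
  constructor
  · rw [blk_lor, blk_lor, blk_cm 0 495 (by norm_num), blk_cm 0 j hj, bitFacts.shl1z]
    simp only [if_true]
    ext c; simp [or_comm]
  · rw [blk_lor, blk_lor, blk_cm 1 495 (by norm_num), blk_cm 1 j hj, bitFacts.shl1 0, blk_cm 0 k hk]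
    simp

theorem blk_stN {j k l : ℕ} (hj : j < 1024) (hk : k < 1024) (hl : l < 1024) :
    blk 0 (stN j k l) = {cell 495, cell j} ∧ blk 1 (stN j k l) = {cell k, cell l} := by
  unfold stN
  constructor
  · rw [blk_lor, blk_lor, blk_cm 0 495 (by norm_num), blk_cm 0 j hj, bitFacts.shl1z]
    simp only [if_true]
    ext c; simp [or_comm]
  · rw [blk_lor, blk_lor, blk_cm 1 495 (by norm_num), blk_cm 1 j hj, bitFacts.shl1 0, blk_lor,
      blk_cm 0 k hk, blk_cm 0 l hl]
    ext c; simp [or_comm]

theorem blk_stII :
    blk 0 stII = {cell 495, cell 528} ∧ blk 1 stII = ∅ := by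
  unfold stII
  constructor
  · rw [blk_lor, blk_cm 0 495 (by norm_num), blk_cm 0 528 (by norm_num)]
    simp only [if_true]
    ext c; simp [or_comm]
  · rw [blk_lor, blk_cm 1 495 (by norm_num), blk_cm 1 528 (by norm_num)]
    simp

def CertH (j k FX : ℕ) : Prop := ∃ s, runT (fun _ => 1) FX 0 BORD 0 0 1 s (stI j k) = true
def CertN (j k l : ℕ) : Prop := ∃ s, runT (fun _ => 1) 0 0 BORD 0 0 1 s (stN j k l) = true
def CertF (FX : ℕ) : Prop := ∃ s, runT (fun _ => 1) FX 0 BORD 0 0 1 s stII = true

theorem simpleOK_empty (FX : ℕ) : SimpleOK FX 0 ∅ where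
  fin := Set.finite_empty
  one := fun a d _ => by
    have : cnt a d ∅ = 0 := S9.cnt_zero' (fun t _ h => h)
    omega
  noY := fun a d _ h => by
    obtain ⟨t, _, ht⟩ := h
    rw [bitFacts.zero] at ht
    exact absurd ht (by simp)
  inF := fun c hc => absurd hc (by simp)

theorem simpleOK_one {FX : ℕ} {y : Cell} (h : onB y → y ∈ blk 0 FX) : SimpleOK FX 0 {y} where
  fin := Set.finite_singleton _
  one := fun a d hd => S9.cnt_sub hd Set.subsingleton_singleton
  noY := fun a d _ h => by
    obtain ⟨t, _, ht⟩ := h
    rw [bitFacts.zero] at ht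
    exact absurd ht (by simp)
  inF := fun c hc hb => by
    rw [Set.mem_singleton_iff] at hc
    rw [hc] at hb ⊢
    exact h hb

theorem simpleOK_two {FX : ℕ} {y z : Cell} (h : onB y → y ∈ blk 0 FX) (h' : onB z → z ∈ blk 0 FX)
    (hc : ∀ a d, IsDir d → cnt a d {y, z} ≤ 1) : SimpleOK FX 0 {y, z} where
  fin := Set.toFinite _
  one := hc
  noY := fun a d _ h => by
    obtain ⟨t, _, ht⟩ := h
    rw [bitFacts.zero] at ht
    exact absurd ht (by simp)
  inF := fun c hc hb => by
    rcases hc with hc | hc
    · rw [hc] at hb ⊢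
      exact h hb
    · rw [Set.mem_singleton_iff] at hc
      rw [hc] at hb ⊢
      exact h' hb

/-- a set with at most two elements contains no five -/
theorem not_five_two (y z : Cell) : ¬ Five {y, z} := by
  rintro ⟨a, d, hd, h⟩
  have h0 := h 0 (by norm_num) (by norm_num)
  have h1 := h 1 (by norm_num) (by norm_num)
  have h2 := h 2 (by norm_num) (by norm_num)
  have e : ∀ t t' : ℤ, (a.1 + t * d.1, a.2 + t * d.2) = (a.1 + t' * d.1, a.2 + t' * d.2) →
      t = t' := by
    intro t t' h
    have h1 := congrArg Prod.fst h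
    have h2 := congrArg Prod.snd h
    rcases hd with hd | hd | hd | hd <;> rw [hd] at h1 h2 <;> simp at h1 h2 <;> omega
  rw [Set.mem_insert_iff, Set.mem_singleton_iff] at h0 h1 h2
  rcases h0 with h0 | h0 <;> rcases h1 with h1 | h1 <;> rcases h2 with h2 | h2
  · exact absurd (e 0 1 (h0.trans h1.symm)) (by norm_num)
  · exact absurd (e 0 1 (h0.trans h1.symm)) (by norm_num)
  · exact absurd (e 0 2 (h0.trans h2.symm)) (by norm_num)
  · exact absurd (e 1 2 (h1.trans h2.symm)) (by norm_num)
  · exact absurd (e 1 2 (h1.trans h2.symm)) (by norm_num)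
  · exact absurd (e 0 2 (h0.trans h2.symm)) (by norm_num)
  · exact absurd (e 0 1 (h0.trans h1.symm)) (by norm_num)
  · exact absurd (e 0 1 (h0.trans h1.symm)) (by norm_num)

/-- union of all covered cells -/
def lorAll (LH LN : List ℕ) (j k : ℕ) : ℕ :=
  List.foldr Nat.lor (List.foldr (fun i x => Nat.lor (cm i) x)
    (Nat.lor (cm 495) (Nat.lor (cm j) (cm k))) LN) LH

def F0 : ℕ := Nat.shiftLeft (Nat.sub (Nat.shiftLeft 1 1024) 1) 64

def covB (LH LN : List ℕ) (j k : ℕ) : Bool :=
  Nat.beq (Nat.land (lorAll LH LN j k) F0) F0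

theorem tb_F0 {i : ℕ} (h : i < 1024) : F0.testBit (64 + i) = true := by
  unfold F0
  rw [tb_shl, tb_ones]
  simp
  omega

theorem covB_sound {LH LN : List ℕ} {j k : ℕ} (h : covB LH LN j k = true) (i : ℕ) (hi : i < 1024) :
    i = 495 ∨ i = j ∨ i = k ∨ i ∈ LN ∨ ∃ FX ∈ LH, FX.testBit (64 + i) = true := by
  have h1 := Nat.eq_of_beq_eq_true h
  have h2 : (Nat.land (lorAll LH LN j k) F0).testBit (64 + i) = true := by
    rw [h1]; exact tb_F0 hi
  rw [tb_land, Bool.and_eq_true] at h2
  have h3 := h2.1
  unfold lorAll at h3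
  induction LH with
  | nil =>
    simp only [List.foldr_nil] at h3
    clear h1 h2 h
    induction LN with
    | nil =>
      simp only [List.foldr_nil] at h3
      rw [tb_lor, tb_lor, tb_cm, tb_cm, tb_cm] at h3
      simp only [Bool.or_eq_true, decide_eq_true_eq] at h3
      omega
    | cons l LN ih =>
      simp only [List.foldr_cons] at h3
      rw [tb_lor, Bool.or_eq_true] at h3
      rcases h3 with h3 | h3
      · rw [tb_cm, decide_eq_true_eq] at h3
        right; right; right; left
        have : i = l := by omega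
        rw [this]; exact List.mem_cons_self
      · rcases ih h3 with h | h | h | h | ⟨FX, h, _⟩
        · exact Or.inl h
        · exact Or.inr (Or.inl h)
        · exact Or.inr (Or.inr (Or.inl h))
        · exact Or.inr (Or.inr (Or.inr (Or.inl (List.mem_cons_of_mem _ h))))
        · exact absurd h (by simp)
  | cons FX LH ih =>
    simp only [List.foldr_cons] at h3
    rw [tb_lor, Bool.or_eq_true] at h3
    rcases h3 with h3 | h3
    · exact Or.inr (Or.inr (Or.inr (Or.inr ⟨FX, List.mem_cons_self, h3⟩)))
    · have h4 : ∀ (A : ℕ), A.testBit (64 + i) = true → True := fun _ _ => trivial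
      clear h1 h2 h h4
      -- reprove from the smaller list
      have key : i = 495 ∨ i = j ∨ i = k ∨ i ∈ LN ∨ ∃ FX ∈ LH, FX.testBit (64 + i) = true := by
        clear ih
        induction LH with
        | nil =>
          simp only [List.foldr_nil] at h3
          induction LN with
          | nil =>
            simp only [List.foldr_nil] at h3
            rw [tb_lor, tb_lor, tb_cm, tb_cm, tb_cm] at h3
            simp only [Bool.or_eq_true, decide_eq_true_eq] at h3
            omega
          | cons l LN ih =>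
            simp only [List.foldr_cons] at h3
            rw [tb_lor, Bool.or_eq_true] at h3
            rcases h3 with h3 | h3
            · rw [tb_cm, decide_eq_true_eq] at h3
              right; right; right; left
              have : i = l := by omega
              rw [this]; exact List.mem_cons_self
            · rcases ih h3 with h | h | h | h | ⟨FX, h, _⟩
              · exact Or.inl h
              · exact Or.inr (Or.inl h)
              · exact Or.inr (Or.inr (Or.inl h))
              · exact Or.inr (Or.inr (Or.inr (Or.inl (List.mem_cons_of_mem _ h))))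
              · exact absurd h (by simp)
        | cons FX' LH ih2 =>
          simp only [List.foldr_cons] at h3
          rw [tb_lor, Bool.or_eq_true] at h3
          rcases h3 with h3 | h3
          · exact Or.inr (Or.inr (Or.inr (Or.inr ⟨FX', List.mem_cons_self, h3⟩)))
          · rcases ih2 h3 with h | h | h | h | ⟨G, h, hG⟩
            · exact Or.inl h
            · exact Or.inr (Or.inl h)
            · exact Or.inr (Or.inr (Or.inl h))
            · exact Or.inr (Or.inr (Or.inr (Or.inl h)))
            · exact Or.inr (Or.inr (Or.inr (Or.inr ⟨G, List.mem_cons_of_mem _ h, hG⟩)))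
      rcases key with h | h | h | h | ⟨G, h, hG⟩
      · exact Or.inl h
      · exact Or.inr (Or.inl h)
      · exact Or.inr (Or.inr (Or.inl h))
      · exact Or.inr (Or.inr (Or.inr (Or.inl h)))
      · exact Or.inr (Or.inr (Or.inr (Or.inr ⟨G, List.mem_cons_of_mem _ h, hG⟩)))

theorem cell_495 : cell 495 = (15, 15) := by decide

/-- one class of the first move of Second -/
theorem class_win (j k : ℕ) (hj : j < 1024) (hk : k < 1024) (h1 : j ≠ 495) (h2 : k ≠ 495)
    (h3 : j ≠ k) (LH LN : List ℕ) (hne : LH ≠ []) (hH : ∀ FX ∈ LH, CertH j k FX)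
    (hN : ∀ l ∈ LN, CertN j k l) (hLN : ∀ l ∈ LN, l < 1024) (hc : covB LH LN j k = true) :
    Win 517 {(15, 15)} {cell k} := by
  have hjk : cell j ≠ cell k := fun h => h3 ((cell_inj hj hk).1 h)
  have hj0 : cell j ≠ cell 495 := fun h => h1 ((cell_inj hj (by norm_num)).1 h)
  have hk0 : cell k ≠ cell 495 := fun h => h2 ((cell_inj hk (by norm_num)).1 h)
  rw [← cell_495]
  refine ⟨cell j, ?_, ?_, Or.inr ?_⟩
  · simpa using hj0
  · simpa using hjk
  intro y hyB hyW
  have hy0 : y ≠ cell 495 := fun h => hyB (by rw [h]; simp)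
  have hyj : y ≠ cell j := fun h => hyB (by rw [h]; simp)
  have hyk : y ≠ cell k := fun h => hyW (by rw [h]; simp)
  refine ⟨not_five_two y (cell k), ?_⟩
  have eB : insert (cell j) {cell 495} = ({cell 495, cell j} : Set Cell) := Set.pair_comm _ _
  rw [eB]
  obtain ⟨b0, b1⟩ := blk_stI hj hk
  have useH : ∀ FX ∈ LH, (onB y → y ∈ blk 0 FX) → Win 516 {cell 495, cell j} (insert y {cell k}) := by
    intro FX hFX hy
    obtain ⟨s, hs⟩ := hH FX hFX
    have := simple_win hs {y} (simpleOK_one hy) (by
      rw [b0, b1, Set.disjoint_left]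
      intro c hc hc'
      rw [Set.mem_insert_iff, Set.mem_singleton_iff] at hc
      rw [Set.mem_union, Set.mem_singleton_iff, Set.mem_singleton_iff] at hc'
      rcases hc with hc | hc <;> rcases hc' with hc' | hc'
      · exact hk0 (hc'.symm.trans hc)
      · exact hy0 (hc'.symm.trans hc)
      · exact hjk (hc.symm.trans hc')
      · exact hyj (hc'.symm.trans hc))
    rw [b0, b1] at this
    have e : ({cell k} ∪ {y} : Set Cell) = insert y {cell k} := by
      ext c; simp [or_comm]
    rwa [e] at this
  by_cases hon : onB y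
  · obtain ⟨hcell, hlt⟩ := cell_ix y hon
    rcases covB_sound hc (ix y) hlt with h | h | h | h | ⟨FX, hFX, h⟩
    · exact absurd (hcell.symm.trans (by rw [h])) hy0
    · exact absurd (hcell.symm.trans (by rw [h])) hyj
    · exact absurd (hcell.symm.trans (by rw [h])) hyk
    · obtain ⟨s, hs⟩ := hN _ h
      obtain ⟨n0, n1⟩ := blk_stN hj hk hlt
      have := simple_win hs ∅ (simpleOK_empty 0) (by
        rw [n0, n1, hcell, Set.disjoint_left]
        intro c hc hc'
        rw [Set.mem_insert_iff, Set.mem_singleton_iff] at hc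
        rw [Set.union_empty, Set.mem_insert_iff, Set.mem_singleton_iff] at hc'
        rcases hc with hc | hc <;> rcases hc' with hc' | hc'
        · exact hk0 (hc'.symm.trans hc)
        · exact hy0 (hc'.symm.trans hc)
        · exact hjk (hc.symm.trans hc')
        · exact hyj (hc'.symm.trans hc))
      rw [n0, n1, hcell] at this
      have e : ({cell k, y} ∪ ∅ : Set Cell) = insert y {cell k} := by
        ext c; simp [or_comm]
      rwa [e] at this
    · exact useH FX hFX (fun _ => ⟨hon, by simpa using h⟩)
  · obtain ⟨FX, L', rfl⟩ := List.exists_cons_of_ne_nil hne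
    exact useH FX List.mem_cons_self (fun h => absurd h hon)

end Pool.Agent.Helper225.G
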