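import Pool.Agent.Helper225.GBase
import Pool.Agent.Helper225.GChk

set_option autoImplicit false

namespace Pool.Agent.Helper225.G

/-- cell number t of the window starting at a in direction d -/
def wn (a d : Cell) (t : ℕ) : Cell := (a.1 + (t : ℤ) * d.1, a.2 + (t : ℤ) * d.2)

open Classical in
/-- number of cells of the window that lie in S -/
noncomputable def cnt (a d : Cell) (S : Set Cell) : ℕ :=
  ((Finset.range 5).filter (fun t => wn a d t ∈ S)).card

/-- the window meets S -/
def Meets (a d : Cell) (S : Set Cell) : Prop := ∃ t, t < 5 ∧ wn a d t ∈ S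

/-- no window without a black stone has four white stones -/
def NoFour (B W : Set Cell) : Prop := ∀ a d, IsDir d → ¬ Meets a d B → cnt a d W ≤ 3

open Classical in
noncomputable def ind (p : Prop) : ℕ := if p then 1 else 0

/-- cells of the board -/
def onB (c : Cell) : Prop := 0 ≤ c.1 ∧ c.1 < 32 ∧ 0 ≤ c.2 ∧ c.2 < 32

/-- number of a cell of the board -/
def ix (c : Cell) : ℕ := c.1.toNat + 32 * c.2.toNat

/-- the board cell with number i -/
def cell (i : ℕ) : Cell := (((i % 32 : ℕ) : ℤ), ((i / 32 : ℕ) : ℤ))

/-- cells in block j of the mask X -/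
def blk (j X : ℕ) : Set Cell := {c | onB c ∧ X.testBit (1088 * j + 64 + ix c) = true}

/-- the recorded position E (blocks: black, white, first unknown region, second unknown region)
has no window without black stone whose number of white stones, plus one if it may contain a
hidden stone, plus one for each unknown region met, exceeds three -/
def EntryOK (FX Y E : ℕ) : Prop :=
  ∀ a d, IsDir d → (∀ t < 5, onB (wn a d t)) → ¬ Meets a d (blk 0 E) →
    cnt a d (blk 1 E) + ind (Meets a d (blk 0 FX) ∧ ¬ Meets a d (blk 0 Y)) +
      ind (Meets a d (blk 2 E)) + ind (Meets a d (blk 3 E)) ≤ 3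

/-- all recorded positions are good -/
def GoodA (FX Y acc : ℕ) : Prop := ∀ i, EntryOK FX Y (acc >>> (4352 * i))

end Pool.Agent.Helper225.G
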