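import Pool.Agent.Helper225.GHS
import Pool.Agent.Helper225.GGad

set_option autoImplicit false

namespace Pool.Agent.Helper225.G

/-- every window (first cell in XW, direction e) with a white stone has a black stone -/
def XOK (XW : ℕ) (e : Cell) (E : ℕ) : Prop :=
  ∀ p, p ∈ blk 0 XW → (∀ k < 5, onB (wn p e k)) → (∃ k < 5, wn p e k ∈ blk 1 E) →
    ∃ k < 5, wn p e k ∈ blk 0 E

/-- directions of the strides 1, 32, 33, 31 -/
def StrideOf (e : Cell) (sX : ℕ) : Prop :=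
  (e = (1, 0) ∧ sX = 1) ∨ (e = (0, 1) ∧ sX = 32) ∨ (e = (1, 1) ∧ sX = 33) ∨ (e = (-1, 1) ∧ sX = 31)

/-- cells at distance at least 4 from the border of the board -/
def Inner : Set Cell := {c | 4 ≤ c.1 ∧ c.1 ≤ 27 ∧ 4 ≤ c.2 ∧ c.2 ≤ 27}

/-- the visible cells -/
def visOf (BAD : ℕ) : Set Cell := {c | onB c ∧ c ∉ blk 0 BAD}

/-- hidden stones no two of which share a window, and which share no window with cells of Y -/
structure SimpleOK (FX Y : ℕ) (H : Set Cell) : Prop where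
  fin : H.Finite
  one : ∀ a d, IsDir d → cnt a d H ≤ 1
  noY : ∀ a d, IsDir d → Meets a d (blk 0 Y) → ¬ Meets a d H
  inF : ∀ c ∈ H, onB c → c ∈ blk 0 FX

/-- cell number t of the line through o with direction e -/
def lc (o e : Cell) (t : ℤ) : Cell := (o.1 + t * e.1, o.2 + t * e.2)

/-- the masks fit to the half line t ≥ 0 -/
structure LineOK (FX BAD XXm XW : ℕ) (eX o e : Cell) : Prop where
  dir : IsDir e ∨ IsDir (-e.1, -e.2)
  bad : ∀ t : ℤ, 0 ≤ t → onB (lc o e t) → lc o e t ∈ blk 0 BAD ∧ lc o e t ∈ blk 0 FX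
  xx : ∀ c ∈ blk 0 XXm, ∃ t : ℤ, 0 ≤ t ∧ c = lc o e t
  xw : blk 0 XXm = ∅ ∨ ∀ s : ℤ, -4 ≤ s → s < 0 → (∀ k : ℕ, k < 5 → onB (lc o e (s + k))) →
    (lc o e s ∈ blk 0 XW ∧ eX = e) ∨ (lc o e (s + 4) ∈ blk 0 XW ∧ eX = (-e.1, -e.2))

/-- stones of the half line t ≥ g only -/
def OnLine (o e : Cell) (g : ℤ) (S : Set Cell) : Prop := ∀ c ∈ S, ∃ t : ℤ, g ≤ t ∧ c = lc o e t

/-- trace on the line, origin at g -/
def tr (o e : Cell) (g : ℤ) (S : Set Cell) : Set ℤ := {t | lc o e (t + g) ∈ S}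

end Pool.Agent.Helper225.G
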