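import Pool.Agent.Helper225.GHS

set_option autoImplicit false

namespace Pool.Agent.Helper225.G

namespace W8

theorem dir_ne {d : Cell} (h : IsDir d) : d.1 ≠ 0 ∨ d.2 ≠ 0 := by
  rcases h with h | h | h | h <;> subst h <;> simp

theorem wn_inj {a d : Cell} (h : IsDir d) {s t : ℕ} (hst : wn a d s = wn a d t) : s = t := by
  have h1 := congrArg Prod.fst hst
  have h2 := congrArg Prod.snd hst
  simp only [wn] at h1 h2
  rcases dir_ne h with hd | hd
  · have h3 : (s : ℤ) * d.1 = (t : ℤ) * d.1 := by linarith
    have := mul_right_cancel₀ hd h3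
    exact_mod_cast this
  · have h3 : (s : ℤ) * d.2 = (t : ℤ) * d.2 := by linarith
    have := mul_right_cancel₀ hd h3
    exact_mod_cast this

theorem five_of_wn {S : Set Cell} {a d : Cell} (hd : IsDir d) (h : ∀ t : ℕ, t < 5 → wn a d t ∈ S) :
    Five S := by
  refine ⟨a, d, hd, ?_⟩
  intro t h0 h5
  obtain ⟨m, rfl⟩ := Int.eq_ofNat_of_zero_le h0
  exact h m (by exact_mod_cast h5)

theorem exists_free {B W : Set Cell} (hB : B.Finite) (hW : W.Finite) :
    ∃ x : Cell, x ∉ B ∧ x ∉ W := by
  obtain ⟨x, hx⟩ := (hB.union hW).infinite_compl.nonempty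
  exact ⟨x, fun h => hx (Or.inl h), fun h => hx (Or.inr h)⟩

/-- TARGET 1 -/
theorem win_mono_n' {n m : ℕ} (hnm : n ≤ m) {B W : Set Cell} (h : Win n B W) : Win m B W := by
  induction n generalizing m B W with
  | zero => exact absurd h (by simp [Win])
  | succ n ih =>
    obtain ⟨m', rfl⟩ : ∃ m', m = m' + 1 := ⟨m - 1, by omega⟩
    obtain ⟨x, hxB, hxW, hx⟩ := h
    refine ⟨x, hxB, hxW, ?_⟩
    rcases hx with hx | hx
    · exact Or.inl hx
    · right
      intro y hy hyW
      obtain ⟨h1, h2⟩ := hx y hy hyW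
      exact ⟨h1, ih (by omega) h2⟩

/-- TARGET 2: white cannot complete a five at once -/
theorem notFive_of_noFour {B W : Set Cell} (h : NoFour B W) (hd : Disjoint B W) {y : Cell}
    (hy : y ∉ B) : ¬ Five (insert y W) := by
  rintro ⟨a, d, hdir, hall⟩
  have hall' : ∀ t : ℕ, t < 5 → wn a d t ∈ insert y W := by
    intro t ht
    exact hall t (by positivity) (by exact_mod_cast ht)
  have hnm : ¬ Meets a d B := by
    rintro ⟨t, ht, htB⟩
    rcases hall' t ht with h1 | h1
    · rw [h1] at htB; exact hy htB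
    · exact Set.disjoint_left.mp hd htB h1
  have hc := h a d hdir hnm
  classical
  have h4 : 4 ≤ cnt a d W := by
    unfold cnt
    by_cases hex : ∃ t0, t0 < 5 ∧ wn a d t0 = y
    · obtain ⟨t0, ht0, ht0y⟩ := hex
      have hsub : (Finset.range 5).erase t0 ⊆
          (Finset.range 5).filter (fun t => wn a d t ∈ W) := by
        intro t ht
        rw [Finset.mem_erase, Finset.mem_range] at ht
        rw [Finset.mem_filter, Finset.mem_range]
        refine ⟨ht.2, ?_⟩
        rcases hall' t ht.2 with h1 | h1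
        · exact absurd (wn_inj hdir (h1.trans ht0y.symm)) ht.1
        · exact h1
      have hcard := Finset.card_le_card hsub
      rw [Finset.card_erase_of_mem (Finset.mem_range.mpr ht0), Finset.card_range] at hcard
      convert hcard
    · have hsub : (Finset.range 5) ⊆
          (Finset.range 5).filter (fun t => wn a d t ∈ W) := by
        intro t ht
        rw [Finset.mem_filter]
        refine ⟨ht, ?_⟩
        rw [Finset.mem_range] at ht
        rcases hall' t ht with h1 | h1
        · exact absurd ⟨t, ht, h1⟩ hex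
        · exact h1
      have hcard := Finset.card_le_card hsub
      rw [Finset.card_range] at hcard
      have : 4 ≤ ((Finset.range 5).filter (fun t => wn a d t ∈ W)).card := by omega
      convert this
  omega

/-- TARGET 3 -/
theorem noFour_mono {B B' W W' : Set Cell} (h : NoFour B W) (hB : B ⊆ B') (hW : W' ⊆ W) :
    NoFour B' W' := by
  intro a d hdir hnm
  have h1 : ¬ Meets a d B := by
    rintro ⟨t, ht, htB⟩
    exact hnm ⟨t, ht, hB htB⟩
  refine le_trans ?_ (h a d hdir h1)
  unfold cnt
  refine Finset.card_le_card ?_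
  intro t ht
  simp only [Finset.mem_filter] at ht ⊢
  exact ⟨ht.1, hW ht.2⟩

/-- TARGET 4: black completes a five -/
theorem five_win {n : ℕ} {B W : Set Cell} (hn : 1 ≤ n) (hBf : B.Finite) (hWf : W.Finite)
    {a d : Cell} {i : ℕ} (hdir : IsDir d)
    (hM : ∀ t, t < 5 → t ≠ i → wn a d t ∈ B) (hb : wn a d i ∉ W) : Win n B W := by
  obtain ⟨m, rfl⟩ : ∃ m, n = m + 1 := ⟨n - 1, by omega⟩
  by_cases hiB : wn a d i ∈ B
  · obtain ⟨x, hxB, hxW⟩ := exists_free hBf hWf
    refine ⟨x, hxB, hxW, Or.inl ?_⟩
    refine five_of_wn hdir (a := a) ?_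
    intro t ht
    by_cases hti : t = i
    · subst hti; exact Or.inr hiB
    · exact Or.inr (hM t ht hti)
  · refine ⟨wn a d i, hiB, hb, Or.inl ?_⟩
    refine five_of_wn hdir (a := a) ?_
    intro t ht
    by_cases hti : t = i
    · subst hti; exact Or.inl rfl
    · exact Or.inr (hM t ht hti)

/-- TARGET 5: black plays a four (cell i), white must answer at cell j -/
theorem step_win {n : ℕ} {B W : Set Cell} (hn : 1 ≤ n) (hBf : B.Finite) (hWf : W.Finite)
    (hdis : Disjoint B W) {a d : Cell} {i j : ℕ} (hdir : IsDir d)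
    (hM : ∀ t, t < 5 → t ≠ i → t ≠ j → wn a d t ∈ B) (hb : wn a d i ∉ W) (hc : wn a d j ∉ W)
    (hno : NoFour (insert (wn a d i) B) W)
    (ih : wn a d i ∉ B → wn a d j ∉ B → wn a d i ≠ wn a d j →
      Win n (insert (wn a d i) B) (insert (wn a d j) W)) : Win (n + 1) B W := by
  by_cases hiB : wn a d i ∈ B
  · refine five_win (i := j) (a := a) (d := d) (by omega) hBf hWf hdir ?_ hc
    intro t ht htj
    by_cases hti : t = i
    · subst hti; exact hiB
    · exact hM t ht hti htj
  · by_cases hcc : wn a d j ∈ B ∨ wn a d j = wn a d i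
    · refine ⟨wn a d i, hiB, hb, Or.inl ?_⟩
      refine five_of_wn hdir (a := a) ?_
      intro t ht
      by_cases hti : t = i
      · subst hti; exact Or.inl rfl
      · by_cases htj : t = j
        · subst htj
          rcases hcc with h1 | h1
          · exact Or.inr h1
          · exact Or.inl h1
        · exact Or.inr (hM t ht hti htj)
    · have hjB : wn a d j ∉ B := fun h => hcc (Or.inl h)
      have hji : wn a d j ≠ wn a d i := fun h => hcc (Or.inr h)
      refine ⟨wn a d i, hiB, hb, Or.inr ?_⟩
      intro y hy hyW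
      have hdis' : Disjoint (insert (wn a d i) B) W := by
        rw [Set.disjoint_left]
        intro z hz hzW
        rcases hz with h1 | h1
        · rw [h1] at hzW; exact hb hzW
        · exact Set.disjoint_left.mp hdis h1 hzW
      refine ⟨notFive_of_noFour hno hdis' hy, ?_⟩
      by_cases hyc : y = wn a d j
      · rw [hyc]; exact ih hiB hjB (Ne.symm hji)
      · refine five_win (i := j) (a := a) (d := d) hn (hBf.insert _) (hWf.insert _) hdir ?_ ?_
        · intro t ht htj
          by_cases hti : t = i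
          · subst hti; exact Or.inl rfl
          · exact Or.inr (hM t ht hti htj)
        · intro h1
          rcases h1 with h1 | h1
          · exact hyc h1.symm
          · exact hc h1

/-- cells that are off the board or forbidden in both blocks -/
def Forb (KK : ℕ) : Set Cell := {c | onB c → c ∈ blk 0 KK ∧ c ∈ blk 1 KK}

theorem pess_succ (S0 KK acc n : ℕ) (k : KT) (fuel s S : ℕ) :
    pess S0 KK acc n k (fuel + 1) s S =
      Nat.rec (motive := fun _ => Bool) false
      (fun w _ => Bool.rec (motive := fun _ => Bool) false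
        (Nat.rec (motive := fun _ => Bool)
          (pess S0 KK acc n k fuel (Nat.shiftRight s 24) (Nat.xor S (Sm w)))
          (fun _ _ => pEnd w s S S0 KK acc n k) (Nat.land w 7))
        (Nat.beq (Nat.land S (Chk w)) (Exp w)))
      (Nat.land s 16777215) := rfl

theorem pess_cases {S0 KK acc n : ℕ} {k : KT} {fuel s S : ℕ}
    (h : pess S0 KK acc n k (fuel + 1) s S = true) :
    ∃ w, Nat.beq (Nat.land S (Chk w)) (Exp w) = true ∧
      (pess S0 KK acc n k fuel (Nat.shiftRight s 24) (Nat.xor S (Sm w)) = true ∨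
        pEnd w s S S0 KK acc n k = true) := by
  rw [pess_succ] at h
  generalize Nat.land s 16777215 = u at h
  cases u with
  | zero => exact absurd h (by simp)
  | succ w =>
    refine ⟨w, ?_⟩
    have h' : Bool.rec (motive := fun _ => Bool) false
        (Nat.rec (motive := fun _ => Bool)
          (pess S0 KK acc n k fuel (Nat.shiftRight s 24) (Nat.xor S (Sm w)))
          (fun _ _ => pEnd w s S S0 KK acc n k) (Nat.land w 7))
        (Nat.beq (Nat.land S (Chk w)) (Exp w)) = true := h
    clear h
    generalize hb : Nat.beq (Nat.land S (Chk w)) (Exp w) = b at h'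
    cases b with
    | false => exact absurd h' (by simp)
    | true =>
      refine ⟨rfl, ?_⟩
      have h2 : Nat.rec (motive := fun _ => Bool)
          (pess S0 KK acc n k fuel (Nat.shiftRight s 24) (Nat.xor S (Sm w)))
          (fun _ _ => pEnd w s S S0 KK acc n k) (Nat.land w 7) = true := h'
      generalize Nat.land w 7 = v at h2
      cases v with
      | zero => exact Or.inl h2
      | succ v => exact Or.inr h2

theorem cnd_true {b t e : Bool} (he : e = false) (h : cnd b t e = true) : b = true ∧ t = true := by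
  subst he
  cases b with
  | false => exact absurd h (by simp [cnd])
  | true => exact ⟨rfl, h⟩

theorem pEnd_cases {S0 KK acc n : ℕ} {k : KT} {w s S : ℕ}
    (h : pEnd w s S S0 KK acc n k = true) :
    ∃ w2, Nat.beq (Nat.land (Nat.xor S (Sm w)) (ChkF w2)) (ExpF w2) = true ∧
      Nat.land (Nat.lor (Nat.xor (Nat.xor S (Sm w)) S0) (bw w2)) KK = 0 ∧
      k (Nat.shiftRight s 48) S acc n = true := by
  unfold pEnd at h
  generalize Nat.land (Nat.shiftRight s 24) 16777215 = u at h
  cases u with
  | zero => exact absurd h (by simp)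
  | succ w2 =>
    have h' : pEnd2 w2 s S (Nat.xor S (Sm w)) S0 KK acc n k = true := h
    unfold pEnd2 at h'
    obtain ⟨h1, h2⟩ := cnd_true rfl h'
    obtain ⟨h3, h4⟩ := cnd_true rfl h2
    exact ⟨w2, h1, Nat.eq_of_beq_eq_true h3, h4⟩

theorem bits_of_zero {S1 S0 b KK : ℕ}
    (h : Nat.land (Nat.lor (Nat.xor S1 S0) b) KK = 0) (i : ℕ) (hK : KK.testBit i = true) :
    S1.testBit i = S0.testBit i ∧ b.testBit i = false := by
  have h1 : (((S1 ^^^ S0) ||| b) &&& KK).testBit i = (0 : ℕ).testBit i :=
    congrArg (fun z => Nat.testBit z i) h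
  rw [Nat.testBit_and, Nat.testBit_or, Nat.testBit_xor, hK, Nat.zero_testBit] at h1
  cases h2 : S1.testBit i <;> cases h3 : S0.testBit i <;> cases h4 : b.testBit i <;>
    simp [h2, h3, h4] at h1 ⊢

/-- TARGET 6: meaning of a pessimistic forcing sequence. -/
theorem pess_sound (hS : StepFact) (hF : FiveFact) (S0 KK acc n : ℕ) (k : KT) :
    ∀ (fuel s S : ℕ), pess S0 KK acc n k fuel s S = true →
      blk 0 S0 ⊆ blk 0 S → blk 1 S0 ⊆ blk 1 S →
      ∃ s' Sx Sf, k s' Sx acc n = true ∧ blk 0 S ⊆ blk 0 Sf ∧ blk 1 S ⊆ blk 1 Sf ∧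
        blk 1 S ⊆ blk 1 Sx ∧ blk 1 Sx ⊆ blk 1 Sf ∧
        (∀ c, c ∈ blk 0 KK → c ∈ blk 0 Sf → c ∈ blk 0 S0) ∧
        (∀ c, c ∈ blk 1 KK → c ∈ blk 1 Sf → c ∈ blk 1 S0) ∧
        (∀ B W : Set Cell, B.Finite → W.Finite → Disjoint B W → blk 0 S ⊆ B →
          (∀ c, c ∈ W → c ∈ blk 1 S ∨ c ∈ Forb KK) →
          NoFour B (W ∪ blk 1 Sx) → Win (fuel + 1) B W) := by
  intro fuel
  induction fuel with
  | zero =>
    intro s S h
    exact absurd h (by simp [pess])
  | succ fuel IH =>
    intro s S h h0 h1
    obtain ⟨w, hw, hcase⟩ := pess_cases h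
    obtain ⟨a, d, i, j, hdir, hi, hj, hon, hwin, hi0, hj0, hi1, hj1, hb0, hb1, -, -, -⟩ := hS S w hw
    rcases hcase with hrec | hend
    · have s0 : blk 0 S ⊆ blk 0 (Nat.xor S (Sm w)) := by rw [hb0]; exact Set.subset_insert _ _
      have s1 : blk 1 S ⊆ blk 1 (Nat.xor S (Sm w)) := by rw [hb1]; exact Set.subset_insert _ _
      obtain ⟨s', Sx, Sf, hk, g0, g1, gx, gxf, gK0, gK1, gW⟩ := IH _ _ hrec (h0.trans s0) (h1.trans s1)
      refine ⟨s', Sx, Sf, hk, s0.trans g0, s1.trans g1, s1.trans gx, gxf, gK0, gK1, ?_⟩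
      intro B W hBf hWf hdis hSB hW hno
      have hbW : wn a d i ∉ W := by
        intro hbW
        rcases hW _ hbW with h2 | h2
        · exact hi1 h2
        · obtain ⟨h3, _⟩ := h2 (hon i hi)
          have h4 : wn a d i ∈ blk 0 Sf := g0 (by rw [hb0]; exact Or.inl rfl)
          exact hi0 (h0 (gK0 _ h3 h4))
      have hcW : wn a d j ∉ W := by
        intro hcW
        rcases hW _ hcW with h2 | h2
        · exact hj1 h2
        · obtain ⟨_, h3⟩ := h2 (hon j hj)
          have h4 : wn a d j ∈ blk 1 Sf := g1 (by rw [hb1]; exact Or.inl rfl)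
          exact hj1 (h1 (gK1 _ h3 h4))
      refine step_win (n := fuel + 1) (by omega) hBf hWf hdis hdir
        (fun t ht hti htj => hSB (hwin t ht hti htj)) hbW hcW
        (noFour_mono hno (Set.subset_insert _ _) Set.subset_union_left) ?_
      intro hiB hjB hij
      refine gW _ _ (hBf.insert _) (hWf.insert _) ?_ ?_ ?_ ?_
      · rw [Set.disjoint_left]
        intro z hz hzW
        rcases hz with h2 | h2
        · rcases hzW with h3 | h3
          · exact hij (h2.symm.trans h3)
          · rw [h2] at h3; exact hbW h3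
        · rcases hzW with h3 | h3
          · rw [h3] at h2; exact hjB h2
          · exact Set.disjoint_left.mp hdis h2 h3
      · rw [hb0]; exact Set.insert_subset_insert hSB
      · intro c hc
        rcases hc with h2 | h2
        · left; rw [h2, hb1]; exact Or.inl rfl
        · rcases hW c h2 with h3 | h3
          · exact Or.inl (s1 h3)
          · exact Or.inr h3
      · refine noFour_mono hno (Set.subset_insert _ _) ?_
        intro z hz
        rcases hz with h2 | h2
        · rcases h2 with h3 | h3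
          · right; rw [h3]; exact gx (by rw [hb1]; exact Or.inl rfl)
          · exact Or.inl h3
        · exact Or.inr h2
    · obtain ⟨w2, hw2, hz, hk⟩ := pEnd_cases hend
      obtain ⟨a2, d2, i2, hdir2, hi2, hon2, hwin2, hn0, hn1, hbw⟩ := hF _ w2 hw2
      have s0 : blk 0 S ⊆ blk 0 (Nat.xor S (Sm w)) := by rw [hb0]; exact Set.subset_insert _ _
      have s1 : blk 1 S ⊆ blk 1 (Nat.xor S (Sm w)) := by rw [hb1]; exact Set.subset_insert _ _
      have gK0 : ∀ c, c ∈ blk 0 KK → c ∈ blk 0 (Nat.xor S (Sm w)) → c ∈ blk 0 S0 := by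
        intro c hcK hc
        have := (bits_of_zero hz _ hcK.2).1
        exact ⟨hc.1, by rw [← this]; exact hc.2⟩
      have gK1 : ∀ c, c ∈ blk 1 KK → c ∈ blk 1 (Nat.xor S (Sm w)) → c ∈ blk 1 S0 := by
        intro c hcK hc
        have := (bits_of_zero hz _ hcK.2).1
        exact ⟨hc.1, by rw [← this]; exact hc.2⟩
      refine ⟨_, S, Nat.xor S (Sm w), hk, s0, s1, subset_rfl, s1, gK0, gK1, ?_⟩
      intro B W hBf hWf hdis hSB hW hno
      have hbW : wn a d i ∉ W := by
        intro hbW
        rcases hW _ hbW with h2 | h2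
        · exact hi1 h2
        · obtain ⟨h3, _⟩ := h2 (hon i hi)
          have h4 : wn a d i ∈ blk 0 (Nat.xor S (Sm w)) := by rw [hb0]; exact Or.inl rfl
          exact hi0 (h0 (gK0 _ h3 h4))
      have hcW : wn a d j ∉ W := by
        intro hcW
        rcases hW _ hcW with h2 | h2
        · exact hj1 h2
        · obtain ⟨_, h3⟩ := h2 (hon j hj)
          have h4 : wn a d j ∈ blk 1 (Nat.xor S (Sm w)) := by rw [hb1]; exact Or.inl rfl
          exact hj1 (h1 (gK1 _ h3 h4))
      refine step_win (n := fuel + 1) (by omega) hBf hWf hdis hdir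
        (fun t ht hti htj => hSB (hwin t ht hti htj)) hbW hcW
        (noFour_mono hno (Set.subset_insert _ _) Set.subset_union_left) ?_
      intro hiB hjB hij
      refine five_win (i := i2) (a := a2) (d := d2) (by omega) (hBf.insert _) (hWf.insert _)
        hdir2 ?_ ?_
      · intro t ht hti
        have h2 := hwin2 t ht hti
        rw [hb0] at h2
        exact Set.insert_subset_insert hSB h2
      · intro h2
        rw [hb1] at hn1
        rcases h2 with h3 | h3
        · exact hn1 (Or.inl h3)
        · rcases hW _ h3 with h4 | h4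
          · exact hn1 (Or.inr h4)
          · obtain ⟨h5, _⟩ := h4 (hon2 i2 hi2)
            have h6 := (bits_of_zero hz _ h5.2).2
            rw [hbw.2] at h6
            exact absurd h6 (by simp)

end W8

end Pool.Agent.Helper225.G
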